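import Pool.Agent.H.MP_b3c6db_nt.WI5

/-!
Prime number theorem in arithmetic progressions from Wiener-Ikehara.
-/

open MeasureTheory Set Filter Topology

namespace B3WI

open ArithmeticFunction.vonMangoldt

variable {q : ℕ}

/-- psi(x; q, a) -/
noncomputable def psiq (a : ZMod q) (x : ℝ) : ℝ := ∑ k ∈ Finset.Icc 1 ⌊x⌋₊, residueClass a k

lemma psiq_nonneg (a : ZMod q) (x : ℝ) : 0 ≤ psiq a x :=
  Finset.sum_nonneg fun k _ => residueClass_nonneg a k

lemma psiq_mono (a : ZMod q) : Monotone (psiq a) := by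
  intro x y hxy
  refine Finset.sum_le_sum_of_subset_of_nonneg ?_ fun k _ _ => residueClass_nonneg a k
  exact Finset.Icc_subset_Icc_right (Nat.floor_le_floor hxy)

lemma psiq_le (a : ZMod q) {x : ℝ} (hx : 0 ≤ x) : psiq a x ≤ (Real.log 4 + 4) * x := by
  refine le_trans ?_ (Chebyshev.psi_le_const_mul_self hx)
  rw [Chebyshev.psi]
  refine Finset.sum_le_sum fun k _ => residueClass_le a k

/-- the normalized function -/
noncomputable def BB (a : ZMod q) (u : ℝ) : ℝ := psiq a (Real.exp u) * Real.exp (-u)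

lemma BB_transform [NeZero q] {a : ZMod q} (ha : IsUnit a) {s : ℂ} (hs : 0 < s.re) :
    ∫ u in Ioi (0 : ℝ), (BB a u : ℂ) * Complex.exp (-s * u)
      = ((q.totient : ℝ)⁻¹ : ℝ) / s +
        (LFunctionResidueClassAux a (1 + s) - ((q.totient : ℝ)⁻¹ : ℝ)) / (1 + s) := by
  have h1s : 1 < (1 + s).re := by
    rw [Complex.add_re, Complex.one_re]; linarith
  have hO : (fun n : ℕ => ∑ k ∈ Finset.Icc 1 n, residueClass a k) =O[atTop] fun n => (n : ℝ) ^ (1 : ℝ) := by
    refine Asymptotics.IsBigO.of_bound (Real.log 4 + 4) (Eventually.of_forall fun n => ?_)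
    have h := psiq_le a (Nat.cast_nonneg (α := ℝ) n)
    unfold psiq at h
    rw [Nat.floor_natCast] at h
    rw [Real.rpow_one, Real.norm_of_nonneg (Finset.sum_nonneg fun k _ => residueClass_nonneg a k),
      Real.norm_of_nonneg (Nat.cast_nonneg n)]
    exact h
  have h2 := LSeries_eq_mul_integral_of_nonneg (residueClass a) zero_le_one h1s hO
    (residueClass_nonneg a)
  have h3 := eqOn_LFunctionResidueClassAux ha (show (1 + s) ∈ {s : ℂ | 1 < s.re} from h1s)
  simp only at h3
  have h4 : Real.exp '' Ioi (0 : ℝ) = Ioi 1 := by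
    ext t
    constructor
    · rintro ⟨u, hu, rfl⟩
      exact Real.one_lt_exp_iff.2 hu
    · intro ht
      have ht' : (1 : ℝ) < t := ht
      exact ⟨Real.log t, Real.log_pos ht', Real.exp_log (by linarith)⟩
  have h5 := integral_image_eq_integral_abs_deriv_smul (s := Ioi (0 : ℝ)) measurableSet_Ioi
    (f := Real.exp) (f' := Real.exp) (fun x _ => (Real.hasDerivAt_exp x).hasDerivWithinAt)
    Real.exp_injective.injOn
    (fun t : ℝ => (∑ k ∈ Finset.Icc 1 ⌊t⌋₊, (residueClass a k : ℂ)) * (t : ℂ) ^ (-((1 + s) + 1)))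
  rw [h4] at h5
  have h6 : ∫ u in Ioi (0 : ℝ), (BB a u : ℂ) * Complex.exp (-s * u)
      = ∫ t in Ioi (1 : ℝ), (∑ k ∈ Finset.Icc 1 ⌊t⌋₊, (residueClass a k : ℂ)) * (t : ℂ) ^ (-((1 + s) + 1)) := by
    rw [h5]
    refine integral_congr_ae (Eventually.of_forall fun u => ?_)
    simp only [BB, psiq]
    rw [abs_of_pos (Real.exp_pos u), Complex.real_smul]
    have e1 : ((Real.exp u : ℝ) : ℂ) ^ (-((1 + s) + 1)) = Complex.exp (-((1 + s) + 1) * u) := by
      have hne : ((Real.exp u : ℝ) : ℂ) ≠ 0 := by exact_mod_cast (Real.exp_pos u).ne'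
      rw [Complex.cpow_def_of_ne_zero hne, ← Complex.ofReal_log (Real.exp_pos u).le, Real.log_exp]
      congr 1; ring
    rw [e1]
    push_cast
    rw [show Complex.exp (-((1 + s) + 1) * u) = Complex.exp (-s * u) * Complex.exp (-u) * Complex.exp (-u) by
      rw [← Complex.exp_add, ← Complex.exp_add]; congr 1; ring]
    have e2 : Complex.exp (u : ℂ) * Complex.exp (-u) = 1 := by
      rw [← Complex.exp_add, add_neg_cancel, Complex.exp_zero]
    linear_combination (-(∑ k ∈ Finset.Icc 1 ⌊Real.exp u⌋₊, (residueClass a k : ℂ)) *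
      Complex.exp (-s * u) * Complex.exp (-u)) * e2
  have hs0 : s ≠ 0 := by
    intro h; rw [h] at hs; simp at hs
  have hs1 : 1 + s ≠ 0 := by
    intro h; rw [h] at h1s; simp at h1s; linarith
  rw [h6, eq_comm, ← mul_right_inj' hs1, ← h2]
  rw [h3]
  have e3 : (1 + s - 1) = s := by ring
  rw [e3]
  push_cast
  field_simp
  ring

theorem tendsto_BB [NeZero q] {a : ZMod q} (ha : IsUnit a) :
    Tendsto (BB a) atTop (𝓝 ((q.totient : ℝ)⁻¹)) := by
  refine wiener_ikehara (C := Real.log 4 + 4)
    (G := fun s => (LFunctionResidueClassAux a (1 + s) - ((q.totient : ℝ)⁻¹ : ℝ)) / (1 + s))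
    ?_ ?_ ?_ ?_ ?_ ?_
  · unfold BB
    exact ((psiq_mono a).measurable.comp Real.measurable_exp).mul
      (Real.measurable_exp.comp measurable_neg)
  · exact fun u => mul_nonneg (psiq_nonneg a _) (Real.exp_pos _).le
  · intro u
    unfold BB
    have h := mul_le_mul_of_nonneg_right (psiq_le a (Real.exp_pos u).le) (Real.exp_pos (-u)).le
    rwa [mul_assoc, ← Real.exp_add, add_neg_cancel, Real.exp_zero, mul_one] at h
  · intro u d hd
    unfold BB
    rw [mul_assoc, ← Real.exp_add, show -u + -d = -(u + d) by ring]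
    refine mul_le_mul_of_nonneg_right (psiq_mono a ?_) (Real.exp_pos _).le
    rw [Real.exp_le_exp]; linarith
  · refine ContinuousOn.div (ContinuousOn.sub ?_ continuousOn_const) (by fun_prop) ?_
    · refine (continuousOn_LFunctionResidueClassAux a).comp (by fun_prop) ?_
      intro s hs
      simp only [mem_ofPred_eq] at hs ⊢
      rw [Complex.add_re, Complex.one_re]; linarith
    · intro s hs h
      simp only [mem_ofPred_eq] at hs
      have : (1 + s).re = 0 := by rw [h]; simp
      rw [Complex.add_re, Complex.one_re] at this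
      linarith
  · exact fun s hs => BB_transform ha hs

/-- PNT for arithmetic progressions, psi version. -/
theorem psiq_asymp [NeZero q] {a : ZMod q} (ha : IsUnit a) :
    Tendsto (fun x : ℝ => psiq a x / x) atTop (𝓝 ((q.totient : ℝ)⁻¹)) := by
  have h := (tendsto_BB ha).comp Real.tendsto_log_atTop
  refine h.congr' ?_
  filter_upwards [eventually_gt_atTop 0] with x hx
  simp only [Function.comp, BB]
  rw [Real.exp_log hx, Real.exp_neg, Real.exp_log hx, div_eq_mul_inv]

/-- theta(x; q, a) -/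
noncomputable def thetaq (a : ZMod q) (x : ℝ) : ℝ :=
  ∑ k ∈ Finset.Icc 1 ⌊x⌋₊, if k.Prime ∧ (k : ZMod q) = a then Real.log k else 0

lemma thetaq_le_psiq (a : ZMod q) (x : ℝ) : thetaq a x ≤ psiq a x := by
  refine Finset.sum_le_sum fun k _ => ?_
  split_ifs with h
  · rw [residueClass, Set.indicator_of_mem (by exact h.2), ArithmeticFunction.vonMangoldt_apply_prime h.1]
  · exact residueClass_nonneg a k

lemma psiq_sub_thetaq (a : ZMod q) (x : ℝ) :
    psiq a x - thetaq a x ≤ Chebyshev.psi x - Chebyshev.theta x := by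
  rw [Chebyshev.psi_sub_theta_eq_sum_not_prime]
  unfold psiq thetaq
  rw [← Finset.sum_sub_distrib, Finset.sum_filter]
  refine Finset.sum_le_sum fun k _ => ?_
  by_cases hp : k.Prime
  · simp only [hp, not_true_eq_false, if_false, true_and]
    by_cases hk : (k : ZMod q) = a
    · rw [if_pos hk, residueClass, Set.indicator_of_mem (by exact hk),
        ArithmeticFunction.vonMangoldt_apply_prime hp, sub_self]
    · rw [if_neg hk, residueClass, Set.indicator_of_notMem (by exact hk), sub_self]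
  · simp only [hp, not_false_eq_true, if_true, false_and, if_false, sub_zero]
    exact residueClass_le a k

/-- PNT for arithmetic progressions, theta version. -/
theorem thetaq_asymp [NeZero q] {a : ZMod q} (ha : IsUnit a) :
    Tendsto (fun x : ℝ => thetaq a x / x) atTop (𝓝 ((q.totient : ℝ)⁻¹)) := by
  have h1 : Tendsto (fun x : ℝ => (psiq a x - thetaq a x) / x) atTop (𝓝 0) := by
    have h2 : Tendsto (fun x : ℝ => 2 * (Real.log x / x ^ (1 / 2 : ℝ))) atTop (𝓝 (2 * 0)) :=
      (isLittleO_log_rpow_atTop (by norm_num)).tendsto_div_nhds_zero.const_mul 2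
    rw [mul_zero] at h2
    refine squeeze_zero' ?_ ?_ h2
    · filter_upwards [eventually_gt_atTop 0] with x hx
      exact div_nonneg (sub_nonneg.2 (thetaq_le_psiq a x)) hx.le
    · filter_upwards [eventually_ge_atTop 1] with x hx
      have hx0 : 0 < x := by linarith
      have h3 := (psiq_sub_thetaq a x).trans (Chebyshev.psi_sub_theta_le hx)
      rw [div_le_iff₀ hx0]
      refine h3.trans (le_of_eq ?_)
      rw [Real.sqrt_eq_rpow]
      have h4 : x = x ^ (1 / 2 : ℝ) * x ^ (1 / 2 : ℝ) := by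
        rw [← Real.rpow_add hx0]; norm_num
      have h5 : x ^ (1 / 2 : ℝ) ≠ 0 := (Real.rpow_pos_of_pos hx0 _).ne'
      calc 2 * x ^ (1 / 2 : ℝ) * Real.log x
          = 2 * (Real.log x / x ^ (1 / 2 : ℝ)) * (x ^ (1 / 2 : ℝ) * x ^ (1 / 2 : ℝ)) := by
            field_simp
        _ = _ := by rw [← h4]
  have h6 := (psiq_asymp ha).sub h1
  rw [sub_zero] at h6
  refine h6.congr fun x => ?_
  ring

end B3WI
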