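import Pool.Agent.H.MP_b3c6db_nt.LocalTail

/-! The local theorem. -/

namespace Pool.Agent.H.MP_b3c6db_nt

open Finset Complex

/-- the exponents `σ_i`. -/
noncomputable def sigI (y : ℝ) (i : ℕ) : ℝ := (1 / 2) ^ i / Real.log y

/-- the weights `A(v)`. -/
noncomputable def Awt (y s κ : ℝ) (I : ℕ) (v : ℕ) : ℝ :=
  ∑ i ∈ range (I + 1), Real.exp (-(κ * i)) * Arho (rhoF y s (sigI y i)) v

lemma sum_exp_le_two (κ : ℝ) (hκ : 1 ≤ κ) (I : ℕ) :
    ∑ i ∈ range (I + 1), Real.exp (-(κ * i)) ≤ 2 := by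
  have h1 : ∀ i ∈ range (I + 1), Real.exp (-(κ * i)) ≤ (1 / 2 : ℝ) ^ i := by
    intro i _
    have h2 : Real.exp (-(κ * i)) ≤ Real.exp (-(1 : ℝ)) ^ i := by
      rw [← Real.exp_nat_mul]
      apply Real.exp_le_exp.mpr
      have : (0 : ℝ) ≤ i := Nat.cast_nonneg i
      nlinarith
    refine h2.trans ?_
    apply pow_le_pow_left₀ (Real.exp_pos _).le
    have := exp_neg_le_half 1 (by norm_num) le_rfl
    linarith
  refine (sum_le_sum h1).trans ?_
  have h3 : ∀ n : ℕ, ∑ i ∈ range n, (1 / 2 : ℝ) ^ i ≤ 2 := by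
    intro n
    have := geom_sum_eq (show (1 / 2 : ℝ) ≠ 1 by norm_num) n
    rw [this]
    have h4 : (0 : ℝ) < (1 / 2) ^ n := by positivity
    rw [div_le_iff_of_neg (by norm_num)]
    linarith
  exact h3 _

lemma Awt_nonneg (y s κ : ℝ) (I : ℕ) (v : ℕ) : 0 ≤ Awt y s κ I v := by
  unfold Awt
  apply sum_nonneg
  intro i _
  exact mul_nonneg (Real.exp_pos _).le (Arho_nonneg _ (rhoF_nonneg _ _ _) _)

lemma sigI_nonneg (y : ℝ) (hy : 1 ≤ y) (i : ℕ) : 0 ≤ sigI y i := by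
  unfold sigI
  have := Real.log_nonneg hy
  positivity

lemma Awt_le_two (y s κ : ℝ) (I : ℕ) (v : ℕ) (hy : 1 ≤ y) (hs : 0 ≤ s) (hκ : 1 ≤ κ) :
    Awt y s κ I v ≤ 2 := by
  refine le_trans ?_ (sum_exp_le_two κ hκ I)
  unfold Awt
  apply sum_le_sum
  intro i _
  have h1 := Arho_le_one (rhoF y s (sigI y i)) (rhoF_nonneg _ _ _)
    (fun p hp => rhoF_le_one y s _ hs (sigI_nonneg y hy i) p hp) v
  have h2 := Real.exp_pos (-(κ * i))
  nlinarith

lemma Awt_one (y s κ : ℝ) (I : ℕ) : 1 ≤ Awt y s κ I 1 := by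
  unfold Awt
  simp only [Arho_one, mul_one]
  have h1 : Real.exp (-(κ * ((0 : ℕ) : ℝ))) ≤ ∑ i ∈ range (I + 1), Real.exp (-(κ * (i : ℝ))) := by
    apply Finset.single_le_sum (f := fun i : ℕ => Real.exp (-(κ * (i : ℝ))))
    · intro i _
      exact (Real.exp_pos _).le
    · exact mem_range.mpr (by omega)
  simpa using h1

theorem local_theorem (r : ℚ) (y s κ : ℝ) (I D : ℕ) (ω : ℂ) (hD : 1 ≤ D)
    (hy : 28224 ≤ y) (hs0 : 0 ≤ s) (hs : s ≤ 1 / 4) (hsy : s * Real.log y ≤ 1 / 20)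
    (hssy : 400 * s * Real.sqrt y ≤ 1) (hbig : 40 ≤ s * Real.sqrt y * Real.log y)
    (hsI : s ≤ sigI y I) (hκ1 : 1 ≤ κ) (hκ : (κ + 2) * (21 / Real.sqrt y) ≤ 1 / 25)
    (hω1 : |ω.im| ≤ Real.pi / 4) (hω2 : ω.re ≤ 0) :
    -(2 * Real.exp (-(κ * I)) + 2 * ((D : ℝ) ^ (-(s / 2)) * Real.exp (20 * Real.sqrt y))) ≤
      (Complex.exp ω * ∑ v ∈ Icc 1 D, ((Awt y s κ I v : ℝ) : ℂ) * Dlt v r).re := by
  classical
  have hy0 : 0 < y := by linarith
  have hsqy : 168 ≤ Real.sqrt y := by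
    apply Real.le_sqrt_of_sq_le
    norm_num
    exact hy
  have hsqy0 : 0 < Real.sqrt y := by linarith
  have hlogy : 4 ≤ Real.log y := by
    by_contra hcon
    push Not at hcon
    have h0 : 0 ≤ s * Real.sqrt y := by positivity
    have h1 : s * Real.sqrt y * Real.log y ≤ s * Real.sqrt y * 4 :=
      mul_le_mul_of_nonneg_left hcon.le h0
    linarith
  have hlogy0 : 0 < Real.log y := by linarith
  have hsig0 : ∀ i, 0 ≤ sigI y i := sigI_nonneg y (by linarith)
  have hhalf : ∀ i : ℕ, (1 / 2 : ℝ) ^ i ≤ 1 := fun i => pow_le_one₀ (by norm_num) (by norm_num)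
  have hsig1 : ∀ i, sigI y i * Real.log y ≤ 1 := by
    intro i
    unfold sigI
    rw [div_mul_cancel₀ _ hlogy0.ne']
    exact hhalf i
  have hsig4 : ∀ i, sigI y i ≤ 1 / 4 := by
    intro i
    unfold sigI
    rw [div_le_iff₀ hlogy0]
    linarith [hhalf i]
  have hsigmono : ∀ i, i ≤ I → s ≤ sigI y i := by
    intro i hi
    refine hsI.trans ?_
    unfold sigI
    apply div_le_div_of_nonneg_right _ hlogy0.le
    exact pow_le_pow_of_le_one (by norm_num) (by norm_num) hi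
  have hE : ∀ i, ∃ Z : ℂ, ∑ v ∈ r.den.divisors,
      Arho (fun p => ((rhoF y s (sigI y i) p : ℝ) : ℂ)) v * Dlt v r =
      Complex.exp (K0f r.den y s - (sigI y i : ℝ) * Lam2 r.den y + Z) ∧
      ‖Z‖ ≤ Real.pi / 24 + 21 / Real.sqrt y * (sigI y i * Lam2 r.den y) := fun i =>
    E_exp r y s (sigI y i) (by linarith) hs0 hs hsy hssy (hsig0 i) (hsig4 i) (hsig1 i)
  choose Z hZ1 hZ2 using hE
  have hmix := mixture (K0f r.den y s) κ (21 / Real.sqrt y) (fun i => sigI y i * Lam2 r.den y) Z ω I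
    (K0f_nonpos _ _ _ hs0) (by positivity)
    (by
      rw [div_le_iff₀ hsqy0]
      linarith)
    hκ (fun i => mul_nonneg (hsig0 i) (Lam2_nonneg _ _))
    (by
      intro i
      unfold sigI
      rw [pow_succ]
      ring) hZ2 hω1 hω2
  -- decomposition of the sum
  have hdec : ∀ i, ∑ v ∈ Icc 1 D, ((Arho (rhoF y s (sigI y i)) v : ℝ) : ℂ) * Dlt v r =
      Complex.exp (K0f r.den y s - (sigI y i : ℝ) * Lam2 r.den y + Z i) -
      ∑ v ∈ r.den.divisors.filter (fun v => D < v),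
        ((Arho (rhoF y s (sigI y i)) v : ℝ) : ℂ) * Dlt v r := by
    intro i
    rw [← hZ1 i, eq_sub_iff_add_eq]
    simp only [Arho_ofReal]
    rw [← Finset.sum_filter_add_sum_filter_not r.den.divisors (fun v => D < v), add_comm]
    congr 1
    symm
    apply Finset.sum_subset
    · intro v hv
      rw [mem_filter, Nat.mem_divisors] at hv
      rw [mem_Icc]
      exact ⟨Nat.pos_of_dvd_of_pos hv.1.1 r.den_pos, not_lt.mp hv.2⟩
    · intro v hv hnv
      rw [mem_Icc] at hv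
      rw [mem_filter, Nat.mem_divisors] at hnv
      have hnd : ¬ v ∣ r.den := by
        intro hd
        exact hnv ⟨⟨hd, r.den_ne_zero⟩, by omega⟩
      rw [Dlt_eq_zero v (by omega) r hnd, mul_zero]
  have htot : ∑ v ∈ Icc 1 D, ((Awt y s κ I v : ℝ) : ℂ) * Dlt v r =
      ∑ i ∈ range (I + 1), Complex.exp (K0f r.den y s - κ * i -
        ((sigI y i * Lam2 r.den y : ℝ) : ℂ) + Z i) -
      ∑ i ∈ range (I + 1), ((Real.exp (-(κ * i)) : ℝ) : ℂ) *
        ∑ v ∈ r.den.divisors.filter (fun v => D < v),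
          ((Arho (rhoF y s (sigI y i)) v : ℝ) : ℂ) * Dlt v r := by
    have h1 : ∑ v ∈ Icc 1 D, ((Awt y s κ I v : ℝ) : ℂ) * Dlt v r =
        ∑ i ∈ range (I + 1), ((Real.exp (-(κ * i)) : ℝ) : ℂ) *
          ∑ v ∈ Icc 1 D, ((Arho (rhoF y s (sigI y i)) v : ℝ) : ℂ) * Dlt v r := by
      simp only [mul_sum]
      rw [sum_comm]
      apply sum_congr rfl
      intro v _
      unfold Awt
      push_cast
      rw [sum_mul]
      apply sum_congr rfl
      intro i _
      ring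
    rw [h1, ← sum_sub_distrib]
    apply sum_congr rfl
    intro i _
    rw [hdec i, mul_sub, Complex.ofReal_exp, ← Complex.exp_add]
    congr 2
    push_cast
    ring
  rw [htot, mul_sub, Complex.sub_re]
  have htail : |(Complex.exp ω * ∑ i ∈ range (I + 1), ((Real.exp (-(κ * i)) : ℝ) : ℂ) *
        ∑ v ∈ r.den.divisors.filter (fun v => D < v),
          ((Arho (rhoF y s (sigI y i)) v : ℝ) : ℂ) * Dlt v r).re| ≤
      2 * ((D : ℝ) ^ (-(s / 2)) * Real.exp (20 * Real.sqrt y)) := by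
    refine (Complex.abs_re_le_norm _).trans ?_
    rw [norm_mul]
    have h2 : ‖Complex.exp ω‖ ≤ 1 := by
      rw [Complex.norm_exp]
      exact Real.exp_le_one_iff.mpr hω2
    have h3 : ‖∑ i ∈ range (I + 1), ((Real.exp (-(κ * i)) : ℝ) : ℂ) *
        ∑ v ∈ r.den.divisors.filter (fun v => D < v),
          ((Arho (rhoF y s (sigI y i)) v : ℝ) : ℂ) * Dlt v r‖ ≤
        2 * ((D : ℝ) ^ (-(s / 2)) * Real.exp (20 * Real.sqrt y)) := by
      refine (norm_sum_le _ _).trans ?_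
      have h4 : ∀ i ∈ range (I + 1), ‖((Real.exp (-(κ * i)) : ℝ) : ℂ) *
          ∑ v ∈ r.den.divisors.filter (fun v => D < v),
          ((Arho (rhoF y s (sigI y i)) v : ℝ) : ℂ) * Dlt v r‖ ≤
          Real.exp (-(κ * i)) * ((D : ℝ) ^ (-(s / 2)) * Real.exp (20 * Real.sqrt y)) := by
        intro i hi
        rw [mem_range] at hi
        rw [norm_mul, Complex.norm_real, Real.norm_eq_abs, abs_of_pos (Real.exp_pos _)]
        apply mul_le_mul_of_nonneg_left _ (Real.exp_pos _).le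
        refine (norm_sum_le _ _).trans ?_
        refine le_trans (le_of_eq ?_) (tail_bound r y s (sigI y i) D hD (by linarith) hs0 hs hbig
          (hsigmono i (by omega)) (hsig4 i))
        apply sum_congr rfl
        intro v _
        rw [norm_mul, Complex.norm_real, Real.norm_eq_abs,
          abs_of_nonneg (Arho_nonneg _ (rhoF_nonneg _ _ _) _)]
      refine (sum_le_sum h4).trans ?_
      rw [← sum_mul]
      apply mul_le_mul_of_nonneg_right (sum_exp_le_two κ hκ1 I)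
      have := Real.exp_pos (20 * Real.sqrt y)
      have := Real.rpow_nonneg (Nat.cast_nonneg (α := ℝ) D) (-(s / 2))
      positivity
    calc ‖Complex.exp ω‖ * _ ≤ 1 * (2 * ((D : ℝ) ^ (-(s / 2)) * Real.exp (20 * Real.sqrt y))) :=
          mul_le_mul h2 h3 (norm_nonneg _) (by norm_num)
      _ = _ := one_mul _
  have h5 := (abs_le.mp htail).2
  linarith

end Pool.Agent.H.MP_b3c6db_nt
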