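import Pool.Agent.H.MP_b3c6db_nt.Theta
import Pool.Agent.H.MP_b3c6db_nt.LocalThm

/-! Passing from the local theorem to all real points. -/

namespace Pool.Agent.H.MP_b3c6db_nt

open Finset Complex ArithmeticFunction

/-- the weighted combination of smoothed quadratic sums. -/
noncomputable def FF (A : ℕ → ℝ) (D : ℕ) (X x : ℝ) : ℂ :=
  ∑ v ∈ Icc 1 D, ((A v : ℝ) : ℂ) * ∑ d ∈ v.divisors, ((moebius (v / d) : ℤ) : ℂ) *
    ((((d : ℝ) / X : ℝ) : ℂ) * Th (X / d) ((d : ℝ) ^ 2 * x))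

lemma norm_moebius_le (n : ℕ) : ‖((moebius n : ℤ) : ℂ)‖ ≤ 1 := by
  rw [Complex.norm_intCast]
  exact_mod_cast abs_moebius_le_one

lemma compare_sum (A : ℕ → ℝ) (hA0 : ∀ v, 0 ≤ A v) (hA2 : ∀ v, A v ≤ 2) (D : ℕ)
    (E G : ℕ → ℂ) (η : ℝ) (hη : 0 ≤ η) (h : ∀ d, 1 ≤ d → d ≤ D → ‖E d - G d‖ ≤ η) :
    ‖∑ v ∈ Icc 1 D, ((A v : ℝ) : ℂ) * ∑ d ∈ v.divisors, ((moebius (v / d) : ℤ) : ℂ) * E d -
      ∑ v ∈ Icc 1 D, ((A v : ℝ) : ℂ) * ∑ d ∈ v.divisors, ((moebius (v / d) : ℤ) : ℂ) * G d‖ ≤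
      2 * (D : ℝ) ^ 2 * η := by
  rw [← sum_sub_distrib]
  have h1 : ∀ v ∈ Icc 1 D, ‖((A v : ℝ) : ℂ) * ∑ d ∈ v.divisors, ((moebius (v / d) : ℤ) : ℂ) * E d -
      ((A v : ℝ) : ℂ) * ∑ d ∈ v.divisors, ((moebius (v / d) : ℤ) : ℂ) * G d‖ ≤ 2 * (D * η) := by
    intro v hv
    rw [mem_Icc] at hv
    rw [← mul_sub, ← sum_sub_distrib, norm_mul, Complex.norm_real, Real.norm_eq_abs,
      abs_of_nonneg (hA0 v)]
    have h2 : ‖∑ d ∈ v.divisors, (((moebius (v / d) : ℤ) : ℂ) * E d -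
        ((moebius (v / d) : ℤ) : ℂ) * G d)‖ ≤ D * η := by
      refine (norm_sum_le _ _).trans ?_
      have h3 : ∀ d ∈ v.divisors, ‖((moebius (v / d) : ℤ) : ℂ) * E d -
        ((moebius (v / d) : ℤ) : ℂ) * G d‖ ≤ η := by
        intro d hd
        rw [Nat.mem_divisors] at hd
        have hd1 : 1 ≤ d := Nat.pos_of_dvd_of_pos hd.1 (by omega)
        have hd2 : d ≤ D := (Nat.le_of_dvd (by omega) hd.1).trans hv.2
        rw [← mul_sub, norm_mul]
        calc _ ≤ 1 * η := mul_le_mul (norm_moebius_le _) (h d hd1 hd2) (norm_nonneg _) (by norm_num)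
          _ = η := one_mul _
      refine (sum_le_sum h3).trans ?_
      rw [sum_const, nsmul_eq_mul]
      apply mul_le_mul_of_nonneg_right _ hη
      have h4 : v.divisors.card ≤ D := (Nat.card_divisors_le_self v).trans hv.2
      exact_mod_cast h4
    exact mul_le_mul (hA2 v) h2 (norm_nonneg _) (by norm_num)
  refine (norm_sum_le _ _).trans ?_
  refine (sum_le_sum h1).trans ?_
  rw [sum_const, nsmul_eq_mul, Nat.card_Icc]
  apply le_of_eq
  have : D + 1 - 1 = D := by omega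
  rw [this]
  ring

lemma Th_scaled (r : ℚ) (β X : ℝ) (d D : ℕ) (hd : 1 ≤ d) (hdD : d ≤ D) (hX : 0 < X)
    (hq : (r.den : ℝ) ≤ X / d) (hβ : |β| * (r.den * (X / d)) ≤ 1) :
    ‖(((d : ℝ) / X : ℝ) : ℂ) * Th (X / d) (r + β) -
      Complex.exp (om (β * (X / d) ^ 2)) * gG r‖ ≤ 7 * Real.sqrt (D / X) := by
  have hd0 : (0 : ℝ) < d := by exact_mod_cast hd
  have hM : 0 < X / d := by positivity
  have h := Th_approx r β (X / d) hM hq hβ
  have h1 : (((d : ℝ) / X : ℝ) : ℂ) * Th (X / d) (r + β) -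
      Complex.exp (om (β * (X / d) ^ 2)) * gG r =
      (((d : ℝ) / X : ℝ) : ℂ) * (Th (X / d) (r + β) -
        ((X / d : ℝ) : ℂ) * Complex.exp (om (β * (X / d) ^ 2)) * gG r) := by
    have hdC : (d : ℂ) ≠ 0 := by exact_mod_cast hd0.ne'
    have hXC : (X : ℂ) ≠ 0 := by exact_mod_cast hX.ne'
    push_cast
    field_simp
  have hpos : 0 < (d : ℝ) / X := by positivity
  rw [h1, norm_mul, Complex.norm_real, Real.norm_eq_abs, abs_of_pos hpos]
  calc (d : ℝ) / X * _ ≤ (d : ℝ) / X * (7 * Real.sqrt (X / d)) :=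
        mul_le_mul_of_nonneg_left h hpos.le
    _ = 7 * Real.sqrt (d / X) := by
        have h2 : Real.sqrt (d / X) * Real.sqrt (X / d) = 1 := by
          rw [← Real.sqrt_mul hpos.le, show (d : ℝ) / X * (X / d) = 1 by field_simp, Real.sqrt_one]
        have h3 : Real.sqrt (d / X) * Real.sqrt (d / X) = d / X := Real.mul_self_sqrt hpos.le
        calc (d : ℝ) / X * (7 * Real.sqrt (X / d)) =
              7 * (Real.sqrt (d / X) * Real.sqrt (d / X)) * Real.sqrt (X / d) := by rw [h3]; ring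
          _ = 7 * Real.sqrt (d / X) * (Real.sqrt (d / X) * Real.sqrt (X / d)) := by ring
          _ = _ := by rw [h2, mul_one]
    _ ≤ 7 * Real.sqrt (D / X) := by
        apply mul_le_mul_of_nonneg_left _ (by norm_num)
        apply Real.sqrt_le_sqrt
        apply div_le_div_of_nonneg_right _ hX.le
        exact_mod_cast hdD

/-- the near-rational case. -/
lemma major_case (A : ℕ → ℝ) (hA0 : ∀ v, 0 ≤ A v) (hA2 : ∀ v, A v ≤ 2) (D : ℕ)
    (X B : ℝ) (hX0 : 0 < X) (hB : 1 ≤ B) (hX : B ^ 2 * (D : ℝ) ^ 3 ≤ X) (r : ℚ) (β : ℝ)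
    (hr : (r.den : ℝ) ≤ B * (D : ℝ) ^ 2) (hβ : |β| * X ^ 2 ≤ B) :
    ‖FF A D X (r + β) - Complex.exp (om (β * X ^ 2)) *
      ∑ v ∈ Icc 1 D, ((A v : ℝ) : ℂ) * Dlt v r‖ ≤ 2 * (D : ℝ) ^ 2 * (7 * Real.sqrt (D / X)) := by
  have h1 := compare_sum A hA0 hA2 D
    (fun d => (((d : ℝ) / X : ℝ) : ℂ) * Th (X / d) ((d : ℝ) ^ 2 * (r + β)))
    (fun d => Complex.exp (om (β * X ^ 2)) * gG ((d : ℚ) ^ 2 * r)) (7 * Real.sqrt (D / X))
    (by positivity) (by
      intro d hd hdD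
      have hd0 : (0 : ℝ) < d := by exact_mod_cast hd
      have hdD' : (d : ℝ) ≤ D := by exact_mod_cast hdD
      have hD0 : (0 : ℝ) < D := by linarith
      have hden : (((d : ℚ) ^ 2 * r).den : ℝ) ≤ B * (D : ℝ) ^ 2 := by
        refine le_trans ?_ hr
        exact_mod_cast Nat.le_of_dvd r.den_pos (den_sq_mul_dvd d r)
      have h2 : B * (D : ℝ) ^ 2 * d ≤ X := by
        calc B * (D : ℝ) ^ 2 * d ≤ B * (D : ℝ) ^ 2 * D := by gcongr
          _ = B * (D : ℝ) ^ 3 := by ring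
          _ ≤ B ^ 2 * (D : ℝ) ^ 3 := by
            apply mul_le_mul_of_nonneg_right _ (by positivity)
            nlinarith
          _ ≤ X := hX
      have h3 := Th_scaled ((d : ℚ) ^ 2 * r) ((d : ℝ) ^ 2 * β) X d D hd hdD hX0
        (by
          rw [le_div_iff₀ hd0]
          calc _ ≤ B * (D : ℝ) ^ 2 * d := mul_le_mul_of_nonneg_right hden hd0.le
            _ ≤ X := h2)
        (by
          rw [abs_mul, abs_of_nonneg (by positivity : (0 : ℝ) ≤ (d : ℝ) ^ 2)]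
          have h4 : |β| ≤ B / X ^ 2 := by
            rw [le_div_iff₀ (by positivity)]
            exact hβ
          calc (d : ℝ) ^ 2 * |β| * ((((d : ℚ) ^ 2 * r).den : ℝ) * (X / d))
              ≤ (d : ℝ) ^ 2 * (B / X ^ 2) * ((B * (D : ℝ) ^ 2) * (X / d)) := by
                gcongr
            _ = B ^ 2 * (D : ℝ) ^ 2 * d / X := by
                field_simp
            _ ≤ B ^ 2 * (D : ℝ) ^ 3 / X := by
                apply div_le_div_of_nonneg_right _ hX0.le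
                calc B ^ 2 * (D : ℝ) ^ 2 * d ≤ B ^ 2 * (D : ℝ) ^ 2 * D := by gcongr
                  _ = _ := by ring
            _ ≤ 1 := by
                rw [div_le_one hX0]
                exact hX)
      have e1 : (((d : ℚ) ^ 2 * r : ℚ) : ℝ) + (d : ℝ) ^ 2 * β = (d : ℝ) ^ 2 * ((r : ℝ) + β) := by
        push_cast
        ring
      have e2 : (d : ℝ) ^ 2 * β * (X / d) ^ 2 = β * X ^ 2 := by
        field_simp
      rw [e1, e2] at h3
      exact h3)
  have e3 : Complex.exp (om (β * X ^ 2)) * ∑ v ∈ Icc 1 D, ((A v : ℝ) : ℂ) * Dlt v r =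
      ∑ v ∈ Icc 1 D, ((A v : ℝ) : ℂ) * ∑ d ∈ v.divisors, ((moebius (v / d) : ℤ) : ℂ) *
        (Complex.exp (om (β * X ^ 2)) * gG ((d : ℚ) ^ 2 * r)) := by
    rw [mul_sum]
    apply sum_congr rfl
    intro v _
    unfold Dlt
    rw [mul_left_comm, mul_sum]
    congr 1
    apply sum_congr rfl
    intro d _
    ring
  rw [e3]
  exact h1

theorem circle (A : ℕ → ℝ) (hA0 : ∀ v, 0 ≤ A v) (hA2 : ∀ v, A v ≤ 2) (D : ℕ) (hD : 1 ≤ D)
    (X B L : ℝ) (hB : 1 ≤ B) (hX : B ^ 2 * (D : ℝ) ^ 3 ≤ X) (hL : 0 ≤ L)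
    (hloc : ∀ (r : ℚ) (ω : ℂ), |ω.im| ≤ Real.pi / 4 → ω.re ≤ 0 →
      -L ≤ (Complex.exp ω * ∑ v ∈ Icc 1 D, ((A v : ℝ) : ℂ) * Dlt v r).re) (x : ℝ) :
    -(L + 2 * (D : ℝ) ^ 2 * (Real.sqrt (2 / B) + 7 * Real.sqrt (D / X))) ≤ (FF A D X x).re := by
  have hD1 : (1 : ℝ) ≤ D := by exact_mod_cast hD
  have hX1 : (D : ℝ) ≤ X := by
    calc (D : ℝ) ≤ 1 * (D : ℝ) ^ 3 := by nlinarith [sq_nonneg ((D : ℝ) - 1)]
      _ ≤ B ^ 2 * (D : ℝ) ^ 3 := by
        apply mul_le_mul_of_nonneg_right _ (by positivity)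
        nlinarith
      _ ≤ X := hX
  have hX0 : 0 < X := by linarith
  by_cases hmaj : ∃ d₀ : ℕ, 1 ≤ d₀ ∧ d₀ ≤ D ∧ ∃ r : ℚ, (r.den : ℝ) ≤ B ∧
      |(d₀ : ℝ) ^ 2 * x - r| * (X / d₀) ^ 2 ≤ B
  · obtain ⟨d₀, hd1, hdD, r₀, hr₀, hβ₀⟩ := hmaj
    have hd0 : (0 : ℝ) < d₀ := by exact_mod_cast hd1
    have hdD' : (d₀ : ℝ) ≤ D := by exact_mod_cast hdD
    set r : ℚ := r₀ / (d₀ : ℚ) ^ 2 with hr
    set β : ℝ := x - r with hβ
    have hx : x = (r : ℝ) + β := by rw [hβ]; ring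
    have hrden : (r.den : ℝ) ≤ B * (D : ℝ) ^ 2 := by
      have h1 : r.den ∣ r₀.den * d₀ ^ 2 := by
        rw [hr, div_eq_mul_inv]
        have h2 := Rat.mul_den_dvd r₀ (((d₀ : ℚ) ^ 2)⁻¹)
        have h3 : (((d₀ : ℚ) ^ 2)⁻¹).den = d₀ ^ 2 := by
          rw [← Nat.cast_pow, Rat.inv_natCast_den_of_pos (pow_pos hd1 _)]
        rwa [h3] at h2
      have h4 : r.den ≤ r₀.den * d₀ ^ 2 :=
        Nat.le_of_dvd (Nat.mul_pos r₀.den_pos (pow_pos hd1 _)) h1
      have h5 : (r.den : ℝ) ≤ (r₀.den : ℝ) * (d₀ : ℝ) ^ 2 := by exact_mod_cast h4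
      refine h5.trans ?_
      gcongr
    have hβ' : |β| * X ^ 2 ≤ B := by
      have h6 : (d₀ : ℝ) ^ 2 * x - r₀ = (d₀ : ℝ) ^ 2 * β := by
        rw [hβ, hr]
        push_cast
        field_simp
      rw [h6, abs_mul, abs_of_nonneg (by positivity : (0 : ℝ) ≤ (d₀ : ℝ) ^ 2)] at hβ₀
      have h7 : (d₀ : ℝ) ^ 2 * |β| * (X / d₀) ^ 2 = |β| * X ^ 2 := by
        field_simp
      rwa [h7] at hβ₀
    have h8 := major_case A hA0 hA2 D X B hX0 hB hX r β hrden hβ'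
    rw [← hx] at h8
    have h9 := hloc r (om (β * X ^ 2)) (om_im _) (om_re _)
    have h10 := (abs_le.mp ((Complex.abs_re_le_norm _).trans h8)).1
    rw [Complex.sub_re] at h10
    have h11 : 0 ≤ 2 * (D : ℝ) ^ 2 * Real.sqrt (2 / B) := by positivity
    linarith
  · push Not at hmaj
    have hE : ∀ d, 1 ≤ d → d ≤ D →
        ‖(((d : ℝ) / X : ℝ) : ℂ) * Th (X / d) ((d : ℝ) ^ 2 * x) - 0‖ ≤
        Real.sqrt (2 / B) + 7 * Real.sqrt (D / X) := by
      intro d hd hdD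
      have hd0 : (0 : ℝ) < d := by exact_mod_cast hd
      have hdD' : (d : ℝ) ≤ D := by exact_mod_cast hdD
      have hM1 : 1 ≤ X / d := by
        rw [le_div_iff₀ hd0]
        linarith
      have hfl : 0 < ⌊X / d⌋₊ := Nat.floor_pos.mpr hM1
      obtain ⟨r, hr1, hr2⟩ := Real.exists_rat_abs_sub_le_and_den_le ((d : ℝ) ^ 2 * x) hfl
      have hden0 : (0 : ℝ) < r.den := by exact_mod_cast r.den_pos
      have hr2' : (r.den : ℝ) ≤ X / d := by
        calc (r.den : ℝ) ≤ (⌊X / d⌋₊ : ℝ) := by exact_mod_cast hr2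
          _ ≤ X / d := Nat.floor_le (by positivity)
      set β : ℝ := (d : ℝ) ^ 2 * x - r with hβ
      have hβ1 : |β| * (r.den * (X / d)) ≤ 1 := by
        have h1 : X / d ≤ (⌊X / d⌋₊ : ℝ) + 1 := (Nat.lt_floor_add_one _).le
        calc |β| * (r.den * (X / d)) ≤ 1 / (((⌊X / d⌋₊ : ℝ) + 1) * r.den) *
              (r.den * ((⌊X / d⌋₊ : ℝ) + 1)) := by
              gcongr
          _ = 1 := by
              field_simp
      have h3 := Th_scaled r β X d D hd hdD hX0 hr2' hβ1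
      have e1 : (r : ℝ) + β = (d : ℝ) ^ 2 * x := by rw [hβ]; ring
      rw [e1] at h3
      rw [sub_zero]
      have h4 : ‖Complex.exp (om (β * (X / d) ^ 2)) * gG r‖ ≤ Real.sqrt (2 / B) := by
        rw [norm_mul]
        by_cases hcase : (r.den : ℝ) ≤ B
        · have h5 := hmaj d hd hdD r hcase
          have h6 : ‖Complex.exp (om (β * (X / d) ^ 2))‖ ≤ Real.sqrt (2 / B) := by
            apply Real.le_sqrt_of_sq_le
            rw [norm_exp_om_sq]
            have h7 : 2 * B ≤ Real.sqrt (1 + 4 * (β * (X / d) ^ 2) ^ 2) := by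
              apply Real.le_sqrt_of_sq_le
              have h8 : B ^ 2 ≤ (|β| * (X / d) ^ 2) ^ 2 := by
                apply pow_le_pow_left₀ (by linarith) h5.le
              have h9 : (|β| * (X / d) ^ 2) ^ 2 = (β * (X / d) ^ 2) ^ 2 := by
                rw [mul_pow, mul_pow, sq_abs]
              rw [h9] at h8
              nlinarith
            calc 1 / Real.sqrt (1 + 4 * (β * (X / d) ^ 2) ^ 2) ≤ 1 / (2 * B) :=
                  one_div_le_one_div_of_le (by linarith) h7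
              _ ≤ 2 / B := by
                  rw [div_le_div_iff₀ (by linarith) (by linarith)]
                  linarith
          calc _ ≤ Real.sqrt (2 / B) * 1 :=
                mul_le_mul h6 (norm_gG_le_one r) (norm_nonneg _) (Real.sqrt_nonneg _)
            _ = _ := mul_one _
        · have h5 : ‖Complex.exp (om (β * (X / d) ^ 2))‖ ≤ 1 := by
            rw [Complex.norm_exp]
            exact Real.exp_le_one_iff.mpr (om_re _)
          have h6 : ‖gG r‖ ≤ Real.sqrt (2 / B) := by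
            refine (norm_gG_le r).trans ?_
            apply Real.sqrt_le_sqrt
            apply div_le_div_of_nonneg_left (by norm_num) (by linarith)
            exact (not_le.mp hcase).le
          calc _ ≤ 1 * Real.sqrt (2 / B) := mul_le_mul h5 h6 (norm_nonneg _) (by norm_num)
            _ = _ := one_mul _
      have h10 := norm_add_le ((((d : ℝ) / X : ℝ) : ℂ) * Th (X / d) ((d : ℝ) ^ 2 * x) -
        Complex.exp (om (β * (X / d) ^ 2)) * gG r) (Complex.exp (om (β * (X / d) ^ 2)) * gG r)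
      rw [sub_add_cancel] at h10
      linarith
    have h1 := compare_sum A hA0 hA2 D
      (fun d => (((d : ℝ) / X : ℝ) : ℂ) * Th (X / d) ((d : ℝ) ^ 2 * x)) (fun _ => 0)
      (Real.sqrt (2 / B) + 7 * Real.sqrt (D / X)) (by positivity) hE
    have h2 : ∑ v ∈ Icc 1 D, ((A v : ℝ) : ℂ) * ∑ d ∈ v.divisors,
        ((moebius (v / d) : ℤ) : ℂ) * (0 : ℂ) = 0 := by simp
    rw [h2, sub_zero] at h1
    have h3 := (abs_le.mp ((Complex.abs_re_le_norm _).trans h1)).1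
    unfold FF
    linarith

end Pool.Agent.H.MP_b3c6db_nt
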