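import Pool.Agent.H.MP_b3c6db_nt.Wedge

/-! Product over a finite set of primes. -/

namespace Pool.Agent.H.MP_b3c6db_nt

open Complex Finset

/-- `λ_S(k) = ∑_{p ∈ S} 2^{-v_p(k)}`, and `0` at `k = 0`. -/
noncomputable def lam (S : Finset ℕ) (k : ℕ) : ℝ :=
  if k = 0 then 0 else ∑ p ∈ S, (1 / 2 : ℝ) ^ (padicValNat p k)

/-- twisted coefficients. -/
noncomputable def tw (S : Finset ℕ) (c : ℕ → ℝ) (τ : ℂ) (k : ℕ) : ℂ :=
  (c k : ℂ) * Complex.exp (-(τ * (lam S k : ℂ)))

lemma tw_insert (S : Finset ℕ) (p : ℕ) (hp : p ∉ S) (c : ℕ → ℝ) (τ : ℂ) :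
    tw (insert p S) c τ = hmul p (tw S c τ) (zlev τ) := by
  funext k
  unfold tw hmul lam zlev
  by_cases hk : k = 0
  · subst hk
    simp
  · simp only [if_neg hk, sum_insert hp]
    rw [mul_assoc, ← Complex.exp_add]
    congr 2
    have h2 : τ / 2 ^ padicValNat p k = τ * (1 / 2) ^ padicValNat p k := by
      rw [one_div, inv_pow, div_eq_mul_inv]
    rw [h2]
    push_cast
    ring

theorem prod_op (H : ℕ) (c : ℕ → ℝ) (hc : ∀ x, 0 ≤ P H (fun k => (c k : ℂ)) x)
    (y : ℝ) (τ : ℂ) (h0 : 0 < τ.re) (hw : 4 * Real.sqrt y * |τ.im| ≤ τ.re)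
    (S : Finset ℕ) (hS : ∀ p ∈ S, p.Prime ∧ p % 4 = 3 ∧ (p : ℝ) ≤ y) :
    ∀ x, Real.exp (-(3 / 2 * τ.re)) ^ S.card * P H (fun k => (c k : ℂ)) x ≤ P H (tw S c τ) x := by
  classical
  induction S using Finset.induction_on with
  | empty =>
    intro x
    have h1 : tw ∅ c τ = fun k => (c k : ℂ) := by
      funext k
      unfold tw lam
      split_ifs <;> simp
    rw [h1]
    simp
  | insert p S hpS ih =>
    have ih' := ih (fun q hq => hS q (mem_insert_of_mem hq))
    obtain ⟨hp1, hp2, hp3⟩ := hS p (mem_insert_self p S)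
    haveI : Fact p.Prime := ⟨hp1⟩
    have hw' : 4 * Real.sqrt p * |τ.im| ≤ τ.re := by
      refine le_trans ?_ hw
      gcongr
    obtain ⟨M, hM1, hM2, hM3, hM4⟩ := exists_M p hp1.two_le (H + 1) τ h0 hw'
    intro x
    rw [tw_insert S p hpS, card_insert_of_notMem hpS, pow_succ]
    have hnn : ∀ x, 0 ≤ P H (tw S c τ) x := by
      intro x
      refine le_trans ?_ (ih' x)
      apply mul_nonneg _ (hc x)
      positivity
    have h1 := local_op p hp2 H (H + 1) (zlev τ) M hM1 hM2 hM3 (by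
      intro k hk hk0
      have h2 : p ^ (padicValNat p k) ∣ k := pow_padicValNat_dvd
      have h3 : p ^ (padicValNat p k) ≤ k := Nat.le_of_dvd (Nat.pos_of_ne_zero hk0) h2
      have h4 : padicValNat p k < p ^ (padicValNat p k) := Nat.lt_pow_self hp1.one_lt
      omega) (tw S c τ) hnn x
    refine le_trans ?_ h1
    have h5 := mul_le_mul hM4 (ih' x) (mul_nonneg (by positivity) (hc x))
      ((Real.exp_pos _).le.trans hM4)
    calc _ = Real.exp (-(3 / 2 * τ.re)) * (Real.exp (-(3 / 2 * τ.re)) ^ S.card *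
          P H (fun k => (c k : ℂ)) x) := by ring
      _ ≤ _ := h5

end Pool.Agent.H.MP_b3c6db_nt
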