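import Pool.Agent.H.MP_b3c6db_nt.Defs
import Pool.Agent.H.MP_b3c6db_nt.Product

/-! Basic facts on admissible coefficient sequences. -/

namespace Pool.Agent.H.MP_b3c6db_nt

open Finset intervalIntegral

lemma int_cos (m : ℤ) :
    ∫ x in (0 : ℝ)..1, Real.cos (2 * Real.pi * m * x) = if m = 0 then 1 else 0 := by
  split_ifs with h
  · subst h
    simp
  · have hm : (2 * Real.pi * (m : ℝ)) ≠ 0 := by
      have : (m : ℝ) ≠ 0 := by exact_mod_cast h
      positivity
    rw [intervalIntegral.integral_comp_mul_left (fun x => Real.cos x) hm, integral_cos]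
    have h1 : Real.sin (2 * Real.pi * m * 1) = 0 := by
      have : 2 * Real.pi * (m : ℝ) * 1 = ((2 * m : ℤ) : ℝ) * Real.pi := by push_cast; ring
      rw [this, Real.sin_int_mul_pi]
    rw [h1]
    simp

lemma cosPoly_eq_sum (H : ℕ) (c : ℕ → ℝ) (x : ℝ) :
    cosPoly H c x = ∑ k ∈ range (H + 1), c k * Real.cos (2 * Real.pi * (k : ℝ) ^ 2 * x) := by
  unfold cosPoly
  rw [Finset.range_eq_Ico, Finset.sum_eq_sum_Ico_succ_bot (by omega)]
  congr 1
  · simp

lemma cosPoly_eq_P (H : ℕ) (c : ℕ → ℝ) (x : ℝ) :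
    cosPoly H c x = P H (fun k => (c k : ℂ)) x := by
  rw [cosPoly_eq_sum]
  unfold P
  apply sum_congr rfl
  intro k _
  rw [Complex.re_ofReal_mul, ex_re]
  congr 2
  ring

lemma cosPoly_cont (H : ℕ) (c : ℕ → ℝ) : Continuous (cosPoly H c) := by
  unfold cosPoly
  fun_prop

lemma int_cosPoly (H : ℕ) (c : ℕ → ℝ) : ∫ x in (0 : ℝ)..1, cosPoly H c x = c 0 := by
  simp_rw [cosPoly_eq_sum]
  rw [intervalIntegral.integral_finsetSum]
  · have h1 : ∀ k ∈ range (H + 1), (∫ x in (0 : ℝ)..1, c k * Real.cos (2 * Real.pi * (k : ℝ) ^ 2 * x))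
        = if k = 0 then c 0 else 0 := by
      intro k _
      rw [intervalIntegral.integral_const_mul]
      have := int_cos ((k : ℤ) ^ 2)
      push_cast at this
      rw [this]
      by_cases hk : k = 0
      · subst hk; simp
      · simp [hk]
    rw [sum_congr rfl h1]
    simp
  · intro k _
    apply Continuous.intervalIntegrable
    fun_prop

lemma int_cosPoly_mul (H : ℕ) (c : ℕ → ℝ) (m : ℕ) (hm : m ≠ 0) (hmH : m ≤ H) :
    ∫ x in (0 : ℝ)..1, cosPoly H c x * Real.cos (2 * Real.pi * (m : ℝ) ^ 2 * x) = c m / 2 := by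
  simp_rw [cosPoly_eq_sum, sum_mul]
  rw [intervalIntegral.integral_finsetSum]
  · have h1 : ∀ k ∈ range (H + 1), (∫ x in (0 : ℝ)..1,
        c k * Real.cos (2 * Real.pi * (k : ℝ) ^ 2 * x) * Real.cos (2 * Real.pi * (m : ℝ) ^ 2 * x))
        = if k = m then c m / 2 else 0 := by
      intro k _
      have h2 : ∀ x : ℝ, c k * Real.cos (2 * Real.pi * (k : ℝ) ^ 2 * x) *
          Real.cos (2 * Real.pi * (m : ℝ) ^ 2 * x) =
          c k / 2 * (Real.cos (2 * Real.pi * (((k : ℤ) ^ 2 + (m : ℤ) ^ 2 : ℤ) : ℝ) * x) +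
            Real.cos (2 * Real.pi * (((k : ℤ) ^ 2 - (m : ℤ) ^ 2 : ℤ) : ℝ) * x)) := by
        intro x
        have h3 := Real.cos_add (2 * Real.pi * (k : ℝ) ^ 2 * x) (2 * Real.pi * (m : ℝ) ^ 2 * x)
        have h4 := Real.cos_sub (2 * Real.pi * (k : ℝ) ^ 2 * x) (2 * Real.pi * (m : ℝ) ^ 2 * x)
        have h5 : 2 * Real.pi * (((k : ℤ) ^ 2 + (m : ℤ) ^ 2 : ℤ) : ℝ) * x =
          2 * Real.pi * (k : ℝ) ^ 2 * x + 2 * Real.pi * (m : ℝ) ^ 2 * x := by push_cast; ring
        have h6 : 2 * Real.pi * (((k : ℤ) ^ 2 - (m : ℤ) ^ 2 : ℤ) : ℝ) * x =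
          2 * Real.pi * (k : ℝ) ^ 2 * x - 2 * Real.pi * (m : ℝ) ^ 2 * x := by push_cast; ring
        rw [h5, h6, h3, h4]
        ring
      simp_rw [h2]
      rw [intervalIntegral.integral_const_mul, intervalIntegral.integral_add, int_cos, int_cos]
      · have h7 : ((k : ℤ) ^ 2 + (m : ℤ) ^ 2) ≠ 0 := by
          have : (0 : ℤ) < (m : ℤ) ^ 2 := by positivity
          have : (0 : ℤ) ≤ (k : ℤ) ^ 2 := by positivity
          omega
        rw [if_neg h7]
        by_cases hkm : k = m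
        · subst hkm
          simp
        · rw [if_neg hkm]
          have h8 : ((k : ℤ) ^ 2 - (m : ℤ) ^ 2) ≠ 0 := by
            intro h
            apply hkm
            have h9 : (k : ℤ) ^ 2 = (m : ℤ) ^ 2 := by linarith
            have h10 : k ^ 2 = m ^ 2 := by exact_mod_cast h9
            exact Nat.pow_left_injective (by norm_num : 2 ≠ 0) h10
          rw [if_neg h8]
          simp
      · apply Continuous.intervalIntegrable
        fun_prop
      · apply Continuous.intervalIntegrable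
        fun_prop
    rw [sum_congr rfl h1]
    rw [Finset.sum_ite_eq' (range (H + 1)) m]
    rw [if_pos (mem_range.mpr (by omega))]
  · intro k _
    apply Continuous.intervalIntegrable
    fun_prop

lemma coeff_bound (H : ℕ) (c : ℕ → ℝ) (hc : ∀ x, 0 ≤ cosPoly H c x) (m : ℕ) (hm : m ≠ 0)
    (hmH : m ≤ H) : |c m| ≤ 2 * c 0 := by
  have key : ∀ ε : ℝ, |ε| = 1 → 0 ≤ c 0 + ε * (c m / 2) := by
    intro ε hε
    rw [← int_cosPoly H c, ← int_cosPoly_mul H c m hm hmH,
      ← intervalIntegral.integral_const_mul, ← intervalIntegral.integral_add]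
    · apply intervalIntegral.integral_nonneg (by norm_num)
      intro x _
      have h1 : |Real.cos (2 * Real.pi * (m : ℝ) ^ 2 * x)| ≤ 1 := Real.abs_cos_le_one _
      have h2 : |ε * Real.cos (2 * Real.pi * (m : ℝ) ^ 2 * x)| ≤ 1 := by
        rw [abs_mul, hε, one_mul]; exact h1
      have h3 := neg_abs_le (ε * Real.cos (2 * Real.pi * (m : ℝ) ^ 2 * x))
      have h4 : cosPoly H c x + ε * (cosPoly H c x * Real.cos (2 * Real.pi * (m : ℝ) ^ 2 * x)) =
        cosPoly H c x * (1 + ε * Real.cos (2 * Real.pi * (m : ℝ) ^ 2 * x)) := by ring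
      rw [h4]
      apply mul_nonneg (hc x)
      linarith
    · exact (cosPoly_cont H c).intervalIntegrable _ _
    · apply Continuous.intervalIntegrable
      have := cosPoly_cont H c
      fun_prop
  have h1 := key 1 (by norm_num)
  have h2 := key (-1) (by norm_num)
  rw [abs_le]
  constructor <;> linarith

end Pool.Agent.H.MP_b3c6db_nt
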