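import Mathlib

/-! Definitions for the decay rate of square-frequency cosine polynomials. -/

namespace Pool.Agent.H.MP_b3c6db_nt

/-- The cosine polynomial `c 0 + ∑_{k=1}^{H} c k * cos (2 π k² x)`. -/
noncomputable def cosPoly (H : ℕ) (c : ℕ → ℝ) (x : ℝ) : ℝ :=
  c 0 + ∑ k ∈ Finset.Icc 1 H, c k * Real.cos (2 * Real.pi * (k : ℝ) ^ 2 * x)

/-- `c` is admissible for `H` if the cosine polynomial is nonnegative everywhere and equals `1`
at `0`. -/
def Admissible (H : ℕ) (c : ℕ → ℝ) : Prop :=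
  (∀ x : ℝ, 0 ≤ cosPoly H c x) ∧ cosPoly H c 0 = 1

/-- `delta H` is the infimum of the constant terms of the admissible polynomials. -/
noncomputable def delta (H : ℕ) : ℝ :=
  sInf {a : ℝ | ∃ c : ℕ → ℝ, Admissible H c ∧ c 0 = a}

end Pool.Agent.H.MP_b3c6db_nt
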