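import Pool.Agent.H.MP_b3c6db_nt.GaussG

/-! The local differences `Δ(v, r) = ∑_{d ∣ v} μ(v/d) g(d² r)` and their multiplicativity. -/

namespace Pool.Agent.H.MP_b3c6db_nt

open Finset Complex ArithmeticFunction

/-- `Δ(v, r)`. -/
noncomputable def Dlt (v : ℕ) (r : ℚ) : ℂ :=
  ∑ d ∈ v.divisors, ((moebius (v / d) : ℤ) : ℂ) * gG ((d : ℚ) ^ 2 * r)

lemma den_sq_mul_dvd (d : ℕ) (r : ℚ) : ((d : ℚ) ^ 2 * r).den ∣ r.den := by
  have h2 := Rat.mul_den_dvd ((d : ℚ) ^ 2) r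
  have h3 : ((d : ℚ) ^ 2).den = 1 := by
    rw [← Nat.cast_pow]
    exact Rat.den_natCast _
  rwa [h3, one_mul] at h2

lemma sum_divisors_coprime {M : Type*} [AddCommMonoid M] (f : ℕ → M) (m n : ℕ) (h : Nat.Coprime m n) :
    ∑ d ∈ (m * n).divisors, f d = ∑ a ∈ m.divisors, ∑ b ∈ n.divisors, f (a * b) := by
  rw [Nat.divisors_mul, Finset.mul_def, Finset.sum_image, Finset.sum_product]
  exact Nat.Coprime.mul_injOn_divisors h

lemma Dlt_mul (v₁ v₂ : ℕ) (r₁ r₂ : ℚ) (h1 : v₁ ∣ r₁.den) (h2 : v₂ ∣ r₂.den)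
    (h : Nat.Coprime r₁.den r₂.den) :
    Dlt (v₁ * v₂) (r₁ + r₂) = Dlt v₁ r₁ * Dlt v₂ r₂ := by
  have hv : Nat.Coprime v₁ v₂ := Nat.Coprime.coprime_dvd_left h1 (Nat.Coprime.coprime_dvd_right h2 h)
  unfold Dlt
  rw [sum_divisors_coprime _ v₁ v₂ hv, sum_mul_sum]
  apply sum_congr rfl
  intro a ha
  apply sum_congr rfl
  intro b hb
  rw [Nat.mem_divisors] at ha hb
  have hab : v₁ * v₂ / (a * b) = (v₁ / a) * (v₂ / b) := by
    rw [Nat.mul_div_mul_comm ha.1 hb.1]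
  have hcop : Nat.Coprime (v₁ / a) (v₂ / b) :=
    Nat.Coprime.coprime_dvd_left (Nat.div_dvd_of_dvd ha.1)
      (Nat.Coprime.coprime_dvd_right (Nat.div_dvd_of_dvd hb.1) hv)
  rw [hab, isMultiplicative_moebius.map_mul_of_coprime hcop]
  have e1 : (((a * b : ℕ)) : ℚ) ^ 2 * (r₁ + r₂) =
      (b : ℚ) ^ 2 * ((a : ℚ) ^ 2 * r₁) + (a : ℚ) ^ 2 * ((b : ℚ) ^ 2 * r₂) := by
    push_cast
    ring
  have d1 : ((b : ℚ) ^ 2 * ((a : ℚ) ^ 2 * r₁)).den ∣ r₁.den :=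
    (den_sq_mul_dvd b _).trans (den_sq_mul_dvd a r₁)
  have d2 : ((a : ℚ) ^ 2 * ((b : ℚ) ^ 2 * r₂)).den ∣ r₂.den :=
    (den_sq_mul_dvd a _).trans (den_sq_mul_dvd b r₂)
  rw [e1, gG_add _ _ (Nat.Coprime.coprime_dvd_left d1 (Nat.Coprime.coprime_dvd_right d2 h))]
  rw [gG_sq_mul ((a : ℚ) ^ 2 * r₁) b, gG_sq_mul ((b : ℚ) ^ 2 * r₂) a]
  · push_cast
    ring
  · -- a coprime to den (b^2 r2)
    have : ((b : ℚ) ^ 2 * r₂).den ∣ r₂.den := den_sq_mul_dvd b r₂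
    exact Nat.Coprime.coprime_dvd_left (ha.1.trans h1) (Nat.Coprime.coprime_dvd_right this h)
  · have : ((a : ℚ) ^ 2 * r₁).den ∣ r₁.den := den_sq_mul_dvd a r₁
    exact (Nat.Coprime.coprime_dvd_left this (Nat.Coprime.coprime_dvd_right (hb.1.trans h2) h)).symm

lemma sum_moebius_prime_pow (p e : ℕ) (hp : p.Prime) (f : ℕ → ℂ) :
    ∑ j ∈ range (e + 2), ((moebius (p ^ (e + 1) / p ^ j) : ℤ) : ℂ) * f j = f (e + 1) - f e := by
  rw [Finset.sum_range_succ, Finset.sum_range_succ]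
  have h0 : ∑ j ∈ range e, ((moebius (p ^ (e + 1) / p ^ j) : ℤ) : ℂ) * f j = 0 := by
    apply sum_eq_zero
    intro j hj
    rw [mem_range] at hj
    rw [Nat.pow_div (by omega) hp.pos, moebius_apply_prime_pow hp (by omega), if_neg (by omega)]
    simp
  have h1 : p ^ (e + 1) / p ^ e = p := by
    rw [Nat.pow_div (by omega) hp.pos]
    simp
  have h2 : p ^ (e + 1) / p ^ (e + 1) = 1 := Nat.div_self (pow_pos hp.pos _)
  rw [h0, h1, h2, moebius_apply_prime hp, moebius_apply_one]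
  push_cast
  ring

lemma Dlt_prime_pow (p e : ℕ) (hp : p.Prime) (r : ℚ) :
    Dlt (p ^ (e + 1)) r = gG (((p : ℚ) ^ (e + 1)) ^ 2 * r) - gG (((p : ℚ) ^ e) ^ 2 * r) := by
  unfold Dlt
  rw [Nat.sum_divisors_prime_pow hp]
  have := sum_moebius_prime_pow p e hp (fun j => gG (((p : ℚ) ^ j) ^ 2 * r))
  rw [← this]
  apply sum_congr rfl
  intro j _
  push_cast
  rfl

lemma Dlt_one (r : ℚ) : Dlt 1 r = gG r := by
  unfold Dlt
  simp

/-- if `p ^ k * m` is a multiple of the denominator, multiplying by `p ^ j`, `j ≥ k` leaves a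
denominator dividing `m`. -/
lemma den_pow_mul_dvd (p k m j : ℕ) (r : ℚ) (h : r.den ∣ p ^ k * m) (hj : k ≤ j) :
    ((p : ℚ) ^ j * r).den ∣ m := by
  obtain ⟨c, hc⟩ := h
  rcases Nat.eq_zero_or_pos m with rfl | hm
  · simp
  have hr : (r : ℚ) = (r.num : ℚ) / (r.den : ℚ) := (Rat.num_div_den r).symm
  have hden : (r.den : ℚ) ≠ 0 := by exact_mod_cast r.den_ne_zero
  have hm0 : (m : ℚ) ≠ 0 := by exact_mod_cast hm.ne'
  have hc' : (r.den : ℚ) * c = (p : ℚ) ^ k * m := by exact_mod_cast hc.symm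
  have h1 : (p : ℚ) ^ j * r = ((((p : ℤ) ^ (j - k) * r.num * c : ℤ)) : ℚ) / ((m : ℤ) : ℚ) := by
    have h2 : (p : ℚ) ^ j = (p : ℚ) ^ (j - k) * (p : ℚ) ^ k := by
      rw [← pow_add]; congr 1; omega
    rw [h2]
    conv_lhs => rw [hr]
    push_cast
    field_simp
    linear_combination (-((p : ℚ) ^ (j - k) * (r.num : ℚ))) * hc'
  rw [h1]
  have h3 := Rat.den_dvd ((p : ℤ) ^ (j - k) * r.num * c) (m : ℤ)
  rw [Rat.divInt_eq_div] at h3
  exact_mod_cast h3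

lemma Dlt_eq_zero (v : ℕ) (hv : v ≠ 0) (r : ℚ) (hnd : ¬ v ∣ r.den) : Dlt v r = 0 := by
  -- find a prime with too large exponent
  have h1 : ∃ p, p.Prime ∧ r.den.factorization p < v.factorization p := by
    by_contra hcon
    push Not at hcon
    apply hnd
    rw [← Nat.factorization_le_iff_dvd hv r.den_ne_zero]
    intro p
    by_cases hp : p.Prime
    · exact hcon p hp
    · rw [Nat.factorization_eq_zero_of_not_prime _ hp]
      exact Nat.zero_le _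
  obtain ⟨p, hp, hlt⟩ := h1
  set e := v.factorization p with he
  set k := r.den.factorization p with hk
  obtain ⟨e', he'⟩ : ∃ e', e = e' + 1 := ⟨e - 1, by omega⟩
  set v' := v / p ^ e with hv'
  have hvv : v = p ^ e * v' := (Nat.ordProj_mul_ordCompl_eq_self v p).symm
  have hcop : Nat.Coprime (p ^ e) v' := by
    apply Nat.Coprime.pow_left
    exact Nat.coprime_ordCompl hp hv
  unfold Dlt
  rw [hvv, sum_divisors_coprime _ _ _ hcop, sum_comm]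
  apply sum_eq_zero
  intro b hb
  rw [Nat.mem_divisors] at hb
  rw [he', Nat.sum_divisors_prime_pow hp]
  have e1 : ∀ j ∈ range (e' + 1 + 1),
      ((moebius (p ^ (e' + 1) * v' / (p ^ j * b)) : ℤ) : ℂ) * gG ((((p ^ j * b : ℕ)) : ℚ) ^ 2 * r) =
      ((moebius (p ^ (e' + 1) / p ^ j) : ℤ) : ℂ) *
        (((moebius (v' / b) : ℤ) : ℂ) * gG (((p : ℚ) ^ j) ^ 2 * ((b : ℚ) ^ 2 * r))) := by
    intro j hj
    rw [mem_range] at hj
    have hdj : p ^ j ∣ p ^ (e' + 1) := pow_dvd_pow p (by omega)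
    rw [Nat.mul_div_mul_comm hdj hb.1]
    have hcop2 : Nat.Coprime (p ^ (e' + 1) / p ^ j) (v' / b) := by
      rw [he'] at hcop
      exact Nat.Coprime.coprime_dvd_left (Nat.div_dvd_of_dvd hdj)
        (Nat.Coprime.coprime_dvd_right (Nat.div_dvd_of_dvd hb.1) hcop)
    rw [isMultiplicative_moebius.map_mul_of_coprime hcop2]
    have e2 : (((p ^ j * b : ℕ)) : ℚ) ^ 2 * r = ((p : ℚ) ^ j) ^ 2 * ((b : ℚ) ^ 2 * r) := by
      push_cast
      ring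
    rw [e2]
    push_cast
    ring
  rw [sum_congr rfl e1]
  have h3 := sum_moebius_prime_pow p e' hp
    (fun j => ((moebius (v' / b) : ℤ) : ℂ) * gG (((p : ℚ) ^ j) ^ 2 * ((b : ℚ) ^ 2 * r)))
  rw [h3, ← mul_sub]
  have h4 : gG (((p : ℚ) ^ (e' + 1)) ^ 2 * ((b : ℚ) ^ 2 * r)) =
      gG (((p : ℚ) ^ e') ^ 2 * ((b : ℚ) ^ 2 * r)) := by
    have e3 : ((p : ℚ) ^ (e' + 1)) ^ 2 * ((b : ℚ) ^ 2 * r) =
        (p : ℚ) ^ 2 * (((p : ℚ) ^ e') ^ 2 * ((b : ℚ) ^ 2 * r)) := by ring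
    rw [e3, gG_sq_mul]
    -- p is coprime to the denominator
    have h5 : ((p : ℚ) ^ (e' * 2) * ((b : ℚ) ^ 2 * r)).den ∣ r.den / p ^ k := by
      apply den_pow_mul_dvd p k
      · rw [hk, Nat.ordProj_mul_ordCompl_eq_self]
        exact den_sq_mul_dvd b r
      · omega
    have e4 : ((p : ℚ) ^ e') ^ 2 * ((b : ℚ) ^ 2 * r) = (p : ℚ) ^ (e' * 2) * ((b : ℚ) ^ 2 * r) := by
      rw [← pow_mul]
    rw [e4]
    exact Nat.Coprime.coprime_dvd_right h5 (Nat.coprime_ordCompl hp r.den_ne_zero)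
  rw [h4, sub_self, mul_zero]

end Pool.Agent.H.MP_b3c6db_nt
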