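import Pool.Agent.H.MP_b3c6db_nt.Delta

/-! Euler product for the local sums. -/

namespace Pool.Agent.H.MP_b3c6db_nt

open Finset Complex ArithmeticFunction

/-- completely multiplicative function with prescribed values at primes. -/
noncomputable def Arho {R : Type*} [CommSemiring R] (ρ : ℕ → R) (v : ℕ) : R :=
  v.factorization.prod (fun p e => ρ p ^ e)

lemma Arho_one {R : Type*} [CommSemiring R] (ρ : ℕ → R) : Arho ρ 1 = 1 := by
  simp [Arho]

lemma Arho_mul {R : Type*} [CommSemiring R] (ρ : ℕ → R) {a b : ℕ} (ha : a ≠ 0) (hb : b ≠ 0) :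
    Arho ρ (a * b) = Arho ρ a * Arho ρ b := by
  unfold Arho
  rw [Nat.factorization_mul ha hb, Finsupp.prod_add_index']
  · intro p; simp
  · intro p m n; rw [pow_add]

lemma Arho_prime_pow {R : Type*} [CommSemiring R] (ρ : ℕ → R) {p : ℕ} (hp : p.Prime) (e : ℕ) :
    Arho ρ (p ^ e) = ρ p ^ e := by
  unfold Arho
  rw [hp.factorization_pow, Finsupp.prod_single_index]
  simp

lemma split_rat (a b : ℕ) (ha : 0 < a) (hb : 0 < b) (hab : Nat.Coprime a b) (r : ℚ)
    (hr : r.den = a * b) : ∃ r₁ r₂ : ℚ, r = r₁ + r₂ ∧ r₁.den = a ∧ r₂.den = b := by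
  have hbz := Nat.gcd_eq_gcd_ab a b
  rw [Nat.Coprime.gcd_eq_one hab] at hbz
  set x := Nat.gcdA a b
  set y := Nat.gcdB a b
  have ha0 : (a : ℚ) ≠ 0 := by exact_mod_cast ha.ne'
  have hb0 : (b : ℚ) ≠ 0 := by exact_mod_cast hb.ne'
  have hbz' : (1 : ℚ) = (a : ℚ) * x + b * y := by exact_mod_cast hbz
  set r₁ : ℚ := ((r.num * y : ℤ) : ℚ) / ((a : ℤ) : ℚ) with hr₁
  set r₂ : ℚ := ((r.num * x : ℤ) : ℚ) / ((b : ℤ) : ℚ) with hr₂
  have hsum : r = r₁ + r₂ := by
    have h1 : r = (r.num : ℚ) / (r.den : ℚ) := (Rat.num_div_den r).symm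
    conv_lhs => rw [h1, hr]
    rw [hr₁, hr₂]
    push_cast
    field_simp
    linear_combination (r.num : ℚ) * hbz'
  have hd1 : r₁.den ∣ a := by
    have h3 := Rat.den_dvd (r.num * y) (a : ℤ)
    have h4 : r₁ = Rat.divInt (r.num * y) (a : ℤ) := by rw [Rat.divInt_eq_div]
    rw [h4]
    exact_mod_cast h3
  have hd2 : r₂.den ∣ b := by
    have h3 := Rat.den_dvd (r.num * x) (b : ℤ)
    have h4 : r₂ = Rat.divInt (r.num * x) (b : ℤ) := by rw [Rat.divInt_eq_div]
    rw [h4]
    exact_mod_cast h3
  have hd3 : a * b ∣ r₁.den * r₂.den := by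
    rw [← hr, hsum]
    exact Rat.add_den_dvd r₁ r₂
  refine ⟨r₁, r₂, hsum, ?_, ?_⟩
  · apply Nat.dvd_antisymm hd1
    have h4 : Nat.Coprime a r₂.den := Nat.Coprime.coprime_dvd_right hd2 hab
    exact h4.dvd_of_dvd_mul_right ((Dvd.intro _ rfl).trans hd3)
  · apply Nat.dvd_antisymm hd2
    have h4 : Nat.Coprime b r₁.den := (Nat.Coprime.coprime_dvd_left hd1 hab).symm
    exact h4.dvd_of_dvd_mul_left ((Dvd.intro_left _ rfl).trans hd3)

theorem euler_struct {R : Type*} [CommSemiring R] (N : ℂ →* R) (q : ℕ) (hq : q ≠ 0) :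
    ∀ r : ℚ, r.den = q → ∃ rp : ℕ → ℚ,
      (∀ p ∈ q.primeFactors, (rp p).den = p ^ (q.factorization p)) ∧
      ∀ ρ : ℕ → R, ∑ v ∈ q.divisors, Arho ρ v * N (Dlt v r) =
        ∏ p ∈ q.primeFactors, ∑ e ∈ range (q.factorization p + 1),
          ρ p ^ e * N (Dlt (p ^ e) (rp p)) := by
  induction q using Nat.recOnPosPrimePosCoprime with
  | prime_pow p n hp hn =>
    intro r hr
    refine ⟨fun _ => r, ?_, ?_⟩
    · intro p' hp'
      rw [Nat.primeFactors_prime_pow hn.ne' hp, mem_singleton] at hp'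
      subst hp'
      rw [hr, hp.factorization_pow]
      simp
    · intro ρ
      rw [Nat.primeFactors_prime_pow hn.ne' hp, Finset.prod_singleton,
        Nat.sum_divisors_prime_pow hp, hp.factorization_pow]
      simp only [Finsupp.single_eq_same]
      apply sum_congr rfl
      intro e _
      rw [Arho_prime_pow ρ hp]
  | zero => exact absurd rfl hq
  | one =>
    intro r hr
    refine ⟨fun _ => r, by simp, ?_⟩
    intro ρ
    simp [Arho_one, Dlt_one, gG_of_den_one r hr]
  | coprime a b ha hb hab iha ihb =>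
    intro r hr
    obtain ⟨r₁, r₂, hsum, h1, h2⟩ := split_rat a b (by omega) (by omega) hab r hr
    obtain ⟨rpa, ha1, ha2⟩ := iha (by omega) r₁ h1
    obtain ⟨rpb, hb1, hb2⟩ := ihb (by omega) r₂ h2
    refine ⟨fun p => if p ∣ a then rpa p else rpb p, ?_, ?_⟩
    · intro p hp
      rw [Nat.Coprime.primeFactors_mul hab, mem_union] at hp
      rcases hp with hp | hp
      · have hpa : p ∣ a := Nat.dvd_of_mem_primeFactors hp
        have hpp : p.Prime := Nat.prime_of_mem_primeFactors hp
        simp only [if_pos hpa]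
        rw [ha1 p hp, Nat.factorization_mul (by omega) (by omega)]
        have : b.factorization p = 0 := by
          apply Nat.factorization_eq_zero_of_not_dvd
          exact (Nat.Prime.coprime_iff_not_dvd hpp).mp (Nat.Coprime.coprime_dvd_left hpa hab)
        simp [this]
      · have hpb : p ∣ b := Nat.dvd_of_mem_primeFactors hp
        have hpp : p.Prime := Nat.prime_of_mem_primeFactors hp
        have hpa : ¬ p ∣ a :=
          (Nat.Prime.coprime_iff_not_dvd hpp).mp (Nat.Coprime.coprime_dvd_left hpb hab.symm)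
        simp only [if_neg hpa]
        rw [hb1 p hp, Nat.factorization_mul (by omega) (by omega)]
        have : a.factorization p = 0 := Nat.factorization_eq_zero_of_not_dvd hpa
        simp [this]
    · intro ρ
      rw [sum_divisors_coprime _ a b hab, Nat.Coprime.primeFactors_mul hab,
        Finset.prod_union hab.disjoint_primeFactors]
      have e1 : ∏ p ∈ a.primeFactors, ∑ e ∈ range ((a * b).factorization p + 1),
          ρ p ^ e * N (Dlt (p ^ e) (if p ∣ a then rpa p else rpb p)) =
          ∏ p ∈ a.primeFactors, ∑ e ∈ range (a.factorization p + 1),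
          ρ p ^ e * N (Dlt (p ^ e) (rpa p)) := by
        apply prod_congr rfl
        intro p hp
        have hpa : p ∣ a := Nat.dvd_of_mem_primeFactors hp
        have hpp : p.Prime := Nat.prime_of_mem_primeFactors hp
        have : b.factorization p = 0 := by
          apply Nat.factorization_eq_zero_of_not_dvd
          exact (Nat.Prime.coprime_iff_not_dvd hpp).mp (Nat.Coprime.coprime_dvd_left hpa hab)
        rw [Nat.factorization_mul (by omega) (by omega)]
        simp [this, hpa]
      have e2 : ∏ p ∈ b.primeFactors, ∑ e ∈ range ((a * b).factorization p + 1),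
          ρ p ^ e * N (Dlt (p ^ e) (if p ∣ a then rpa p else rpb p)) =
          ∏ p ∈ b.primeFactors, ∑ e ∈ range (b.factorization p + 1),
          ρ p ^ e * N (Dlt (p ^ e) (rpb p)) := by
        apply prod_congr rfl
        intro p hp
        have hpb : p ∣ b := Nat.dvd_of_mem_primeFactors hp
        have hpp : p.Prime := Nat.prime_of_mem_primeFactors hp
        have hpa : ¬ p ∣ a :=
          (Nat.Prime.coprime_iff_not_dvd hpp).mp (Nat.Coprime.coprime_dvd_left hpb hab.symm)
        have : a.factorization p = 0 := Nat.factorization_eq_zero_of_not_dvd hpa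
        rw [Nat.factorization_mul (by omega) (by omega)]
        simp [this, hpa]
      rw [e1, e2, ← ha2 ρ, ← hb2 ρ, sum_mul_sum]
      apply sum_congr rfl
      intro v₁ hv₁
      apply sum_congr rfl
      intro v₂ hv₂
      rw [Nat.mem_divisors] at hv₁ hv₂
      have hv₁0 : v₁ ≠ 0 := by
        rintro rfl
        exact hv₁.2 (Nat.eq_zero_of_zero_dvd hv₁.1)
      have hv₂0 : v₂ ≠ 0 := by
        rintro rfl
        exact hv₂.2 (Nat.eq_zero_of_zero_dvd hv₂.1)
      rw [Arho_mul ρ hv₁0 hv₂0, hsum, Dlt_mul v₁ v₂ r₁ r₂ (by rw [h1]; exact hv₁.1)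
        (by rw [h2]; exact hv₂.1) (by rw [h1, h2]; exact hab), map_mul]
      ring

end Pool.Agent.H.MP_b3c6db_nt
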