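import Mathlib

/-! Basic facts on the exponential `ex x = exp (2 π i x)` and averages over residues. -/

namespace Pool.Agent.H.MP_b3c6db_nt

open Complex Finset

/-- `ex x = exp (2 π i x)`. -/
noncomputable def ex (x : ℝ) : ℂ := Complex.exp (2 * Real.pi * Complex.I * (x : ℂ))

lemma ex_add (x y : ℝ) : ex (x + y) = ex x * ex y := by
  unfold ex
  rw [← Complex.exp_add]
  congr 1
  push_cast
  ring

lemma ex_zero : ex 0 = 1 := by simp [ex]

lemma ex_int (n : ℤ) : ex (n : ℝ) = 1 := by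
  unfold ex
  rw [Complex.exp_eq_one_iff]
  refine ⟨n, ?_⟩
  push_cast
  ring

lemma ex_nat (n : ℕ) : ex (n : ℝ) = 1 := by
  have := ex_int (n : ℤ)
  simpa using this

lemma norm_ex (x : ℝ) : ‖ex x‖ = 1 := by
  unfold ex
  have : (2 * Real.pi * Complex.I * (x : ℂ)) = ((2 * Real.pi * x : ℝ) : ℂ) * Complex.I := by
    push_cast; ring
  rw [this, Complex.norm_exp_ofReal_mul_I]

lemma ex_re (x : ℝ) : (ex x).re = Real.cos (2 * Real.pi * x) := by
  unfold ex
  have : (2 * Real.pi * Complex.I * (x : ℂ)) = ((2 * Real.pi * x : ℝ) : ℂ) * Complex.I := by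
    push_cast; ring
  rw [this, Complex.exp_ofReal_mul_I_re]

lemma ex_im (x : ℝ) : (ex x).im = Real.sin (2 * Real.pi * x) := by
  unfold ex
  have : (2 * Real.pi * Complex.I * (x : ℂ)) = ((2 * Real.pi * x : ℝ) : ℂ) * Complex.I := by
    push_cast; ring
  rw [this, Complex.exp_ofReal_mul_I_im]

lemma ex_nat_mul (n : ℕ) (x : ℝ) : ex (n * x) = ex x ^ n := by
  unfold ex
  rw [← Complex.exp_nat_mul]
  congr 1
  push_cast
  ring

/-- `ex (n b / N)` is the standard additive character of `ZMod N`. -/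
lemma ex_eq_stdAddChar (N : ℕ) [NeZero N] (n : ℕ) (b : ZMod N) :
    ex ((n : ℝ) * (b.val : ℝ) / N) = ZMod.stdAddChar ((n : ZMod N) * b) := by
  have h1 : ((n : ZMod N) * b) = (((n * b.val : ℕ) : ℤ) : ZMod N) := by
    push_cast
    rw [ZMod.natCast_zmod_val]
  rw [h1, ZMod.stdAddChar_coe]
  unfold ex
  congr 1
  push_cast
  ring

/-- Sum of `ex (n b / N)` over a full set of residues. -/
lemma sum_range_ex (N : ℕ) (hN : 0 < N) (n : ℕ) :
    ∑ b ∈ range N, ex ((n : ℝ) * b / N) = if N ∣ n then (N : ℂ) else 0 := by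
  haveI : NeZero N := ⟨hN.ne'⟩
  have h1 : ∀ b : ℕ, ex ((n : ℝ) * b / N) = ex ((n : ℝ) / N) ^ b := by
    intro b
    rw [← ex_nat_mul]
    congr 1
    ring
  simp_rw [h1]
  split_ifs with h
  · obtain ⟨m, rfl⟩ := h
    have : ex (((N * m : ℕ) : ℝ) / N) = 1 := by
      have h2 : (((N * m : ℕ) : ℝ) / N) = (m : ℝ) := by
        push_cast
        field_simp
      rw [h2, ex_nat]
    simp only [this, one_pow, sum_const, card_range, nsmul_eq_mul, mul_one]
  · have hne : ex ((n : ℝ) / N) ≠ 1 := by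
      intro h3
      unfold ex at h3
      rw [Complex.exp_eq_one_iff] at h3
      obtain ⟨k, hk⟩ := h3
      have h4 : ((n : ℝ) / N : ℝ) = (k : ℝ) := by
        have h5 : (((n : ℝ) / N : ℝ) : ℂ) = ((k : ℝ) : ℂ) := by
          have h6 : (2 * (Real.pi : ℂ) * Complex.I) ≠ 0 := Complex.two_pi_I_ne_zero
          apply mul_left_cancel₀ h6
          rw [hk]
          push_cast
          ring
        exact_mod_cast h5
      apply h
      have h7 : (n : ℝ) = (N : ℝ) * k := by
        field_simp at h4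
        linarith
      have h8 : ((n : ℤ)) = (N : ℤ) * k := by exact_mod_cast h7
      have h9 : (N : ℤ) ∣ (n : ℤ) := ⟨k, h8⟩
      exact_mod_cast h9
    have h10 : (∑ b ∈ range N, ex ((n : ℝ) / N) ^ b) * (ex ((n : ℝ) / N) - 1) = 0 := by
      rw [geom_sum_mul, ← ex_nat_mul]
      have : (N : ℝ) * ((n : ℝ) / N) = (n : ℝ) := by field_simp
      rw [this, ex_nat, sub_self]
    rcases mul_eq_zero.mp h10 with h11 | h11
    · exact h11
    · exact absurd (sub_eq_zero.mp h11) hne

end Pool.Agent.H.MP_b3c6db_nt
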