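import Mathlib

/-! Elementary prime sums. -/

namespace Pool.Agent.H.MP_b3c6db_nt

open Finset

lemma sum_inv_sqrt (N : ℕ) : ∑ n ∈ Ioc 0 N, 1 / Real.sqrt n ≤ 2 * Real.sqrt N := by
  induction N with
  | zero => simp
  | succ N ih =>
    rw [Finset.sum_Ioc_succ_top (by omega)]
    have h1 : 0 ≤ Real.sqrt N := Real.sqrt_nonneg _
    have h2 : 0 < Real.sqrt ((N + 1 : ℕ) : ℝ) := Real.sqrt_pos.mpr (by positivity)
    have h3 : Real.sqrt N * Real.sqrt N = N := Real.mul_self_sqrt (Nat.cast_nonneg N)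
    have h4 : Real.sqrt ((N + 1 : ℕ) : ℝ) * Real.sqrt ((N + 1 : ℕ) : ℝ) = (N : ℝ) + 1 := by
      rw [Real.mul_self_sqrt (by positivity)]
      push_cast
      ring
    have h5 : 1 / Real.sqrt ((N + 1 : ℕ) : ℝ) ≤
        2 * Real.sqrt ((N + 1 : ℕ) : ℝ) - 2 * Real.sqrt N := by
      rw [div_le_iff₀ h2]
      nlinarith [sq_nonneg (Real.sqrt ((N + 1 : ℕ) : ℝ) - Real.sqrt N)]
    linarith

/-- Abel-type comparison. -/
lemma abel_compare (a b : ℕ → ℝ) (C : ℝ) (hb : ∀ n, 1 ≤ n → b (n + 1) ≤ b n)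
    (hA : ∀ n : ℕ, ∑ m ∈ Ioc 0 n, a m ≤ C * n) (hb0 : ∀ n, 0 ≤ b n) (N : ℕ) :
    ∑ n ∈ Ioc 0 N, a n * b n ≤ C * ∑ n ∈ Ioc 0 N, b n := by
  have key : ∀ N : ℕ, ∑ n ∈ Ioc 0 N, a n * b n ≤
      C * ∑ n ∈ Ioc 0 N, b n - (C * N - ∑ m ∈ Ioc 0 N, a m) * b N := by
    intro N
    induction N with
    | zero => simp
    | succ N ih =>
      rw [Finset.sum_Ioc_succ_top (by omega), Finset.sum_Ioc_succ_top (by omega),
        Finset.sum_Ioc_succ_top (by omega)]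
      have h1 := hA N
      have hcast : (((N + 1 : ℕ)) : ℝ) = (N : ℝ) + 1 := by push_cast; ring
      rw [hcast]
      rcases Nat.eq_zero_or_pos N with h0 | h0
      · subst h0
        simp
        ring_nf
        exact le_rfl
      · have h2 := hb N h0
        have h3 : 0 ≤ (C * N - ∑ m ∈ Ioc 0 N, a m) * (b N - b (N + 1)) :=
          mul_nonneg (by linarith) (by linarith)
        nlinarith
  refine (key N).trans ?_
  have : 0 ≤ (C * N - ∑ m ∈ Ioc 0 N, a m) * b N := mul_nonneg (by linarith [hA N]) (hb0 N)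
  linarith

lemma sum_log_sqrt (y : ℝ) (hy : 0 ≤ y) :
    ∑ p ∈ (Ioc 0 ⌊y⌋₊).filter Nat.Prime, Real.log p / Real.sqrt p ≤ 3 * Real.sqrt y := by
  set N := ⌊y⌋₊ with hN
  have h1 := abel_compare (fun n => if n.Prime then Real.log n else 0) (fun n => 1 / Real.sqrt n)
    (Real.log 4) (by
      intro n hn
      apply one_div_le_one_div_of_le
      · exact Real.sqrt_pos.mpr (by exact_mod_cast hn)
      · apply Real.sqrt_le_sqrt
        push_cast
        linarith) (by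
      intro n
      have h2 := Chebyshev.theta_le_log4_mul_x (x := (n : ℝ)) (Nat.cast_nonneg n)
      unfold Chebyshev.theta at h2
      rw [Nat.floor_natCast, sum_filter] at h2
      exact h2) (by intro n; positivity) N
  have h3 : ∑ p ∈ (Ioc 0 N).filter Nat.Prime, Real.log p / Real.sqrt p =
      ∑ n ∈ Ioc 0 N, (if n.Prime then Real.log n else 0) * (1 / Real.sqrt n) := by
    rw [sum_filter]
    apply sum_congr rfl
    intro n _
    split_ifs
    · ring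
    · ring
  rw [h3]
  refine h1.trans ?_
  have h4 := sum_inv_sqrt N
  have h5 : Real.log 4 ≤ 1.4 := by
    have : Real.log 4 = 2 * Real.log 2 := by
      rw [show (4 : ℝ) = 2 ^ 2 by norm_num, Real.log_pow]; norm_num
    rw [this]
    have := Real.log_two_lt_d9
    linarith
  have h6 : Real.sqrt N ≤ Real.sqrt y := Real.sqrt_le_sqrt (Nat.floor_le hy)
  have h7 : 0 ≤ Real.log 4 := Real.log_nonneg (by norm_num)
  have h8 : 0 ≤ Real.sqrt N := Real.sqrt_nonneg _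
  calc Real.log 4 * ∑ n ∈ Ioc 0 N, 1 / Real.sqrt n ≤ Real.log 4 * (2 * Real.sqrt N) :=
        mul_le_mul_of_nonneg_left h4 h7
    _ ≤ 1.4 * (2 * Real.sqrt N) := mul_le_mul_of_nonneg_right h5 (by positivity)
    _ ≤ 3 * Real.sqrt y := by linarith

lemma sum_log_sqrt_subset (y : ℝ) (hy : 0 ≤ y) (S : Finset ℕ)
    (hS : ∀ p ∈ S, p.Prime ∧ (p : ℝ) ≤ y) :
    ∑ p ∈ S, Real.log p / Real.sqrt p ≤ 3 * Real.sqrt y := by
  refine le_trans ?_ (sum_log_sqrt y hy)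
  apply Finset.sum_le_sum_of_subset_of_nonneg
  · intro p hp
    obtain ⟨h1, h2⟩ := hS p hp
    rw [mem_filter, mem_Ioc]
    exact ⟨⟨h1.pos, Nat.le_floor h2⟩, h1⟩
  · intro p _ _
    exact div_nonneg (Real.log_natCast_nonneg p) (Real.sqrt_nonneg _)

lemma sum_inv_sqrt_subset (y : ℝ) (hy : 0 ≤ y) (S : Finset ℕ)
    (hS : ∀ p ∈ S, p.Prime ∧ (p : ℝ) ≤ y) :
    ∑ p ∈ S, 1 / Real.sqrt p ≤ 2 * Real.sqrt y := by
  have h1 : ∑ p ∈ S, 1 / Real.sqrt p ≤ ∑ n ∈ Ioc 0 ⌊y⌋₊, 1 / Real.sqrt n := by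
    apply Finset.sum_le_sum_of_subset_of_nonneg
    · intro p hp
      obtain ⟨h1, h2⟩ := hS p hp
      rw [mem_Ioc]
      exact ⟨h1.pos, Nat.le_floor h2⟩
    · intro p _ _
      positivity
  have h2 := sum_inv_sqrt ⌊y⌋₊
  have h6 : Real.sqrt ⌊y⌋₊ ≤ Real.sqrt y := Real.sqrt_le_sqrt (Nat.floor_le hy)
  linarith

end Pool.Agent.H.MP_b3c6db_nt
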