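import Pool.Agent.H.MP_b3c6db_nt.LocalPrime
import Pool.Agent.H.MP_b3c6db_nt.PrimeSums

/-! Exponential form of the local factors. -/

namespace Pool.Agent.H.MP_b3c6db_nt

open Finset Complex

/-- basic bound for the size of the perturbation. -/
lemma B_bound (P ρ : ℝ) (hP : 2 ≤ P) (hρ : 0 < ρ) (hρP : 3 / 2 ≤ ρ * P) :
    Real.sqrt (2 * P) / (ρ * P - 1) ≤ 5 / (ρ * Real.sqrt P) := by
  have hP0 : 0 < P := by linarith
  have hs : 0 < Real.sqrt P := Real.sqrt_pos.mpr hP0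
  have hss : Real.sqrt P * Real.sqrt P = P := Real.mul_self_sqrt hP0.le
  rw [div_le_div_iff₀ (by linarith) (by positivity), Real.sqrt_mul (by norm_num)]
  have h2 : Real.sqrt 2 ≤ 1.42 := by
    rw [Real.sqrt_le_left (by norm_num)]
    norm_num
  calc Real.sqrt 2 * Real.sqrt P * (ρ * Real.sqrt P) = Real.sqrt 2 * (ρ * (Real.sqrt P * Real.sqrt P)) := by ring
    _ = Real.sqrt 2 * (ρ * P) := by rw [hss]
    _ ≤ 1.42 * (ρ * P) := mul_le_mul_of_nonneg_right h2 (by positivity)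
    _ ≤ 5 * (ρ * P - 1) := by linarith

/-- passing to the exponential form. -/
lemma exp_form (ρ : ℝ) (J : ℕ) (hρ : 0 < ρ) (ξ : ℂ) (hξ : ‖ξ‖ ≤ 1 / 2) :
    ∃ ζ : ℂ, ((ρ ^ J : ℝ) : ℂ) * (1 + ξ) = Complex.exp (((J : ℝ) * Real.log ρ : ℝ) + ζ) ∧
      ‖ζ‖ ≤ 3 / 2 * ‖ξ‖ := by
  refine ⟨Complex.log (1 + ξ), ?_, Complex.norm_log_one_add_half_le_self hξ⟩
  have hne : (1 + ξ) ≠ 0 := by
    intro h
    have : ξ = -1 := by linear_combination h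
    rw [this] at hξ
    norm_num at hξ
  rw [Complex.exp_add, Complex.exp_log hne, ← Complex.ofReal_exp]
  congr 2
  rw [mul_comm, Real.exp_mul, Real.exp_log hρ, Real.rpow_natCast]

lemma rpow_ge_three_halves (P σ : ℝ) (hP : 2 ≤ P) (hσ : σ ≤ 1 / 4) : 3 / 2 ≤ P ^ (-σ) * P := by
  have hP0 : 0 < P := by linarith
  have h1 : P ^ (-σ) * P = P ^ (1 - σ) := by
    rw [show (1 - σ) = -σ + 1 by ring, Real.rpow_add hP0, Real.rpow_one]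
  rw [h1]
  have h2 : (2 : ℝ) ^ (3 / 4 : ℝ) ≤ P ^ (1 - σ) := by
    calc (2 : ℝ) ^ (3 / 4 : ℝ) ≤ P ^ (3 / 4 : ℝ) := Real.rpow_le_rpow (by norm_num) hP (by norm_num)
      _ ≤ P ^ (1 - σ) := Real.rpow_le_rpow_of_exponent_le (by linarith) (by linarith)
  have h3 : (3 / 2 : ℝ) ≤ (2 : ℝ) ^ (3 / 4 : ℝ) := by
    have h4 : ((3 / 2 : ℝ) ^ (4 : ℕ)) ≤ ((2 : ℝ) ^ (3 / 4 : ℝ)) ^ (4 : ℕ) := by
      rw [← Real.rpow_natCast ((2 : ℝ) ^ (3 / 4 : ℝ)) 4, ← Real.rpow_mul (by norm_num)]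
      norm_num
    exact le_of_pow_le_pow_left₀ (by norm_num) (by positivity) h4
  linarith

section

variable (p k : ℕ) (r : ℚ)

/-- general factor: `ρ = p^{-σ}` -/
lemma factor_gen (hp : p.Prime) (hk : 1 ≤ k) (hr : r.den = p ^ k) (σ : ℝ) (hσ0 : 0 ≤ σ)
    (hσ : σ ≤ 1 / 4) (b : ℝ) (hb : 5 * ((p : ℝ) ^ σ - 1) / Real.sqrt p ≤ b) (hb2 : b ≤ 1 / 2) :
    ∃ ζ : ℂ, ∑ e ∈ range (k + 1), (((p : ℝ) ^ (-σ) : ℝ) : ℂ) ^ e * Dlt (p ^ e) r =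
      Complex.exp ((-(σ * (((k + 1) / 2 : ℕ) : ℝ) * Real.log p) : ℝ) + ζ) ∧ ‖ζ‖ ≤ 3 / 2 * b := by
  have hp2 : (2 : ℝ) ≤ p := by exact_mod_cast hp.two_le
  have hp0 : (0 : ℝ) < p := by linarith
  set ρ : ℝ := (p : ℝ) ^ (-σ) with hρdef
  have hρ : 0 < ρ := Real.rpow_pos_of_pos hp0 _
  have hρ1 : ρ ≤ 1 := Real.rpow_le_one_of_one_le_of_nonpos (by linarith) (by linarith)
  have hρp : 3 / 2 ≤ ρ * p := rpow_ge_three_halves p σ hp2 hσ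
  obtain ⟨ξ, h1, h2⟩ := local_factor p k r hp hk hr ρ hρ hρ1 (by linarith)
  have h3 : ‖ξ‖ ≤ b := by
    refine h2.trans (le_trans ?_ hb)
    have h4 := B_bound p ρ hp2 hρ hρp
    have h5 := mul_le_mul_of_nonneg_left h4 (by linarith : (0 : ℝ) ≤ 1 - ρ)
    refine h5.trans (le_of_eq ?_)
    have h6 : (p : ℝ) ^ σ = 1 / ρ := by
      rw [hρdef, Real.rpow_neg hp0.le]
      simp
    rw [h6]
    have hs : 0 < Real.sqrt p := Real.sqrt_pos.mpr hp0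
    field_simp
  obtain ⟨ζ, h7, h8⟩ := exp_form ρ ((k + 1) / 2) hρ ξ (h3.trans hb2)
  refine ⟨ζ, ?_, ?_⟩
  · rw [h1, h7]
    congr 2
    rw [hρdef, Real.log_rpow hp0]
    push_cast
    ring
  · refine h8.trans ?_
    linarith

end

end Pool.Agent.H.MP_b3c6db_nt
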