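import Pool.Agent.H.MP_b3c6db_nt.QuadSum

/-! Normalised quadratic Gauss sums `g r` attached to rational numbers. -/

namespace Pool.Agent.H.MP_b3c6db_nt

open Finset Complex

/-- normalised quadratic Gauss sum at a rational `r`. -/
noncomputable def gG (r : ℚ) : ℂ :=
  (1 / (r.den : ℂ)) * ∑ b ∈ range r.den, ex ((r : ℝ) * (b : ℝ) ^ 2)

lemma ex_congr_int {x y : ℝ} (n : ℤ) (h : x = y + n) : ex x = ex y := by
  rw [h, ex_add, ex_int, mul_one]

lemma rat_mul_den (r : ℚ) : (r : ℝ) * (r.den : ℝ) = (r.num : ℝ) := by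
  have h := Rat.mul_den_eq_num r
  exact_mod_cast h

/-- periodicity. -/
lemma ex_periodic (r : ℚ) (b j : ℕ) :
    ex ((r : ℝ) * ((b + r.den * j : ℕ) : ℝ) ^ 2) = ex ((r : ℝ) * (b : ℝ) ^ 2) := by
  apply ex_congr_int (r.num * j * (2 * b + r.den * j))
  push_cast
  rw [← rat_mul_den r]
  ring

lemma ex_modEq (r : ℚ) {b c : ℕ} (h : b ≡ c [MOD r.den]) :
    ex ((r : ℝ) * (b : ℝ) ^ 2) = ex ((r : ℝ) * (c : ℝ) ^ 2) := by
  have h1 : b % r.den = c % r.den := h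
  have hb := Nat.mod_add_div b r.den
  have hc := Nat.mod_add_div c r.den
  rw [← hb, ← hc, ex_periodic, ex_periodic, h1]

lemma sum_range_mul_periodic (f : ℕ → ℂ) (q : ℕ) (hf : ∀ b j, f (b + q * j) = f b) (m : ℕ) :
    ∑ b ∈ range (q * m), f b = (m : ℂ) * ∑ b ∈ range q, f b := by
  induction m with
  | zero => simp
  | succ m ih =>
    rw [Nat.mul_succ, Finset.sum_range_add, ih]
    have h1 : ∀ x ∈ range q, f (q * m + x) = f x := by
      intro x _
      rw [add_comm, hf]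
    rw [sum_congr rfl h1]
    push_cast
    ring

lemma gG_eq (r : ℚ) (Q : ℕ) (hQ : 0 < Q) (h : r.den ∣ Q) :
    gG r = (1 / (Q : ℂ)) * ∑ b ∈ range Q, ex ((r : ℝ) * (b : ℝ) ^ 2) := by
  obtain ⟨m, rfl⟩ := h
  rw [sum_range_mul_periodic (fun b => ex ((r : ℝ) * (b : ℝ) ^ 2)) r.den
    (fun b j => ex_periodic r b j) m]
  unfold gG
  have hm : (m : ℂ) ≠ 0 := by
    have : m ≠ 0 := by
      rintro rfl
      simp at hQ
    exact_mod_cast this
  have hd : (r.den : ℂ) ≠ 0 := by exact_mod_cast r.den_ne_zero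
  push_cast
  field_simp

lemma gG_int (n : ℤ) : gG (n : ℚ) = 1 := by
  rw [gG_eq _ 1 one_pos (by simp)]
  simp [ex_zero]

lemma gG_of_den_one (r : ℚ) (h : r.den = 1) : gG r = 1 := by
  have : r = (r.num : ℚ) := (Rat.den_eq_one_iff r).mp h |>.symm
  rw [this, gG_int]

/-- sum over `ZMod Q` version. -/
lemma sum_zmod_eq_range (Q : ℕ) [NeZero Q] (f : ℕ → ℂ) :
    ∑ u : ZMod Q, f u.val = ∑ b ∈ range Q, f b := by
  refine Finset.sum_nbij' (i := fun b => b.val) (j := fun b => (b : ZMod Q)) ?_ ?_ ?_ ?_ ?_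
  · intro a _
    exact mem_range.mpr (ZMod.val_lt a)
  · intro a _
    exact mem_univ _
  · intro a _
    exact ZMod.natCast_zmod_val a
  · intro a ha
    exact ZMod.val_natCast_of_lt (mem_range.mp ha)
  · intro a _
    rfl

/-- quadratic sums with a linear term. -/
lemma norm_K_le (r : ℚ) (l : ℤ) :
    ‖∑ b ∈ range r.den, ex ((r : ℝ) * (b : ℝ) ^ 2 + l * b / r.den)‖ ≤ Real.sqrt (2 * r.den) := by
  have : NeZero r.den := ⟨r.den_ne_zero⟩
  have h1 : ∀ b : ZMod r.den, ex ((r : ℝ) * (b.val : ℝ) ^ 2 + l * b.val / r.den) =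
      ZMod.stdAddChar ((r.num : ZMod r.den) * b ^ 2 + (l : ZMod r.den) * b) := by
    intro b
    have h2 : ((r.num : ZMod r.den) * b ^ 2 + (l : ZMod r.den) * b) =
        ((r.num * (b.val : ℤ) ^ 2 + l * (b.val : ℤ) : ℤ) : ZMod r.den) := by
      push_cast
      rw [ZMod.natCast_zmod_val]
    rw [h2, ZMod.stdAddChar_coe]
    unfold ex
    congr 1
    have h3 : (r : ℝ) = (r.num : ℝ) / (r.den : ℝ) := by
      have := rat_mul_den r
      have hd : (r.den : ℝ) ≠ 0 := by exact_mod_cast r.den_ne_zero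
      field_simp
      exact this
    rw [h3]
    push_cast
    ring
  have h4 := sum_zmod_eq_range r.den (fun b => ex ((r : ℝ) * (b : ℝ) ^ 2 + l * b / r.den))
  rw [← h4]
  simp_rw [h1]
  have hunit : IsUnit ((r.num : ℤ) : ZMod r.den) := by
    rw [ZMod.coe_int_isUnit_iff_isCoprime]
    have := r.isCoprime_num_den
    exact this.symm
  have h5 := norm_quad_sum_sq_le r.den ((r.num : ℤ) : ZMod r.den) (l : ZMod r.den) hunit
  exact Real.le_sqrt_of_sq_le h5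

lemma norm_gG_le (r : ℚ) : ‖gG r‖ ≤ Real.sqrt (2 / r.den) := by
  have h := norm_K_le r 0
  have hd : (0 : ℝ) < r.den := by exact_mod_cast r.den_pos
  have h1 : ∑ b ∈ range r.den, ex ((r : ℝ) * (b : ℝ) ^ 2 + ((0 : ℤ) : ℝ) * b / r.den) =
      ∑ b ∈ range r.den, ex ((r : ℝ) * (b : ℝ) ^ 2) := by
    apply sum_congr rfl
    intro b _
    congr 1
    simp
  rw [h1] at h
  unfold gG
  rw [norm_mul, norm_div, norm_one, Complex.norm_natCast]
  have h2 : Real.sqrt (2 / r.den) = 1 / (r.den : ℝ) * Real.sqrt (2 * r.den) := by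
    rw [show (2 : ℝ) / r.den = (2 * r.den) / (r.den) ^ 2 by field_simp,
      Real.sqrt_div (by positivity), Real.sqrt_sq hd.le]
    ring
  rw [h2]
  exact mul_le_mul_of_nonneg_left h (by positivity)

lemma norm_gG_le_one (r : ℚ) : ‖gG r‖ ≤ 1 := by
  have hd : (0 : ℝ) < r.den := by exact_mod_cast r.den_pos
  unfold gG
  rw [norm_mul, norm_div, norm_one, Complex.norm_natCast]
  have h1 : ‖∑ b ∈ range r.den, ex ((r : ℝ) * (b : ℝ) ^ 2)‖ ≤ r.den := by
    refine (norm_sum_le _ _).trans ?_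
    simp_rw [norm_ex]
    simp
  rw [one_div, inv_mul_le_iff₀ hd]
  linarith

/-- invariance under multiplication by a square of a unit. -/
lemma gG_sq_mul (r : ℚ) (d : ℕ) (hd : Nat.Coprime d r.den) : gG ((d : ℚ) ^ 2 * r) = gG r := by
  have : NeZero r.den := ⟨r.den_ne_zero⟩
  have h1 : ((d : ℚ) ^ 2 * r).den ∣ r.den := by
    have h2 := Rat.mul_den_dvd ((d : ℚ) ^ 2) r
    have h3 : ((d : ℚ) ^ 2).den = 1 := by
      rw [← Nat.cast_pow]
      exact Rat.den_natCast _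
    rwa [h3, one_mul] at h2
  rw [gG_eq _ r.den r.den_pos h1]
  unfold gG
  congr 1
  rw [← sum_zmod_eq_range r.den (fun b => ex ((r : ℝ) * (b : ℝ) ^ 2)),
    ← sum_zmod_eq_range r.den (fun b => ex ((((d : ℚ) ^ 2 * r : ℚ) : ℝ) * (b : ℝ) ^ 2))]
  have hu : IsUnit ((d : ℕ) : ZMod r.den) := by
    rw [ZMod.isUnit_iff_coprime]
    exact hd
  obtain ⟨u, hu⟩ := hu
  conv_rhs => rw [← Equiv.sum_comp (Units.mulLeft u)]
  apply sum_congr rfl
  intro b _
  have h3 : (((d : ℚ) ^ 2 * r : ℚ) : ℝ) * (b.val : ℝ) ^ 2 = (r : ℝ) * ((d * b.val : ℕ) : ℝ) ^ 2 := by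
    push_cast
    ring
  rw [h3]
  apply ex_modEq
  rw [← ZMod.natCast_eq_natCast_iff]
  rw [Units.mulLeft_apply, hu]
  push_cast
  rw [ZMod.natCast_zmod_val, ZMod.natCast_zmod_val]

lemma gG_add (r₁ r₂ : ℚ) (h : Nat.Coprime r₁.den r₂.den) :
    gG (r₁ + r₂) = gG r₁ * gG r₂ := by
  have hn1 : NeZero r₁.den := ⟨r₁.den_ne_zero⟩
  have hn2 : NeZero r₂.den := ⟨r₂.den_ne_zero⟩
  have hn3 : NeZero (r₁.den * r₂.den) := ⟨mul_ne_zero r₁.den_ne_zero r₂.den_ne_zero⟩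
  rw [gG_eq (r₁ + r₂) (r₁.den * r₂.den) (Nat.mul_pos r₁.den_pos r₂.den_pos) (Rat.add_den_dvd r₁ r₂)]
  unfold gG
  set f₁ : ℕ → ℂ := fun b => ex ((r₁ : ℝ) * (b : ℝ) ^ 2) with hf₁
  set f₂ : ℕ → ℂ := fun b => ex ((r₂ : ℝ) * (b : ℝ) ^ 2) with hf₂
  have h1 : ∀ b : ℕ, ex ((((r₁ + r₂ : ℚ)) : ℝ) * (b : ℝ) ^ 2) = f₁ b * f₂ b := by
    intro b
    rw [hf₁, hf₂]
    simp only
    rw [← ex_add]
    congr 1
    push_cast
    ring
  simp_rw [h1]
  rw [← sum_zmod_eq_range (r₁.den * r₂.den) (fun b => f₁ b * f₂ b),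
    ← sum_zmod_eq_range r₁.den f₁, ← sum_zmod_eq_range r₂.den f₂]
  have h2 : ∑ u : ZMod (r₁.den * r₂.den), f₁ u.val * f₂ u.val =
      ∑ v : ZMod r₁.den × ZMod r₂.den, f₁ v.1.val * f₂ v.2.val := by
    rw [← Equiv.sum_comp (ZMod.chineseRemainder h).toEquiv]
    apply sum_congr rfl
    intro u _
    have h3 : f₁ u.val = f₁ ((ZMod.chineseRemainder h) u).1.val := by
      apply ex_modEq
      rw [← ZMod.natCast_eq_natCast_iff, ZMod.natCast_zmod_val]
      have h4 : (ZMod.chineseRemainder h) u = (ZMod.chineseRemainder h) ((u.val : ℕ) : ZMod (r₁.den * r₂.den)) := by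
        rw [ZMod.natCast_zmod_val]
      rw [h4, map_natCast]
      simp
    have h5 : f₂ u.val = f₂ ((ZMod.chineseRemainder h) u).2.val := by
      apply ex_modEq
      rw [← ZMod.natCast_eq_natCast_iff, ZMod.natCast_zmod_val]
      have h4 : (ZMod.chineseRemainder h) u = (ZMod.chineseRemainder h) ((u.val : ℕ) : ZMod (r₁.den * r₂.den)) := by
        rw [ZMod.natCast_zmod_val]
      rw [h4, map_natCast]
      simp
    rw [h3, h5]
    rfl
  rw [h2, Fintype.sum_prod_type]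
  simp_rw [← mul_sum]
  rw [← sum_mul]
  push_cast
  have hd1 : (r₁.den : ℂ) ≠ 0 := by exact_mod_cast r₁.den_ne_zero
  have hd2 : (r₂.den : ℂ) ≠ 0 := by exact_mod_cast r₂.den_ne_zero
  field_simp

end Pool.Agent.H.MP_b3c6db_nt
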