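import Mathlib

/-! A Harnack inequality along a thin wedge. -/

namespace Pool.Agent.H.MP_b3c6db_nt

open Complex Metric

/-- If `F` is holomorphic with nonnegative real part on a disc about `c`, and `F c = v > 0`,
then `‖F' c‖ ≤ 2 v / R`. -/
lemma deriv_bound {F : ℂ → ℂ} {c : ℂ} {R v : ℝ} (hR : 0 < R) (hv : 0 < v)
    (hF : Differentiable ℂ F) (hpos : ∀ w ∈ ball c R, 0 ≤ (F w).re) (hc : F c = (v : ℂ)) :
    ‖deriv F c‖ ≤ 2 * v / R := by
  have hne : ∀ w ∈ ball c R, F w + v ≠ 0 := by
    intro w hw h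
    have h1 := congrArg Complex.re h
    simp at h1
    have := hpos w hw
    linarith
  set g : ℂ → ℂ := fun w => (F w - v) / (F w + v) with hg
  have hgd : DifferentiableOn ℂ g (ball c R) := by
    apply DifferentiableOn.div
    · exact (hF.sub_const _).differentiableOn
    · exact (hF.add_const _).differentiableOn
    · exact hne
  have hgc : g c = 0 := by simp [hg, hc]
  have hmaps : Set.MapsTo g (ball c R) (closedBall (g c) 1) := by
    intro w hw
    rw [hgc, mem_closedBall_zero_iff]
    simp only [hg]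
    rw [norm_div, div_le_one (norm_pos_iff.mpr (hne w hw))]
    rw [← sq_le_sq₀ (norm_nonneg _) (norm_nonneg _), Complex.sq_norm, Complex.sq_norm,
      Complex.normSq_apply, Complex.normSq_apply]
    have := hpos w hw
    simp
    nlinarith
  have h1 := Complex.norm_deriv_le_div_of_mapsTo_ball hgd hmaps hR
  have hFc : HasDerivAt F (deriv F c) c := (hF c).hasDerivAt
  have hnc : F c + v ≠ 0 := hne c (mem_ball_self hR)
  have h2 : HasDerivAt g ((deriv F c * (F c + v) - (F c - v) * deriv F c) / (F c + v) ^ 2) c :=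
    (hFc.sub_const _).div (hFc.add_const _) hnc
  rw [h2.deriv, hc] at h1
  have hv' : (v : ℂ) ≠ 0 := by exact_mod_cast hv.ne'
  have h3 : (deriv F c * ((v : ℂ) + v) - ((v : ℂ) - v) * deriv F c) / ((v : ℂ) + v) ^ 2 =
      deriv F c / (2 * v) := by
    field_simp
    ring
  rw [h3, norm_div] at h1
  have h4 : ‖(2 * (v : ℂ))‖ = 2 * v := by
    rw [norm_mul, Complex.norm_real, Real.norm_eq_abs, abs_of_pos hv]
    simp
  rw [h4, div_le_div_iff₀ (by positivity) hR] at h1
  rw [le_div_iff₀ hR]
  linarith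

/-- Harnack along the wedge `K |Im τ| ≤ Re τ`: `t ^ (2 (K+1)) f t` is nondecreasing. -/
theorem harnack_wedge {F : ℂ → ℂ} {f : ℝ → ℝ} {K : ℝ} (hK : 0 ≤ K)
    (hF : Differentiable ℂ F) (hFf : ∀ t : ℝ, F t = f t)
    (hpos : ∀ τ : ℂ, 0 < τ.re → K * |τ.im| ≤ τ.re → 0 ≤ (F τ).re)
    (hfpos : ∀ t : ℝ, 0 < t → 0 < f t) {t₀ t₁ : ℝ} (h0 : 0 < t₀) (h01 : t₀ ≤ t₁) :
    f t₀ * t₀ ^ (2 * (K + 1)) ≤ f t₁ * t₁ ^ (2 * (K + 1)) := by
  have hK1 : 0 < K + 1 := by linarith
  -- real derivative
  have hfd : ∀ t : ℝ, HasDerivAt f (deriv F t).re t := by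
    intro t
    have h1 : HasDerivAt F (deriv F t) (t : ℂ) := (hF t).hasDerivAt
    have h2 := h1.real_of_complex
    have h3 : (fun x : ℝ => (F x).re) = f := by
      funext x
      rw [hFf]
      simp
    rwa [h3] at h2
  have hbound : ∀ t : ℝ, 0 < t → -(2 * (K + 1) * f t / t) ≤ (deriv F t).re := by
    intro t ht
    have hR : 0 < t / (K + 1) := by positivity
    have h1 := deriv_bound (F := F) (c := (t : ℂ)) hR (hfpos t ht) hF (by
      intro w hw
      rw [mem_ball, dist_eq_norm] at hw
      have h2 : |(w - t).re| ≤ ‖w - t‖ := Complex.abs_re_le_norm _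
      have h3 : |(w - t).im| ≤ ‖w - t‖ := Complex.abs_im_le_norm _
      simp only [Complex.sub_re, Complex.ofReal_re, Complex.sub_im, Complex.ofReal_im,
        sub_zero] at h2 h3
      have h4 := abs_le.mp h2
      have h5 : t / (K + 1) * (K + 1) = t := by field_simp
      have h6 : 0 ≤ K * (t / (K + 1)) := by positivity
      apply hpos w
      · nlinarith
      · have h7 : K * |w.im| ≤ K * (t / (K + 1)) :=
          mul_le_mul_of_nonneg_left (h3.trans hw.le) hK
        nlinarith) (hFf t)
    have h2 := (abs_le.mp ((Complex.abs_re_le_norm _).trans h1)).1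
    have h3 : 2 * f t / (t / (K + 1)) = 2 * (K + 1) * f t / t := by
      field_simp
    rwa [h3] at h2
  have hmono : MonotoneOn (fun t => f t * t ^ (2 * (K + 1))) (Set.Ioi 0) := by
    apply monotoneOn_of_deriv_nonneg (convex_Ioi 0)
    · apply ContinuousOn.mul
      · intro t _
        exact (hfd t).continuousAt.continuousWithinAt
      · intro t ht
        exact (Real.continuousAt_rpow_const t _ (Or.inl (ne_of_gt ht))).continuousWithinAt
    · intro t ht
      rw [interior_Ioi] at ht
      apply DifferentiableAt.differentiableWithinAt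
      exact (hfd t).differentiableAt.mul
        (Real.hasDerivAt_rpow_const (Or.inl (ne_of_gt ht))).differentiableAt
    · intro t ht
      rw [interior_Ioi] at ht
      have ht' : 0 < t := ht
      have h1 : HasDerivAt (fun t => f t * t ^ (2 * (K + 1)))
          ((deriv F t).re * t ^ (2 * (K + 1)) + f t * (2 * (K + 1) * t ^ (2 * (K + 1) - 1))) t :=
        (hfd t).mul (Real.hasDerivAt_rpow_const (Or.inl (ne_of_gt ht')))
      rw [h1.deriv]
      have h2 : t ^ (2 * (K + 1) - 1) = t ^ (2 * (K + 1)) / t := by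
        rw [Real.rpow_sub_one (ne_of_gt ht')]
      rw [h2]
      have h3 := hbound t ht'
      have h4 : 0 < t ^ (2 * (K + 1)) := Real.rpow_pos_of_pos ht' _
      have h5 : (deriv F t).re * t ^ (2 * (K + 1)) + f t * (2 * (K + 1) * (t ^ (2 * (K + 1)) / t))
          = ((deriv F t).re + 2 * (K + 1) * f t / t) * t ^ (2 * (K + 1)) := by
        field_simp
      rw [h5]
      apply mul_nonneg _ h4.le
      linarith
  exact hmono (Set.mem_Ioi.mpr h0) (Set.mem_Ioi.mpr (lt_of_lt_of_le h0 h01)) h01

end Pool.Agent.H.MP_b3c6db_nt
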