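import Pool.Agent.H.MP_b3c6db_nt.Coeff
import Pool.Agent.H.MP_b3c6db_nt.Harnack

/-! The core inequality of the lower bound. -/

namespace Pool.Agent.H.MP_b3c6db_nt

open Finset Complex

theorem lower_core (H : ℕ) (c : ℕ → ℝ) (hadm : Admissible H c) (S : Finset ℕ) (y : ℝ)
    (hS : ∀ p ∈ S, p.Prime ∧ p % 4 = 3 ∧ (p : ℝ) ≤ y) (Λ : ℝ)
    (hΛ : ∀ k, k ≠ 0 → k ≤ H → Λ ≤ lam S k) (t₀ t₁ : ℝ) (h0 : 0 < t₀) (h01 : t₀ ≤ t₁)
    (h1 : 2 * (H : ℝ) * Real.exp (-(Λ * t₁)) ≤ 1) :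
    Real.exp (-(3 / 2 * t₀)) ^ S.card * (t₀ / t₁) ^ (8 * Real.sqrt y + 2) ≤ 2 * c 0 := by
  obtain ⟨hnn, hone⟩ := hadm
  set F : ℂ → ℂ := fun τ => ∑ k ∈ range (H + 1), tw S c τ k with hF
  set f : ℝ → ℝ := fun t => ∑ k ∈ range (H + 1), c k * Real.exp (-(t * lam S k)) with hf
  have hFdiff : Differentiable ℂ F := by
    intro τ
    simp only [hF]
    unfold tw
    fun_prop
  have hFf : ∀ t : ℝ, F t = f t := by
    intro t
    simp only [hF, hf]
    push_cast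
    rfl
  have hPF : ∀ τ : ℂ, P H (tw S c τ) 0 = (F τ).re := by
    intro τ
    simp only [hF]
    unfold P
    rw [Complex.re_sum]
    apply sum_congr rfl
    intro k _
    simp [ex_zero]
  have hnn' : ∀ x, 0 ≤ P H (fun k => (c k : ℂ)) x := by
    intro x
    rw [← cosPoly_eq_P]
    exact hnn x
  have hone' : P H (fun k => (c k : ℂ)) 0 = 1 := by
    rw [← cosPoly_eq_P]
    exact hone
  have hpos : ∀ τ : ℂ, 0 < τ.re → 4 * Real.sqrt y * |τ.im| ≤ τ.re → 0 ≤ (F τ).re := by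
    intro τ hτ hw
    have h2 := prod_op H c hnn' y τ hτ hw S hS 0
    rw [hPF, hone', mul_one] at h2
    exact le_trans (by positivity) h2
  have hflow : ∀ t : ℝ, 0 < t → Real.exp (-(3 / 2 * t)) ^ S.card ≤ f t := by
    intro t ht
    have h2 := prod_op H c hnn' y (t : ℂ) (by simpa using ht) (by simpa using ht.le) S hS 0
    rw [hPF, hone', mul_one, hFf] at h2
    simpa using h2
  have hfpos : ∀ t : ℝ, 0 < t → 0 < f t := fun t ht => lt_of_lt_of_le (by positivity) (hflow t ht)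
  have hH := harnack_wedge (F := F) (f := f) (K := 4 * Real.sqrt y) (by positivity) hFdiff hFf
    hpos hfpos h0 h01
  have ht1 : 0 < t₁ := lt_of_lt_of_le h0 h01
  have hc0 : 0 ≤ c 0 := by
    rw [← int_cosPoly H c]
    exact intervalIntegral.integral_nonneg (by norm_num) (fun x _ => hnn x)
  -- upper bound on f t₁
  have hup : f t₁ ≤ 2 * c 0 := by
    simp only [hf]
    rw [Finset.range_eq_Ico, Finset.sum_eq_sum_Ico_succ_bot (by omega)]
    have e0 : c 0 * Real.exp (-(t₁ * lam S 0)) = c 0 := by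
      unfold lam
      simp
    rw [e0]
    have e1 : ∑ k ∈ Finset.Ico (0 + 1) (H + 1), c k * Real.exp (-(t₁ * lam S k)) ≤
        ∑ k ∈ Finset.Ico (0 + 1) (H + 1), 2 * c 0 * Real.exp (-(Λ * t₁)) := by
      apply sum_le_sum
      intro k hk
      rw [Finset.mem_Ico] at hk
      have hk0 : k ≠ 0 := by omega
      have hkH : k ≤ H := by omega
      have e2 := coeff_bound H c hnn k hk0 hkH
      have e3 := le_of_abs_le e2
      have e4 : Real.exp (-(t₁ * lam S k)) ≤ Real.exp (-(Λ * t₁)) := by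
        apply Real.exp_le_exp.mpr
        have := mul_le_mul_of_nonneg_right (hΛ k hk0 hkH) ht1.le
        linarith
      calc c k * Real.exp (-(t₁ * lam S k)) ≤ 2 * c 0 * Real.exp (-(t₁ * lam S k)) :=
            mul_le_mul_of_nonneg_right e3 (Real.exp_pos _).le
        _ ≤ _ := mul_le_mul_of_nonneg_left e4 (by linarith)
    rw [sum_const, Nat.card_Ico] at e1
    simp only [nsmul_eq_mul] at e1
    have e5 : ((H + 1 - (0 + 1) : ℕ) : ℝ) = H := by
      have : H + 1 - (0 + 1) = H := by omega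
      rw [this]
    rw [e5] at e1
    have e6 : (H : ℝ) * (2 * c 0 * Real.exp (-(Λ * t₁))) ≤ c 0 := by
      calc (H : ℝ) * (2 * c 0 * Real.exp (-(Λ * t₁))) = c 0 * (2 * (H : ℝ) * Real.exp (-(Λ * t₁))) := by ring
        _ ≤ c 0 * 1 := mul_le_mul_of_nonneg_left h1 hc0
        _ = c 0 := mul_one _
    linarith
  have hexp : 2 * (4 * Real.sqrt y + 1) = 8 * Real.sqrt y + 2 := by ring
  rw [hexp] at hH
  have h3 : 0 < t₁ ^ (8 * Real.sqrt y + 2) := Real.rpow_pos_of_pos ht1 _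
  rw [Real.div_rpow h0.le ht1.le, ← mul_div_assoc, div_le_iff₀ h3]
  calc Real.exp (-(3 / 2 * t₀)) ^ S.card * t₀ ^ (8 * Real.sqrt y + 2)
      ≤ f t₀ * t₀ ^ (8 * Real.sqrt y + 2) :=
        mul_le_mul_of_nonneg_right (hflow t₀ h0) (Real.rpow_pos_of_pos h0 _).le
    _ ≤ f t₁ * t₁ ^ (8 * Real.sqrt y + 2) := hH
    _ ≤ _ := mul_le_mul_of_nonneg_right hup h3.le

end Pool.Agent.H.MP_b3c6db_nt
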