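import Pool.Agent.H.MP_b3c6db_nt.Primes3
import Pool.Agent.H.MP_b3c6db_nt.LowerCore

/-! Lower bound for `λ_S(k)`. -/

namespace Pool.Agent.H.MP_b3c6db_nt

open Finset Filter

/-- Jensen-type inequality. -/
lemma jensen_half (S : Finset ℕ) (v : ℕ → ℕ) (hS : S.Nonempty) :
    (S.card : ℝ) * Real.exp (-(Real.log 2 * ((∑ p ∈ S, (v p : ℝ)) / S.card))) ≤
      ∑ p ∈ S, (1 / 2 : ℝ) ^ (v p) := by
  have hn : (0 : ℝ) < S.card := by exact_mod_cast Finset.card_pos.mpr hS
  set x0 : ℝ := (∑ p ∈ S, (v p : ℝ)) / S.card with hx0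
  have h1 : ∀ p ∈ S, Real.exp (-(Real.log 2 * x0)) * (1 - Real.log 2 * ((v p : ℝ) - x0)) ≤
      (1 / 2 : ℝ) ^ (v p) := by
    intro p _
    have h2 : (1 / 2 : ℝ) ^ (v p) = Real.exp (-(Real.log 2 * x0)) *
        Real.exp (-(Real.log 2 * ((v p : ℝ) - x0))) := by
      rw [← Real.exp_add]
      have : -(Real.log 2 * x0) + -(Real.log 2 * ((v p : ℝ) - x0)) = (v p : ℝ) * (-Real.log 2) := by
        ring
      rw [this, Real.exp_nat_mul, Real.exp_neg, Real.exp_log (by norm_num)]
      norm_num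
    rw [h2]
    apply mul_le_mul_of_nonneg_left _ (Real.exp_pos _).le
    have := Real.add_one_le_exp (-(Real.log 2 * ((v p : ℝ) - x0)))
    linarith
  refine le_trans (le_of_eq ?_) (sum_le_sum h1)
  rw [← mul_sum, sum_sub_distrib, ← mul_sum, sum_sub_distrib, sum_const, sum_const]
  have h3 : ∑ p ∈ S, (v p : ℝ) = S.card * x0 := by
    rw [hx0]; field_simp
  rw [h3]
  simp only [nsmul_eq_mul]
  ring

/-- the total valuation is small. -/
lemma sum_val_le (y : ℝ) (hy : 1 < y) (k : ℕ) (hk : k ≠ 0) :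
    (∑ p ∈ P3 y, (padicValNat p k : ℝ)) * Real.log y ≤ 2 * Real.log k := by
  have h1 : ∏ p ∈ P3 y, p ^ (padicValNat p k) ∣ k := by
    apply Finset.prod_dvd_of_isRelPrime
    · intro p hp q hq hpq
      have hp' : p.Prime := by
        have := Finset.mem_coe.mp hp
        unfold P3 at this
        exact (mem_filter.mp this).2.1
      have hq' : q.Prime := by
        have := Finset.mem_coe.mp hq
        unfold P3 at this
        exact (mem_filter.mp this).2.1
      rw [Function.onFun, ← Nat.coprime_iff_isRelPrime]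
      exact Nat.Coprime.pow _ _ ((Nat.coprime_primes hp' hq').mpr hpq)
    · intro p _
      exact pow_padicValNat_dvd
  have h2 : ∏ p ∈ P3 y, p ^ (padicValNat p k) ≤ k := Nat.le_of_dvd (Nat.pos_of_ne_zero hk) h1
  have hprime : ∀ p ∈ P3 y, p.Prime ∧ Real.sqrt y < (p : ℝ) := by
    intro p hp
    unfold P3 at hp
    exact ⟨(mem_filter.mp hp).2.1, (mem_filter.mp hp).2.2.2⟩
  have h3 : Real.log ((∏ p ∈ P3 y, p ^ (padicValNat p k) : ℕ) : ℝ) ≤ Real.log k := by
    apply Real.log_le_log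
    · have : 0 < ∏ p ∈ P3 y, p ^ (padicValNat p k) :=
        Finset.prod_pos (fun p hp => pow_pos (hprime p hp).1.pos _)
      exact_mod_cast this
    · exact_mod_cast h2
  have h4 : Real.log ((∏ p ∈ P3 y, p ^ (padicValNat p k) : ℕ) : ℝ) =
      ∑ p ∈ P3 y, (padicValNat p k : ℝ) * Real.log p := by
    push_cast
    rw [Real.log_prod]
    · apply sum_congr rfl
      intro p _
      rw [Real.log_pow]
    · intro p hp
      have := (hprime p hp).1.pos
      positivity
  rw [h4] at h3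
  have h5 : ∑ p ∈ P3 y, (padicValNat p k : ℝ) * (Real.log y / 2) ≤
      ∑ p ∈ P3 y, (padicValNat p k : ℝ) * Real.log p := by
    apply sum_le_sum
    intro p hp
    apply mul_le_mul_of_nonneg_left _ (Nat.cast_nonneg _)
    have h6 : Real.log (Real.sqrt y) ≤ Real.log p :=
      Real.log_le_log (Real.sqrt_pos.mpr (by linarith)) (hprime p hp).2.le
    rwa [Real.log_sqrt (by linarith)] at h6
  rw [← sum_mul] at h5
  linarith

theorem lam_lower (y : ℝ) (hy : 1 < y) (hP : y / 2 ^ 50 ≤ ((P3 y).card : ℝ) * Real.log y)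
    (H : ℕ) (k : ℕ) (hk : k ≠ 0) (hkH : k ≤ H) :
    Real.exp (-(2 ^ 51 * Real.log H / y)) ≤ lam (P3 y) k := by
  have hlogy : 0 < Real.log y := Real.log_pos hy
  have hy0 : 0 < y := by linarith
  have hcard : (0 : ℝ) < ((P3 y).card : ℝ) := by
    by_contra h
    push Not at h
    have h1 : ((P3 y).card : ℝ) * Real.log y ≤ 0 := mul_nonpos_of_nonpos_of_nonneg h hlogy.le
    have h2 : 0 < y / 2 ^ 50 := by positivity
    linarith
  have hcard' : 0 < (P3 y).card := by exact_mod_cast hcard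
  have hne : (P3 y).Nonempty := Finset.card_pos.mp hcard'
  have h1 := jensen_half (P3 y) (fun p => padicValNat p k) hne
  have h2 := sum_val_le y hy k hk
  unfold lam
  rw [if_neg hk]
  refine le_trans ?_ h1
  have hc1 : (1 : ℝ) ≤ (P3 y).card := by exact_mod_cast hcard'
  have hlogk : Real.log k ≤ Real.log H := by
    apply Real.log_le_log
    · exact_mod_cast Nat.pos_of_ne_zero hk
    · exact_mod_cast hkH
  have hlogk0 : 0 ≤ Real.log k := Real.log_natCast_nonneg k
  have h3 : (∑ p ∈ P3 y, (padicValNat p k : ℝ)) / ((P3 y).card : ℝ) ≤ 2 ^ 51 * Real.log H / y := by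
    rw [div_le_div_iff₀ hcard hy0]
    -- V * y ≤ 2^51 log H * n
    have h4 : (∑ p ∈ P3 y, (padicValNat p k : ℝ)) ≤ 2 * Real.log H / Real.log y := by
      rw [le_div_iff₀ hlogy]
      linarith
    have h5 : y ≤ 2 ^ 50 * (((P3 y).card : ℝ) * Real.log y) := by
      rw [div_le_iff₀ (by positivity)] at hP
      linarith
    calc (∑ p ∈ P3 y, (padicValNat p k : ℝ)) * y
        ≤ (2 * Real.log H / Real.log y) * (2 ^ 50 * (((P3 y).card : ℝ) * Real.log y)) := by
          apply mul_le_mul h4 h5 hy0.le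
          have : 0 ≤ Real.log H := le_trans hlogk0 hlogk
          positivity
      _ = 2 ^ 51 * Real.log H * ((P3 y).card : ℝ) := by
          field_simp
  have hV : 0 ≤ (∑ p ∈ P3 y, (padicValNat p k : ℝ)) / ((P3 y).card : ℝ) := by positivity
  have h6 : Real.log 2 ≤ 1 := by
    have := Real.log_two_lt_d9
    linarith
  calc Real.exp (-(2 ^ 51 * Real.log H / y))
      ≤ Real.exp (-(Real.log 2 * ((∑ p ∈ P3 y, (padicValNat p k : ℝ)) / ((P3 y).card : ℝ)))) := by
        apply Real.exp_le_exp.mpr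
        have := mul_le_mul_of_nonneg_right h6 hV
        linarith
    _ ≤ _ := by
        have := mul_le_mul_of_nonneg_right hc1 (Real.exp_pos (-(Real.log 2 *
          ((∑ p ∈ P3 y, (padicValNat p k : ℝ)) / ((P3 y).card : ℝ))))).le
        linarith

end Pool.Agent.H.MP_b3c6db_nt
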