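import Mathlib

/-! The abstract mixture lemma. -/

namespace Pool.Agent.H.MP_b3c6db_nt

open Finset Complex

lemma re_exp_ge (w : ℂ) (h : |w.im| ≤ Real.pi / 3) : (1 / 2) * Real.exp w.re ≤ (Complex.exp w).re := by
  rw [Complex.exp_re]
  have h1 : Real.cos (Real.pi / 3) ≤ Real.cos w.im := by
    rw [← Real.cos_abs w.im]
    apply Real.cos_le_cos_of_nonneg_of_le_pi (abs_nonneg _)
    · linarith [Real.pi_pos]
    · exact h
  rw [Real.cos_pi_div_three] at h1
  have := Real.exp_pos w.re
  nlinarith

/-- Mixture lemma: `t i = exp (K0 - κ i - a i + Z i)` with `a (i+1) = a i / 2`. -/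
theorem mixture (K0 κ ε : ℝ) (a : ℕ → ℝ) (Z : ℕ → ℂ) (ω : ℂ) (I : ℕ)
    (hK0 : K0 ≤ 0) (hε : 0 < ε) (hε8 : ε ≤ 1 / 8) (hκε : (κ + 2) * ε ≤ 1 / 25)
    (ha0 : ∀ i, 0 ≤ a i) (ha : ∀ i, a (i + 1) = a i / 2)
    (hZ : ∀ i, ‖Z i‖ ≤ Real.pi / 24 + ε * a i)
    (hω1 : |ω.im| ≤ Real.pi / 4) (hω2 : ω.re ≤ 0) :
    -(2 * Real.exp (-(κ * I))) ≤
      (Complex.exp ω * ∑ i ∈ range (I + 1), Complex.exp (K0 - κ * i - a i + Z i)).re := by
  have hpi := Real.pi_gt_d2
  have hpi2 := Real.pi_lt_d2
  set t : ℕ → ℂ := fun i => Complex.exp (K0 - κ * i - a i + Z i) with ht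
  have htn : ∀ i, ‖t i‖ = Real.exp (K0 - κ * i - a i + (Z i).re) := by
    intro i
    simp only [ht]
    rw [Complex.norm_exp]
    congr 1
    simp
  have hVt : ∀ i, Complex.exp ω * t i = Complex.exp (ω + (K0 - κ * i - a i + Z i)) := by
    intro i
    simp only [ht]
    rw [← Complex.exp_add]
  -- good terms
  have hgood : ∀ i, ε * a i ≤ Real.pi / 24 →
      (1 / 2) * (Real.exp ω.re * ‖t i‖) ≤ (Complex.exp ω * t i).re := by
    intro i hi
    rw [hVt, htn, ← Real.exp_add]
    have h1 : (ω + (K0 - κ * i - a i + Z i)).re = ω.re + (K0 - κ * i - a i + (Z i).re) := by simp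
    have h2 : (ω + (K0 - κ * i - a i + Z i)).im = ω.im + (Z i).im := by simp
    rw [← h1]
    apply re_exp_ge
    rw [h2]
    have h3 := Complex.abs_im_le_norm (Z i)
    have h4 := hZ i
    calc |ω.im + (Z i).im| ≤ |ω.im| + |(Z i).im| := abs_add_le _ _
      _ ≤ Real.pi / 3 := by linarith
  -- bad terms: ratio
  have hbad : ∀ i, Real.pi / 24 < ε * a i → ‖t i‖ ≤ (1 / 4) * ‖t (i + 1)‖ := by
    intro i hi
    rw [htn, htn]
    have h3 := (abs_le.mp (Complex.abs_re_le_norm (Z i))).2
    have h4 := (abs_le.mp (Complex.abs_re_le_norm (Z (i + 1)))).1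
    have h5 := hZ i
    have h6 := hZ (i + 1)
    rw [ha i] at h6
    have h7 : Real.exp (-(2 : ℝ) + Real.pi / 12) ≤ 1 / 4 := by
      have h8 : -(2 : ℝ) + Real.pi / 12 ≤ -(1.4 : ℝ) := by linarith
      have h9 : Real.exp (-(2 : ℝ) + Real.pi / 12) ≤ Real.exp (-(1.4 : ℝ)) := Real.exp_le_exp.mpr h8
      have h10 : Real.exp (-(1.4 : ℝ)) ≤ 1 / 4 := by
        have h11 : Real.log 4 ≤ 1.4 := by
          have : Real.log 4 = 2 * Real.log 2 := by
            rw [show (4 : ℝ) = 2 ^ 2 by norm_num, Real.log_pow]; norm_num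
          rw [this]
          have := Real.log_two_lt_d9
          linarith
        have h12 : (1 / 4 : ℝ) = Real.exp (-Real.log 4) := by
          rw [Real.exp_neg, Real.exp_log (by norm_num)]
          norm_num
        rw [h12]
        apply Real.exp_le_exp.mpr
        linarith
      linarith
    have h13 : (κ + 2) ≤ (5 / 16) * a i := by
      have h14 : (κ + 2) * ε ≤ (5 / 16) * a i * ε := by nlinarith
      exact le_of_mul_le_mul_right h14 hε
    have h15 : ε * a i ≤ (1 / 8) * a i := mul_le_mul_of_nonneg_right hε8 (ha0 i)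
    have hcast : (((i + 1 : ℕ)) : ℝ) = (i : ℝ) + 1 := by push_cast; ring
    have h16 : K0 - κ * i - a i + (Z i).re ≤
        (-(2 : ℝ) + Real.pi / 12) + (K0 - κ * ((i + 1 : ℕ) : ℝ) - a (i + 1) + (Z (i + 1)).re) := by
      rw [hcast, ha i]
      nlinarith
    calc Real.exp (K0 - κ * i - a i + (Z i).re) ≤
          Real.exp ((-(2 : ℝ) + Real.pi / 12) + (K0 - κ * ((i + 1 : ℕ) : ℝ) - a (i + 1) + (Z (i + 1)).re)) :=
          Real.exp_le_exp.mpr h16
      _ = Real.exp (-(2 : ℝ) + Real.pi / 12) *
          Real.exp (K0 - κ * ((i + 1 : ℕ) : ℝ) - a (i + 1) + (Z (i + 1)).re) := by rw [Real.exp_add]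
      _ ≤ _ := mul_le_mul_of_nonneg_right h7 (Real.exp_pos _).le
  have hdec : ∀ i, a (i + 1) ≤ a i := by
    intro i
    rw [ha i]
    linarith [ha0 i]
  -- partial sums in the bad range
  have hS : ∀ i, Real.pi / 24 < ε * a i → ‖∑ j ∈ range (i + 1), t j‖ ≤ 2 * ‖t i‖ := by
    intro i
    induction i with
    | zero =>
      intro _
      simp
      linarith [norm_nonneg (t 0)]
    | succ i ih =>
      intro hi
      have hi' : Real.pi / 24 < ε * a i :=
        lt_of_lt_of_le hi (mul_le_mul_of_nonneg_left (hdec i) hε.le)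
      have h1 := ih hi'
      have h2 := hbad i hi'
      rw [Finset.sum_range_succ]
      refine (norm_add_le _ _).trans ?_
      linarith [norm_nonneg (t (i + 1))]
  have hVn : ‖Complex.exp ω‖ = Real.exp ω.re := Complex.norm_exp ω
  have hV1 : Real.exp ω.re ≤ 1 := Real.exp_le_one_iff.mpr hω2
  -- main induction
  have hanti : ∀ i j, i ≤ j → a j ≤ a i := by
    intro i j hij
    induction j, hij using Nat.le_induction with
    | base => exact le_rfl
    | succ n _ ih => exact (hdec n).trans ih
  have hmain : ∀ i, (∀ j < i, Real.pi / 24 < ε * a j) ∨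
      ((∃ j < i, ε * a j ≤ Real.pi / 24) ∧ 0 ≤ (Complex.exp ω * ∑ j ∈ range i, t j).re) := by
    intro i
    induction i with
    | zero => left; intro j hj; omega
    | succ i ih =>
      by_cases hgi : ε * a i ≤ Real.pi / 24
      · right
        refine ⟨⟨i, by omega, hgi⟩, ?_⟩
        have h1 := hgood i hgi
        rw [Finset.sum_range_succ, mul_add, Complex.add_re]
        rcases ih with hall | ⟨_, hpos⟩
        · rcases Nat.eq_zero_or_pos i with hi0 | hi0
          · subst hi0
            simp only [Finset.range_zero, Finset.sum_empty, mul_zero, Complex.zero_re, zero_add]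
            refine le_trans ?_ h1
            positivity
          · obtain ⟨m, rfl⟩ : ∃ m, i = m + 1 := ⟨i - 1, by omega⟩
            have h2 := hS m (hall m (by omega))
            have h3 := hbad m (hall m (by omega))
            have h4 : |(Complex.exp ω * ∑ j ∈ range (m + 1), t j).re| ≤
                Real.exp ω.re * ((1 / 2) * ‖t (m + 1)‖) := by
              refine (Complex.abs_re_le_norm _).trans ?_
              rw [norm_mul, hVn]
              apply mul_le_mul_of_nonneg_left _ (Real.exp_pos _).le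
              linarith
            have h5 := (abs_le.mp h4).1
            nlinarith
        · have : 0 ≤ (1 / 2) * (Real.exp ω.re * ‖t i‖) := by positivity
          linarith
      · push Not at hgi
        rcases ih with hall | ⟨⟨j, hj, hgj⟩, hpos⟩
        · left
          intro j hj
          rcases Nat.lt_succ_iff_lt_or_eq.mp hj with h | h
          · exact hall j h
          · subst h; exact hgi
        · exfalso
          have h1 := mul_le_mul_of_nonneg_left (hanti j i hj.le) hε.le
          linarith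
  rcases hmain (I + 1) with hall | ⟨_, hpos⟩
  · -- all bad
    have h1 := hS I (hall I (by omega))
    have h2 : |(Complex.exp ω * ∑ j ∈ range (I + 1), t j).re| ≤ 2 * Real.exp (-(κ * I)) := by
      refine (Complex.abs_re_le_norm _).trans ?_
      rw [norm_mul, hVn]
      have h3 : ‖t I‖ ≤ Real.exp (-(κ * I)) := by
        rw [htn]
        apply Real.exp_le_exp.mpr
        have h4 := (abs_le.mp (Complex.abs_re_le_norm (Z I))).2
        have h5 := hZ I
        have h6 := hall I (by omega)
        have h7 : ε * a I ≤ (1 / 8) * a I := mul_le_mul_of_nonneg_right hε8 (ha0 I)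
        linarith
      calc Real.exp ω.re * ‖∑ j ∈ range (I + 1), t j‖ ≤ 1 * (2 * ‖t I‖) :=
            mul_le_mul hV1 h1 (norm_nonneg _) (by norm_num)
        _ ≤ _ := by linarith
    exact (abs_le.mp h2).1
  · refine le_trans ?_ hpos
    have := Real.exp_pos (-(κ * I))
    linarith

end Pool.Agent.H.MP_b3c6db_nt
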