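import Pool.Agent.H.MP_b3c6db_nt.Factors
import Pool.Agent.H.MP_b3c6db_nt.Mixture

/-! Exponential form of the complete local sums. -/

namespace Pool.Agent.H.MP_b3c6db_nt

open Finset Complex

/-- exponents: `s` for small primes, `σ` for large ones. -/
noncomputable def sig (y s σ : ℝ) (p : ℕ) : ℝ := if (p : ℝ) ≤ y then s else σ

/-- weights at primes. -/
noncomputable def rhoF (y s σ : ℝ) (p : ℕ) : ℝ := (p : ℝ) ^ (-(sig y s σ p))

lemma exp_sub_one_le_two_mul (u : ℝ) (h0 : 0 ≤ u) (h1 : u ≤ 1) : Real.exp u - 1 ≤ 2 * u := by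
  have h2 := Real.abs_exp_sub_one_sub_id_le (x := u) (by rw [abs_of_nonneg h0]; exact h1)
  have h3 := (abs_le.mp h2).2
  nlinarith

lemma exp_sub_one_le_mul_exp (u : ℝ) : Real.exp u - 1 ≤ u * Real.exp u := by
  have h := Real.add_one_le_exp (-u)
  have h2 : Real.exp (-u) * Real.exp u = 1 := by rw [← Real.exp_add]; simp
  have h3 := mul_le_mul_of_nonneg_right h (Real.exp_pos u).le
  nlinarith

section

variable (p k : ℕ) (r : ℚ)

lemma factor_small (hp : p.Prime) (hk : 1 ≤ k) (hr : r.den = p ^ k) (y s : ℝ)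
    (hs0 : 0 ≤ s) (hs : s ≤ 1 / 4) (hsy : s * Real.log y ≤ 1 / 20) (hpy : (p : ℝ) ≤ y) :
    ∃ ζ : ℂ, ∑ e ∈ range (k + 1), (((p : ℝ) ^ (-s) : ℝ) : ℂ) ^ e * Dlt (p ^ e) r =
      Complex.exp ((-(s * (((k + 1) / 2 : ℕ) : ℝ) * Real.log p) : ℝ) + ζ) ∧
      ‖ζ‖ ≤ 15 * s * (Real.log p / Real.sqrt p) := by
  have hp2 : (2 : ℝ) ≤ p := by exact_mod_cast hp.two_le
  have hp0 : (0 : ℝ) < p := by linarith
  have hsp : 0 < Real.sqrt p := Real.sqrt_pos.mpr hp0
  have hsp1 : 1 ≤ Real.sqrt p := by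
    rw [show (1 : ℝ) = Real.sqrt 1 by simp]
    exact Real.sqrt_le_sqrt (by linarith)
  have hlogp : 0 ≤ Real.log p := Real.log_natCast_nonneg p
  have hlog : Real.log p ≤ Real.log y := Real.log_le_log hp0 hpy
  have hu : s * Real.log p ≤ 1 / 20 := by
    have := mul_le_mul_of_nonneg_left hlog hs0
    linarith
  have hu0 : 0 ≤ s * Real.log p := by positivity
  have h1 : (p : ℝ) ^ s - 1 ≤ 2 * (s * Real.log p) := by
    rw [Real.rpow_def_of_pos hp0, mul_comm (Real.log p) s]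
    exact exp_sub_one_le_two_mul _ hu0 (by linarith)
  obtain ⟨ζ, h2, h3⟩ := factor_gen p k r hp hk hr s hs0 hs (10 * s * (Real.log p / Real.sqrt p))
    (by
      rw [div_le_iff₀ hsp]
      calc 5 * ((p : ℝ) ^ s - 1) ≤ 5 * (2 * (s * Real.log p)) := by linarith
        _ = 10 * s * (Real.log p / Real.sqrt p) * Real.sqrt p := by field_simp; ring)
    (by
      have h4 : Real.log p / Real.sqrt p ≤ Real.log p := div_le_self hlogp hsp1
      have h5 := mul_le_mul_of_nonneg_left h4 (by positivity : (0 : ℝ) ≤ 10 * s)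
      nlinarith)
  refine ⟨ζ, h2, h3.trans (le_of_eq ?_)⟩
  ring

lemma factor_large (hp : p.Prime) (hk : 1 ≤ k) (hr : r.den = p ^ k) (y σ : ℝ) (hy : 740 ≤ y)
    (hσ0 : 0 ≤ σ) (hσ : σ ≤ 1 / 4) (hσy : σ * Real.log y ≤ 1) (hpy : y < (p : ℝ)) :
    ∃ ζ : ℂ, ∑ e ∈ range (k + 1), (((p : ℝ) ^ (-σ) : ℝ) : ℂ) ^ e * Dlt (p ^ e) r =
      Complex.exp ((-(σ * (((k + 1) / 2 : ℕ) : ℝ) * Real.log p) : ℝ) + ζ) ∧
      ‖ζ‖ ≤ 21 / Real.sqrt y * (σ * Real.log p) := by
  have hp2 : (2 : ℝ) ≤ p := by exact_mod_cast hp.two_le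
  have hp0 : (0 : ℝ) < p := by linarith
  have hy0 : 0 < y := by linarith
  have hsp : 0 < Real.sqrt p := Real.sqrt_pos.mpr hp0
  have hsy : 0 < Real.sqrt y := Real.sqrt_pos.mpr hy0
  have hlogp : 0 ≤ Real.log p := Real.log_natCast_nonneg p
  -- p^σ / √p ≤ e / √y
  have h1 : (p : ℝ) ^ σ / Real.sqrt p ≤ Real.exp 1 / Real.sqrt y := by
    have e1 : (p : ℝ) ^ σ / Real.sqrt p = (p : ℝ) ^ (σ - 1 / 2) := by
      rw [Real.rpow_sub hp0, Real.sqrt_eq_rpow]
    have e2 : Real.exp 1 / Real.sqrt y ≥ y ^ (σ - 1 / 2) := by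
      rw [Real.rpow_sub hy0, ← Real.sqrt_eq_rpow]
      apply div_le_div_of_nonneg_right _ hsy.le
      rw [Real.rpow_def_of_pos hy0]
      apply Real.exp_le_exp.mpr
      linarith
    rw [e1]
    refine le_trans ?_ e2
    exact Real.rpow_le_rpow_of_nonpos hy0 hpy.le (by linarith)
  have he : Real.exp 1 < 2.72 := by
    have := Real.exp_one_lt_d9
    linarith
  have hsy2 : 27.2 ≤ Real.sqrt y := by
    apply Real.le_sqrt_of_sq_le
    norm_num
    linarith
  obtain ⟨ζ, h2, h3⟩ := factor_gen p k r hp hk hr σ hσ0 hσ (5 * ((p : ℝ) ^ σ - 1) / Real.sqrt p)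
    le_rfl (by
      have h4 : 5 * ((p : ℝ) ^ σ - 1) / Real.sqrt p ≤ 5 * ((p : ℝ) ^ σ / Real.sqrt p) := by
        rw [← mul_div_assoc]
        apply div_le_div_of_nonneg_right _ hsp.le
        linarith
      have h5 : Real.exp 1 / Real.sqrt y ≤ 0.1 := by
        rw [div_le_iff₀ hsy]
        linarith
      linarith)
  refine ⟨ζ, h2, h3.trans ?_⟩
  have h6 : (p : ℝ) ^ σ - 1 ≤ (σ * Real.log p) * (p : ℝ) ^ σ := by
    rw [Real.rpow_def_of_pos hp0, mul_comm (Real.log p) σ]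
    exact exp_sub_one_le_mul_exp _
  have h7 : 0 ≤ σ * Real.log p := by positivity
  calc 3 / 2 * (5 * ((p : ℝ) ^ σ - 1) / Real.sqrt p)
      ≤ 3 / 2 * (5 * ((σ * Real.log p) * (p : ℝ) ^ σ) / Real.sqrt p) := by gcongr
    _ = 7.5 * (σ * Real.log p) * ((p : ℝ) ^ σ / Real.sqrt p) := by ring
    _ ≤ 7.5 * (σ * Real.log p) * (Real.exp 1 / Real.sqrt y) :=
        mul_le_mul_of_nonneg_left h1 (by positivity)
    _ ≤ 7.5 * (σ * Real.log p) * (2.8 / Real.sqrt y) := by
        apply mul_le_mul_of_nonneg_left _ (by positivity)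
        apply div_le_div_of_nonneg_right _ hsy.le
        linarith
    _ = 21 / Real.sqrt y * (σ * Real.log p) := by ring

end

/-- `K0` and `Λ`. -/
noncomputable def K0f (q : ℕ) (y s : ℝ) : ℝ :=
  -(∑ p ∈ q.primeFactors.filter (fun p : ℕ => (p : ℝ) ≤ y),
    s * (((q.factorization p + 1) / 2 : ℕ) : ℝ) * Real.log p)

noncomputable def Lam2 (q : ℕ) (y : ℝ) : ℝ :=
  ∑ p ∈ q.primeFactors.filter (fun p : ℕ => ¬ (p : ℝ) ≤ y),
    (((q.factorization p + 1) / 2 : ℕ) : ℝ) * Real.log p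

lemma Lam2_nonneg (q : ℕ) (y : ℝ) : 0 ≤ Lam2 q y := by
  unfold Lam2
  apply sum_nonneg
  intro p _
  have := Real.log_natCast_nonneg p
  positivity

lemma K0f_nonpos (q : ℕ) (y s : ℝ) (hs : 0 ≤ s) : K0f q y s ≤ 0 := by
  unfold K0f
  rw [neg_nonpos]
  apply sum_nonneg
  intro p _
  have := Real.log_natCast_nonneg p
  positivity

theorem E_exp (r : ℚ) (y s σ : ℝ) (hy : 740 ≤ y) (hs0 : 0 ≤ s) (hs : s ≤ 1 / 4)
    (hsy : s * Real.log y ≤ 1 / 20) (hssy : 400 * s * Real.sqrt y ≤ 1)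
    (hσ0 : 0 ≤ σ) (hσ : σ ≤ 1 / 4) (hσy : σ * Real.log y ≤ 1) :
    ∃ Z : ℂ, ∑ v ∈ r.den.divisors, Arho (fun p => ((rhoF y s σ p : ℝ) : ℂ)) v * Dlt v r =
      Complex.exp (K0f r.den y s - σ * Lam2 r.den y + Z) ∧
      ‖Z‖ ≤ Real.pi / 24 + 21 / Real.sqrt y * (σ * Lam2 r.den y) := by
  classical
  set q := r.den with hq
  obtain ⟨rp, hrp, hE⟩ := euler_struct (MonoidHom.id ℂ) q r.den_ne_zero r rfl
  have hE' := hE (fun p => ((rhoF y s σ p : ℝ) : ℂ))
  simp only [MonoidHom.id_apply] at hE'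
  have hy0 : 0 < y := by linarith
  -- choose the ζ's
  have hex : ∀ p ∈ q.primeFactors, ∃ ζ : ℂ,
      ∑ e ∈ range (q.factorization p + 1), ((rhoF y s σ p : ℝ) : ℂ) ^ e * Dlt (p ^ e) (rp p) =
      Complex.exp ((-(sig y s σ p * (((q.factorization p + 1) / 2 : ℕ) : ℝ) * Real.log p) : ℝ) + ζ) ∧
      ‖ζ‖ ≤ (if (p : ℝ) ≤ y then 15 * s * (Real.log p / Real.sqrt p)
        else 21 / Real.sqrt y * (σ * Real.log p)) := by
    intro p hp
    have hpp : p.Prime := Nat.prime_of_mem_primeFactors hp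
    have hk : 1 ≤ q.factorization p :=
      (hpp.dvd_iff_one_le_factorization r.den_ne_zero).mp (Nat.dvd_of_mem_primeFactors hp)
    unfold rhoF sig
    by_cases hpy : (p : ℝ) ≤ y
    · simp only [if_pos hpy]
      exact factor_small p _ (rp p) hpp hk (hrp p hp) y s hs0 hs hsy hpy
    · simp only [if_neg hpy]
      exact factor_large p _ (rp p) hpp hk (hrp p hp) y σ hy hσ0 hσ hσy (not_le.mp hpy)
  choose! ζ hζ1 hζ2 using hex
  refine ⟨∑ p ∈ q.primeFactors, ζ p, ?_, ?_⟩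
  · rw [hE', prod_congr rfl hζ1, ← Complex.exp_sum, sum_add_distrib]
    congr 2
    rw [← Complex.ofReal_sum]
    have h1 : ∑ p ∈ q.primeFactors,
        -(sig y s σ p * (((q.factorization p + 1) / 2 : ℕ) : ℝ) * Real.log p) =
        K0f q y s - σ * Lam2 q y := by
      unfold K0f Lam2
      rw [← Finset.sum_filter_add_sum_filter_not q.primeFactors (fun p : ℕ => (p : ℝ) ≤ y)]
      rw [mul_sum, sub_eq_add_neg, ← sum_neg_distrib, ← sum_neg_distrib]
      congr 1
      · apply sum_congr rfl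
        intro p hp
        rw [mem_filter] at hp
        unfold sig
        rw [if_pos hp.2]
      · apply sum_congr rfl
        intro p hp
        rw [mem_filter] at hp
        unfold sig
        rw [if_neg hp.2]
        ring
    rw [h1]
    push_cast
    ring
  · refine (norm_sum_le _ _).trans ?_
    refine (sum_le_sum hζ2).trans ?_
    rw [← Finset.sum_filter_add_sum_filter_not q.primeFactors (fun p : ℕ => (p : ℝ) ≤ y)]
    have h2 : ∑ p ∈ q.primeFactors.filter (fun p : ℕ => (p : ℝ) ≤ y),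
        (if (p : ℝ) ≤ y then 15 * s * (Real.log p / Real.sqrt p)
        else 21 / Real.sqrt y * (σ * Real.log p)) ≤ Real.pi / 24 := by
      have h3 : ∑ p ∈ q.primeFactors.filter (fun p : ℕ => (p : ℝ) ≤ y),
        (if (p : ℝ) ≤ y then 15 * s * (Real.log p / Real.sqrt p)
        else 21 / Real.sqrt y * (σ * Real.log p)) =
        15 * s * ∑ p ∈ q.primeFactors.filter (fun p : ℕ => (p : ℝ) ≤ y), Real.log p / Real.sqrt p := by
        rw [mul_sum]
        apply sum_congr rfl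
        intro p hp
        rw [mem_filter] at hp
        rw [if_pos hp.2]
      rw [h3]
      have h4 := sum_log_sqrt_subset y hy0.le (q.primeFactors.filter (fun p : ℕ => (p : ℝ) ≤ y)) (by
        intro p hp
        rw [mem_filter] at hp
        exact ⟨Nat.prime_of_mem_primeFactors hp.1, hp.2⟩)
      have h5 := mul_le_mul_of_nonneg_left h4 (by positivity : (0 : ℝ) ≤ 15 * s)
      refine h5.trans ?_
      have hpi := Real.pi_gt_three
      calc 15 * s * (3 * Real.sqrt y) = 45 / 400 * (400 * s * Real.sqrt y) := by ring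
        _ ≤ 45 / 400 * 1 := mul_le_mul_of_nonneg_left hssy (by norm_num)
        _ ≤ Real.pi / 24 := by linarith
    have h6 : ∑ p ∈ q.primeFactors.filter (fun p : ℕ => ¬ (p : ℝ) ≤ y),
        (if (p : ℝ) ≤ y then 15 * s * (Real.log p / Real.sqrt p)
        else 21 / Real.sqrt y * (σ * Real.log p)) ≤ 21 / Real.sqrt y * (σ * Lam2 q y) := by
      unfold Lam2
      rw [mul_sum, mul_sum]
      apply sum_le_sum
      intro p hp
      rw [mem_filter] at hp
      rw [if_neg hp.2]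
      have hpp : p.Prime := Nat.prime_of_mem_primeFactors hp.1
      have hk : 1 ≤ q.factorization p :=
        (hpp.dvd_iff_one_le_factorization r.den_ne_zero).mp (Nat.dvd_of_mem_primeFactors hp.1)
      have hJ : (1 : ℝ) ≤ (((q.factorization p + 1) / 2 : ℕ) : ℝ) := by
        have : 1 ≤ (q.factorization p + 1) / 2 := by omega
        exact_mod_cast this
      have hlogp : 0 ≤ Real.log p := Real.log_natCast_nonneg p
      have h7 : Real.log p ≤ (((q.factorization p + 1) / 2 : ℕ) : ℝ) * Real.log p := by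
        have := mul_le_mul_of_nonneg_right hJ hlogp
        linarith
      gcongr
    exact add_le_add h2 h6

end Pool.Agent.H.MP_b3c6db_nt
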