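import Pool.Agent.H.MP_b3c6db_nt.Expo

/-! The local positive operators at a prime `p ≡ 3 mod 4`. -/

namespace Pool.Agent.H.MP_b3c6db_nt

open Complex Finset

/-- Trigonometric sums with square frequencies and complex coefficients (real part). -/
noncomputable def P (H : ℕ) (a : ℕ → ℂ) (x : ℝ) : ℝ :=
  ∑ k ∈ range (H + 1), (a k * ex ((k : ℝ) ^ 2 * x)).re

lemma P_add (H : ℕ) (a : ℕ → ℂ) (x y : ℝ) :
    P H a (x + y) = ∑ k ∈ range (H + 1), (a k * ex ((k : ℝ) ^ 2 * x) * ex ((k : ℝ) ^ 2 * y)).re := by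
  unfold P
  apply sum_congr rfl
  intro k _
  rw [mul_add, ex_add, mul_assoc]

section gauss

variable (p : ℕ) [Fact p.Prime]

/-- the quadratic Gauss sum modulo `p`. -/
noncomputable def gs : ℂ :=
  ∑ b : ZMod p, ((quadraticChar (ZMod p) b : ℤ) : ℂ) * ZMod.stdAddChar b

lemma gs_eq : gs p = gaussSum ((quadraticChar (ZMod p)).ringHomComp (Int.castRingHom ℂ))
    (ZMod.stdAddChar (N := p)) := by
  unfold gs gaussSum
  rfl

lemma gs_sq (hp : p % 4 = 3) : gs p ^ 2 = -(p : ℂ) := by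
  have hp2 : ringChar (ZMod p) ≠ 2 := by
    rw [ZMod.ringChar_zmod_n]
    intro h
    omega
  rw [gs_eq, gaussSum_sq]
  · rw [ZMod.card]
    have h1 : quadraticChar (ZMod p) (-1) = -1 := by
      rw [quadraticChar_neg_one hp2, ZMod.card]
      exact ZMod.χ₄_nat_three_mod_four hp
    simp [MulChar.ringHomComp_apply, h1]
  · intro h
    have h2 := quadraticChar_ne_one hp2
    apply h2
    ext u
    have h3 : ((quadraticChar (ZMod p)).ringHomComp (Int.castRingHom ℂ)) u = (1 : MulChar (ZMod p) ℂ) u := by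
      rw [h]
    simp only [MulChar.ringHomComp_apply, MulChar.one_apply_coe, eq_intCast] at h3
    rw [MulChar.one_apply_coe]
    exact_mod_cast h3
  · exact (quadraticChar_isQuadratic _).comp _
  · exact ZMod.isPrimitive_stdAddChar p

/-- there is a sign `s` with `s * gs p = i √p`. -/
lemma exists_sign (hp : p % 4 = 3) :
    ∃ s : ℝ, (s = 1 ∨ s = -1) ∧ (s : ℂ) * gs p = Complex.I * (Real.sqrt p : ℂ) := by
  have h1 := gs_sq p hp
  have h2 : (Complex.I * (Real.sqrt p : ℂ)) ^ 2 = -(p : ℂ) := by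
    rw [mul_pow, Complex.I_sq, ← Complex.ofReal_pow, Real.sq_sqrt (Nat.cast_nonneg p)]
    simp
  have h3 : gs p ^ 2 = (Complex.I * (Real.sqrt p : ℂ)) ^ 2 := by rw [h1, h2]
  rcases sq_eq_sq_iff_eq_or_eq_neg.mp h3 with h | h
  · exact ⟨1, Or.inl rfl, by simp [h]⟩
  · exact ⟨-1, Or.inr rfl, by simp [h]⟩

/-- the twisted sum at a nonzero square. -/
lemma sum_quad_sq (hp : p % 4 = 3) (k : ℕ) :
    ∑ b : ZMod p, ((quadraticChar (ZMod p) b : ℤ) : ℂ) * ex (((k ^ 2 : ℕ) : ℝ) * (b.val : ℝ) / p)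
      = if p ∣ k then 0 else gs p := by
  have hp2 : ringChar (ZMod p) ≠ 2 := by
    rw [ZMod.ringChar_zmod_n]
    intro h
    omega
  simp_rw [ex_eq_stdAddChar]
  split_ifs with h
  · have h0 : (((k ^ 2 : ℕ)) : ZMod p) = 0 := by
      rw [ZMod.natCast_eq_zero_iff]
      exact dvd_pow h (by norm_num)
    simp only [h0, zero_mul, AddChar.map_zero_eq_one, mul_one]
    rw [← Int.cast_sum, quadraticChar_sum_zero hp2, Int.cast_zero]
  · have hk : ((k : ℕ) : ZMod p) ≠ 0 := by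
      rwa [Ne, ZMod.natCast_eq_zero_iff]
    have hk2 : (((k ^ 2 : ℕ)) : ZMod p) ≠ 0 := by
      push_cast
      exact pow_ne_zero 2 hk
    set u : (ZMod p)ˣ := Units.mk0 _ hk2 with hu
    have h1 := gaussSum_mulShift ((quadraticChar (ZMod p)).ringHomComp (Int.castRingHom ℂ))
      (ZMod.stdAddChar (N := p)) u
    have h2 : ((quadraticChar (ZMod p)).ringHomComp (Int.castRingHom ℂ)) (u : ZMod p) = 1 := by
      have h3 : quadraticChar (ZMod p) (u : ZMod p) = 1 := by
        simp only [hu, Units.val_mk0]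
        push_cast
        exact quadraticChar_sq_one' hk
      rw [MulChar.ringHomComp_apply, h3]
      simp
    rw [h2, one_mul, ← gs_eq] at h1
    rw [← h1]
    unfold gaussSum
    apply sum_congr rfl
    intro b _
    rw [AddChar.mulShift_apply]
    simp [hu, MulChar.ringHomComp_apply]

/-- the inner weighted sum over nonzero residues. -/
noncomputable def inner0 (α β : ℝ) (y : ℝ) : ℂ :=
  ∑ b ∈ (univ : Finset (ZMod p)).filter (· ≠ 0),
    ((α + β * ((quadraticChar (ZMod p) b : ℤ) : ℝ) : ℝ) : ℂ) * ex (y * (b.val : ℝ))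

lemma sum_all_ex (n : ℕ) :
    ∑ b : ZMod p, ex ((n : ℝ) * (b.val : ℝ) / p) = if p ∣ n then (p : ℂ) else 0 := by
  rw [← sum_range_ex p (Nat.Prime.pos Fact.out) n]
  haveI : NeZero p := ⟨(Nat.Prime.pos Fact.out).ne'⟩
  refine Finset.sum_nbij' (i := fun b => b.val) (j := fun b => (b : ZMod p)) ?_ ?_ ?_ ?_ ?_
  · intro a _
    exact mem_range.mpr (ZMod.val_lt a)
  · intro a _
    exact mem_univ _
  · intro a _
    exact ZMod.natCast_zmod_val a
  · intro a ha
    exact ZMod.val_natCast_of_lt (mem_range.mp ha)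
  · intro a _
    rfl

lemma inner0_eq (hp : p % 4 = 3) (α β : ℝ) (m : ℕ) :
    inner0 p α β ((m : ℝ) ^ 2 / p) =
      (α : ℂ) * ((if p ∣ m then (p : ℂ) else 0) - 1) + (β : ℂ) * (if p ∣ m then 0 else gs p) := by
  have h1 := sum_quad_sq p hp m
  have h2 := sum_all_ex p (m ^ 2)
  have hdiv : p ∣ m ^ 2 ↔ p ∣ m := by
    constructor
    · exact fun h => Nat.Prime.dvd_of_dvd_pow Fact.out h
    · exact fun h => dvd_pow h (by norm_num)
  simp only [hdiv] at h2
  rw [← h1, ← h2]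
  have h3 : ∀ b : ZMod p, ex ((m : ℝ) ^ 2 / p * (b.val : ℝ)) = ex (((m ^ 2 : ℕ) : ℝ) * (b.val : ℝ) / p) := by
    intro b
    congr 1
    push_cast
    ring
  unfold inner0
  simp_rw [h3]
  have h4 : ∑ b : ZMod p, ex (((m ^ 2 : ℕ) : ℝ) * (b.val : ℝ) / p) - 1 =
      ∑ b ∈ (univ : Finset (ZMod p)).filter (· ≠ 0), ex (((m ^ 2 : ℕ) : ℝ) * (b.val : ℝ) / p) := by
    rw [Finset.filter_ne', Finset.sum_erase_eq_sub (mem_univ 0)]
    simp [ex_zero]
  have h5 : ∑ b : ZMod p, ((quadraticChar (ZMod p) b : ℤ) : ℂ) * ex (((m ^ 2 : ℕ) : ℝ) * (b.val : ℝ) / p)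
      = ∑ b ∈ (univ : Finset (ZMod p)).filter (· ≠ 0),
        ((quadraticChar (ZMod p) b : ℤ) : ℂ) * ex (((m ^ 2 : ℕ) : ℝ) * (b.val : ℝ) / p) := by
    rw [Finset.filter_ne', Finset.sum_erase_eq_sub (mem_univ 0)]
    simp
  rw [h4, h5, mul_sum, mul_sum, ← sum_add_distrib]
  apply sum_congr rfl
  intro b _
  push_cast
  ring

/-- the level `j` kernel. -/
noncomputable def kern (j : ℕ) (α β : ℝ) (k : ℕ) : ℂ :=
  ∑ b1 ∈ range (p ^ (2 * j)), ∑ b ∈ (univ : Finset (ZMod p)).filter (· ≠ 0),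
    (((α + β * ((quadraticChar (ZMod p) b : ℤ) : ℝ)) / (p : ℝ) ^ (2 * j + 1) : ℝ) : ℂ) *
      ex ((k : ℝ) ^ 2 * (((b.val : ℝ) + p * b1) / (p : ℝ) ^ (2 * j + 1)))

lemma kern_eq (j : ℕ) (α β : ℝ) (k : ℕ) :
    kern p j α β k = (1 / (p : ℂ) ^ (2 * j + 1)) *
      (if p ^ (2 * j) ∣ k ^ 2 then ((p : ℂ) ^ (2 * j)) else 0) *
      inner0 p α β ((k : ℝ) ^ 2 / (p : ℝ) ^ (2 * j + 1)) := by
  have hp0 : (p : ℝ) ≠ 0 := by
    exact_mod_cast (Nat.Prime.pos (Fact.out : p.Prime)).ne'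
  have h1 := sum_range_ex (p ^ (2 * j)) (pow_pos (Nat.Prime.pos Fact.out) _) (k ^ 2)
  push_cast at h1
  rw [← h1]
  unfold kern inner0
  rw [mul_assoc, sum_mul_sum, mul_sum]
  apply sum_congr rfl
  intro b1 _
  rw [mul_sum]
  apply sum_congr rfl
  intro b _
  have h2 : (k : ℝ) ^ 2 * (((b.val : ℝ) + p * b1) / (p : ℝ) ^ (2 * j + 1)) =
      (k : ℝ) ^ 2 * b1 / (p : ℝ) ^ (2 * j) + (k : ℝ) ^ 2 / (p : ℝ) ^ (2 * j + 1) * (b.val : ℝ) := by
    field_simp
    ring
  rw [h2, ex_add]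
  push_cast
  ring

lemma kern_zero (hp : p % 4 = 3) (j : ℕ) (α β : ℝ) :
    kern p j α β 0 = (α : ℂ) * (((p : ℂ) - 1) / p) := by
  have hp0 : (p : ℂ) ≠ 0 := by
    exact_mod_cast (Nat.Prime.pos (Fact.out : p.Prime)).ne'
  rw [kern_eq]
  have h := inner0_eq p hp α β 0
  have h' : ((0 : ℕ) : ℝ) ^ 2 / (p : ℝ) ^ (2 * j + 1) = ((0 : ℕ) : ℝ) ^ 2 / (p : ℝ) := by simp
  rw [h', h]
  simp
  field_simp
  ring

lemma kern_mul (hp : p % 4 = 3) (j : ℕ) (α β : ℝ) (m : ℕ) :
    kern p j α β (p ^ j * m) = (1 / (p : ℂ)) *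
      ((α : ℂ) * ((if p ∣ m then (p : ℂ) else 0) - 1) + (β : ℂ) * (if p ∣ m then 0 else gs p)) := by
  have hp0 : (p : ℂ) ≠ 0 := by
    exact_mod_cast (Nat.Prime.pos (Fact.out : p.Prime)).ne'
  have hp0' : (p : ℝ) ≠ 0 := by
    exact_mod_cast (Nat.Prime.pos (Fact.out : p.Prime)).ne'
  rw [kern_eq, ← inner0_eq p hp α β m]
  have h1 : p ^ (2 * j) ∣ (p ^ j * m) ^ 2 := by
    rw [mul_pow, ← pow_mul, mul_comm j 2]
    exact Dvd.intro _ rfl
  have h2 : (((p ^ j * m : ℕ)) : ℝ) ^ 2 / (p : ℝ) ^ (2 * j + 1) = (m : ℝ) ^ 2 / p := by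
    push_cast
    field_simp
    ring
  rw [h2, if_pos h1]
  congr 1
  field_simp
  ring

lemma kern_lt (hp : p % 4 = 3) (j : ℕ) (α β : ℝ) (k : ℕ) (hk : k ≠ 0) (hj : j < padicValNat p k) :
    kern p j α β k = (α : ℂ) * (((p : ℂ) - 1) / p) := by
  have hp0 : (p : ℂ) ≠ 0 := by
    exact_mod_cast (Nat.Prime.pos (Fact.out : p.Prime)).ne'
  have h1 : p ^ (j + 1) ∣ k := (padicValNat_dvd_iff_le hk).mpr hj
  obtain ⟨m, rfl⟩ := h1
  have h2 : p ^ (j + 1) * m = p ^ j * (p * m) := by ring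
  rw [h2, kern_mul p hp]
  simp only [dvd_mul_right, if_true]
  field_simp
  ring

lemma kern_self (hp : p % 4 = 3) (j : ℕ) (α β : ℝ) (k : ℕ) (hk : k ≠ 0) (hj : j = padicValNat p k) :
    kern p j α β k = (-(α : ℂ) + β * gs p) / p := by
  have hp0 : (p : ℂ) ≠ 0 := by
    exact_mod_cast (Nat.Prime.pos (Fact.out : p.Prime)).ne'
  have h1 : p ^ j ∣ k := (padicValNat_dvd_iff_le hk).mpr hj.le
  have h3 : ¬ p ^ (j + 1) ∣ k := by
    rw [padicValNat_dvd_iff_le hk]
    omega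
  obtain ⟨m, rfl⟩ := h1
  have h4 : ¬ p ∣ m := by
    intro h
    apply h3
    rw [pow_succ]
    exact mul_dvd_mul_left _ h
  rw [kern_mul p hp, if_neg h4, if_neg h4]
  field_simp
  ring

lemma kern_gt (j : ℕ) (α β : ℝ) (k : ℕ) (hk : k ≠ 0) (hj : padicValNat p k < j) :
    kern p j α β k = 0 := by
  have h1 : ¬ p ^ (2 * j) ∣ k ^ 2 := by
    intro h
    rw [mul_comm, pow_mul, Nat.pow_dvd_pow_iff (by norm_num)] at h
    rw [padicValNat_dvd_iff_le hk] at h
    omega
  rw [kern_eq, if_neg h1]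
  simp

/-- The multiplier associated with level values `z` at the prime `p`. -/
noncomputable def hmul (a : ℕ → ℂ) (z : ℕ → ℂ) (k : ℕ) : ℂ :=
  if k = 0 then a 0 else a k * z (padicValNat p k)

/-- Key identity: the kernels sum to the multiplier. -/
lemma sum_kern (hp : p % 4 = 3) (E : ℕ) (z : ℕ → ℂ) (M : ℕ → ℝ) (hM : M E = 1)
    (hrec : ∀ j < E, (p : ℝ) * M j = M (j + 1) + (p - 1) * (z j).re)
    (s : ℝ) (hs : (s : ℂ) * gs p = Complex.I * (Real.sqrt p : ℂ))
    (k : ℕ) (hk : k ≠ 0 → padicValNat p k < E) :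
    (M 0 : ℂ) + ∑ j ∈ range E,
      kern p j (M (j + 1) - (z j).re) (s * Real.sqrt p * (z j).im) k =
      if k = 0 then 1 else z (padicValNat p k) := by
  have hp0 : (p : ℂ) ≠ 0 := by
    exact_mod_cast (Nat.Prime.pos (Fact.out : p.Prime)).ne'
  have hp0' : (p : ℝ) ≠ 0 := by
    exact_mod_cast (Nat.Prime.pos (Fact.out : p.Prime)).ne'
  have key : ∀ j < E, (((M (j + 1) - (z j).re : ℝ)) : ℂ) * (((p : ℂ) - 1) / p) =
      (M (j + 1) : ℂ) - (M j : ℂ) := by
    intro j hj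
    have h1 := hrec j hj
    have h2 : ((M (j + 1) - (z j).re : ℝ)) * (((p : ℝ) - 1) / p) = M (j + 1) - M j := by
      field_simp
      linarith
    exact_mod_cast congrArg (fun t : ℝ => (t : ℂ)) h2
  split_ifs with h0
  · subst h0
    have h1 : ∑ j ∈ range E,
      kern p j (M (j + 1) - (z j).re) (s * Real.sqrt p * (z j).im) 0 =
      ∑ j ∈ range E, ((M (j + 1) : ℂ) - (M j : ℂ)) := by
      apply sum_congr rfl
      intro j hj
      rw [kern_zero p hp, key j (mem_range.mp hj)]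
    rw [h1, Finset.sum_range_sub (fun j => (M j : ℂ)), hM]
    simp
  · have hv := hk h0
    set v := padicValNat p k with hvdef
    have hsplit : ∑ j ∈ range E,
      kern p j (M (j + 1) - (z j).re) (s * Real.sqrt p * (z j).im) k =
      ∑ j ∈ range (v + 1),
      kern p j (M (j + 1) - (z j).re) (s * Real.sqrt p * (z j).im) k := by
      symm
      apply Finset.sum_subset
      · intro j hj
        rw [mem_range] at *
        omega
      · intro j hj hj'
        rw [mem_range] at *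
        exact kern_gt p j _ _ k h0 (by omega)
    rw [hsplit, Finset.sum_range_succ]
    have h1 : ∑ j ∈ range v,
      kern p j (M (j + 1) - (z j).re) (s * Real.sqrt p * (z j).im) k =
      ∑ j ∈ range v, ((M (j + 1) : ℂ) - (M j : ℂ)) := by
      apply sum_congr rfl
      intro j hj
      rw [mem_range] at hj
      rw [kern_lt p hp j _ _ k h0 hj, key j (by omega)]
    rw [h1, Finset.sum_range_sub (fun j => (M j : ℂ)), kern_self p hp v _ _ k h0 hvdef]
    have h2 : ((s * Real.sqrt p * (z v).im : ℝ) : ℂ) * gs p = Complex.I * p * (z v).im := by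
      have h3 : (Real.sqrt p : ℂ) * (Real.sqrt p : ℂ) = (p : ℂ) := by
        rw [← Complex.ofReal_mul, Real.mul_self_sqrt (Nat.cast_nonneg p)]
        simp
      calc ((s * Real.sqrt p * (z v).im : ℝ) : ℂ) * gs p
          = (s * gs p) * ((Real.sqrt p : ℂ) * ((z v).im : ℂ)) := by push_cast; ring
        _ = Complex.I * (Real.sqrt p * Real.sqrt p) * (z v).im := by rw [hs]; ring
        _ = Complex.I * p * (z v).im := by rw [h3]
    rw [h2]
    have h4 := hrec v hv
    have h5 : (p : ℂ) * (M v : ℂ) = (M (v + 1) : ℂ) + (p - 1) * ((z v).re : ℂ) := by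
      exact_mod_cast congrArg (fun t : ℝ => (t : ℂ)) h4
    have h6 : z v = ((z v).re : ℂ) + ((z v).im : ℂ) * Complex.I := (Complex.re_add_im (z v)).symm
    have h7 : (z v) * p = (((z v).re : ℂ) + ((z v).im : ℂ) * Complex.I) * p := by rw [← h6]
    push_cast
    field_simp
    linear_combination h5 - h7

/-- The positive operator inequality: multiplying the coefficients by the level values. -/
theorem local_op (hp : p % 4 = 3) (H E : ℕ) (z : ℕ → ℂ) (M : ℕ → ℝ) (hM : M E = 1)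
    (hrec : ∀ j < E, (p : ℝ) * M j = M (j + 1) + (p - 1) * (z j).re)
    (hpos : ∀ j < E, (z j).re + Real.sqrt p * |(z j).im| ≤ M (j + 1))
    (hE : ∀ k ≤ H, k ≠ 0 → padicValNat p k < E)
    (a : ℕ → ℂ) (ha : ∀ x, 0 ≤ P H a x) (x : ℝ) :
    M 0 * P H a x ≤ P H (hmul p a z) x := by
  obtain ⟨s, hs1, hs⟩ := exists_sign p hp
  have hid : P H (hmul p a z) x = M 0 * P H a x +
      ∑ j ∈ range E, ∑ b1 ∈ range (p ^ (2 * j)), ∑ b ∈ (univ : Finset (ZMod p)).filter (· ≠ 0),
        (((M (j + 1) - (z j).re) + (s * Real.sqrt p * (z j).im) *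
          ((quadraticChar (ZMod p) b : ℤ) : ℝ)) / (p : ℝ) ^ (2 * j + 1)) *
        P H a (x + (((b.val : ℝ) + p * b1) / (p : ℝ) ^ (2 * j + 1))) := by
    have e1 : ∀ k ∈ range (H + 1), (hmul p a z k * ex ((k : ℝ) ^ 2 * x)).re =
        M 0 * (a k * ex ((k : ℝ) ^ 2 * x)).re +
        ∑ j ∈ range E, ∑ b1 ∈ range (p ^ (2 * j)), ∑ b ∈ (univ : Finset (ZMod p)).filter (· ≠ 0),
        (((M (j + 1) - (z j).re) + (s * Real.sqrt p * (z j).im) *
          ((quadraticChar (ZMod p) b : ℤ) : ℝ)) / (p : ℝ) ^ (2 * j + 1)) *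
        (a k * ex ((k : ℝ) ^ 2 * x) *
          ex ((k : ℝ) ^ 2 * (((b.val : ℝ) + p * b1) / (p : ℝ) ^ (2 * j + 1)))).re := by
      intro k hk
      have hkH : k ≤ H := by
        rw [mem_range] at hk
        omega
      have h1 := sum_kern p hp E z M hM hrec s hs k (hE k hkH)
      have h2 : hmul p a z k = a k * (if k = 0 then 1 else z (padicValNat p k)) := by
        unfold hmul
        split_ifs with h
        · subst h; simp
        · rfl
      rw [h2, ← h1]
      have h3 : a k * ((M 0 : ℂ) + ∑ j ∈ range E,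
          kern p j (M (j + 1) - (z j).re) (s * Real.sqrt p * (z j).im) k) * ex ((k : ℝ) ^ 2 * x)
          = (M 0 : ℂ) * (a k * ex ((k : ℝ) ^ 2 * x)) + ∑ j ∈ range E,
            ∑ b1 ∈ range (p ^ (2 * j)), ∑ b ∈ (univ : Finset (ZMod p)).filter (· ≠ 0),
            (((((M (j + 1) - (z j).re) + (s * Real.sqrt p * (z j).im) *
          ((quadraticChar (ZMod p) b : ℤ) : ℝ)) / (p : ℝ) ^ (2 * j + 1) : ℝ)) : ℂ) *
            (a k * ex ((k : ℝ) ^ 2 * x) *
          ex ((k : ℝ) ^ 2 * (((b.val : ℝ) + p * b1) / (p : ℝ) ^ (2 * j + 1)))) := by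
        have h4 : ∀ j, (a k * ex ((k : ℝ) ^ 2 * x)) *
            kern p j (M (j + 1) - (z j).re) (s * Real.sqrt p * (z j).im) k =
            ∑ b1 ∈ range (p ^ (2 * j)), ∑ b ∈ (univ : Finset (ZMod p)).filter (· ≠ 0),
            (((((M (j + 1) - (z j).re) + (s * Real.sqrt p * (z j).im) *
          ((quadraticChar (ZMod p) b : ℤ) : ℝ)) / (p : ℝ) ^ (2 * j + 1) : ℝ)) : ℂ) *
            (a k * ex ((k : ℝ) ^ 2 * x) *
          ex ((k : ℝ) ^ 2 * (((b.val : ℝ) + p * b1) / (p : ℝ) ^ (2 * j + 1)))) := by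
          intro j
          unfold kern
          rw [mul_sum]
          apply sum_congr rfl
          intro b1 _
          rw [mul_sum]
          apply sum_congr rfl
          intro b _
          ring
        simp_rw [← h4]
        rw [← mul_sum]
        ring
      rw [h3, Complex.add_re, Complex.re_ofReal_mul, Complex.re_sum]
      congr 1
      apply sum_congr rfl
      intro j _
      rw [Complex.re_sum]
      apply sum_congr rfl
      intro b1 _
      rw [Complex.re_sum]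
      apply sum_congr rfl
      intro b _
      rw [Complex.re_ofReal_mul]
    unfold P at *
    rw [sum_congr rfl e1, sum_add_distrib, ← mul_sum]
    congr 1
    rw [sum_comm]
    apply sum_congr rfl
    intro j _
    rw [sum_comm]
    apply sum_congr rfl
    intro b1 _
    rw [sum_comm]
    apply sum_congr rfl
    intro b _
    rw [← mul_sum]
    congr 1
    apply sum_congr rfl
    intro k _
    rw [mul_add, ex_add, mul_assoc]
  rw [hid]
  have hnn : 0 ≤ ∑ j ∈ range E, ∑ b1 ∈ range (p ^ (2 * j)), ∑ b ∈ (univ : Finset (ZMod p)).filter (· ≠ 0),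
        (((M (j + 1) - (z j).re) + (s * Real.sqrt p * (z j).im) *
          ((quadraticChar (ZMod p) b : ℤ) : ℝ)) / (p : ℝ) ^ (2 * j + 1)) *
        P H a (x + (((b.val : ℝ) + p * b1) / (p : ℝ) ^ (2 * j + 1))) := by
    apply sum_nonneg
    intro j hj
    apply sum_nonneg
    intro b1 _
    apply sum_nonneg
    intro b hb
    apply mul_nonneg _ (ha _)
    apply div_nonneg _ (by positivity)
    have h1 := hpos j (mem_range.mp hj)
    rw [mem_filter] at hb
    have h2 : |s * Real.sqrt p * (z j).im * ((quadraticChar (ZMod p) b : ℤ) : ℝ)| ≤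
        Real.sqrt p * |(z j).im| := by
      rw [abs_mul, abs_mul, abs_mul]
      have h3 : |s| = 1 := by
        rcases hs1 with h | h <;> rw [h] <;> norm_num
      have h4 : |((quadraticChar (ZMod p) b : ℤ) : ℝ)| = 1 := by
        rcases quadraticChar_dichotomy hb.2 with h | h <;> rw [h] <;> norm_num
      rw [h3, h4, abs_of_nonneg (Real.sqrt_nonneg _)]
      simp
    have h5 := neg_abs_le (s * Real.sqrt p * (z j).im * ((quadraticChar (ZMod p) b : ℤ) : ℝ))
    linarith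
  linarith

end gauss

end Pool.Agent.H.MP_b3c6db_nt
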