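import Pool.Agent.H.MP_b3c6db_nt.Euler

/-! Estimates for the local factors at prime powers. -/

namespace Pool.Agent.H.MP_b3c6db_nt

open Finset Complex

section

variable (p : ℕ) (k : ℕ) (r : ℚ)

/-- `G_e = g (p^{2e} r)`. -/
noncomputable def Ge (e : ℕ) : ℂ := gG (((p : ℚ) ^ e) ^ 2 * r)

lemma Ge_one (hr : r.den = p ^ k) (e : ℕ) (he : k ≤ 2 * e) : Ge p r e = 1 := by
  unfold Ge
  apply gG_of_den_one
  have h1 : ((p : ℚ) ^ (e * 2) * r).den ∣ 1 := by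
    apply den_pow_mul_dvd p k
    · rw [hr, mul_one]
    · omega
  rw [← pow_mul]
  exact Nat.dvd_one.mp h1

lemma norm_Ge_le (hp : p.Prime) (hr : r.den = p ^ k) (e J : ℕ) (hJ : 2 * J ≤ k + 1) (he : e < J) :
    ‖Ge p r e‖ ≤ Real.sqrt (2 * p) * (1 / (p : ℝ)) ^ (J - e) := by
  have hp0 : (0 : ℝ) < p := by exact_mod_cast hp.pos
  unfold Ge
  set r' : ℚ := ((p : ℚ) ^ e) ^ 2 * r with hr'
  have hpq : (p : ℚ) ≠ 0 := by exact_mod_cast hp.ne_zero
  have h1 : r.den ∣ r'.den * p ^ (2 * e) := by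
    have h2 : r = r' * (((p : ℚ) ^ (2 * e))⁻¹) := by
      rw [hr']
      field_simp
      ring
    have h3 := Rat.mul_den_dvd r' (((p : ℚ) ^ (2 * e))⁻¹)
    rw [← h2] at h3
    have h4 : (((p : ℚ) ^ (2 * e))⁻¹).den = p ^ (2 * e) := by
      rw [← Nat.cast_pow]
      rw [Rat.inv_natCast_den_of_pos (pow_pos hp.pos _)]
    rwa [h4] at h3
  have h5 : p ^ (k - 2 * e) ≤ r'.den := by
    rw [hr] at h1
    have h6 : p ^ k = p ^ (k - 2 * e) * p ^ (2 * e) := by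
      rw [← pow_add]; congr 1; omega
    rw [h6] at h1
    have h7 : p ^ (k - 2 * e) ∣ r'.den := Nat.dvd_of_mul_dvd_mul_right (pow_pos hp.pos _) h1
    exact Nat.le_of_dvd r'.den_pos h7
  refine (norm_gG_le r').trans ?_
  have h8 : Real.sqrt (2 * p) * (1 / (p : ℝ)) ^ (J - e) =
      Real.sqrt (2 * p * ((1 / (p : ℝ)) ^ (J - e)) ^ 2) := by
    conv_rhs => rw [Real.sqrt_mul (by positivity), Real.sqrt_sq (by positivity)]
  rw [h8]
  apply Real.sqrt_le_sqrt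
  have h9 : (p : ℝ) ^ (k - 2 * e) ≤ r'.den := by exact_mod_cast h5
  have h10 : (2 : ℝ) / r'.den ≤ 2 / (p : ℝ) ^ (k - 2 * e) :=
    div_le_div_of_nonneg_left (by norm_num) (by positivity) h9
  refine h10.trans ?_
  have h11 : 2 * (p : ℝ) * ((1 / (p : ℝ)) ^ (J - e)) ^ 2 = 2 / (p : ℝ) ^ (2 * (J - e) - 1) := by
    obtain ⟨m, hm⟩ : ∃ m, J - e = m + 1 := ⟨J - e - 1, by omega⟩
    rw [hm]
    have : 2 * (m + 1) - 1 = 2 * m + 1 := by omega
    rw [this, div_pow, one_pow, div_pow, one_pow, ← pow_mul]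
    field_simp
    ring
  rw [h11]
  apply div_le_div_of_nonneg_left (by norm_num) (by positivity)
  apply pow_le_pow_right₀
  · exact_mod_cast hp.one_le
  · omega

lemma geom_bound (x : ℝ) (hx : 1 < x) (J : ℕ) :
    ∑ e ∈ range J, (1 / x) ^ (J - e) ≤ 1 / (x - 1) := by
  induction J with
  | zero =>
    simp
    linarith
  | succ J ih =>
    have h1 : ∑ e ∈ range (J + 1), (1 / x) ^ (J + 1 - e) =
        (1 / x) * (∑ e ∈ range J, (1 / x) ^ (J - e) + 1) := by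
      rw [Finset.sum_range_succ]
      have h2 : ∀ e ∈ range J, (1 / x) ^ (J + 1 - e) = (1 / x) * (1 / x) ^ (J - e) := by
        intro e he
        rw [mem_range] at he
        rw [← pow_succ']
        congr 1
        omega
      rw [sum_congr rfl h2, ← mul_sum]
      have h3 : J + 1 - J = 1 := by omega
      rw [h3]
      ring
    rw [h1]
    have h4 : (1 / x) * (1 / (x - 1) + 1) = 1 / (x - 1) := by
      have : x - 1 ≠ 0 := by linarith
      field_simp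
      ring
    rw [← h4]
    apply mul_le_mul_of_nonneg_left _ (by positivity)
    linarith

lemma S_bound (hp : p.Prime) (hr : r.den = p ^ k) (J : ℕ) (hJ : 2 * J ≤ k + 1)
    (ρ : ℝ) (hρ : 0 < ρ) (hρp : 1 < ρ * p) :
    ∑ e ∈ range J, ρ ^ e * ‖Ge p r e‖ ≤ ρ ^ J * (Real.sqrt (2 * p) / (ρ * p - 1)) := by
  have hp0 : (0 : ℝ) < p := by exact_mod_cast hp.pos
  have h1 : ∀ e ∈ range J, ρ ^ e * ‖Ge p r e‖ ≤
      ρ ^ J * Real.sqrt (2 * p) * (1 / (ρ * p)) ^ (J - e) := by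
    intro e he
    rw [mem_range] at he
    have h2 := norm_Ge_le p k r hp hr e J hJ he
    have h3 : ρ ^ J = ρ ^ e * ρ ^ (J - e) := by
      rw [← pow_add]; congr 1; omega
    calc ρ ^ e * ‖Ge p r e‖ ≤ ρ ^ e * (Real.sqrt (2 * p) * (1 / (p : ℝ)) ^ (J - e)) :=
          mul_le_mul_of_nonneg_left h2 (by positivity)
      _ = ρ ^ J * Real.sqrt (2 * p) * (1 / (ρ * p)) ^ (J - e) := by
          rw [h3, div_pow, div_pow, mul_pow]
          field_simp
  refine (sum_le_sum h1).trans ?_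
  rw [← mul_sum]
  have h4 := geom_bound (ρ * p) hρp J
  calc ρ ^ J * Real.sqrt (2 * p) * ∑ e ∈ range J, (1 / (ρ * p)) ^ (J - e)
      ≤ ρ ^ J * Real.sqrt (2 * p) * (1 / (ρ * p - 1)) :=
        mul_le_mul_of_nonneg_left h4 (by positivity)
    _ = _ := by ring

lemma local_sum_eq (hp : p.Prime) (hr : r.den = p ^ k) (J : ℕ) (hJ1 : k ≤ 2 * J) (hJ2 : J ≤ k)
    (ρ : ℂ) :
    ∑ e ∈ range (k + 1), ρ ^ e * Dlt (p ^ e) r =
      ρ ^ J + (1 - ρ) * ∑ e ∈ range J, ρ ^ e * Ge p r e := by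
  -- general partial sums
  have key : ∀ n, ∑ e ∈ range (n + 1), ρ ^ e * Dlt (p ^ e) r =
      ρ ^ n * Ge p r n + (1 - ρ) * ∑ e ∈ range n, ρ ^ e * Ge p r e := by
    intro n
    induction n with
    | zero =>
      simp [Dlt_one, Ge]
    | succ n ih =>
      rw [Finset.sum_range_succ, ih, Dlt_prime_pow p n hp, Finset.sum_range_succ (n := n)]
      have h1 : gG (((p : ℚ) ^ (n + 1)) ^ 2 * r) = Ge p r (n + 1) := rfl
      have h2 : gG (((p : ℚ) ^ n) ^ 2 * r) = Ge p r n := rfl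
      rw [h1, h2]
      ring
  rw [key k]
  have h3 : ∀ n, J ≤ n → ρ ^ n * Ge p r n + (1 - ρ) * ∑ e ∈ range n, ρ ^ e * Ge p r e =
      ρ ^ J + (1 - ρ) * ∑ e ∈ range J, ρ ^ e * Ge p r e := by
    intro n hn
    induction n, hn using Nat.le_induction with
    | base => rw [Ge_one p k r hr J hJ1, mul_one]
    | succ n hn ih =>
      rw [Finset.sum_range_succ, ← ih, Ge_one p k r hr (n + 1) (by omega),
        Ge_one p k r hr n (by omega)]
      ring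
  exact h3 k hJ2

/-- Lemma A. -/
theorem local_factor (hp : p.Prime) (hk : 1 ≤ k) (hr : r.den = p ^ k)
    (ρ : ℝ) (hρ : 0 < ρ) (hρ1 : ρ ≤ 1) (hρp : 1 < ρ * p) :
    ∃ ξ : ℂ, ∑ e ∈ range (k + 1), (ρ : ℂ) ^ e * Dlt (p ^ e) r =
      ((ρ ^ ((k + 1) / 2) : ℝ) : ℂ) * (1 + ξ) ∧
      ‖ξ‖ ≤ (1 - ρ) * (Real.sqrt (2 * p) / (ρ * p - 1)) := by
  set J := (k + 1) / 2 with hJ
  have h1 := local_sum_eq p k r hp hr J (by omega) (by omega) (ρ : ℂ)
  have hρJ : (0 : ℝ) < ρ ^ J := by positivity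
  have hρJ' : ((ρ : ℂ)) ^ J ≠ 0 := by
    apply pow_ne_zero
    exact_mod_cast hρ.ne'
  refine ⟨(1 - ρ) * (∑ e ∈ range J, (ρ : ℂ) ^ e * Ge p r e) / (ρ : ℂ) ^ J, ?_, ?_⟩
  · rw [h1]
    push_cast
    field_simp
  · rw [norm_div, norm_mul, norm_pow, Complex.norm_real, Real.norm_eq_abs, abs_of_pos hρ,
      div_le_iff₀ hρJ]
    have h2 : ‖(1 - (ρ : ℂ))‖ = 1 - ρ := by
      rw [← Complex.ofReal_one, ← Complex.ofReal_sub, Complex.norm_real, Real.norm_eq_abs,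
        abs_of_nonneg (by linarith)]
    rw [h2]
    have h3 : ‖∑ e ∈ range J, (ρ : ℂ) ^ e * Ge p r e‖ ≤ ρ ^ J * (Real.sqrt (2 * p) / (ρ * p - 1)) := by
      refine (norm_sum_le _ _).trans ?_
      have h4 : ∀ e ∈ range J, ‖(ρ : ℂ) ^ e * Ge p r e‖ = ρ ^ e * ‖Ge p r e‖ := by
        intro e _
        rw [norm_mul, norm_pow, Complex.norm_real, Real.norm_eq_abs, abs_of_pos hρ]
      rw [sum_congr rfl h4]
      exact S_bound p k r hp hr J (by omega) ρ hρ hρp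
    have h5 := mul_le_mul_of_nonneg_left h3 (by linarith : (0 : ℝ) ≤ 1 - ρ)
    linarith

/-- Lemma B. -/
theorem local_abs (hp : p.Prime) (hk : 1 ≤ k) (hr : r.den = p ^ k)
    (ρ : ℝ) (hρ : 0 < ρ) (hρ1 : ρ ≤ 1) (hρp : 1 < ρ * p) :
    ∑ e ∈ range (k + 1), ρ ^ e * ‖Dlt (p ^ e) r‖ ≤
      ρ ^ ((k + 1) / 2) * (1 + 2 * (Real.sqrt (2 * p) / (ρ * p - 1))) := by
  set J := (k + 1) / 2 with hJ
  have key : ∀ n, n ≤ J → ∑ e ∈ range (n + 1), ρ ^ e * ‖Dlt (p ^ e) r‖ ≤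
      ρ ^ n * ‖Ge p r n‖ + 2 * ∑ e ∈ range n, ρ ^ e * ‖Ge p r e‖ := by
    intro n
    induction n with
    | zero =>
      intro _
      simp [Dlt_one, Ge]
    | succ n ih =>
      intro hn
      have ih' := ih (by omega)
      rw [Finset.sum_range_succ, Dlt_prime_pow p n hp,
        Finset.sum_range_succ (fun e => ρ ^ e * ‖Ge p r e‖) n]
      have h1 : gG (((p : ℚ) ^ (n + 1)) ^ 2 * r) = Ge p r (n + 1) := rfl
      have h2 : gG (((p : ℚ) ^ n) ^ 2 * r) = Ge p r n := rfl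
      rw [h1, h2]
      have h3 : ‖Ge p r (n + 1) - Ge p r n‖ ≤ ‖Ge p r (n + 1)‖ + ‖Ge p r n‖ := norm_sub_le _ _
      have h4 : ρ ^ (n + 1) * ‖Ge p r (n + 1) - Ge p r n‖ ≤
          ρ ^ (n + 1) * ‖Ge p r (n + 1)‖ + ρ ^ (n + 1) * ‖Ge p r n‖ := by
        rw [← mul_add]
        exact mul_le_mul_of_nonneg_left h3 (by positivity)
      have h5 : ρ ^ (n + 1) * ‖Ge p r n‖ ≤ ρ ^ n * ‖Ge p r n‖ := by
        apply mul_le_mul_of_nonneg_right _ (norm_nonneg _)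
        exact pow_le_pow_of_le_one hρ.le hρ1 (by omega)
      linarith
  have h6 : ∀ n, J ≤ n → ∑ e ∈ range (n + 1), ρ ^ e * ‖Dlt (p ^ e) r‖ =
      ∑ e ∈ range (J + 1), ρ ^ e * ‖Dlt (p ^ e) r‖ := by
    intro n hn
    induction n, hn using Nat.le_induction with
    | base => rfl
    | succ n hn ih =>
      rw [Finset.sum_range_succ, ih, Dlt_prime_pow p n hp]
      have h1 : gG (((p : ℚ) ^ (n + 1)) ^ 2 * r) = Ge p r (n + 1) := rfl
      have h2 : gG (((p : ℚ) ^ n) ^ 2 * r) = Ge p r n := rfl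
      rw [h1, h2, Ge_one p k r hr (n + 1) (by omega), Ge_one p k r hr n (by omega)]
      simp
  rw [h6 k (by omega)]
  refine (key J le_rfl).trans ?_
  rw [Ge_one p k r hr J (by omega)]
  have h7 := S_bound p k r hp hr J (by omega) ρ hρ hρp
  simp only [norm_one]
  linarith

end

end Pool.Agent.H.MP_b3c6db_nt
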