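import Pool.Agent.H.MP_b3c6db_nt.LocalExp

/-! Tail bound for the local sums. -/

namespace Pool.Agent.H.MP_b3c6db_nt

open Finset Complex

lemma Arho_mul_fun {R : Type*} [CommSemiring R] (ρ τ : ℕ → R) (v : ℕ) :
    Arho (fun p => ρ p * τ p) v = Arho ρ v * Arho τ v := by
  unfold Arho Finsupp.prod
  rw [← Finset.prod_mul_distrib]
  apply Finset.prod_congr rfl
  intro p _
  beta_reduce
  rw [mul_pow]

lemma Arho_congr {R : Type*} [CommSemiring R] (ρ τ : ℕ → R) (v : ℕ)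
    (h : ∀ p, p.Prime → ρ p = τ p) : Arho ρ v = Arho τ v := by
  unfold Arho Finsupp.prod
  apply Finset.prod_congr rfl
  intro p hp
  beta_reduce
  rw [h p (Nat.prime_of_mem_primeFactors (by rwa [Nat.support_factorization] at hp))]

lemma Arho_rpow (x : ℝ) (v : ℕ) (hv : v ≠ 0) : Arho (fun p => (p : ℝ) ^ x) v = (v : ℝ) ^ x := by
  unfold Arho Finsupp.prod
  have h1 : ∀ p ∈ v.factorization.support, ((p : ℝ) ^ x) ^ (v.factorization p) =
      ((p : ℝ) ^ (v.factorization p)) ^ x := by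
    intro p _
    rw [← Real.rpow_natCast ((p : ℝ) ^ x), ← Real.rpow_mul (Nat.cast_nonneg p), mul_comm,
      Real.rpow_mul (Nat.cast_nonneg p), Real.rpow_natCast]
  rw [Finset.prod_congr rfl h1, Real.finsetProd_rpow _ _ (fun p _ => by positivity)]
  congr 1
  conv_rhs => rw [← Nat.prod_factorization_pow_eq_self hv]
  unfold Finsupp.prod
  push_cast
  rfl

lemma Arho_ofReal (ρ : ℕ → ℝ) (v : ℕ) :
    Arho (fun p => ((ρ p : ℝ) : ℂ)) v = ((Arho ρ v : ℝ) : ℂ) := by
  unfold Arho Finsupp.prod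
  push_cast
  rfl

lemma Arho_nonneg (ρ : ℕ → ℝ) (hρ : ∀ p, 0 ≤ ρ p) (v : ℕ) : 0 ≤ Arho ρ v := by
  unfold Arho Finsupp.prod
  apply Finset.prod_nonneg
  intro p _
  exact pow_nonneg (hρ p) _

lemma Arho_le_one (ρ : ℕ → ℝ) (hρ : ∀ p, 0 ≤ ρ p) (hρ1 : ∀ p, p.Prime → ρ p ≤ 1) (v : ℕ) :
    Arho ρ v ≤ 1 := by
  unfold Arho Finsupp.prod
  apply Finset.prod_le_one
  · intro p _
    exact pow_nonneg (hρ p) _
  · intro p hp
    exact pow_le_one₀ (hρ p)
      (hρ1 p (Nat.prime_of_mem_primeFactors (by rwa [Nat.support_factorization] at hp)))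

lemma exp_neg_le_half (u : ℝ) (h0 : 0 ≤ u) (h1 : u ≤ 1) : Real.exp (-u) ≤ 1 - u / 2 := by
  have h2 := Real.quadratic_le_exp_of_nonneg h0
  have h3 : Real.exp (-u) * Real.exp u = 1 := by rw [← Real.exp_add]; simp
  have h4 := Real.exp_pos u
  have h5 : 1 ≤ (1 - u / 2) * Real.exp u := by
    have h6 : (1 - u / 2) * (1 + u + u ^ 2 / 2) ≤ (1 - u / 2) * Real.exp u :=
      mul_le_mul_of_nonneg_left h2 (by linarith)
    nlinarith [mul_nonneg h0 (sq_nonneg u), mul_nonneg h0 h0]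
  nlinarith

lemma rhoF_pos (y s σ : ℝ) (p : ℕ) (hp : p.Prime) : 0 < rhoF y s σ p := by
  have : (0 : ℝ) < p := by exact_mod_cast hp.pos
  exact Real.rpow_pos_of_pos this _

lemma rhoF_nonneg (y s σ : ℝ) (p : ℕ) : 0 ≤ rhoF y s σ p :=
  Real.rpow_nonneg (Nat.cast_nonneg p) _

lemma rhoF_le_one (y s σ : ℝ) (hs : 0 ≤ s) (hσ : 0 ≤ σ) (p : ℕ) (hp : p.Prime) :
    rhoF y s σ p ≤ 1 := by
  have : (1 : ℝ) ≤ p := by exact_mod_cast hp.one_le
  apply Real.rpow_le_one_of_one_le_of_nonpos this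
  unfold sig
  split_ifs <;> linarith

/-- local factor of the tail -/
lemma local_tail (p k : ℕ) (r : ℚ) (hp : p.Prime) (hk : 1 ≤ k) (hr : r.den = p ^ k) (τ : ℝ)
    (hτ0 : 0 ≤ τ) (hτ : τ ≤ 1 / 4) :
    ∑ e ∈ range (k + 1), ((p : ℝ) ^ (-τ)) ^ e * ‖Dlt (p ^ e) r‖ ≤
      (p : ℝ) ^ (-τ) + 10 / Real.sqrt p := by
  have hp2 : (2 : ℝ) ≤ p := by exact_mod_cast hp.two_le
  have hp0 : (0 : ℝ) < p := by linarith
  set ρ : ℝ := (p : ℝ) ^ (-τ) with hρdef
  have hρ : 0 < ρ := Real.rpow_pos_of_pos hp0 _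
  have hρ1 : ρ ≤ 1 := Real.rpow_le_one_of_one_le_of_nonpos (by linarith) (by linarith)
  have hρp : 3 / 2 ≤ ρ * p := rpow_ge_three_halves p τ hp2 hτ
  have h1 := local_abs p k r hp hk hr ρ hρ hρ1 (by linarith)
  refine h1.trans ?_
  have h2 := B_bound p ρ hp2 hρ hρp
  have hs : 0 < Real.sqrt p := Real.sqrt_pos.mpr hp0
  have h3 : ρ ^ ((k + 1) / 2) ≤ ρ := by
    have := pow_le_pow_of_le_one hρ.le hρ1 (show 1 ≤ (k + 1) / 2 by omega)
    simpa using this
  have h4 : 0 ≤ Real.sqrt (2 * p) / (ρ * p - 1) :=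
    div_nonneg (Real.sqrt_nonneg _) (by linarith)
  calc ρ ^ ((k + 1) / 2) * (1 + 2 * (Real.sqrt (2 * p) / (ρ * p - 1)))
      ≤ ρ * (1 + 2 * (Real.sqrt (2 * p) / (ρ * p - 1))) :=
        mul_le_mul_of_nonneg_right h3 (by linarith)
    _ ≤ ρ * (1 + 2 * (5 / (ρ * Real.sqrt p))) := by
        apply mul_le_mul_of_nonneg_left _ hρ.le
        linarith
    _ = ρ + 10 / Real.sqrt p := by
        field_simp
        ring

theorem tail_bound (r : ℚ) (y s σ : ℝ) (D : ℕ) (hD : 1 ≤ D) (hy : 400 ≤ y) (hs0 : 0 ≤ s)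
    (hs : s ≤ 1 / 4) (hbig : 40 ≤ s * Real.sqrt y * Real.log y) (hsσ : s ≤ σ) (hσ : σ ≤ 1 / 4) :
    ∑ v ∈ r.den.divisors.filter (fun v => D < v), Arho (rhoF y s σ) v * ‖Dlt v r‖ ≤
      (D : ℝ) ^ (-(s / 2)) * Real.exp (20 * Real.sqrt y) := by
  have hy0 : 0 < y := by linarith
  have hD0 : (0 : ℝ) < D := by exact_mod_cast hD
  set ρ' : ℕ → ℝ := fun p => (p : ℝ) ^ (-(sig y s σ p - s / 2)) with hρ'
  have hdec : ∀ v, v ≠ 0 → Arho (rhoF y s σ) v = Arho ρ' v * (v : ℝ) ^ (-(s / 2)) := by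
    intro v hv
    rw [← Arho_rpow (-(s / 2)) v hv, ← Arho_mul_fun]
    apply Arho_congr
    intro p hp
    have hp0 : (0 : ℝ) < p := by exact_mod_cast hp.pos
    simp only [hρ', rhoF]
    rw [← Real.rpow_add hp0]
    congr 1
    ring
  have hρ'0 : ∀ p, 0 ≤ ρ' p := fun p => Real.rpow_nonneg (Nat.cast_nonneg p) _
  have h1 : ∑ v ∈ r.den.divisors.filter (fun v => D < v), Arho (rhoF y s σ) v * ‖Dlt v r‖ ≤
      ∑ v ∈ r.den.divisors.filter (fun v => D < v),
        (D : ℝ) ^ (-(s / 2)) * (Arho ρ' v * ‖Dlt v r‖) := by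
    apply sum_le_sum
    intro v hv
    rw [mem_filter] at hv
    have hDv : (D : ℝ) ≤ v := by exact_mod_cast hv.2.le
    rw [hdec v (by omega)]
    have h2 : (v : ℝ) ^ (-(s / 2)) ≤ (D : ℝ) ^ (-(s / 2)) :=
      Real.rpow_le_rpow_of_nonpos hD0 hDv (by linarith)
    have h3 : 0 ≤ Arho ρ' v * ‖Dlt v r‖ := mul_nonneg (Arho_nonneg _ hρ'0 _) (norm_nonneg _)
    nlinarith
  refine h1.trans ?_
  rw [← mul_sum]
  apply mul_le_mul_of_nonneg_left _ (Real.rpow_nonneg hD0.le _)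
  have h4 : ∑ v ∈ r.den.divisors.filter (fun v => D < v), Arho ρ' v * ‖Dlt v r‖ ≤
      ∑ v ∈ r.den.divisors, Arho ρ' v * ‖Dlt v r‖ := by
    apply Finset.sum_le_sum_of_subset_of_nonneg (filter_subset _ _)
    intro v _ _
    exact mul_nonneg (Arho_nonneg _ hρ'0 _) (norm_nonneg _)
  refine h4.trans ?_
  obtain ⟨rp, hrp, hE⟩ := euler_struct ((normHom : ℂ →*₀ ℝ) : ℂ →* ℝ) r.den r.den_ne_zero r rfl
  have hE' := hE ρ'
  have hN : ∀ z : ℂ, ((normHom : ℂ →*₀ ℝ) : ℂ →* ℝ) z = ‖z‖ := fun z => rfl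
  simp only [hN] at hE'
  rw [hE']
  -- bound each factor
  set q := r.den with hq
  have hfac : ∀ p ∈ q.primeFactors, ∑ e ∈ range (q.factorization p + 1),
      ρ' p ^ e * ‖Dlt (p ^ e) (rp p)‖ ≤
      Real.exp (if (p : ℝ) ≤ y then 10 / Real.sqrt p else 0) := by
    intro p hp
    have hpp : p.Prime := Nat.prime_of_mem_primeFactors hp
    have hp2 : (2 : ℝ) ≤ p := by exact_mod_cast hpp.two_le
    have hp0 : (0 : ℝ) < p := by linarith
    have hk : 1 ≤ q.factorization p :=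
      (hpp.dvd_iff_one_le_factorization r.den_ne_zero).mp (Nat.dvd_of_mem_primeFactors hp)
    by_cases hpy : (p : ℝ) ≤ y
    · have hsig : sig y s σ p = s := by unfold sig; rw [if_pos hpy]
      have h5 := local_tail p _ (rp p) hpp hk (hrp p hp) (sig y s σ p - s / 2)
        (by rw [hsig]; linarith) (by rw [hsig]; linarith)
      refine h5.trans ?_
      rw [if_pos hpy]
      have h6 : (p : ℝ) ^ (-(sig y s σ p - s / 2)) ≤ 1 :=
        Real.rpow_le_one_of_one_le_of_nonpos (by linarith) (by rw [hsig]; linarith)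
      have h7 := Real.add_one_le_exp (10 / Real.sqrt p)
      linarith
    · have hsig : sig y s σ p = σ := by unfold sig; rw [if_neg hpy]
      rw [not_le] at hpy
      have h5 := local_tail p _ (rp p) hpp hk (hrp p hp) (sig y s σ p - s / 2)
        (by rw [hsig]; linarith) (by rw [hsig]; linarith)
      refine h5.trans ?_
      rw [if_neg (not_le.mpr hpy), Real.exp_zero]
      have h6 : (p : ℝ) ^ (-(sig y s σ p - s / 2)) ≤ (p : ℝ) ^ (-(s / 2)) := by
        apply Real.rpow_le_rpow_of_exponent_le (by linarith)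
        rw [hsig]
        linarith
      have hsqy : 20 ≤ Real.sqrt y := by
        apply Real.le_sqrt_of_sq_le
        norm_num
        exact hy
      have hsqp : Real.sqrt y ≤ Real.sqrt p := Real.sqrt_le_sqrt hpy.le
      have hsqp0 : 0 < Real.sqrt p := by linarith
      have hlog : Real.log y ≤ Real.log p := Real.log_le_log hy0 hpy.le
      have hlogy : 0 ≤ Real.log y := Real.log_nonneg (by linarith)
      set u : ℝ := s / 2 * Real.log p with hu
      have hu0 : 0 ≤ u := by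
        rw [hu]
        have : 0 ≤ Real.log p := by linarith
        positivity
      have h8 : (p : ℝ) ^ (-(s / 2)) = Real.exp (-u) := by
        rw [Real.rpow_def_of_pos hp0, hu]
        congr 1
        ring
      rw [h8] at h6
      have h9 : 10 / Real.sqrt p ≤ u / 2 := by
        rw [div_le_iff₀ hsqp0, hu]
        have h10 : s * Real.sqrt y * Real.log y ≤ s * Real.sqrt p * Real.log p := by
          gcongr
        linarith
      rcases le_total u 1 with hu1 | hu1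
      · have := exp_neg_le_half u hu0 hu1
        linarith
      · have h11 : Real.exp (-u) ≤ Real.exp (-1) := Real.exp_le_exp.mpr (by linarith)
        have h12 : Real.exp (-1) ≤ 1 - 1 / 2 := exp_neg_le_half 1 (by norm_num) le_rfl
        have h13 : 10 / Real.sqrt p ≤ 1 / 2 := by
          rw [div_le_iff₀ hsqp0]
          linarith
        linarith
  have h14 : ∏ p ∈ q.primeFactors, ∑ e ∈ range (q.factorization p + 1),
      ρ' p ^ e * ‖Dlt (p ^ e) (rp p)‖ ≤
      ∏ p ∈ q.primeFactors, Real.exp (if (p : ℝ) ≤ y then 10 / Real.sqrt p else 0) := by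
    apply Finset.prod_le_prod
    · intro p _
      apply sum_nonneg
      intro e _
      exact mul_nonneg (pow_nonneg (hρ'0 p) _) (norm_nonneg _)
    · exact hfac
  refine h14.trans ?_
  rw [← Real.exp_sum]
  apply Real.exp_le_exp.mpr
  rw [← Finset.sum_filter]
  have h15 : ∑ p ∈ q.primeFactors.filter (fun p : ℕ => (p : ℝ) ≤ y), 10 / Real.sqrt p =
      10 * ∑ p ∈ q.primeFactors.filter (fun p : ℕ => (p : ℝ) ≤ y), 1 / Real.sqrt p := by
    rw [mul_sum]
    apply sum_congr rfl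
    intro p _
    ring
  rw [h15]
  have h16 := sum_inv_sqrt_subset y hy0.le (q.primeFactors.filter (fun p : ℕ => (p : ℝ) ≤ y)) (by
    intro p hp
    rw [mem_filter] at hp
    exact ⟨Nat.prime_of_mem_primeFactors hp.1, hp.2⟩)
  linarith

end Pool.Agent.H.MP_b3c6db_nt
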