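import Pool.Agent.H.MP_b3c6db_nt.LamBound

/-! Final form of the lower bound for `delta`. -/

namespace Pool.Agent.H.MP_b3c6db_nt

open Finset Filter

lemma cosPoly_zero_nonneg (H : ℕ) (c : ℕ → ℝ) (hc : Admissible H c) : 0 ≤ c 0 := by
  rw [← int_cosPoly H c]
  exact intervalIntegral.integral_nonneg (by norm_num) (fun x _ => hc.1 x)

lemma admissible_trivial (H : ℕ) : Admissible H (fun k => if k = 0 then 1 else 0) := by
  have h1 : ∀ x, cosPoly H (fun k => if k = 0 then 1 else 0) x = 1 := by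
    intro x
    unfold cosPoly
    simp only [if_true]
    rw [Finset.sum_eq_zero]
    · simp
    · intro k hk
      rw [mem_Icc] at hk
      rw [if_neg (by omega)]
      simp
  exact ⟨fun x => by rw [h1]; norm_num, h1 0⟩

lemma delta_set_nonempty (H : ℕ) :
    {a : ℝ | ∃ c : ℕ → ℝ, Admissible H c ∧ c 0 = a}.Nonempty :=
  ⟨1, _, admissible_trivial H, by simp⟩

lemma delta_bddBelow (H : ℕ) : BddBelow {a : ℝ | ∃ c : ℕ → ℝ, Admissible H c ∧ c 0 = a} :=
  ⟨0, by rintro a ⟨c, hc, rfl⟩; exact cosPoly_zero_nonneg H c hc⟩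

lemma delta_antitone {H H' : ℕ} (h : H ≤ H') : delta H' ≤ delta H := by
  unfold delta
  apply csInf_le_csInf (delta_bddBelow H') (delta_set_nonempty H)
  rintro a ⟨c, hc, rfl⟩
  refine ⟨fun k => if k ≤ H then c k else 0, ?_, by simp⟩
  have h1 : ∀ x, cosPoly H' (fun k => if k ≤ H then c k else 0) x = cosPoly H c x := by
    intro x
    unfold cosPoly
    simp only [Nat.zero_le, if_true]
    congr 1
    have h2 : Icc 1 H ⊆ Icc 1 H' := Finset.Icc_subset_Icc_right h
    rw [← Finset.sum_subset h2]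
    · apply sum_congr rfl
      intro k hk
      rw [mem_Icc] at hk
      rw [if_pos hk.2]
    · intro k _ hk
      rw [mem_Icc] at hk
      have h3 : ¬ k ≤ H ∨ k < 1 := by omega
      rename_i hk'
      rw [mem_Icc] at hk'
      have : ¬ k ≤ H := by omega
      rw [if_neg this, zero_mul]
  exact ⟨fun x => by rw [h1]; exact hc.1 x, by rw [h1]; exact hc.2⟩

/-- eventual inequality in terms of `ℓ = log H`. -/
lemma eventually_params : ∀ᶠ ℓ : ℝ in atTop,
    1 ≤ ℓ ∧ 1 ≤ Real.log ℓ ∧ 1 ≤ ℓ / Real.log ℓ ∧ 1 < ℓ / Real.log ℓ ∧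
    (ℓ / Real.log ℓ) / 2 ^ 50 ≤ ((P3 (ℓ / Real.log ℓ)).card : ℝ) * Real.log (ℓ / Real.log ℓ) := by
  have h1 : Tendsto (fun ℓ : ℝ => ℓ / Real.log ℓ) atTop atTop := by
    have h2 : Tendsto (fun ℓ : ℝ => Real.log ℓ / ℓ) atTop (nhdsWithin 0 (Set.Ioi 0)) := by
      rw [tendsto_nhdsWithin_iff]
      constructor
      · have := Real.isLittleO_log_id_atTop.tendsto_div_nhds_zero
        simpa using this
      · filter_upwards [eventually_gt_atTop (1 : ℝ)] with ℓ hℓ
        have : 0 < Real.log ℓ := Real.log_pos hℓ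
        have : 0 < ℓ := by linarith
        exact Set.mem_Ioi.mpr (by positivity)
    have h3 := h2.inv_tendsto_nhdsGT_zero
    refine h3.congr (fun ℓ => ?_)
    simp
  have h4 := h1.eventually P3_card
  have h5 := h1.eventually (eventually_gt_atTop (1 : ℝ))
  have h6 := Real.tendsto_log_atTop.eventually (eventually_ge_atTop (1 : ℝ))
  filter_upwards [h4, h5, h6, eventually_ge_atTop (1 : ℝ)] with ℓ h4 h5 h6 h7
  exact ⟨h7, h6, h5.le, h5, h4⟩

theorem lower_eventually : ∀ᶠ H : ℕ in atTop,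
    Real.exp (-(2 ^ 58 * Real.sqrt (Real.log H * Real.log (Real.log H)))) ≤ delta H := by
  have hlog : Tendsto (fun H : ℕ => Real.log (H : ℝ)) atTop atTop :=
    Real.tendsto_log_atTop.comp tendsto_natCast_atTop_atTop
  filter_upwards [hlog.eventually eventually_params, eventually_ge_atTop 1] with H hH hH1
  obtain ⟨hℓ1, hL1, hy1, hy1', hP⟩ := hH
  set ℓ := Real.log (H : ℝ) with hℓ
  set L := Real.log ℓ with hL
  set y := ℓ / L with hy
  have hy0 : 0 < y := by linarith
  have hL0 : 0 < L := by linarith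
  have hℓ0 : 0 < ℓ := by linarith
  have hHpos : (0 : ℝ) < H := by exact_mod_cast hH1
  apply le_csInf (delta_set_nonempty H)
  rintro a ⟨c, hc, rfl⟩
  set Λ : ℝ := Real.exp (-(2 ^ 51 * L)) with hΛ
  have hΛpos : 0 < Λ := Real.exp_pos _
  have hlam : ∀ k, k ≠ 0 → k ≤ H → Λ ≤ lam (P3 y) k := by
    intro k hk hkH
    have h1 := lam_lower y hy1' hP H k hk hkH
    have h2 : 2 ^ 51 * Real.log (H : ℝ) / y = 2 ^ 51 * L := by
      rw [hy, ← hℓ]
      field_simp
    rw [h2] at h1
    exact h1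
  set t₀ : ℝ := 1 / Real.sqrt y with ht0
  set t₁ : ℝ := 2 * ℓ / Λ with ht1
  have hsy : 0 < Real.sqrt y := Real.sqrt_pos.mpr hy0
  have hsy1 : 1 ≤ Real.sqrt y := by
    rw [show (1 : ℝ) = Real.sqrt 1 by simp]
    exact Real.sqrt_le_sqrt hy1
  have ht0pos : 0 < t₀ := by positivity
  have ht0le : t₀ ≤ 1 := by
    rw [ht0, div_le_one hsy]
    exact hsy1
  have hΛ1 : Λ ≤ 1 := by
    rw [hΛ]
    apply Real.exp_le_one_iff.mpr
    have : 0 ≤ 2 ^ 51 * L := by positivity
    linarith
  have ht1ge : 1 ≤ t₁ := by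
    rw [ht1, le_div_iff₀ hΛpos]
    linarith
  have hcore := lower_core H c hc (P3 y) y (by
    intro p hp
    unfold P3 at hp
    rw [mem_filter, mem_Ioc] at hp
    refine ⟨hp.2.1, hp.2.2.1, ?_⟩
    exact le_trans (by exact_mod_cast hp.1.2) (Nat.floor_le hy0.le)) Λ hlam t₀ t₁ ht0pos
    (ht0le.trans ht1ge) (by
      have h1 : Λ * t₁ = 2 * ℓ := by rw [ht1]; field_simp
      rw [h1]
      have h2 : Real.exp (-(2 * ℓ)) = (1 / (H : ℝ)) * Real.exp (-ℓ) := by
        have : -(2 * ℓ) = -ℓ + -ℓ := by ring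
        rw [this, Real.exp_add]
        congr 1
        rw [hℓ, Real.exp_neg, Real.exp_log hHpos]
        simp
      rw [h2]
      have h3 : 2 * (H : ℝ) * (1 / (H : ℝ) * Real.exp (-ℓ)) = 2 * Real.exp (-ℓ) := by
        field_simp
      rw [h3]
      have h4 : Real.exp (-ℓ) ≤ Real.exp (-1) := Real.exp_le_exp.mpr (by linarith)
      have h5 : Real.exp (-1) < 1 / 2 := by
        have := Real.exp_neg_one_lt_d9
        linarith
      linarith)
  -- lower bounds
  have hcardle : ((P3 y).card : ℝ) ≤ y := by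
    have h1 : (P3 y).card ≤ (Ioc 0 ⌊y⌋₊).card := Finset.card_filter_le _ _
    rw [Nat.card_Ioc, Nat.sub_zero] at h1
    exact le_trans (by exact_mod_cast h1) (Nat.floor_le hy0.le)
  have e1 : Real.exp (-(3 / 2 * Real.sqrt y)) ≤ Real.exp (-(3 / 2 * t₀)) ^ (P3 y).card := by
    rw [← Real.exp_nat_mul]
    apply Real.exp_le_exp.mpr
    have h1 : ((P3 y).card : ℝ) * t₀ ≤ Real.sqrt y := by
      calc ((P3 y).card : ℝ) * t₀ ≤ y * t₀ := mul_le_mul_of_nonneg_right hcardle ht0pos.le
        _ = Real.sqrt y := by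
          rw [ht0]
          have : y = Real.sqrt y * Real.sqrt y := (Real.mul_self_sqrt hy0.le).symm
          field_simp
          linarith [Real.sq_sqrt hy0.le]
    linarith
  have hratio : Real.exp (-(2 ^ 53 * L)) ≤ t₀ / t₁ := by
    have h1 : t₀ / t₁ = Λ / (2 * ℓ * Real.sqrt y) := by
      rw [ht0, ht1]
      field_simp
    rw [h1, le_div_iff₀ (by positivity), hΛ]
    have h2 : Real.sqrt y ≤ ℓ := by
      have h3 : y ≤ ℓ := by
        rw [hy, div_le_iff₀ hL0]
        nlinarith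
      have h4 : Real.sqrt y ≤ y := by
        have := Real.mul_self_sqrt hy0.le
        nlinarith
      linarith
    have h5 : ℓ = Real.exp L := by rw [hL, Real.exp_log hℓ0]
    have h6 : (2 : ℝ) ≤ Real.exp L := by
      have : Real.exp 1 ≤ Real.exp L := Real.exp_le_exp.mpr hL1
      have := Real.exp_one_gt_d9
      linarith
    have h7 : 2 * ℓ * Real.sqrt y ≤ Real.exp (3 * L) := by
      have : Real.exp (3 * L) = Real.exp L * Real.exp L * Real.exp L := by
        rw [← Real.exp_add, ← Real.exp_add]; congr 1; ring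
      rw [this, ← h5]
      have h8 : 2 ≤ ℓ := by rw [h5]; exact h6
      have : 0 ≤ Real.sqrt y := hsy.le
      nlinarith [mul_nonneg hℓ0.le hℓ0.le]
    calc Real.exp (-(2 ^ 53 * L)) * (2 * ℓ * Real.sqrt y)
        ≤ Real.exp (-(2 ^ 53 * L)) * Real.exp (3 * L) :=
          mul_le_mul_of_nonneg_left h7 (Real.exp_pos _).le
      _ = Real.exp (-(2 ^ 53 * L) + 3 * L) := by rw [Real.exp_add]
      _ ≤ Real.exp (-(2 ^ 51 * L)) := by
          apply Real.exp_le_exp.mpr
          nlinarith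
  have e2 : Real.exp (-(2 ^ 57 * (Real.sqrt y * L))) ≤ (t₀ / t₁) ^ (8 * Real.sqrt y + 2) := by
    have h1 : Real.exp (-(2 ^ 53 * L)) ^ (8 * Real.sqrt y + 2) ≤ (t₀ / t₁) ^ (8 * Real.sqrt y + 2) :=
      Real.rpow_le_rpow (Real.exp_pos _).le hratio (by positivity)
    refine le_trans ?_ h1
    rw [← Real.exp_mul]
    apply Real.exp_le_exp.mpr
    have h2 : (8 * Real.sqrt y + 2) ≤ 10 * Real.sqrt y := by linarith
    have h3 : 2 ^ 53 * L * (8 * Real.sqrt y + 2) ≤ 2 ^ 53 * L * (10 * Real.sqrt y) :=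
      mul_le_mul_of_nonneg_left h2 (by positivity)
    have h4 : 2 ^ 53 * L * (10 * Real.sqrt y) ≤ 2 ^ 57 * (Real.sqrt y * L) := by
      have : 0 ≤ Real.sqrt y * L := by positivity
      nlinarith
    linarith
  have e3 : Real.exp (-(3 / 2 * Real.sqrt y)) * Real.exp (-(2 ^ 57 * (Real.sqrt y * L))) ≤ 2 * c 0 :=
    le_trans (mul_le_mul e1 e2 (Real.exp_pos _).le (by positivity)) hcore
  have hsq : Real.sqrt (ℓ * L) = Real.sqrt y * L := by
    have h1 : ℓ * L = y * L ^ 2 := by
      rw [hy]; field_simp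
    rw [h1, Real.sqrt_mul hy0.le, Real.sqrt_sq hL0.le]
  rw [hsq]
  have e4 : Real.exp (-(2 ^ 58 * (Real.sqrt y * L))) ≤
      (1 / 2) * (Real.exp (-(3 / 2 * Real.sqrt y)) * Real.exp (-(2 ^ 57 * (Real.sqrt y * L)))) := by
    have h1 : (1 / 2 : ℝ) ≥ Real.exp (-1) := by
      have := Real.exp_neg_one_lt_d9
      linarith
    have h2 : Real.exp (-1) * (Real.exp (-(3 / 2 * Real.sqrt y)) * Real.exp (-(2 ^ 57 * (Real.sqrt y * L))))
        ≤ (1 / 2) * (Real.exp (-(3 / 2 * Real.sqrt y)) * Real.exp (-(2 ^ 57 * (Real.sqrt y * L)))) :=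
      mul_le_mul_of_nonneg_right h1 (by positivity)
    refine le_trans ?_ h2
    rw [← Real.exp_add, ← Real.exp_add]
    apply Real.exp_le_exp.mpr
    have h3 : Real.sqrt y ≤ Real.sqrt y * L := by nlinarith
    nlinarith
  generalize Real.exp (-(3 / 2 * Real.sqrt y)) * Real.exp (-(2 ^ 57 * (Real.sqrt y * L))) = A at e3 e4
  refine e4.trans ?_
  calc 1 / 2 * A ≤ 1 / 2 * (2 * c 0) := mul_le_mul_of_nonneg_left e3 (by norm_num)
    _ = c 0 := by ring

/-- **Lower bound.** -/
theorem lower_bound : ∃ C : ℝ, 0 < C ∧ ∀ H : ℕ, 3 ≤ H →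
    Real.exp (-(C * Real.sqrt (Real.log H * Real.log (Real.log H)))) ≤ delta H := by
  obtain ⟨H0, hH0⟩ := eventually_atTop.mp lower_eventually
  set H1 := max H0 3 with hH1
  have hge := hH0 H1 (le_max_left _ _)
  set ε := delta H1 with hε
  have hεpos : 0 < ε := lt_of_lt_of_le (Real.exp_pos _) hge
  have hlog3 : 1 < Real.log 3 := by
    rw [Real.lt_log_iff_exp_lt (by norm_num)]
    have := Real.exp_one_lt_d9
    linarith
  set m : ℝ := Real.sqrt (Real.log 3 * Real.log (Real.log 3)) with hm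
  have hmpos : 0 < m := by
    apply Real.sqrt_pos.mpr
    have : 0 < Real.log (Real.log 3) := Real.log_pos hlog3
    positivity
  set C := max (2 ^ 58) (|Real.log ε| / m) with hC
  have hC1 : (2 : ℝ) ^ 58 ≤ C := le_max_left _ _
  have hC2 : |Real.log ε| / m ≤ C := le_max_right _ _
  refine ⟨C, lt_of_lt_of_le (by positivity) hC1, ?_⟩
  intro H hH
  have hmono : m ≤ Real.sqrt (Real.log H * Real.log (Real.log H)) := by
    apply Real.sqrt_le_sqrt
    have h1 : Real.log 3 ≤ Real.log H := Real.log_le_log (by norm_num) (by exact_mod_cast hH)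
    have h2 : Real.log (Real.log 3) ≤ Real.log (Real.log H) := Real.log_le_log (by linarith) h1
    have h3 : 0 < Real.log (Real.log 3) := Real.log_pos hlog3
    exact mul_le_mul h1 h2 h3.le (by linarith)
  rcases Nat.lt_or_ge H H0 with h | h
  · have h1 : delta H1 ≤ delta H := delta_antitone (by
      rw [hH1]
      exact le_trans h.le (le_max_left _ _))
    refine le_trans ?_ h1
    rw [← hε]
    have h2 : Real.exp (Real.log ε) = ε := Real.exp_log hεpos
    rw [← h2]
    apply Real.exp_le_exp.mpr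
    have h3 : |Real.log ε| ≤ C * m := by
      rw [div_le_iff₀ hmpos] at hC2
      exact hC2
    have h4 : C * m ≤ C * Real.sqrt (Real.log H * Real.log (Real.log H)) :=
      mul_le_mul_of_nonneg_left hmono (by linarith [show (0:ℝ) < 2 ^ 58 by positivity])
    have h5 := neg_abs_le (Real.log ε)
    linarith
  · refine le_trans ?_ (hH0 H h)
    apply Real.exp_le_exp.mpr
    have := mul_le_mul_of_nonneg_right hC1 (Real.sqrt_nonneg (Real.log H * Real.log (Real.log H)))
    linarith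

end Pool.Agent.H.MP_b3c6db_nt
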