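import Mathlib

/-! Mertens-type estimate and Chebyshev-type lower bound for primes `≡ 3 mod 4`. -/

namespace Pool.Agent.H.MP_b3c6db_nt

open Finset ArithmeticFunction

/-- the real-valued character modulo `4`. -/
noncomputable def x4 (n : ℕ) : ℝ := ((ZMod.χ₄ (n : ZMod 4) : ℤ) : ℝ)

lemma x4_mul (m n : ℕ) : x4 (m * n) = x4 m * x4 n := by
  unfold x4
  push_cast
  rw [map_mul]
  push_cast
  ring

lemma x4_of_mod (n : ℕ) : x4 n = if n % 2 = 0 then 0 else if n % 4 = 1 then 1 else -1 := by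
  unfold x4
  rw [ZMod.χ₄_nat_eq_if_mod_four]
  split_ifs <;> simp

/-- partial sums of `x4` lie in `{0,1}`. -/
noncomputable def S4 (n : ℕ) : ℝ := ∑ m ∈ Ioc 0 n, x4 m

lemma S4_succ (n : ℕ) : S4 (n + 1) = S4 n + x4 (n + 1) := by
  unfold S4
  rw [Finset.sum_Ioc_succ_top (by omega)]

lemma S4_eq (n : ℕ) : S4 n = if n % 4 = 1 ∨ n % 4 = 2 then 1 else 0 := by
  induction n with
  | zero => simp [S4]
  | succ n ih =>
    rw [S4_succ, ih, x4_of_mod]
    have h4 : n % 4 = 0 ∨ n % 4 = 1 ∨ n % 4 = 2 ∨ n % 4 = 3 := by omega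
    rcases h4 with h | h | h | h
    · have h1 : (n + 1) % 2 = 1 := by omega
      have h2 : (n + 1) % 4 = 1 := by omega
      simp [h, h1, h2]
    · have h1 : (n + 1) % 2 = 0 := by omega
      have h2 : (n + 1) % 4 = 2 := by omega
      simp [h, h1, h2]
    · have h1 : (n + 1) % 2 = 1 := by omega
      have h2 : (n + 1) % 4 = 3 := by omega
      simp [h, h1, h2]
    · have h1 : (n + 1) % 2 = 0 := by omega
      have h2 : (n + 1) % 4 = 0 := by omega
      simp [h, h1, h2]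

lemma S4_nonneg (n : ℕ) : 0 ≤ S4 n := by
  rw [S4_eq]; split_ifs <;> norm_num

lemma S4_le_one (n : ℕ) : S4 n ≤ 1 := by
  rw [S4_eq]; split_ifs <;> norm_num

/-- Abel summation bound for a nonincreasing nonnegative weight beyond `M`. -/
lemma abel_bound (g : ℕ → ℝ) (M : ℕ) (hg : ∀ n, M < n → g (n + 1) ≤ g n)
    (N : ℕ) (hMN : M ≤ N) :
    - (S4 M * g (M + 1)) ≤ (∑ n ∈ Ioc M N, x4 n * g n) - S4 N * g (N + 1) ∧
    (∑ n ∈ Ioc M N, x4 n * g n) - S4 N * g (N + 1) ≤
      - (S4 M * g (M + 1)) + (g (M + 1) - g (N + 1)) := by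
  induction N, hMN using Nat.le_induction with
  | base => simp
  | succ N hN ih =>
    rw [Finset.sum_Ioc_succ_top (by omega)]
    have h1 : x4 (N + 1) = S4 (N + 1) - S4 N := by rw [S4_succ]; ring
    have h2 := hg (N + 1) (by omega)
    have h3 := S4_nonneg (N + 1)
    have h4 := S4_le_one (N + 1)
    rw [h1]
    constructor
    · nlinarith [ih.1]
    · nlinarith [ih.2]

lemma abel_bound' (g : ℕ → ℝ) (M : ℕ) (hg : ∀ n, M < n → g (n + 1) ≤ g n)
    (hg0 : ∀ n, M < n → 0 ≤ g n)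
    (N : ℕ) (hMN : M ≤ N) :
    - (S4 M * g (M + 1)) ≤ ∑ n ∈ Ioc M N, x4 n * g n ∧
    ∑ n ∈ Ioc M N, x4 n * g n ≤ g (M + 1) := by
  obtain ⟨h1, h2⟩ := abel_bound g M hg N hMN
  have h3 := S4_nonneg N
  have h4 := S4_le_one N
  have h5 := hg0 (N + 1) (by omega)
  have h6 := S4_nonneg M
  have h7 := hg0 (M + 1) (by omega)
  constructor
  · nlinarith [mul_nonneg h3 h5]
  · nlinarith [mul_nonneg h6 h7, mul_nonneg (sub_nonneg.mpr h4) h5]

/-- partial sums of `L(1, χ₄)`. -/
noncomputable def L4 (N : ℕ) : ℝ := ∑ m ∈ Ioc 0 N, x4 m * (1 / (m : ℝ))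

lemma inv_anti (n : ℕ) (hn : 0 < n) : (1 / ((n + 1 : ℕ) : ℝ)) ≤ 1 / (n : ℝ) := by
  apply one_div_le_one_div_of_le
  · exact_mod_cast hn
  · push_cast; linarith

lemma L4_lower (N : ℕ) (hN : 1 ≤ N) : 2 / 3 ≤ L4 N := by
  rcases Nat.lt_or_ge N 2 with h | h
  · have : N = 1 := by omega
    subst this
    unfold L4
    simp [x4_of_mod]
    norm_num
  · have h1 := (abel_bound' (fun n => 1 / (n : ℝ)) 2 (fun n hn => inv_anti n (by omega))
      (fun n _ => by positivity) N h).1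
    have h2 : L4 N = L4 2 + ∑ n ∈ Ioc 2 N, x4 n * (1 / (n : ℝ)) := by
      unfold L4
      rw [Finset.sum_Ioc_consecutive _ (by omega) h]
    have h3 : L4 2 = 1 := by
      unfold L4
      rw [show Ioc 0 2 = {1, 2} by decide]
      simp [x4_of_mod]
    have h4 : S4 2 = 1 := by simp [S4_eq]
    rw [h4] at h1
    rw [h2, h3]
    norm_num at h1 ⊢
    linarith

lemma L4_diff (z N : ℕ) (hz : z ≤ N) : |L4 N - L4 z| ≤ 1 / ((z : ℝ) + 1) := by
  have h0 : L4 N = L4 z + ∑ n ∈ Ioc z N, x4 n * (1 / (n : ℝ)) := by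
    unfold L4
    rw [Finset.sum_Ioc_consecutive _ (by omega) hz]
  have h1 := abel_bound' (fun n => 1 / (n : ℝ)) z (fun n hn => inv_anti n (by omega))
      (fun n _ => by positivity) N hz
  have h2 := S4_nonneg z
  have h3 := S4_le_one z
  have h4 : (0 : ℝ) < 1 / ((z : ℝ) + 1) := by positivity
  rw [h0, add_sub_cancel_left, abs_le]
  have h5 : (((z + 1 : ℕ)) : ℝ) = (z : ℝ) + 1 := by push_cast; ring
  rw [h5] at h1
  constructor
  · nlinarith [h1.1]
  · exact h1.2

lemma log_div_anti (n : ℕ) (hn : 3 ≤ n) :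
    Real.log ((n + 1 : ℕ) : ℝ) / ((n + 1 : ℕ) : ℝ) ≤ Real.log (n : ℝ) / (n : ℝ) := by
  have he : Real.exp 1 ≤ (n : ℝ) := by
    have := Real.exp_one_lt_d9
    have h3 : (3 : ℝ) ≤ n := by exact_mod_cast hn
    linarith
  apply Real.log_div_self_antitoneOn
  · exact he
  · have h4 : Real.exp 1 ≤ (((n + 1 : ℕ)) : ℝ) := by
      push_cast
      linarith
    exact h4
  · push_cast; linarith

lemma logsum_bound (N : ℕ) : |∑ n ∈ Ioc 0 N, x4 n * (Real.log n / n)| ≤ 1 := by
  rcases Nat.lt_or_ge N 2 with h | h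
  · have : N = 0 ∨ N = 1 := by omega
    rcases this with rfl | rfl
    · simp
    · simp
  · have h1 := abel_bound' (fun n => Real.log n / (n : ℝ)) 2
      (fun n hn => log_div_anti n (by omega))
      (fun n hn => div_nonneg (Real.log_natCast_nonneg n) (Nat.cast_nonneg n)) N h
    have h2 : ∑ n ∈ Ioc 0 N, x4 n * (Real.log n / n) =
        ∑ n ∈ Ioc 0 2, x4 n * (Real.log n / n) + ∑ n ∈ Ioc 2 N, x4 n * (Real.log n / n) := by
      rw [Finset.sum_Ioc_consecutive _ (by omega) h]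
    have h3 : ∑ n ∈ Ioc 0 2, x4 n * (Real.log n / n) = 0 := by
      rw [show Ioc 0 2 = {1, 2} by decide]
      simp [x4_of_mod]
    have h4 : S4 2 = 1 := by simp [S4_eq]
    have h5 : Real.log (((2 + 1 : ℕ)) : ℝ) / (((2 + 1 : ℕ)) : ℝ) ≤ 1 := by
      rw [div_le_one (by norm_num)]
      have := Real.log_le_sub_one_of_pos (show (0 : ℝ) < ((2 + 1 : ℕ) : ℝ) by norm_num)
      linarith
    rw [h4] at h1
    rw [h2, h3, zero_add, abs_le]
    constructor
    · linarith [h1.1]
    · linarith [h1.2]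

/-- `χ(n) Λ(n) / n` as an arithmetic function. -/
noncomputable def fA : ArithmeticFunction ℝ := ⟨fun n => x4 n * vonMangoldt n / n, by simp⟩

/-- `χ(n) / n` as an arithmetic function. -/
noncomputable def gA : ArithmeticFunction ℝ := ⟨fun n => x4 n * (1 / n), by simp⟩

lemma fA_mul_gA (n : ℕ) : (fA * gA) n = x4 n * (Real.log n / n) := by
  rw [ArithmeticFunction.mul_apply]
  rcases Nat.eq_zero_or_pos n with rfl | hn
  · simp
  have h1 : ∀ x ∈ n.divisorsAntidiagonal, fA x.1 * gA x.2 = x4 n / n * vonMangoldt x.1 := by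
    intro x hx
    rw [Nat.mem_divisorsAntidiagonal] at hx
    have hx1 : (x.1 : ℝ) ≠ 0 := by
      intro h
      have : x.1 = 0 := by exact_mod_cast h
      rw [this] at hx
      simp at hx
      omega
    have hx2 : (x.2 : ℝ) ≠ 0 := by
      intro h
      have : x.2 = 0 := by exact_mod_cast h
      rw [this] at hx
      simp at hx
      omega
    simp only [fA, gA, ArithmeticFunction.coe_mk]
    rw [← hx.1, x4_mul]
    push_cast
    field_simp
  rw [sum_congr rfl h1, ← mul_sum]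
  have h2 : ∑ x ∈ n.divisorsAntidiagonal, vonMangoldt x.1 = Real.log n := by
    rw [Nat.sum_divisorsAntidiagonal (fun i _ => vonMangoldt i), vonMangoldt_sum]
  rw [h2]
  ring

/-- `∑_{d ≤ N} χ(d) Λ(d) / d`. -/
noncomputable def A4 (N : ℕ) : ℝ := ∑ d ∈ Ioc 0 N, x4 d * vonMangoldt d / d

lemma psi_nat_le (N : ℕ) : ∑ d ∈ Ioc 0 N, vonMangoldt d ≤ 6 * (N : ℝ) := by
  have h1 := Chebyshev.psi_le_const_mul_self (x := (N : ℝ)) (Nat.cast_nonneg N)
  unfold Chebyshev.psi at h1
  rw [Nat.floor_natCast] at h1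
  have h2 : Real.log 4 ≤ 2 := by
    have : Real.log 4 = 2 * Real.log 2 := by
      rw [show (4 : ℝ) = 2 ^ 2 by norm_num, Real.log_pow]; norm_num
    rw [this]
    have := Real.log_two_lt_d9
    linarith
  refine h1.trans ?_
  have h3 : (0 : ℝ) ≤ N := Nat.cast_nonneg N
  nlinarith

lemma A4_bound (N : ℕ) (hN : 1 ≤ N) : |A4 N| ≤ 11 := by
  have hNpos : (0 : ℝ) < N := by exact_mod_cast hN
  have h1 : ∑ n ∈ Ioc 0 N, x4 n * (Real.log n / n) = ∑ d ∈ Ioc 0 N, fA d * L4 (N / d) := by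
    have h := sum_Ioc_mul_eq_sum_sum fA gA N
    simp_rw [fA_mul_gA] at h
    rw [h]
    rfl
  have h2 : L4 N * A4 N = (∑ n ∈ Ioc 0 N, x4 n * (Real.log n / n)) +
      ∑ d ∈ Ioc 0 N, fA d * (L4 N - L4 (N / d)) := by
    rw [h1, ← sum_add_distrib]
    unfold A4
    rw [mul_sum]
    apply sum_congr rfl
    intro d _
    simp only [fA, ArithmeticFunction.coe_mk]
    ring
  have h3 : |∑ d ∈ Ioc 0 N, fA d * (L4 N - L4 (N / d))| ≤ 6 := by
    refine (abs_sum_le_sum_abs _ _).trans ?_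
    have h4 : ∀ d ∈ Ioc 0 N, |fA d * (L4 N - L4 (N / d))| ≤ vonMangoldt d / N := by
      intro d hd
      rw [mem_Ioc] at hd
      have hd0 : (0 : ℝ) < d := by exact_mod_cast hd.1
      rw [abs_mul]
      have h5 : |fA d| ≤ vonMangoldt d / d := by
        simp only [fA, ArithmeticFunction.coe_mk]
        rw [abs_div, abs_mul, abs_of_pos hd0, abs_of_nonneg (vonMangoldt_nonneg (n := d))]
        apply div_le_div_of_nonneg_right _ hd0.le
        have h6 : |x4 d| ≤ 1 := by
          rw [x4_of_mod]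
          split_ifs <;> norm_num
        have := mul_le_mul_of_nonneg_right h6 (vonMangoldt_nonneg (n := d))
        linarith
      have h7 := L4_diff (N / d) N (Nat.div_le_self N d)
      have h8 : 1 / (((N / d : ℕ) : ℝ) + 1) ≤ d / N := by
        rw [div_le_div_iff₀ (by positivity) hNpos, one_mul]
        have h9 : (N : ℝ) / d < ((N / d : ℕ) : ℝ) + 1 := by
          have := Nat.lt_floor_add_one ((N : ℝ) / d)
          rwa [Nat.floor_div_eq_div] at this
        rw [div_lt_iff₀ hd0] at h9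
        linarith
      calc |fA d| * |L4 N - L4 (N / d)| ≤ (vonMangoldt d / d) * (d / N) :=
            mul_le_mul h5 (h7.trans h8) (abs_nonneg _)
              (div_nonneg (vonMangoldt_nonneg (n := d)) hd0.le)
        _ = vonMangoldt d / N := by field_simp
    refine (sum_le_sum h4).trans ?_
    rw [← sum_div, div_le_iff₀ hNpos]
    exact psi_nat_le N
  have h10 := L4_lower N hN
  have h11 := logsum_bound N
  have h12 : |L4 N * A4 N| ≤ 7 := by
    rw [h2]
    refine (abs_add_le _ _).trans ?_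
    linarith
  rw [abs_mul, abs_of_pos (by linarith)] at h12
  have h13 : 2 / 3 * |A4 N| ≤ L4 N * |A4 N| := mul_le_mul_of_nonneg_right h10 (abs_nonneg _)
  linarith

/-- `∑_{d ≤ N} Λ(d) / d`. -/
noncomputable def M4 (N : ℕ) : ℝ := ∑ d ∈ Ioc 0 N, vonMangoldt d / d

lemma log_factorial_eq (N : ℕ) : Real.log (N.factorial : ℝ) = ∑ n ∈ Ioc 0 N, Real.log n := by
  induction N with
  | zero => simp
  | succ N ih =>
    rw [Finset.sum_Ioc_succ_top (by omega), ← ih, Nat.factorial_succ]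
    push_cast
    rw [Real.log_mul (by positivity) (by positivity)]
    ring

lemma log_factorial_eq' (N : ℕ) :
    Real.log (N.factorial : ℝ) = ∑ d ∈ Ioc 0 N, vonMangoldt d * ((N / d : ℕ) : ℝ) := by
  rw [log_factorial_eq, ← sum_Ioc_mul_zeta_eq_sum vonMangoldt N]
  apply sum_congr rfl
  intro n _
  rw [vonMangoldt_mul_zeta]
  rfl

lemma M4_lower (N : ℕ) (hN : 1 ≤ N) : Real.log N - 1 ≤ M4 N := by
  have hNpos : (0 : ℝ) < N := by exact_mod_cast hN
  have h1 := Stirling.le_log_factorial_stirling (n := N) (by omega)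
  have h2 : Real.log (N.factorial : ℝ) ≤ N * M4 N := by
    rw [log_factorial_eq']
    unfold M4
    rw [mul_sum]
    apply sum_le_sum
    intro d hd
    rw [mem_Ioc] at hd
    have hd0 : (0 : ℝ) < d := by exact_mod_cast hd.1
    have h3 : ((N / d : ℕ) : ℝ) ≤ (N : ℝ) / d := Nat.cast_div_le
    have h4 := mul_le_mul_of_nonneg_left h3 (vonMangoldt_nonneg (n := d))
    refine h4.trans (le_of_eq ?_)
    ring
  have h5 : 0 ≤ Real.log N := Real.log_natCast_nonneg N
  have h6 : 0 ≤ Real.log (2 * Real.pi) := by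
    apply Real.log_nonneg
    have := Real.pi_gt_three
    linarith
  have h7 : (N : ℝ) * (Real.log N - 1) ≤ N * M4 N := by
    calc (N : ℝ) * (Real.log N - 1) = N * Real.log N - N := by ring
      _ ≤ _ := by linarith
  exact le_of_mul_le_mul_left h7 hNpos

lemma M4_upper (N : ℕ) (hN : 1 ≤ N) : M4 N ≤ Real.log N + 6 := by
  have hNpos : (0 : ℝ) < N := by exact_mod_cast hN
  have h1 : (N : ℝ) * M4 N ≤ Real.log (N.factorial : ℝ) + ∑ d ∈ Ioc 0 N, vonMangoldt d := by
    rw [log_factorial_eq', ← sum_add_distrib]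
    unfold M4
    rw [mul_sum]
    apply sum_le_sum
    intro d hd
    rw [mem_Ioc] at hd
    have hd0 : (0 : ℝ) < d := by exact_mod_cast hd.1
    have h9 : (N : ℝ) / d < ((N / d : ℕ) : ℝ) + 1 := by
      have := Nat.lt_floor_add_one ((N : ℝ) / d)
      rwa [Nat.floor_div_eq_div] at this
    have h4 := mul_le_mul_of_nonneg_left h9.le (vonMangoldt_nonneg (n := d))
    calc (N : ℝ) * (vonMangoldt d / d) = vonMangoldt d * (N / d) := by ring
      _ ≤ vonMangoldt d * (((N / d : ℕ) : ℝ) + 1) := h4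
      _ = _ := by ring
  have h2 : Real.log (N.factorial : ℝ) ≤ N * Real.log N := by
    rw [← Real.log_pow]
    apply Real.log_le_log
    · exact_mod_cast Nat.factorial_pos N
    · exact_mod_cast Nat.factorial_le_pow N
  have h3 := psi_nat_le N
  have h7 : (N : ℝ) * M4 N ≤ N * (Real.log N + 6) := by
    calc (N : ℝ) * M4 N ≤ N * Real.log N + 6 * N := by linarith
      _ = _ := by ring
  exact le_of_mul_le_mul_left h7 hNpos

/-- even part is bounded. -/
lemma even_bound (N : ℕ) :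
    ∑ d ∈ (Ioc 0 N).filter (fun d => d % 2 = 0), vonMangoldt d / (d : ℝ) ≤ 2 := by
  have h1 : ∑ d ∈ (Ioc 0 N).filter (fun d => d % 2 = 0), vonMangoldt d / (d : ℝ) ≤
      ∑ d ∈ (range (N + 1)).image (fun k => 2 ^ k), vonMangoldt d / (d : ℝ) := by
    have h2 : ∑ d ∈ (Ioc 0 N).filter (fun d => d % 2 = 0), vonMangoldt d / (d : ℝ) =
        ∑ d ∈ ((Ioc 0 N).filter (fun d => d % 2 = 0)).filter (fun d => vonMangoldt d ≠ 0),
          vonMangoldt d / (d : ℝ) := by
      symm
      apply Finset.sum_subset (Finset.filter_subset _ _)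
      intro d hd hd'
      rw [mem_filter] at hd'
      have : vonMangoldt d = 0 := by
        by_contra h
        exact hd' ⟨hd, h⟩
      rw [this, zero_div]
    rw [h2]
    apply Finset.sum_le_sum_of_subset_of_nonneg
    · intro d hd
      rw [mem_filter, mem_filter, mem_Ioc] at hd
      obtain ⟨⟨⟨hd0, hdN⟩, hd2⟩, hd3⟩ := hd
      rw [vonMangoldt_ne_zero_iff] at hd3
      obtain ⟨p, k, hp, hk, hpk⟩ := hd3
      have hp' : p.Prime := Nat.prime_iff.mpr hp
      have h3 : 2 ∣ d := Nat.dvd_of_mod_eq_zero hd2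
      rw [← hpk] at h3
      have h4 : 2 ∣ p := Nat.Prime.dvd_of_dvd_pow Nat.prime_two h3
      have h5 : p = 2 := ((Nat.prime_dvd_prime_iff_eq Nat.prime_two hp').mp h4).symm
      subst h5
      rw [mem_image]
      refine ⟨k, ?_, hpk⟩
      rw [mem_range]
      have : k < 2 ^ k := Nat.lt_two_pow_self
      omega
    · intro d _ _
      exact div_nonneg (vonMangoldt_nonneg (n := d)) (Nat.cast_nonneg d)
  refine h1.trans ?_
  rw [Finset.sum_image (by
    intro a _ b _ hab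
    exact Nat.pow_right_injective le_rfl hab)]
  have h5 : ∀ k ∈ range (N + 1), vonMangoldt (2 ^ k) / (((2 ^ k : ℕ)) : ℝ) ≤ (1 / 2 : ℝ) ^ k := by
    intro k _
    have h6 : vonMangoldt (2 ^ k) ≤ 1 := by
      rcases Nat.eq_zero_or_pos k with rfl | hk
      · simp
      · rw [vonMangoldt_apply_pow hk.ne', vonMangoldt_apply_prime Nat.prime_two]
        have := Real.log_two_lt_d9
        push_cast
        linarith
    push_cast
    rw [one_div, inv_pow, div_eq_mul_inv]
    have : (0 : ℝ) ≤ ((2 : ℝ) ^ k)⁻¹ := by positivity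
    nlinarith
  refine (sum_le_sum h5).trans ?_
  have h7 := (summable_geometric_two).sum_le_tsum (range (N + 1)) (fun i _ => by positivity)
  rw [tsum_geometric_two] at h7
  exact h7

/-- `∑_{d ≤ N, d ≡ 3 (4)} Λ(d) / d`. -/
noncomputable def D4 (N : ℕ) : ℝ :=
  ∑ d ∈ (Ioc 0 N).filter (fun d => d % 4 = 3), vonMangoldt d / (d : ℝ)

lemma D4_eq (N : ℕ) : 2 * D4 N = M4 N -
    (∑ d ∈ (Ioc 0 N).filter (fun d => d % 2 = 0), vonMangoldt d / (d : ℝ)) - A4 N := by
  unfold D4 M4 A4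
  rw [sum_filter, sum_filter, mul_sum, ← sum_sub_distrib, ← sum_sub_distrib]
  apply sum_congr rfl
  intro d _
  rw [x4_of_mod]
  have h4 : d % 4 = 0 ∨ d % 4 = 1 ∨ d % 4 = 2 ∨ d % 4 = 3 := by omega
  rcases h4 with h | h | h | h
  · have h1 : d % 2 = 0 := by omega
    simp [h, h1]
  · have h1 : d % 2 = 1 := by omega
    simp [h, h1]
  · have h1 : d % 2 = 0 := by omega
    simp [h, h1]
  · have h1 : d % 2 = 1 := by omega
    simp [h, h1]
    ring

lemma D4_diff (K N : ℕ) (hN : 1 ≤ N) (hK : 1 ≤ K) :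
    (Real.log K - 31) / 2 ≤ D4 (K * N) - D4 N := by
  have h1 := D4_eq N
  have h2 := D4_eq (K * N)
  have hKN : 1 ≤ K * N := Nat.mul_pos hK hN
  have h3 := M4_lower (K * N) hKN
  have h4 := M4_upper N hN
  have h5 := even_bound (K * N)
  have h6 : 0 ≤ ∑ d ∈ (Ioc 0 N).filter (fun d => d % 2 = 0), vonMangoldt d / (d : ℝ) :=
    sum_nonneg (fun d _ => div_nonneg (vonMangoldt_nonneg (n := d)) (Nat.cast_nonneg d))
  have h7 := abs_le.mp (A4_bound N hN)
  have h8 := abs_le.mp (A4_bound (K * N) hKN)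
  have h9 : Real.log ((K * N : ℕ) : ℝ) = Real.log K + Real.log N := by
    push_cast
    rw [Real.log_mul (by positivity) (by positivity)]
  linarith [h7.1, h7.2, h8.1, h8.2]

end Pool.Agent.H.MP_b3c6db_nt
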