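import Pool.Agent.H.MP_b3c6db_nt.Circle
import Pool.Agent.H.MP_b3c6db_nt.LowerFinal

/-! Truncation to genuine cosine polynomials. -/

namespace Pool.Agent.H.MP_b3c6db_nt

open Finset Complex ArithmeticFunction

/-- `f` is a cosine polynomial with square frequencies and constant term `a`. -/
def IsCP (H : ℕ) (a : ℝ) (f : ℝ → ℝ) : Prop := ∃ c : ℕ → ℝ, c 0 = a ∧ ∀ x, cosPoly H c x = f x

lemma IsCP.add {H : ℕ} {a b : ℝ} {f g : ℝ → ℝ} (hf : IsCP H a f) (hg : IsCP H b g) :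
    IsCP H (a + b) (fun x => f x + g x) := by
  obtain ⟨c, hc0, hc⟩ := hf
  obtain ⟨c', hc0', hc'⟩ := hg
  refine ⟨fun k => c k + c' k, by beta_reduce; rw [hc0, hc0'], ?_⟩
  intro x
  beta_reduce
  rw [← hc x, ← hc' x]
  unfold cosPoly
  have h1 : ∑ k ∈ Icc 1 H, (c k + c' k) * Real.cos (2 * Real.pi * (k : ℝ) ^ 2 * x) =
      ∑ k ∈ Icc 1 H, c k * Real.cos (2 * Real.pi * (k : ℝ) ^ 2 * x) +
      ∑ k ∈ Icc 1 H, c' k * Real.cos (2 * Real.pi * (k : ℝ) ^ 2 * x) := by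
    rw [← sum_add_distrib]
    apply sum_congr rfl
    intro k _
    ring
  rw [h1]
  ring

lemma IsCP.smul {H : ℕ} {a : ℝ} {f : ℝ → ℝ} (t : ℝ) (hf : IsCP H a f) :
    IsCP H (t * a) (fun x => t * f x) := by
  obtain ⟨c, hc0, hc⟩ := hf
  refine ⟨fun k => t * c k, by beta_reduce; rw [hc0], ?_⟩
  intro x
  beta_reduce
  rw [← hc x]
  unfold cosPoly
  rw [mul_add, mul_sum]
  congr 1
  apply sum_congr rfl
  intro k _
  ring

lemma IsCP.const (H : ℕ) (a : ℝ) : IsCP H a (fun _ => a) := by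
  refine ⟨fun k => if k = 0 then a else 0, by simp, ?_⟩
  intro x
  unfold cosPoly
  simp only [if_true]
  rw [Finset.sum_eq_zero]
  · simp
  · intro k hk
    rw [mem_Icc] at hk
    rw [if_neg (by omega)]
    simp

lemma IsCP.sum {H : ℕ} {ι : Type*} (s : Finset ι) (a : ι → ℝ) (f : ι → ℝ → ℝ)
    (h : ∀ i ∈ s, IsCP H (a i) (f i)) : IsCP H (∑ i ∈ s, a i) (fun x => ∑ i ∈ s, f i x) := by
  classical
  induction s using Finset.induction_on with
  | empty => simpa using IsCP.const H 0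
  | insert i s hi ih =>
    have h1 := (h i (mem_insert_self _ _)).add (ih (fun j hj => h j (mem_insert_of_mem hj)))
    rw [Finset.sum_insert hi]
    have h2 : (fun x => ∑ j ∈ insert i s, f j x) = fun x => f i x + ∑ j ∈ s, f j x := by
      funext x
      rw [Finset.sum_insert hi]
    rw [h2]
    exact h1

lemma IsCP.cos (H m : ℕ) (h1 : 1 ≤ m) (h2 : m ≤ H) :
    IsCP H 0 (fun x => Real.cos (2 * Real.pi * (m : ℝ) ^ 2 * x)) := by
  refine ⟨fun k => if k = m then 1 else 0, by simp; omega, ?_⟩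
  intro x
  unfold cosPoly
  beta_reduce
  rw [if_neg (by omega), Finset.sum_eq_single m]
  · simp
  · intro k _ hk
    rw [if_neg hk, zero_mul]
  · intro hm
    exact absurd (mem_Icc.mpr ⟨h1, h2⟩) hm

lemma IsCP.congr {H : ℕ} {a b : ℝ} {f g : ℝ → ℝ} (hf : IsCP H a f) (hab : a = b)
    (hfg : ∀ x, f x = g x) : IsCP H b g := by
  obtain ⟨c, hc0, hc⟩ := hf
  exact ⟨c, by rw [hc0, hab], fun x => by rw [hc, hfg]⟩

/-- the truncated theta sum. -/
noncomputable def ThN (M : ℝ) (N : ℕ) (x : ℝ) : ℝ :=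
  1 + ∑ k ∈ Icc 1 N, 2 * Real.exp (-(Real.pi * (k : ℝ) ^ 2 / M ^ 2)) *
    Real.cos (2 * Real.pi * (k : ℝ) ^ 2 * x)

lemma IsCP.ThN_scaled (H d : ℕ) (hd : 1 ≤ d) (M : ℝ) :
    IsCP H 1 (fun x => ThN M (H / d) ((d : ℝ) ^ 2 * x)) := by
  have h1 : IsCP H (∑ k ∈ Icc 1 (H / d), (2 * Real.exp (-(Real.pi * (k : ℝ) ^ 2 / M ^ 2))) * 0)
      (fun x => ∑ k ∈ Icc 1 (H / d), (2 * Real.exp (-(Real.pi * (k : ℝ) ^ 2 / M ^ 2))) *
        Real.cos (2 * Real.pi * ((k * d : ℕ) : ℝ) ^ 2 * x)) := by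
    apply IsCP.sum
    intro k hk
    rw [mem_Icc] at hk
    apply IsCP.smul
    apply IsCP.cos
    · exact Nat.mul_pos hk.1 hd
    · calc k * d ≤ (H / d) * d := Nat.mul_le_mul_right d hk.2
        _ ≤ H := Nat.div_mul_le_self H d
  refine ((IsCP.const H 1).add h1).congr (by simp) ?_
  intro x
  unfold ThN
  congr 1
  apply sum_congr rfl
  intro k _
  congr 2
  push_cast
  ring

lemma sum_Icc_eq_range (g : ℕ → ℝ) (N : ℕ) :
    ∑ k ∈ Icc 1 N, g k = ∑ k ∈ range N, g (k + 1) := by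
  induction N with
  | zero => simp
  | succ N ih =>
    rw [Finset.sum_Icc_succ_top (by omega), Finset.sum_range_succ, ih]

lemma Th_trunc (M x : ℝ) (hM : 0 < M) (N : ℕ) (hN : M ^ 2 ≤ N + 1) :
    |(Th M x).re - ThN M N x| ≤ 2 / ((N : ℝ) + 1) := by
  have h0 := Complex.hasSum_re (Th_hasSum M x hM)
  set f : ℤ → ℝ := fun n : ℤ => ((((Real.exp (-(Real.pi * (n : ℝ) ^ 2 / M ^ 2)) : ℝ) : ℂ) *
      ex ((n : ℝ) ^ 2 * x))).re with hf
  have hfn : ∀ n : ℤ, f n = Real.exp (-(Real.pi * (n : ℝ) ^ 2 / M ^ 2)) *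
      Real.cos (2 * Real.pi * (n : ℝ) ^ 2 * x) := by
    intro n
    simp only [hf]
    rw [Complex.re_ofReal_mul, ex_re]
    congr 2
    ring
  have h1 := HasSum.nat_add_neg h0
  have hf0 : f 0 = 1 := by
    rw [hfn]
    simp
  set g : ℕ → ℝ := fun n => f n + f (-(n : ℤ)) with hg
  have hgn : ∀ n : ℕ, g n = 2 * Real.exp (-(Real.pi * (n : ℝ) ^ 2 / M ^ 2)) *
      Real.cos (2 * Real.pi * (n : ℝ) ^ 2 * x) := by
    intro n
    simp only [hg, hfn]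
    push_cast
    rw [neg_sq]
    ring
  have h2 : HasSum g ((Th M x).re + 1) := by
    have h3 : ((Th M x).re + 1) = (Th M x).re + f 0 := by rw [hf0]
    rw [h3]
    exact h1
  have h4 := (hasSum_nat_add_iff' (N + 1)).mpr h2
  have h5 : (Th M x).re + 1 - ∑ i ∈ range (N + 1), g i = (Th M x).re - ThN M N x := by
    unfold ThN
    rw [Finset.sum_range_succ']
    have h6 : g 0 = 2 := by
      rw [hgn]
      simp
    rw [h6]
    have h7 : ∑ k ∈ Icc 1 N, 2 * Real.exp (-(Real.pi * (k : ℝ) ^ 2 / M ^ 2)) *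
        Real.cos (2 * Real.pi * (k : ℝ) ^ 2 * x) = ∑ k ∈ range N, g (k + 1) := by
      rw [← sum_Icc_eq_range g N]
      apply sum_congr rfl
      intro k _
      rw [hgn]
    rw [h7]
    ring
  rw [h5] at h4
  -- bound of the tail
  have hpi := Real.pi_gt_three
  set q : ℝ := Real.exp (-Real.pi) with hq
  have hq0 : 0 < q := Real.exp_pos _
  have hq1 : q ≤ 1 / 4 := by
    have h8 := Real.add_one_le_exp Real.pi
    have h9 : q * Real.exp Real.pi = 1 := by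
      rw [hq, ← Real.exp_add]
      simp
    nlinarith
  have h10 := (hasSum_geometric_of_lt_one hq0.le (by linarith : q < 1)).mul_left (2 * q ^ (N + 1))
  have h11 : ∀ n : ℕ, ‖g (n + (N + 1))‖ ≤ 2 * q ^ (N + 1) * q ^ n := by
    intro n
    rw [hgn, Real.norm_eq_abs, abs_mul, abs_of_nonneg (by positivity)]
    have h12 : |Real.cos (2 * Real.pi * (((n + (N + 1) : ℕ)) : ℝ) ^ 2 * x)| ≤ 1 :=
      Real.abs_cos_le_one _
    have h13 : Real.exp (-(Real.pi * (((n + (N + 1) : ℕ)) : ℝ) ^ 2 / M ^ 2)) ≤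
        q ^ (N + 1) * q ^ n := by
      rw [← pow_add, hq, ← Real.exp_nat_mul]
      apply Real.exp_le_exp.mpr
      set m : ℝ := (((n + (N + 1) : ℕ)) : ℝ) with hm
      have hmN : ((N : ℝ) + 1) ≤ m := by
        rw [hm]
        push_cast
        have : (0 : ℝ) ≤ n := Nat.cast_nonneg n
        linarith
      have hmM : M ^ 2 ≤ m := hN.trans hmN
      have h14 : Real.pi * m ≤ Real.pi * m ^ 2 / M ^ 2 := by
        rw [le_div_iff₀ (by positivity)]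
        have : 0 < M ^ 2 := by positivity
        nlinarith [mul_nonneg (by linarith : (0 : ℝ) ≤ Real.pi) (by nlinarith : 0 ≤ m * (m - M ^ 2))]
      have h15 : (((N + 1 + n : ℕ)) : ℝ) = m := by
        rw [hm]
        push_cast
        ring
      rw [h15]
      linarith
    calc _ ≤ 2 * (q ^ (N + 1) * q ^ n) * 1 := by gcongr
      _ = _ := by ring
  have h16 := HasSum.norm_le_of_bounded h4 h10 h11
  rw [Real.norm_eq_abs] at h16
  refine h16.trans ?_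
  have h17 : (1 - q)⁻¹ ≤ 4 / 3 := by
    rw [inv_le_comm₀ (by linarith) (by norm_num)]
    linarith
  have h18 : q ^ (N + 1) ≤ 1 / (3 * ((N : ℝ) + 1)) := by
    rw [hq, ← Real.exp_nat_mul, le_div_iff₀ (by positivity)]
    have h19 := Real.add_one_le_exp (((N + 1 : ℕ) : ℝ) * Real.pi)
    have h20 : Real.exp (((N + 1 : ℕ) : ℝ) * -Real.pi) * Real.exp (((N + 1 : ℕ) : ℝ) * Real.pi) = 1 := by
      rw [← Real.exp_add]
      simp
    have h21 : 0 < Real.exp (((N + 1 : ℕ) : ℝ) * -Real.pi) := Real.exp_pos _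
    have h22 : 3 * ((N : ℝ) + 1) ≤ Real.exp (((N + 1 : ℕ) : ℝ) * Real.pi) := by
      refine le_trans ?_ h19
      push_cast
      have : (0 : ℝ) ≤ N := Nat.cast_nonneg N
      nlinarith
    calc _ ≤ Real.exp (((N + 1 : ℕ) : ℝ) * -Real.pi) * Real.exp (((N + 1 : ℕ) : ℝ) * Real.pi) :=
          mul_le_mul_of_nonneg_left h22 h21.le
      _ = 1 := h20
  have hqpos : 0 ≤ (1 - q)⁻¹ := inv_nonneg.mpr (by linarith)
  calc 2 * q ^ (N + 1) * (1 - q)⁻¹ ≤ 2 * (1 / (3 * ((N : ℝ) + 1))) * (4 / 3) := by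
        gcongr
    _ = (8 / 9) / ((N : ℝ) + 1) := by
        field_simp
        norm_num
    _ ≤ 2 / ((N : ℝ) + 1) := by
        apply div_le_div_of_nonneg_right _ (by positivity)
        norm_num

/-- the truncated version of `FF`. -/
noncomputable def PP (A : ℕ → ℝ) (D : ℕ) (X : ℝ) (H : ℕ) (x : ℝ) : ℝ :=
  ∑ v ∈ Icc 1 D, A v * ∑ d ∈ v.divisors, ((moebius (v / d) : ℤ) : ℝ) *
    (((d : ℝ) / X) * ThN (X / d) (H / d) ((d : ℝ) ^ 2 * x))

/-- the constant term of `PP`. -/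
noncomputable def PPconst (A : ℕ → ℝ) (D : ℕ) (X : ℝ) : ℝ :=
  ∑ v ∈ Icc 1 D, A v * ∑ d ∈ v.divisors, ((moebius (v / d) : ℤ) : ℝ) * (((d : ℝ) / X) * 1)

lemma PP_isCP (A : ℕ → ℝ) (D : ℕ) (X : ℝ) (H : ℕ) : IsCP H (PPconst A D X) (PP A D X H) := by
  unfold PPconst PP
  apply IsCP.sum
  intro v hv
  rw [mem_Icc] at hv
  apply IsCP.smul
  apply IsCP.sum
  intro d hd
  rw [Nat.mem_divisors] at hd
  apply IsCP.smul
  apply IsCP.smul
  exact IsCP.ThN_scaled H d (Nat.pos_of_dvd_of_pos hd.1 (by omega)) _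

lemma PPconst_le (A : ℕ → ℝ) (hA0 : ∀ v, 0 ≤ A v) (hA2 : ∀ v, A v ≤ 2) (D : ℕ) (X : ℝ)
    (hX : 0 < X) : |PPconst A D X| ≤ 2 * (D : ℝ) ^ 2 * (D / X) := by
  have h1 := compare_sum A hA0 hA2 D (fun d => (((d : ℝ) / X : ℝ) : ℂ)) (fun _ => 0) (D / X)
    (by positivity) (by
      intro d _ hdD
      rw [sub_zero, Complex.norm_real, Real.norm_eq_abs, abs_of_nonneg (by positivity)]
      apply div_le_div_of_nonneg_right _ hX.le
      exact_mod_cast hdD)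
  have h2 : ∑ v ∈ Icc 1 D, ((A v : ℝ) : ℂ) * ∑ d ∈ v.divisors,
        ((moebius (v / d) : ℤ) : ℂ) * (0 : ℂ) = 0 := by simp
  rw [h2, sub_zero] at h1
  have h3 : ∑ v ∈ Icc 1 D, ((A v : ℝ) : ℂ) * ∑ d ∈ v.divisors, ((moebius (v / d) : ℤ) : ℂ) *
      (((d : ℝ) / X : ℝ) : ℂ) = ((PPconst A D X : ℝ) : ℂ) := by
    unfold PPconst
    push_cast
    simp
  rw [h3, Complex.norm_real, Real.norm_eq_abs] at h1
  exact h1

lemma FF_re (A : ℕ → ℝ) (D : ℕ) (X x : ℝ) : (FF A D X x).re =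
    ∑ v ∈ Icc 1 D, A v * ∑ d ∈ v.divisors, ((moebius (v / d) : ℤ) : ℝ) *
      (((d : ℝ) / X) * (Th (X / d) ((d : ℝ) ^ 2 * x)).re) := by
  unfold FF
  rw [Complex.re_sum]
  apply sum_congr rfl
  intro v _
  rw [Complex.re_ofReal_mul, Complex.re_sum]
  congr 1
  apply sum_congr rfl
  intro d _
  have h1 : ((moebius (v / d) : ℤ) : ℂ) = (((moebius (v / d) : ℤ) : ℝ) : ℂ) := by push_cast; rfl
  rw [h1, Complex.re_ofReal_mul, Complex.re_ofReal_mul]

lemma FF_PP (A : ℕ → ℝ) (hA0 : ∀ v, 0 ≤ A v) (hA2 : ∀ v, A v ≤ 2) (D : ℕ) (X : ℝ)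
    (hX : 1 ≤ X) (H : ℕ) (hH : X ^ 2 ≤ H) (x : ℝ) :
    |(FF A D X x).re - PP A D X H x| ≤ 2 * (D : ℝ) ^ 2 * (2 * (D : ℝ) ^ 2 / X) := by
  have hX0 : 0 < X := by linarith
  have h1 := compare_sum A hA0 hA2 D
    (fun d => ((((d : ℝ) / X) * (Th (X / d) ((d : ℝ) ^ 2 * x)).re : ℝ) : ℂ))
    (fun d => ((((d : ℝ) / X) * ThN (X / d) (H / d) ((d : ℝ) ^ 2 * x) : ℝ) : ℂ))
    (2 * (D : ℝ) ^ 2 / X) (by positivity) (by
      intro d hd hdD
      have hd0 : (0 : ℝ) < d := by exact_mod_cast hd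
      have hd1 : (1 : ℝ) ≤ d := by exact_mod_cast hd
      have hdD' : (d : ℝ) ≤ D := by exact_mod_cast hdD
      have hM : 0 < X / d := by positivity
      rw [← Complex.ofReal_sub, Complex.norm_real, Real.norm_eq_abs, ← mul_sub, abs_mul,
        abs_of_nonneg (by positivity : (0 : ℝ) ≤ (d : ℝ) / X)]
      have hN1 : X ^ 2 / d ≤ ((H / d : ℕ) : ℝ) + 1 := by
        rw [div_le_iff₀ hd0]
        have h2 : H < (H / d + 1) * d := by
          rw [mul_comm]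
          exact Nat.lt_mul_div_succ H hd
        have h3 : (H : ℝ) < ((((H / d : ℕ)) : ℝ) + 1) * d := by exact_mod_cast h2
        linarith
      have h4 := Th_trunc (X / d) ((d : ℝ) ^ 2 * x) hM (H / d) (by
        refine le_trans ?_ hN1
        rw [div_pow]
        apply div_le_div_of_nonneg_left (by positivity) hd0
        nlinarith)
      have h5 : 2 / ((((H / d : ℕ)) : ℝ) + 1) ≤ 2 * D := by
        have h6 : 1 / (((H / d : ℕ) : ℝ) + 1) ≤ D := by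
          have h7 : 1 / (((H / d : ℕ) : ℝ) + 1) ≤ 1 := by
            rw [div_le_one (by positivity)]
            have : (0 : ℝ) ≤ ((H / d : ℕ) : ℝ) := Nat.cast_nonneg _
            linarith
          linarith
        calc 2 / ((((H / d : ℕ)) : ℝ) + 1) = 2 * (1 / (((H / d : ℕ) : ℝ) + 1)) := by ring
          _ ≤ 2 * D := by linarith
      calc (d : ℝ) / X * |(Th (X / d) ((d : ℝ) ^ 2 * x)).re - ThN (X / d) (H / d) ((d : ℝ) ^ 2 * x)|
          ≤ (D : ℝ) / X * (2 * D) := by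
            apply mul_le_mul _ (h4.trans h5) (abs_nonneg _) (by positivity)
            apply div_le_div_of_nonneg_right hdD' hX0.le
        _ = 2 * (D : ℝ) ^ 2 / X := by ring)
  have h2 : ∑ v ∈ Icc 1 D, ((A v : ℝ) : ℂ) * ∑ d ∈ v.divisors, ((moebius (v / d) : ℤ) : ℂ) *
      ((((d : ℝ) / X) * (Th (X / d) ((d : ℝ) ^ 2 * x)).re : ℝ) : ℂ) =
      (((FF A D X x).re : ℝ) : ℂ) := by
    rw [FF_re]
    push_cast
    rfl
  have h3 : ∑ v ∈ Icc 1 D, ((A v : ℝ) : ℂ) * ∑ d ∈ v.divisors, ((moebius (v / d) : ℤ) : ℂ) *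
      ((((d : ℝ) / X) * ThN (X / d) (H / d) ((d : ℝ) ^ 2 * x) : ℝ) : ℂ) =
      ((PP A D X H x : ℝ) : ℂ) := by
    unfold PP
    push_cast
    rfl
  rw [h2, h3, ← Complex.ofReal_sub, Complex.norm_real, Real.norm_eq_abs] at h1
  exact h1

lemma Dlt_zero (v : ℕ) (hv : 1 ≤ v) : Dlt v 0 = if v = 1 then 1 else 0 := by
  split_ifs with h
  · subst h
    rw [Dlt_one]
    have := gG_int 0
    simpa using this
  · apply Dlt_eq_zero v (by omega)
    simp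
    exact h

lemma FF_zero (A : ℕ → ℝ) (hA0 : ∀ v, 0 ≤ A v) (hA2 : ∀ v, A v ≤ 2) (hA1 : 1 ≤ A 1) (D : ℕ)
    (hD : 1 ≤ D) (X B : ℝ) (hX0 : 0 < X) (hB : 1 ≤ B) (hX : B ^ 2 * (D : ℝ) ^ 3 ≤ X) :
    1 - 2 * (D : ℝ) ^ 2 * (7 * Real.sqrt (D / X)) ≤ (FF A D X 0).re := by
  have hD1 : (1 : ℝ) ≤ D := by exact_mod_cast hD
  have h := major_case A hA0 hA2 D X B hX0 hB hX 0 0 (by
    simp
    nlinarith [mul_nonneg (by linarith : (0 : ℝ) ≤ B) (sq_nonneg (D : ℝ))]) (by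
    simp
    linarith)
  have h1 : ∑ v ∈ Icc 1 D, ((A v : ℝ) : ℂ) * Dlt v 0 = ((A 1 : ℝ) : ℂ) := by
    rw [Finset.sum_eq_single 1]
    · rw [Dlt_zero 1 le_rfl]
      simp
    · intro v hv hv1
      rw [mem_Icc] at hv
      rw [Dlt_zero v hv.1, if_neg hv1, mul_zero]
    · intro hn
      exact absurd (mem_Icc.mpr ⟨le_rfl, hD⟩) hn
  have h2 : Complex.exp (om (0 * X ^ 2)) = 1 := by
    unfold om
    simp
  rw [h1, h2] at h
  simp only [Rat.cast_zero, add_zero] at h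
  have h10 := (abs_le.mp ((Complex.abs_re_le_norm _).trans h)).1
  rw [Complex.sub_re, one_mul, Complex.ofReal_re] at h10
  linarith

lemma delta_le_of_IsCP (H : ℕ) (a ε : ℝ) (f : ℝ → ℝ) (hf : IsCP H a f) (hε : 0 ≤ ε)
    (hpos : ∀ x, -ε ≤ f x) (h0 : 1 / 2 ≤ f 0) : delta H ≤ 2 * (|a| + ε) := by
  have hs : 0 < f 0 + ε := by linarith
  have h1 := ((hf.add (IsCP.const H ε)).smul (1 / (f 0 + ε)))
  obtain ⟨c, hc0, hc⟩ := h1
  have h2 : Admissible H c := by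
    refine ⟨?_, ?_⟩
    · intro x
      rw [hc x]
      apply mul_nonneg (by positivity)
      linarith [hpos x]
    · rw [hc 0]
      field_simp
  have h3 : delta H ≤ c 0 := by
    unfold delta
    apply csInf_le (delta_bddBelow H)
    exact ⟨c, h2, rfl⟩
  refine h3.trans ?_
  rw [hc0]
  have h4 : a + ε ≤ |a| + ε := by linarith [le_abs_self a]
  have h5 : 0 ≤ |a| + ε := by positivity
  have h6 : 1 / (f 0 + ε) ≤ 2 := by
    rw [div_le_iff₀ hs]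
    linarith
  calc 1 / (f 0 + ε) * (a + ε) ≤ 1 / (f 0 + ε) * (|a| + ε) :=
        mul_le_mul_of_nonneg_left h4 (by positivity)
    _ ≤ 2 * (|a| + ε) := mul_le_mul_of_nonneg_right h6 h5

/-- the upper bound in terms of parameters. -/
theorem delta_le_params (A : ℕ → ℝ) (hA0 : ∀ v, 0 ≤ A v) (hA2 : ∀ v, A v ≤ 2) (hA1 : 1 ≤ A 1)
    (D : ℕ) (hD : 1 ≤ D) (X B L : ℝ) (hB : 1 ≤ B) (hX : B ^ 2 * (D : ℝ) ^ 3 ≤ X) (hL : 0 ≤ L)
    (hloc : ∀ (r : ℚ) (ω : ℂ), |ω.im| ≤ Real.pi / 4 → ω.re ≤ 0 →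
      -L ≤ (Complex.exp ω * ∑ v ∈ Icc 1 D, ((A v : ℝ) : ℂ) * Dlt v r).re)
    (H : ℕ) (hH : X ^ 2 ≤ H)
    (hsmall : 2 * (D : ℝ) ^ 2 * (7 * Real.sqrt (D / X)) + 2 * (D : ℝ) ^ 2 * (2 * (D : ℝ) ^ 2 / X) ≤ 1 / 2) :
    delta H ≤ 2 * (2 * (D : ℝ) ^ 2 * (D / X) + (L + 2 * (D : ℝ) ^ 2 * (Real.sqrt (2 / B) +
      7 * Real.sqrt (D / X)) + 2 * (D : ℝ) ^ 2 * (2 * (D : ℝ) ^ 2 / X))) := by
  have hD1 : (1 : ℝ) ≤ D := by exact_mod_cast hD
  have hX1 : 1 ≤ X := by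
    calc (1 : ℝ) ≤ D := hD1
      _ ≤ 1 * (D : ℝ) ^ 3 := by nlinarith [sq_nonneg ((D : ℝ) - 1)]
      _ ≤ B ^ 2 * (D : ℝ) ^ 3 := by
        apply mul_le_mul_of_nonneg_right _ (by positivity)
        nlinarith
      _ ≤ X := hX
  have hX0 : 0 < X := by linarith
  have h1 := delta_le_of_IsCP H (PPconst A D X)
    (L + 2 * (D : ℝ) ^ 2 * (Real.sqrt (2 / B) + 7 * Real.sqrt (D / X)) +
      2 * (D : ℝ) ^ 2 * (2 * (D : ℝ) ^ 2 / X)) (PP A D X H) (PP_isCP A D X H) (by positivity)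
    (by
      intro x
      have h2 := circle A hA0 hA2 D hD X B L hB hX hL hloc x
      have h3 := (abs_le.mp (FF_PP A hA0 hA2 D X hX1 H hH x)).2
      linarith)
    (by
      have h2 := FF_zero A hA0 hA2 hA1 D hD X B hX0 hB hX
      have h3 := (abs_le.mp (FF_PP A hA0 hA2 D X hX1 H hH 0)).2
      linarith)
  have h4 := PPconst_le A hA0 hA2 D X hX0
  linarith

end Pool.Agent.H.MP_b3c6db_nt
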