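import Pool.Agent.H.MP_b3c6db_nt.Mertens4

/-! Many primes `≡ 3 mod 4` in `(√y, y]`. -/

namespace Pool.Agent.H.MP_b3c6db_nt

open Finset ArithmeticFunction Filter

/-- the set of primes `p ≡ 3 mod 4` with `√y < p ≤ y`. -/
noncomputable def P3 (y : ℝ) : Finset ℕ :=
  (Ioc 0 ⌊y⌋₊).filter (fun p => p.Prime ∧ p % 4 = 3 ∧ Real.sqrt y < (p : ℝ))

lemma sum_block_ge (N : ℕ) (hN : 1 ≤ N) :
    (N : ℝ) ≤ ∑ d ∈ (Ioc N (2 ^ 48 * N)).filter (fun d => d % 4 = 3), vonMangoldt d := by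
  have h1 := D4_diff (2 ^ 48) N hN (by norm_num)
  have h2 : (1 : ℝ) ≤ (Real.log ((2 ^ 48 : ℕ) : ℝ) - 31) / 2 := by
    rw [Nat.cast_pow, Real.log_pow]
    have := Real.log_two_gt_d9
    push_cast
    linarith
  have h3 : D4 (2 ^ 48 * N) - D4 N =
      ∑ d ∈ (Ioc N (2 ^ 48 * N)).filter (fun d => d % 4 = 3), vonMangoldt d / (d : ℝ) := by
    unfold D4
    rw [sum_filter, sum_filter, sum_filter]
    rw [← Finset.sum_Ioc_consecutive _ (Nat.zero_le N) (by omega : N ≤ 2 ^ 48 * N)]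
    ring
  have h4 : ∑ d ∈ (Ioc N (2 ^ 48 * N)).filter (fun d => d % 4 = 3), vonMangoldt d / (d : ℝ) ≤
      (∑ d ∈ (Ioc N (2 ^ 48 * N)).filter (fun d => d % 4 = 3), vonMangoldt d) / N := by
    rw [sum_div]
    apply sum_le_sum
    intro d hd
    rw [mem_filter, mem_Ioc] at hd
    apply div_le_div_of_nonneg_left (vonMangoldt_nonneg (n := d))
    · exact_mod_cast hN
    · exact_mod_cast hd.1.1.le
  have hNpos : (0 : ℝ) < N := by exact_mod_cast hN
  have h5 : (1 : ℝ) ≤ (∑ d ∈ (Ioc N (2 ^ 48 * N)).filter (fun d => d % 4 = 3), vonMangoldt d) / N := by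
    linarith
  rw [le_div_iff₀ hNpos] at h5
  linarith

lemma card_block_ge (N : ℕ) (hN : 1 ≤ N) :
    (N : ℝ) - 2 * Real.sqrt ((2 ^ 48 * N : ℕ) : ℝ) * Real.log ((2 ^ 48 * N : ℕ) : ℝ) ≤
      (((Ioc N (2 ^ 48 * N)).filter (fun p => p.Prime ∧ p % 4 = 3)).card : ℝ) *
        Real.log ((2 ^ 48 * N : ℕ) : ℝ) := by
  have h1 := sum_block_ge N hN
  have hx1 : (1 : ℝ) ≤ ((2 ^ 48 * N : ℕ) : ℝ) := by
    have : 1 ≤ 2 ^ 48 * N := Nat.mul_pos (by norm_num) hN
    exact_mod_cast this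
  have h2 := Chebyshev.psi_sub_theta_le hx1
  rw [Chebyshev.psi_sub_theta_eq_sum_not_prime, Nat.floor_natCast] at h2
  have h3 : ∑ d ∈ (Ioc N (2 ^ 48 * N)).filter (fun d => d % 4 = 3), vonMangoldt d ≤
      (∑ d ∈ (Ioc N (2 ^ 48 * N)).filter (fun p => p.Prime ∧ p % 4 = 3), vonMangoldt d) +
      ∑ n ∈ (Ioc 0 (2 ^ 48 * N)).filter (fun n => ¬ n.Prime), vonMangoldt n := by
    have h4 : (Ioc N (2 ^ 48 * N)).filter (fun d => d % 4 = 3) ⊆
      ((Ioc N (2 ^ 48 * N)).filter (fun p => p.Prime ∧ p % 4 = 3)) ∪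
      ((Ioc 0 (2 ^ 48 * N)).filter (fun n => ¬ n.Prime)) := by
      intro d hd
      rw [mem_filter, mem_Ioc] at hd
      rw [mem_union, mem_filter, mem_filter, mem_Ioc, mem_Ioc]
      by_cases hp : d.Prime
      · left
        exact ⟨hd.1, hp, hd.2⟩
      · right
        exact ⟨⟨by omega, hd.1.2⟩, hp⟩
    refine (Finset.sum_le_sum_of_subset_of_nonneg h4
      (fun d _ _ => vonMangoldt_nonneg (n := d))).trans ?_
    rw [Finset.sum_union]
    rw [Finset.disjoint_left]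
    intro d hd hd'
    rw [mem_filter] at hd hd'
    exact hd'.2 hd.2.1
  have h5 : ∑ d ∈ (Ioc N (2 ^ 48 * N)).filter (fun p => p.Prime ∧ p % 4 = 3), vonMangoldt d ≤
      (((Ioc N (2 ^ 48 * N)).filter (fun p => p.Prime ∧ p % 4 = 3)).card : ℝ) *
        Real.log ((2 ^ 48 * N : ℕ) : ℝ) := by
    rw [← nsmul_eq_mul]
    apply sum_le_card_nsmul
    intro d hd
    rw [mem_filter, mem_Ioc] at hd
    refine vonMangoldt_le_log.trans ?_
    apply Real.log_le_log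
    · have : 0 < d := by omega
      exact_mod_cast this
    · exact_mod_cast hd.1.2
  linarith

/-- `y ↦ √y log y` is eventually small compared to `y`. -/
lemma ev_sqrt_log : ∀ᶠ y : ℝ in atTop, 2 * Real.sqrt y * Real.log y ≤ y / 2 ^ 50 := by
  have h1 : (fun y : ℝ => Real.log y) =o[atTop] (fun y : ℝ => y ^ (1 / 2 : ℝ)) :=
    isLittleO_log_rpow_atTop (by norm_num)
  have h2 := h1.bound (show (0 : ℝ) < 1 / 2 ^ 51 by positivity)
  filter_upwards [h2, eventually_ge_atTop (1 : ℝ)] with y hy hy1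
  rw [Real.norm_eq_abs, Real.norm_eq_abs, abs_of_nonneg (Real.log_nonneg hy1),
    abs_of_nonneg (by positivity), ← Real.sqrt_eq_rpow] at hy
  have h3 : Real.sqrt y * Real.sqrt y = y := Real.mul_self_sqrt (by linarith)
  have h4 : 0 ≤ Real.sqrt y := Real.sqrt_nonneg y
  calc 2 * Real.sqrt y * Real.log y ≤ 2 * Real.sqrt y * (1 / 2 ^ 51 * Real.sqrt y) := by
        gcongr
    _ = (Real.sqrt y * Real.sqrt y) / 2 ^ 50 := by ring
    _ = y / 2 ^ 50 := by rw [h3]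

/-- Chebyshev-type lower bound for primes `≡ 3 mod 4` in `(√y, y]`. -/
theorem P3_card : ∀ᶠ y : ℝ in atTop, y / 2 ^ 50 ≤ ((P3 y).card : ℝ) * Real.log y := by
  filter_upwards [ev_sqrt_log, eventually_ge_atTop ((2 : ℝ) ^ 100)] with y hy hy1
  have hy0 : (0 : ℝ) < y := lt_of_lt_of_le (by positivity) hy1
  set N : ℕ := ⌊y / 2 ^ 48⌋₊ with hN
  have hNle : (N : ℝ) ≤ y / 2 ^ 48 := Nat.floor_le (by positivity)
  have hNge : y / 2 ^ 48 - 1 < N := Nat.sub_one_lt_floor _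
  have hy2 : (2 : ℝ) ^ 52 ≤ y / 2 ^ 48 := by
    rw [le_div_iff₀ (by positivity)]
    calc (2 : ℝ) ^ 52 * 2 ^ 48 = 2 ^ 100 := by norm_num
      _ ≤ y := hy1
  have hN1 : 1 ≤ N := by
    have : (1 : ℝ) ≤ N := by
      have : (2 : ℝ) ≤ 2 ^ 52 := by norm_num
      linarith
    exact_mod_cast this
  have h1 := card_block_ge N hN1
  have hKN : (((2 ^ 48 * N : ℕ)) : ℝ) ≤ y := by
    push_cast
    rw [le_div_iff₀ (by positivity)] at hNle
    linarith
  have hKN1 : (1 : ℝ) ≤ ((2 ^ 48 * N : ℕ) : ℝ) := by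
    have : 1 ≤ 2 ^ 48 * N := Nat.mul_pos (by norm_num) hN1
    exact_mod_cast this
  have h2 : 2 * Real.sqrt ((2 ^ 48 * N : ℕ) : ℝ) * Real.log ((2 ^ 48 * N : ℕ) : ℝ) ≤
      2 * Real.sqrt y * Real.log y := by
    gcongr
  have h3 : (((Ioc N (2 ^ 48 * N)).filter (fun p => p.Prime ∧ p % 4 = 3)).card : ℝ) ≤
      ((P3 y).card : ℝ) := by
    have : ((Ioc N (2 ^ 48 * N)).filter (fun p => p.Prime ∧ p % 4 = 3)) ⊆ P3 y := by
      intro p hp
      rw [mem_filter, mem_Ioc] at hp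
      unfold P3
      rw [mem_filter, mem_Ioc]
      refine ⟨⟨by omega, ?_⟩, hp.2.1, hp.2.2, ?_⟩
      · exact Nat.le_floor (le_trans (by exact_mod_cast hp.1.2) hKN)
      · have hp1 : (N : ℝ) < p := by exact_mod_cast hp.1.1
        have hp2 : (N : ℝ) + 1 ≤ p := by exact_mod_cast hp.1.1
        have hs : Real.sqrt y < y / 2 ^ 48 := by
          have h4 : Real.sqrt y * Real.sqrt y = y := Real.mul_self_sqrt hy0.le
          have h5 : (2 : ℝ) ^ 50 ≤ Real.sqrt y := by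
            apply Real.le_sqrt_of_sq_le
            calc ((2 : ℝ) ^ 50) ^ 2 = 2 ^ 100 := by norm_num
              _ ≤ y := hy1
          rw [lt_div_iff₀ (by positivity)]
          have h6 : (0 : ℝ) < Real.sqrt y := Real.sqrt_pos.mpr hy0
          nlinarith
        linarith
    exact_mod_cast Finset.card_le_card this
  have h4 : 0 ≤ Real.log y := Real.log_nonneg (by
    have : (1 : ℝ) ≤ 2 ^ 100 := by norm_num
    linarith)
  have h5 : (((Ioc N (2 ^ 48 * N)).filter (fun p => p.Prime ∧ p % 4 = 3)).card : ℝ) *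
        Real.log ((2 ^ 48 * N : ℕ) : ℝ) ≤ ((P3 y).card : ℝ) * Real.log y := by
    have h6 : Real.log ((2 ^ 48 * N : ℕ) : ℝ) ≤ Real.log y :=
      Real.log_le_log (by linarith) hKN
    exact mul_le_mul h3 h6 (Real.log_nonneg hKN1) (by positivity)
  have h7 : y / 2 ^ 50 + y / 2 ^ 50 ≤ y / 2 ^ 48 - 1 := by
    have : y / 2 ^ 48 = 4 * (y / 2 ^ 50) := by ring
    have h8 : (1 : ℝ) ≤ y / 2 ^ 50 := by
      rw [le_div_iff₀ (by positivity)]
      have : (1 : ℝ) * 2 ^ 50 ≤ 2 ^ 100 := by norm_num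
      linarith
    linarith
  linarith

end Pool.Agent.H.MP_b3c6db_nt
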