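import Pool.Agent.H.MP_b3c6db_nt.Expo

/-! Complete quadratic exponential sums. -/

namespace Pool.Agent.H.MP_b3c6db_nt

open Finset Complex

section quad

variable (q : ℕ) [NeZero q]

lemma card_two_mul_le : ((univ : Finset (ZMod q)).filter (fun h => 2 * h = 0)).card ≤ 2 := by
  have h1 : ((univ : Finset (ZMod q)).filter (fun h => 2 * h = 0)).image (fun h => 2 * h.val) ⊆
      {0, q} := by
    intro n hn
    rw [mem_image] at hn
    obtain ⟨h, hh, rfl⟩ := hn
    rw [mem_filter] at hh
    have h2 : ((2 * h.val : ℕ) : ZMod q) = 0 := by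
      push_cast
      rw [ZMod.natCast_zmod_val]
      exact hh.2
    rw [ZMod.natCast_eq_zero_iff] at h2
    have h3 : h.val < q := ZMod.val_lt h
    obtain ⟨m, hm⟩ := h2
    have h4 : m < 2 := by
      by_contra hcon
      push Not at hcon
      have : q * 2 ≤ q * m := Nat.mul_le_mul_left q hcon
      omega
    simp only [mem_insert, mem_singleton]
    interval_cases m
    · left; omega
    · right; omega
  have h2 : (((univ : Finset (ZMod q)).filter (fun h => 2 * h = 0)).image (fun h => 2 * h.val)).card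
      = ((univ : Finset (ZMod q)).filter (fun h => 2 * h = 0)).card := by
    apply Finset.card_image_of_injective
    intro a b hab
    simp only at hab
    exact ZMod.val_injective q (by omega)
  rw [← h2]
  exact (Finset.card_le_card h1).trans (Finset.card_le_two)

theorem norm_quad_sum_sq_le (a l : ZMod q) (ha : IsUnit a) :
    ‖∑ b : ZMod q, ZMod.stdAddChar (a * b ^ 2 + l * b)‖ ^ 2 ≤ 2 * (q : ℝ) := by
  classical
  set ψ := ZMod.stdAddChar (N := q) with hψ
  have hprim : ψ.IsPrimitive := ZMod.isPrimitive_stdAddChar q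
  have h1 : ((‖∑ b : ZMod q, ψ (a * b ^ 2 + l * b)‖ ^ 2 : ℝ) : ℂ) =
      ∑ h : ZMod q, ψ (a * h ^ 2 + l * h) * (if 2 * a * h = 0 then (q : ℂ) else 0) := by
    rw [← Complex.normSq_eq_norm_sq, Complex.normSq_eq_conj_mul_self, map_sum, sum_mul_sum]
    have h2 : ∀ c : ZMod q, ∑ b : ZMod q,
        (starRingEnd ℂ) (ψ (a * c ^ 2 + l * c)) * ψ (a * b ^ 2 + l * b) =
        ∑ h : ZMod q, ψ (a * h ^ 2 + l * h) * ψ (c * (2 * a * h)) := by
      intro c
      rw [← Equiv.sum_comp (Equiv.addLeft c)]
      apply sum_congr rfl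
      intro h _
      rw [← AddChar.map_neg_eq_conj, ← AddChar.map_add_eq_mul, ← AddChar.map_add_eq_mul]
      congr 1
      simp only [Equiv.coe_addLeft]
      ring
    simp_rw [h2]
    rw [sum_comm]
    apply sum_congr rfl
    intro h _
    rw [← mul_sum, AddChar.sum_mulShift _ hprim, ZMod.card]
    split_ifs <;> simp
  have h3 : ‖∑ h : ZMod q, ψ (a * h ^ 2 + l * h) * (if 2 * a * h = 0 then (q : ℂ) else 0)‖ ≤
      2 * (q : ℝ) := by
    have h4 : ∑ h : ZMod q, ψ (a * h ^ 2 + l * h) * (if 2 * a * h = 0 then (q : ℂ) else 0) =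
        ∑ h ∈ (univ : Finset (ZMod q)).filter (fun h => 2 * h = 0), ψ (a * h ^ 2 + l * h) * (q : ℂ) := by
      rw [sum_filter]
      apply sum_congr rfl
      intro h _
      have h5 : 2 * a * h = 0 ↔ 2 * h = 0 := by
        rw [show 2 * a * h = a * (2 * h) by ring]
        exact ha.mul_right_eq_zero
      by_cases h6 : 2 * h = 0
      · rw [if_pos h6, if_pos (h5.mpr h6)]
      · rw [if_neg h6, if_neg (fun h7 => h6 (h5.mp h7)), mul_zero]
    rw [h4]
    refine (norm_sum_le _ _).trans ?_
    have h7 : ∀ h ∈ (univ : Finset (ZMod q)).filter (fun h => 2 * h = 0),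
        ‖ψ (a * h ^ 2 + l * h) * (q : ℂ)‖ ≤ (q : ℝ) := by
      intro h _
      rw [norm_mul, AddChar.norm_apply, one_mul, Complex.norm_natCast]
    refine (Finset.sum_le_card_nsmul _ _ _ h7).trans ?_
    rw [nsmul_eq_mul]
    have h8 := card_two_mul_le q
    have h9 : (((univ : Finset (ZMod q)).filter (fun h => 2 * h = 0)).card : ℝ) ≤ 2 := by
      exact_mod_cast h8
    exact mul_le_mul_of_nonneg_right h9 (Nat.cast_nonneg q)
  rw [← h1, Complex.norm_real, Real.norm_eq_abs, abs_of_nonneg (by positivity)] at h3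
  exact h3

end quad

end Pool.Agent.H.MP_b3c6db_nt
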