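import Pool.Agent.H.MP_b3c6db_nt.LocalOp

/-! Sharp lower bound: the local multipliers `1 / (1 + q e^{λ τ} r^v)`. -/

namespace Pool.Agent.H.MP_b3c6db_nt

open Complex Finset

/-- downward recursion for a general multiplier. -/
noncomputable def Mgen (p : ℕ) (E : ℕ) (z : ℕ → ℂ) : ℕ → ℝ
  | 0 => 1
  | (i + 1) => (Mgen p E z i + (p - 1) * (z (E - 1 - i)).re) / p

lemma Mgen_lower (p : ℕ) (hp : 2 ≤ p) (E : ℕ) (z : ℕ → ℂ)
    (h1 : ∀ j, (z j).re ≤ 1)
    (h : ∀ j, Real.sqrt p * |(z j).im| ≤ (z (j + 1)).re - (z j).re) (i : ℕ) (hi : i ≤ E) :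
    (z (E - i)).re ≤ Mgen p E z i := by
  have hp1 : (2 : ℝ) ≤ p := by exact_mod_cast hp
  have hpp : (0 : ℝ) < p := by linarith
  induction i with
  | zero =>
    simp only [Mgen]
    exact h1 _
  | succ i ih =>
    have ih' := ih (by omega)
    simp only [Mgen]
    set j := E - 1 - i with hj
    have hj1 : E - i = j + 1 := by omega
    have hj2 : E - (i + 1) = j := by omega
    rw [hj1] at ih'
    rw [hj2, le_div_iff₀ hpp]
    have h2 : 0 ≤ Real.sqrt p * |(z j).im| := by positivity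
    have h3 := h j
    linarith

theorem exists_M_gen (p : ℕ) (hp : 2 ≤ p) (E : ℕ) (z : ℕ → ℂ)
    (h1 : ∀ j, (z j).re ≤ 1)
    (h : ∀ j, Real.sqrt p * |(z j).im| ≤ (z (j + 1)).re - (z j).re) :
    ∃ M : ℕ → ℝ, M E = 1 ∧
      (∀ j < E, (p : ℝ) * M j = M (j + 1) + (p - 1) * (z j).re) ∧
      (∀ j < E, (z j).re + Real.sqrt p * |(z j).im| ≤ M (j + 1)) ∧
      (z 0).re ≤ M 0 := by
  have hp1 : (2 : ℝ) ≤ p := by exact_mod_cast hp
  have hpp : (0 : ℝ) < p := by linarith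
  refine ⟨fun j => Mgen p E z (E - j), ?_, ?_, ?_, ?_⟩
  · simp [Mgen]
  · intro j hj
    have h1 : E - j = (E - (j + 1)) + 1 := by omega
    have h2 : E - 1 - (E - (j + 1)) = j := by omega
    simp only
    rw [h1]
    simp only [Mgen]
    rw [h2]
    field_simp
  · intro j hj
    simp only
    have h3 := Mgen_lower p hp E z h1 h (E - (j + 1)) (by omega)
    have h2 : E - (E - (j + 1)) = j + 1 := by omega
    rw [h2] at h3
    have h4 := h j
    linarith
  · have h3 := Mgen_lower p hp E z h1 h E le_rfl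
    simpa using h3

/-- the multiplier. -/
noncomputable def psim (q lam r : ℝ) (τ : ℂ) (v : ℕ) : ℂ :=
  1 / (1 + (q : ℂ) * Complex.exp (lam * τ) * (r : ℂ) ^ v)

/-- the complex number `u = q e^{λ τ} r^v`. -/
noncomputable def uu (q lam r : ℝ) (τ : ℂ) (v : ℕ) : ℂ :=
  (q : ℂ) * Complex.exp (lam * τ) * (r : ℂ) ^ v

/-- its absolute value -/
noncomputable def ua (q lam r : ℝ) (τ : ℂ) (v : ℕ) : ℝ := q * Real.exp (lam * τ.re) * r ^ v

lemma uu_re (q lam r : ℝ) (τ : ℂ) (v : ℕ) :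
    (uu q lam r τ v).re = ua q lam r τ v * Real.cos (lam * τ.im) := by
  unfold uu ua
  have h : (q : ℂ) * Complex.exp (lam * τ) * (r : ℂ) ^ v
      = ((q * r ^ v : ℝ) : ℂ) * Complex.exp (lam * τ) := by push_cast; ring
  rw [h, Complex.re_ofReal_mul, Complex.exp_re]
  simp
  ring

lemma uu_im (q lam r : ℝ) (τ : ℂ) (v : ℕ) :
    (uu q lam r τ v).im = ua q lam r τ v * Real.sin (lam * τ.im) := by
  unfold uu ua
  have h : (q : ℂ) * Complex.exp (lam * τ) * (r : ℂ) ^ v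
      = ((q * r ^ v : ℝ) : ℂ) * Complex.exp (lam * τ) := by push_cast; ring
  rw [h, Complex.im_ofReal_mul, Complex.exp_im]
  simp
  ring

lemma inv_one_add_re (u : ℂ) (h : 0 ≤ u.re) :
    (1 / (1 + u)).re = (1 + u.re) / ((1 + u.re) ^ 2 + u.im ^ 2) := by
  rw [one_div, Complex.inv_re, Complex.normSq_apply]
  simp
  ring

lemma inv_one_add_im (u : ℂ) (h : 0 ≤ u.re) :
    (1 / (1 + u)).im = -u.im / ((1 + u.re) ^ 2 + u.im ^ 2) := by
  rw [one_div, Complex.inv_im, Complex.normSq_apply]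
  simp
  ring

/-- the key scalar inequality. -/
lemma scalar_ineq (a r C s P : ℝ) (ha : 0 ≤ a) (hr0 : 0 ≤ r) (hr1 : r < 1) (hC : 0 < C)
    (hs : 0 ≤ s) (hP : 0 ≤ P) (hCs : C ^ 2 + s ^ 2 = 1) (hPs : P * s ≤ (1 - r) * C) :
    P * (a * s / ((1 + a * C) ^ 2 + (a * s) ^ 2)) ≤
      (1 + r * a * C) / ((1 + r * a * C) ^ 2 + (r * a * s) ^ 2)
        - (1 + a * C) / ((1 + a * C) ^ 2 + (a * s) ^ 2) := by
  have hC1 : C ≤ 1 := by nlinarith [sq_nonneg s]
  have hD1 : 0 < (1 + a * C) ^ 2 + (a * s) ^ 2 := by positivity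
  have hD2 : 0 < (1 + r * a * C) ^ 2 + (r * a * s) ^ 2 := by positivity
  rw [div_sub_div _ _ hD2.ne' hD1.ne', ← mul_div_assoc, div_le_div_iff₀ hD1 (mul_pos hD2 hD1)]
  have e1 : (1 + r * a * C) * ((1 + a * C) ^ 2 + (a * s) ^ 2) -
      ((1 + r * a * C) ^ 2 + (r * a * s) ^ 2) * (1 + a * C)
      = (1 - r) * a * (C + (1 + r) * a + r * a ^ 2 * C) := by
    have hs2 : s ^ 2 = 1 - C ^ 2 := by linarith
    have : (a * s) ^ 2 = a ^ 2 * (1 - C ^ 2) := by rw [mul_pow, hs2]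
    have h2 : (r * a * s) ^ 2 = r ^ 2 * a ^ 2 * (1 - C ^ 2) := by rw [mul_pow, mul_pow, hs2]
    rw [this, h2]
    ring
  rw [e1]
  have e2 : (1 + r * a * C) ^ 2 + (r * a * s) ^ 2 ≤ (1 + r * a) ^ 2 := by
    have h2 : (r * a * s) ^ 2 = r ^ 2 * a ^ 2 * (1 - C ^ 2) := by
      rw [mul_pow, mul_pow]; congr 1; linarith
    rw [h2]
    have h3 : 0 ≤ r * a := by positivity
    nlinarith
  have e3 : P * s * ((1 + r * a * C) ^ 2 + (r * a * s) ^ 2) ≤ (1 - r) * (C + (1 + r) * a + r * a ^ 2 * C) := by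
    have h4 : 0 ≤ P * s := by positivity
    have h5 : P * s * ((1 + r * a * C) ^ 2 + (r * a * s) ^ 2) ≤ (1 - r) * C * (1 + r * a) ^ 2 :=
      mul_le_mul hPs e2 hD2.le (mul_nonneg (by linarith) hC.le)
    have h6 : C * (1 + r * a) ^ 2 ≤ C + (1 + r) * a + r * a ^ 2 * C := by
      have h7 : C * (1 + r * a) ^ 2 = C + 2 * (C * r * a) + C * r ^ 2 * a ^ 2 := by ring
      rw [h7]
      have h8 : C * r * a ≤ r * a := by
        have : 0 ≤ r * a := by positivity
        nlinarith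
      have h9 : r * a ≤ a := by nlinarith
      have h10 : C * r ^ 2 * a ^ 2 ≤ r * a ^ 2 * C := by
        have : 0 ≤ C * a ^ 2 * r := by positivity
        nlinarith
      have h11 : 2 * (C * r * a) ≤ (1 + r) * a := by
        nlinarith
      linarith
    calc _ ≤ (1 - r) * C * (1 + r * a) ^ 2 := h5
      _ = (1 - r) * (C * (1 + r * a) ^ 2) := by ring
      _ ≤ _ := mul_le_mul_of_nonneg_left h6 (by linarith)
  have e4 : 0 ≤ a * ((1 + a * C) ^ 2 + (a * s) ^ 2) := by positivity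
  calc P * (a * s) * (((1 + r * a * C) ^ 2 + (r * a * s) ^ 2) * ((1 + a * C) ^ 2 + (a * s) ^ 2))
      = (P * s * ((1 + r * a * C) ^ 2 + (r * a * s) ^ 2)) * (a * ((1 + a * C) ^ 2 + (a * s) ^ 2)) := by ring
    _ ≤ ((1 - r) * (C + (1 + r) * a + r * a ^ 2 * C)) * (a * ((1 + a * C) ^ 2 + (a * s) ^ 2)) :=
        mul_le_mul_of_nonneg_right e3 e4
    _ = _ := by ring

/-- the hypotheses of the local operator hold on `|Im τ| ≤ 1`. -/
theorem psim_cond (p : ℕ) (q lam r : ℝ) (hq : 0 < q) (hr0 : 0 ≤ r) (hr1 : r < 1)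
    (hl0 : 0 ≤ lam) (hl1 : lam < Real.pi / 2)
    (hpl : Real.sqrt p * Real.sin lam ≤ (1 - r) * Real.cos lam) (τ : ℂ) (hτ : |τ.im| ≤ 1) (j : ℕ) :
    Real.sqrt p * |(psim q lam r τ j).im| ≤ (psim q lam r τ (j + 1)).re - (psim q lam r τ j).re := by
  have hθ : |lam * τ.im| ≤ lam := by
    rw [abs_mul, abs_of_nonneg hl0]
    nlinarith [abs_nonneg τ.im]
  have hc : Real.cos lam ≤ Real.cos (lam * τ.im) := by
    rw [← Real.cos_abs (lam * τ.im)]
    exact Real.cos_le_cos_of_nonneg_of_le_pi (abs_nonneg _) (by linarith [Real.pi_pos]) hθ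
  have hcl : 0 < Real.cos lam := Real.cos_pos_of_mem_Ioo ⟨by linarith [Real.pi_pos], hl1⟩
  have hs : |Real.sin (lam * τ.im)| ≤ Real.sin lam := by
    rw [Real.abs_sin_eq_sin_abs_of_abs_le_pi (by linarith [Real.pi_pos])]
    exact Real.sin_le_sin_of_le_of_le_pi_div_two (by linarith [Real.pi_pos, abs_nonneg (lam * τ.im)])
      hl1.le hθ
  set a := ua q lam r τ j with ha
  have ha0 : 0 ≤ a := by rw [ha]; unfold ua; positivity
  have ha1 : ua q lam r τ (j + 1) = r * a := by rw [ha]; unfold ua; ring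
  set C := Real.cos (lam * τ.im) with hC
  set s := Real.sin (lam * τ.im) with hs'
  have hC0 : 0 < C := lt_of_lt_of_le hcl hc
  have hre : ∀ v, 0 ≤ (uu q lam r τ v).re := by
    intro v
    rw [uu_re]
    refine mul_nonneg ?_ hC0.le
    unfold ua; positivity
  have e1 : (psim q lam r τ j).im = -(a * s) / ((1 + a * C) ^ 2 + (a * s) ^ 2) := by
    have := inv_one_add_im (uu q lam r τ j) (hre j)
    rw [uu_re, uu_im] at this
    exact this
  have e2 : (psim q lam r τ j).re = (1 + a * C) / ((1 + a * C) ^ 2 + (a * s) ^ 2) := by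
    have := inv_one_add_re (uu q lam r τ j) (hre j)
    rw [uu_re, uu_im] at this
    exact this
  have e3 : (psim q lam r τ (j + 1)).re = (1 + r * a * C) / ((1 + r * a * C) ^ 2 + (r * a * s) ^ 2) := by
    have := inv_one_add_re (uu q lam r τ (j + 1)) (hre (j + 1))
    rw [uu_re, uu_im, ha1] at this
    exact this
  have hD1 : 0 < (1 + a * C) ^ 2 + (a * s) ^ 2 := by positivity
  rw [e1, e2, e3, abs_div, abs_neg, abs_mul, abs_of_nonneg ha0, abs_of_pos hD1]
  have h := scalar_ineq a r C |s| (Real.sqrt p) ha0 hr0 hr1 hC0 (abs_nonneg _) (Real.sqrt_nonneg _)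
    (by rw [sq_abs]; exact Real.cos_sq_add_sin_sq _)
    (by
      calc Real.sqrt p * |s| ≤ Real.sqrt p * Real.sin lam :=
            mul_le_mul_of_nonneg_left hs (Real.sqrt_nonneg _)
        _ ≤ (1 - r) * Real.cos lam := hpl
        _ ≤ (1 - r) * C := mul_le_mul_of_nonneg_left hc (by linarith))
  have e5 : (a * |s|) ^ 2 = (a * s) ^ 2 := by rw [mul_pow, mul_pow, sq_abs]
  have e6 : (r * a * |s|) ^ 2 = (r * a * s) ^ 2 := by rw [mul_pow, mul_pow (r * a), sq_abs]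
  rw [e5, e6] at h
  exact h

lemma psim_re_le_one (q lam r : ℝ) (hq : 0 < q) (hr0 : 0 ≤ r) 
    (τ : ℂ) (hc : 0 ≤ Real.cos (lam * τ.im)) (j : ℕ) : (psim q lam r τ j).re ≤ 1 := by
  have hre : 0 ≤ (uu q lam r τ j).re := by
    rw [uu_re]
    refine mul_nonneg ?_ hc
    unfold ua; positivity
  have := inv_one_add_re (uu q lam r τ j) hre
  have h2 : (psim q lam r τ j).re = (1 + (uu q lam r τ j).re) /
    ((1 + (uu q lam r τ j).re) ^ 2 + (uu q lam r τ j).im ^ 2) := this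
  rw [h2, div_le_one (by positivity)]
  nlinarith [sq_nonneg (uu q lam r τ j).im]

lemma psim_re_nonneg (q lam r : ℝ) (hq : 0 < q) (hr0 : 0 ≤ r) 
    (τ : ℂ) (hc : 0 ≤ Real.cos (lam * τ.im)) (j : ℕ) : 0 ≤ (psim q lam r τ j).re := by
  have hre : 0 ≤ (uu q lam r τ j).re := by
    rw [uu_re]
    refine mul_nonneg ?_ hc
    unfold ua; positivity
  have := inv_one_add_re (uu q lam r τ j) hre
  have h2 : (psim q lam r τ j).re = (1 + (uu q lam r τ j).re) /
    ((1 + (uu q lam r τ j).re) ^ 2 + (uu q lam r τ j).im ^ 2) := this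
  rw [h2]
  positivity

end Pool.Agent.H.MP_b3c6db_nt
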