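import Pool.Agent.H.MP_b3c6db_nt.SA1

/-! Sharp lower bound: products of local multipliers. -/

namespace Pool.Agent.H.MP_b3c6db_nt

open Complex Finset

variable {ι : Type*} [DecidableEq ι]

/-- multiplication by a product of multipliers -/
noncomputable def mulI (I : Finset ι) (pr : ι → ℕ) (z : ι → ℕ → ℂ) (a : ℕ → ℂ) (k : ℕ) : ℂ :=
  if k = 0 then a 0 else a k * ∏ i ∈ I, z i (padicValNat (pr i) k)

lemma mulI_insert (I : Finset ι) (pr : ι → ℕ) (z : ι → ℕ → ℂ) (a : ℕ → ℂ) (i : ι) (hi : i ∉ I) :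
    mulI (insert i I) pr z a = hmul (pr i) (mulI I pr z a) (z i) := by
  funext k
  unfold mulI hmul
  by_cases hk : k = 0
  · subst hk; simp
  · simp only [if_neg hk, prod_insert hi]
    ring

theorem mulI_op (H : ℕ) (I : Finset ι) (pr : ι → ℕ) (z : ι → ℕ → ℂ)
    (hI : ∀ i ∈ I, (pr i).Prime ∧ pr i % 4 = 3)
    (h0 : ∀ i ∈ I, 0 ≤ (z i 0).re) (h1 : ∀ i ∈ I, ∀ j, (z i j).re ≤ 1)
    (h : ∀ i ∈ I, ∀ j, Real.sqrt (pr i) * |(z i j).im| ≤ (z i (j + 1)).re - (z i j).re)
    (a : ℕ → ℂ) (ha : ∀ x, 0 ≤ P H a x) (x : ℝ) :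
    (∏ i ∈ I, (z i 0).re) * P H a x ≤ P H (mulI I pr z a) x := by
  induction I using Finset.induction_on generalizing x with
  | empty =>
    have e : mulI ∅ pr z a = a := by
      funext k
      unfold mulI
      split_ifs with hk
      · rw [hk]
      · simp
    rw [e]
    simp
  | insert i I hi ih =>
    have ih' := ih (fun j hj => hI j (mem_insert_of_mem hj)) (fun j hj => h0 j (mem_insert_of_mem hj))
      (fun j hj => h1 j (mem_insert_of_mem hj)) (fun j hj => h j (mem_insert_of_mem hj))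
    obtain ⟨hp1, hp2⟩ := hI i (mem_insert_self i I)
    haveI : Fact (pr i).Prime := ⟨hp1⟩
    obtain ⟨M, hM1, hM2, hM3, hM4⟩ := exists_M_gen (pr i) hp1.two_le (H + 1) (z i)
      (h1 i (mem_insert_self i I)) (h i (mem_insert_self i I))
    have hprod : 0 ≤ ∏ j ∈ I, (z j 0).re :=
      prod_nonneg fun j hj => h0 j (mem_insert_of_mem hj)
    have hnn : ∀ x, 0 ≤ P H (mulI I pr z a) x := fun x =>
      le_trans (mul_nonneg hprod (ha x)) (ih' x)
    rw [mulI_insert I pr z a i hi, prod_insert hi]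
    have h2 := local_op (pr i) hp2 H (H + 1) (z i) M hM1 hM2 hM3 (by
      intro k hk hk0
      have h2 : (pr i) ^ (padicValNat (pr i) k) ∣ k := pow_padicValNat_dvd
      have h3 : (pr i) ^ (padicValNat (pr i) k) ≤ k := Nat.le_of_dvd (Nat.pos_of_ne_zero hk0) h2
      have h4 : padicValNat (pr i) k < (pr i) ^ (padicValNat (pr i) k) := Nat.lt_pow_self hp1.one_lt
      omega) (mulI I pr z a) hnn x
    refine le_trans ?_ h2
    have h5 := mul_le_mul hM4 (ih' x) (mul_nonneg hprod (ha x))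
      ((h0 i (mem_insert_self i I)).trans hM4)
    calc _ = (z i 0).re * ((∏ j ∈ I, (z j 0).re) * P H a x) := by ring
      _ ≤ _ := h5

/-- iterate `B` times -/
theorem mulI_pow_op (H : ℕ) (I : Finset ι) (pr : ι → ℕ) (z : ι → ℕ → ℂ)
    (hI : ∀ i ∈ I, (pr i).Prime ∧ pr i % 4 = 3)
    (h0 : ∀ i ∈ I, 0 ≤ (z i 0).re) (h1 : ∀ i ∈ I, ∀ j, (z i j).re ≤ 1)
    (h : ∀ i ∈ I, ∀ j, Real.sqrt (pr i) * |(z i j).im| ≤ (z i (j + 1)).re - (z i j).re)
    (a : ℕ → ℂ) (ha : ∀ x, 0 ≤ P H a x) (B : ℕ) (x : ℝ) :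
    (∏ i ∈ I, (z i 0).re) ^ B * P H a x ≤
      P H (fun k => if k = 0 then a 0 else a k * (∏ i ∈ I, z i (padicValNat (pr i) k)) ^ B) x := by
  have hprod : 0 ≤ ∏ j ∈ I, (z j 0).re := prod_nonneg fun j hj => h0 j hj
  induction B generalizing x with
  | zero =>
    have e : (fun k => if k = 0 then a 0 else a k * (∏ i ∈ I, z i (padicValNat (pr i) k)) ^ 0) = a := by
      funext k
      split_ifs with hk
      · rw [hk]
      · simp
    rw [e]
    simp
  | succ B ih =>
    set b : ℕ → ℂ := fun k => if k = 0 then a 0 else a k * (∏ i ∈ I, z i (padicValNat (pr i) k)) ^ B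
      with hb
    have hbn : ∀ x, 0 ≤ P H b x := fun x =>
      le_trans (mul_nonneg (pow_nonneg hprod B) (ha x)) (ih x)
    have h2 := mulI_op H I pr z hI h0 h1 h b hbn x
    have e : (fun k => if k = 0 then a 0 else a k * (∏ i ∈ I, z i (padicValNat (pr i) k)) ^ (B + 1))
        = mulI I pr z b := by
      funext k
      unfold mulI
      rw [hb]
      by_cases hk : k = 0
      · simp [hk]
      · simp only [if_neg hk]
        rw [pow_succ]; ring
    rw [e]
    refine le_trans ?_ h2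
    rw [pow_succ]
    calc _ = (∏ i ∈ I, (z i 0).re) * ((∏ i ∈ I, (z i 0).re) ^ B * P H a x) := by ring
      _ ≤ _ := mul_le_mul_of_nonneg_left (ih x) hprod

end Pool.Agent.H.MP_b3c6db_nt
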