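import Pool.Agent.H.MP_b3c6db_nt.Harnack

/-! Sharp Harnack inequality in the strip `|Im τ| < 1`. -/

namespace Pool.Agent.H.MP_b3c6db_nt

open Complex Metric

/-- derivative bound on the unit disc -/
lemma deriv_bound_disc {F : ℂ → ℂ} {v : ℝ} (hv : 0 < v)
    (hF : DifferentiableOn ℂ F (ball 0 1)) (hpos : ∀ w ∈ ball (0 : ℂ) 1, 0 ≤ (F w).re)
    (hc : F 0 = (v : ℂ)) : ‖deriv F 0‖ ≤ 2 * v := by
  have hne : ∀ w ∈ ball (0 : ℂ) 1, F w + v ≠ 0 := by
    intro w hw h
    have h1 := congrArg Complex.re h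
    simp at h1
    have := hpos w hw
    linarith
  set g : ℂ → ℂ := fun w => (F w - v) / (F w + v) with hg
  have hgd : DifferentiableOn ℂ g (ball 0 1) :=
    (hF.sub_const _).div (hF.add_const _) hne
  have hgc : g 0 = 0 := by simp [hg, hc]
  have hmaps : Set.MapsTo g (ball 0 1) (closedBall (g 0) 1) := by
    intro w hw
    rw [hgc, mem_closedBall_zero_iff]
    simp only [hg]
    rw [norm_div, div_le_one (norm_pos_iff.mpr (hne w hw))]
    rw [← sq_le_sq₀ (norm_nonneg _) (norm_nonneg _), Complex.sq_norm, Complex.sq_norm,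
      Complex.normSq_apply, Complex.normSq_apply]
    have := hpos w hw
    simp
    nlinarith
  have h1 := Complex.norm_deriv_le_div_of_mapsTo_ball hgd hmaps one_pos
  have hF0 : DifferentiableAt ℂ F 0 := hF.differentiableAt (isOpen_ball.mem_nhds (mem_ball_self one_pos))
  have hFc : HasDerivAt F (deriv F 0) 0 := hF0.hasDerivAt
  have hnc : F 0 + v ≠ 0 := hne 0 (mem_ball_self one_pos)
  have h2 : HasDerivAt g ((deriv F 0 * (F 0 + v) - (F 0 - v) * deriv F 0) / (F 0 + v) ^ 2) 0 :=
    (hFc.sub_const _).div (hFc.add_const _) hnc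
  rw [h2.deriv, hc] at h1
  have hv' : (v : ℂ) ≠ 0 := by exact_mod_cast hv.ne'
  have h3 : (deriv F 0 * ((v : ℂ) + v) - ((v : ℂ) - v) * deriv F 0) / ((v : ℂ) + v) ^ 2 =
      deriv F 0 / (2 * v) := by
    field_simp
    ring
  rw [h3, norm_div] at h1
  have h4 : ‖(2 * (v : ℂ))‖ = 2 * v := by
    rw [norm_mul, Complex.norm_real, Real.norm_eq_abs, abs_of_pos hv]
    simp
  rw [h4, div_le_div_iff₀ (by positivity) one_pos] at h1
  linarith

/-- the conformal map from the disc to the strip centred at `t` -/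
noncomputable def cmap (t : ℝ) (w : ℂ) : ℂ := t + (2 / Real.pi : ℝ) * Complex.log ((1 + w) / (1 - w))

lemma re_pos_disc {w : ℂ} (hw : w ∈ ball (0 : ℂ) 1) : 0 < ((1 + w) / (1 - w)).re := by
  have hw1 : ‖w‖ < 1 := by simpa using hw
  have hne : (1 : ℂ) - w ≠ 0 := by
    intro h
    have : w = 1 := by linear_combination -h
    rw [this] at hw1
    simp at hw1
  rw [Complex.div_re]
  have hn : 0 < Complex.normSq (1 - w) := Complex.normSq_pos.2 hne
  have h2 : w.re ^ 2 + w.im ^ 2 < 1 := by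
    have h3 : ‖w‖ ^ 2 < 1 := by nlinarith [norm_nonneg w]
    rw [Complex.sq_norm, Complex.normSq_apply] at h3
    nlinarith
  rw [← add_div]
  refine div_pos ?_ hn
  simp
  nlinarith

lemma cmap_im {t : ℝ} {w : ℂ} (hw : w ∈ ball (0 : ℂ) 1) : |(cmap t w).im| < 1 := by
  have h := re_pos_disc hw
  have h2 : |((1 + w) / (1 - w)).arg| < Real.pi / 2 := Complex.abs_arg_lt_pi_div_two_iff.2 (Or.inl h)
  unfold cmap
  rw [Complex.add_im, Complex.ofReal_im, zero_add, Complex.im_ofReal_mul, Complex.log_im, abs_mul,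
    abs_of_pos (by positivity)]
  have hpi := Real.pi_pos
  calc 2 / Real.pi * |((1 + w) / (1 - w)).arg| < 2 / Real.pi * (Real.pi / 2) :=
        mul_lt_mul_of_pos_left h2 (by positivity)
    _ = 1 := by field_simp

lemma cmap_diff {t : ℝ} : DifferentiableOn ℂ (cmap t) (ball 0 1) := by
  unfold cmap
  refine (differentiableOn_const _).add ((differentiableOn_const _).mul ?_)
  refine DifferentiableOn.clog ?_ ?_
  · refine DifferentiableOn.div (by fun_prop) (by fun_prop) ?_
    intro w hw h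
    have hw1 : ‖w‖ < 1 := by simpa using hw
    have : w = 1 := by linear_combination -h
    rw [this] at hw1
    simp at hw1
  · intro w hw
    exact Or.inl (re_pos_disc hw)

lemma cmap_deriv (t : ℝ) : HasDerivAt (cmap t) ((4 / Real.pi : ℝ) : ℂ) 0 := by
  have h1 : HasDerivAt (fun w : ℂ => (1 + w) / (1 - w)) 2 0 := by
    have ha : HasDerivAt (fun w : ℂ => 1 + w) 1 0 := (hasDerivAt_id 0).const_add 1
    have hb : HasDerivAt (fun w : ℂ => 1 - w) (-1) 0 := (hasDerivAt_id 0).const_sub 1
    have := ha.div hb (by simp)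
    refine this.congr_deriv ?_
    norm_num
  have h2 : HasDerivAt (fun w : ℂ => Complex.log ((1 + w) / (1 - w))) 2 0 := by
    have := h1.clog (by simp)
    refine this.congr_deriv ?_
    simp
  have h3 := (h2.const_mul ((2 / Real.pi : ℝ) : ℂ)).const_add (t : ℂ)
  refine h3.congr_deriv ?_
  push_cast
  ring

/-- Harnack in the strip `|Im τ| < 1`. -/
theorem harnack_strip {F : ℂ → ℂ} {f : ℝ → ℝ}
    (hF : ∀ τ : ℂ, |τ.im| < 1 → DifferentiableAt ℂ F τ) (hFf : ∀ t : ℝ, F t = f t)
    (hpos : ∀ τ : ℂ, |τ.im| < 1 → 0 ≤ (F τ).re)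
    (hfpos : ∀ t : ℝ, 0 < f t) {T : ℝ} (hT : 0 ≤ T) :
    f 0 * Real.exp (-(Real.pi / 2 * T)) ≤ f T := by
  have hd0 : ∀ t : ℝ, DifferentiableAt ℂ F t := fun t => hF t (by simp)
  have hfd : ∀ t : ℝ, HasDerivAt f (deriv F t).re t := by
    intro t
    have h1 : HasDerivAt F (deriv F t) (t : ℂ) := (hd0 t).hasDerivAt
    have h2 := h1.real_of_complex
    have h3 : (fun x : ℝ => (F x).re) = f := by
      funext x
      rw [hFf]
      simp
    rwa [h3] at h2
  have hbound : ∀ t : ℝ, -(Real.pi / 2 * f t) ≤ (deriv F t).re := by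
    intro t
    have hct0 : cmap t 0 = t := by unfold cmap; simp
    have h1 := deriv_bound_disc (F := fun w => F (cmap t w)) (hfpos t) (by
      intro w hw
      have h2 := cmap_diff (t := t) w hw
      exact DifferentiableAt.comp_differentiableWithinAt w (hF _ (cmap_im hw)) h2)
      (fun w hw => hpos _ (cmap_im hw)) (by rw [hct0, hFf])
    have h3 : HasDerivAt (fun w => F (cmap t w)) (deriv F t * ((4 / Real.pi : ℝ) : ℂ)) 0 := by
      have h4 : HasDerivAt F (deriv F t) (cmap t 0) := by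
        rw [hct0]; exact (hd0 t).hasDerivAt
      exact h4.comp (0 : ℂ) (cmap_deriv t)
    rw [h3.deriv, norm_mul, Complex.norm_real, Real.norm_of_nonneg (by positivity)] at h1
    have hpi := Real.pi_pos
    have h5 : ‖deriv F t‖ ≤ Real.pi / 2 * f t := by
      have : ‖deriv F ↑t‖ * (4 / Real.pi) * (Real.pi / 4) ≤ 2 * f t * (Real.pi / 4) :=
        mul_le_mul_of_nonneg_right h1 (by positivity)
      have e : ‖deriv F ↑t‖ * (4 / Real.pi) * (Real.pi / 4) = ‖deriv F ↑t‖ := by
        field_simp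
      rw [e] at this
      linarith
    exact (abs_le.mp ((Complex.abs_re_le_norm _).trans h5)).1
  have hmono : Monotone (fun t : ℝ => f t * Real.exp (Real.pi / 2 * t)) := by
    have hder : ∀ t : ℝ, HasDerivAt (fun t : ℝ => f t * Real.exp (Real.pi / 2 * t))
        ((deriv F t).re * Real.exp (Real.pi / 2 * t) +
          f t * (Real.exp (Real.pi / 2 * t) * (Real.pi / 2 * 1))) t := fun t =>
      (hfd t).mul (((hasDerivAt_id t).const_mul _).exp)
    refine monotone_of_deriv_nonneg (fun t => (hder t).differentiableAt) fun t => ?_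
    rw [(hder t).deriv]
    have h2 := hbound t
    have h3 := Real.exp_pos (Real.pi / 2 * t)
    have : (deriv F t).re * Real.exp (Real.pi / 2 * t) +
          f t * (Real.exp (Real.pi / 2 * t) * (Real.pi / 2 * 1))
        = ((deriv F t).re + Real.pi / 2 * f t) * Real.exp (Real.pi / 2 * t) := by ring
    rw [this]
    exact mul_nonneg (by linarith) h3.le
  have h := hmono hT
  simp only [mul_zero, Real.exp_zero, mul_one] at h
  rw [Real.exp_neg, ← div_eq_mul_inv, div_le_iff₀ (Real.exp_pos _)]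
  exact h

end Pool.Agent.H.MP_b3c6db_nt
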