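import Pool.Agent.H.MP_b3c6db_nt.SA2
import Pool.Agent.H.MP_b3c6db_nt.SA3
import Pool.Agent.H.MP_b3c6db_nt.Coeff

/-! Sharp lower bound: the core inequality. -/

namespace Pool.Agent.H.MP_b3c6db_nt

open Complex Finset

variable {ι : Type*} [DecidableEq ι]

theorem sharp_core (H : ℕ) (c : ℕ → ℝ) (hadm : Admissible H c) (I : Finset ι) (pr : ι → ℕ)
    (lam r : ι → ℝ) (q : ℝ) (hq : 0 < q) (B : ℕ)
    (hI : ∀ i ∈ I, (pr i).Prime ∧ pr i % 4 = 3)
    (hr : ∀ i ∈ I, 0 < r i ∧ r i < 1) (hl : ∀ i ∈ I, 0 ≤ lam i ∧ lam i < Real.pi / 2)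
    (hpl : ∀ i ∈ I, Real.sqrt (pr i) * Real.sin (lam i) ≤ (1 - r i) * Real.cos (lam i))
    (T : ℝ) (hT : 0 ≤ T)
    (hbig : ∀ k, k ≠ 0 → k ≤ H → Real.log (2 * H) ≤
      B * ∑ i ∈ I, Real.log (1 + q * Real.exp (lam i * T) * r i ^ padicValNat (pr i) k)) :
    Real.exp (-(q * B * I.card)) * Real.exp (-(Real.pi / 2 * T)) ≤ 2 * c 0 := by
  obtain ⟨hnn, hone⟩ := hadm
  set z : ℂ → ι → ℕ → ℂ := fun τ i v => psim q (lam i) (r i) τ v with hz
  set w : ℂ → ℕ → ℂ := fun τ k =>
    if k = 0 then (c 0 : ℂ) else (c k : ℂ) * (∏ i ∈ I, z τ i (padicValNat (pr i) k)) ^ B with hw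
  set F : ℂ → ℂ := fun τ => ∑ k ∈ range (H + 1), w τ k with hF
  set f : ℝ → ℝ := fun t => ∑ k ∈ range (H + 1), if k = 0 then c 0 else
    c k * (∏ i ∈ I, 1 / (1 + q * Real.exp (lam i * t) * r i ^ padicValNat (pr i) k)) ^ B with hf
  have hcos : ∀ τ : ℂ, |τ.im| ≤ 1 → ∀ i ∈ I, 0 ≤ Real.cos (lam i * τ.im) := by
    intro τ hτ i hi
    have h1 := (hl i hi).1
    have h2 := (hl i hi).2
    have hθ : |lam i * τ.im| ≤ lam i := by
      rw [abs_mul, abs_of_nonneg h1]
      nlinarith [abs_nonneg τ.im]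
    have h3 := abs_le.1 hθ
    exact Real.cos_nonneg_of_mem_Icc ⟨by linarith, by linarith⟩
  have hFdiff : ∀ τ : ℂ, |τ.im| < 1 → DifferentiableAt ℂ F τ := by
    intro τ hτ
    simp only [hF, hw]
    refine DifferentiableAt.fun_sum fun k _ => ?_
    by_cases hk : k = 0
    · simp only [hk, if_true]
      exact differentiableAt_const _
    · simp only [if_neg hk]
      refine DifferentiableAt.const_mul (DifferentiableAt.fun_pow ?_ B) _
      refine DifferentiableAt.fun_finsetProd fun i hi => ?_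
      simp only [hz, psim]
      refine DifferentiableAt.div (differentiableAt_const _) (by fun_prop) ?_
      intro h0
      have h1 := congrArg Complex.re h0
      have h2 := uu_re q (lam i) (r i) τ (padicValNat (pr i) k)
      unfold uu at h2
      rw [Complex.add_re, Complex.one_re, h2, Complex.zero_re] at h1
      have h3 : 0 ≤ ua q (lam i) (r i) τ (padicValNat (pr i) k) := by
        unfold ua
        have := (hr i hi).1
        positivity
      have h4 := mul_nonneg h3 (hcos τ hτ.le i hi)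
      linarith
  have hFf : ∀ t : ℝ, F t = f t := by
    intro t
    simp only [hF, hf, hw, hz, psim]
    push_cast
    refine sum_congr rfl fun k _ => ?_
    split_ifs <;> push_cast <;> rfl
  have hPF : ∀ τ : ℂ, P H (w τ) 0 = (F τ).re := by
    intro τ
    simp only [hF]
    unfold P
    rw [Complex.re_sum]
    apply sum_congr rfl
    intro k _
    simp [ex_zero]
  have hnn' : ∀ x, 0 ≤ P H (fun k => (c k : ℂ)) x := by
    intro x
    rw [← cosPoly_eq_P]
    exact hnn x
  have hone' : P H (fun k => (c k : ℂ)) 0 = 1 := by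
    rw [← cosPoly_eq_P]
    exact hone
  have hop : ∀ τ : ℂ, |τ.im| < 1 → (∏ i ∈ I, (z τ i 0).re) ^ B ≤ (F τ).re := by
    intro τ hτ
    have h2 := mulI_pow_op H I pr (z τ) hI
      (fun i hi => psim_re_nonneg q (lam i) (r i) hq (hr i hi).1.le τ (hcos τ hτ.le i hi) 0)
      (fun i hi j => psim_re_le_one q (lam i) (r i) hq (hr i hi).1.le τ (hcos τ hτ.le i hi) j)
      (fun i hi j => psim_cond (pr i) q (lam i) (r i) hq (hr i hi).1.le (hr i hi).2 (hl i hi).1
        (hl i hi).2 (hpl i hi) τ hτ.le j) (fun k => (c k : ℂ)) hnn' B 0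
    rw [hone', mul_one] at h2
    exact h2.trans (le_of_eq (hPF τ))
  have hpos : ∀ τ : ℂ, |τ.im| < 1 → 0 ≤ (F τ).re := by
    intro τ hτ
    refine le_trans ?_ (hop τ hτ)
    refine pow_nonneg (prod_nonneg fun i hi => ?_) _
    exact psim_re_nonneg q (lam i) (r i) hq (hr i hi).1.le τ (hcos τ hτ.le i hi) 0
  have hreal : ∀ t : ℝ, ∀ i ∈ I, (z t i 0).re = 1 / (1 + q * Real.exp (lam i * t)) := by
    intro t i _
    simp only [hz, psim, pow_zero, mul_one]
    have : (1 : ℂ) / (1 + (q : ℂ) * Complex.exp ((lam i : ℂ) * (t : ℂ))) =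
        ((1 / (1 + q * Real.exp (lam i * t)) : ℝ) : ℂ) := by push_cast; rfl
    rw [this, Complex.ofReal_re]
  have hflow : ∀ t : ℝ, 0 < f t := by
    intro t
    have h2 := hop t (by simp)
    rw [hFf, Complex.ofReal_re] at h2
    refine lt_of_lt_of_le ?_ h2
    refine pow_pos (prod_pos fun i hi => ?_) _
    rw [hreal t i hi]
    positivity
  have hf0 : Real.exp (-(q * B * I.card)) ≤ f 0 := by
    have h2 := hop (0 : ℝ) (by simp)
    rw [hFf, Complex.ofReal_re] at h2
    refine le_trans ?_ h2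
    have h3 : Real.exp (-q) ^ I.card ≤ ∏ i ∈ I, (z ((0 : ℝ) : ℂ) i 0).re := by
      rw [← prod_const]
      refine prod_le_prod (fun i _ => (Real.exp_pos _).le) fun i hi => ?_
      rw [hreal 0 i hi, mul_zero, Real.exp_zero, mul_one, Real.exp_neg, ← one_div]
      exact one_div_le_one_div_of_le (by linarith) (by linarith [Real.add_one_le_exp q])
    calc Real.exp (-(q * B * I.card)) = (Real.exp (-q) ^ I.card) ^ B := by
          rw [← Real.exp_nat_mul, ← Real.exp_nat_mul]; congr 1; ring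
      _ ≤ _ := pow_le_pow_left₀ (by positivity) h3 B
  have hH := harnack_strip hFdiff hFf hpos hflow hT
  have hc0 : 0 ≤ c 0 := by
    rw [← int_cosPoly H c]
    exact intervalIntegral.integral_nonneg (by norm_num) (fun x _ => hnn x)
  have hup : f T ≤ 2 * c 0 := by
    simp only [hf]
    rw [Finset.range_eq_Ico, Finset.sum_eq_sum_Ico_succ_bot (by omega)]
    simp only [if_true]
    have e1 : (∑ k ∈ Finset.Ico (0 + 1) (H + 1), if k = 0 then c 0 else
        c k * (∏ i ∈ I, 1 / (1 + q * Real.exp (lam i * T) * r i ^ padicValNat (pr i) k)) ^ B) ≤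
        ∑ k ∈ Finset.Ico (0 + 1) (H + 1), 2 * c 0 * (1 / (2 * H : ℝ)) := by
      apply sum_le_sum
      intro k hk
      rw [Finset.mem_Ico] at hk
      have hk0 : k ≠ 0 := by omega
      have hkH : k ≤ H := by omega
      have hH0 : (0 : ℝ) < H := by
        have : 0 < H := by omega
        exact_mod_cast this
      rw [if_neg hk0]
      have e2 := coeff_bound H c hnn k hk0 hkH
      have e3 := le_of_abs_le e2
      have hD : ∀ i ∈ I, 0 < 1 + q * Real.exp (lam i * T) * r i ^ padicValNat (pr i) k := by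
        intro i hi
        have := (hr i hi).1
        positivity
      have hpr0 : 0 < (∏ i ∈ I, (1 + q * Real.exp (lam i * T) * r i ^ padicValNat (pr i) k)) ^ B :=
        pow_pos (prod_pos hD) B
      have e4 : (∏ i ∈ I, 1 / (1 + q * Real.exp (lam i * T) * r i ^ padicValNat (pr i) k)) ^ B
          ≤ 1 / (2 * H : ℝ) := by
        have e5 : (∏ i ∈ I, 1 / (1 + q * Real.exp (lam i * T) * r i ^ padicValNat (pr i) k)) ^ B
            = 1 / (∏ i ∈ I, (1 + q * Real.exp (lam i * T) * r i ^ padicValNat (pr i) k)) ^ B := by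
          rw [prod_div_distrib, prod_const_one, div_pow, one_pow]
        rw [e5]
        refine one_div_le_one_div_of_le (by positivity) ?_
        rw [← Real.exp_log (show (0 : ℝ) < 2 * H by positivity), ← Real.exp_log hpr0, Real.exp_le_exp,
          Real.log_pow, Real.log_prod fun i hi => (hD i hi).ne']
        exact hbig k hk0 hkH
      have e6 : 0 ≤ (∏ i ∈ I, 1 / (1 + q * Real.exp (lam i * T) * r i ^ padicValNat (pr i) k)) ^ B :=
        pow_nonneg (prod_nonneg fun i hi => (one_div_pos.2 (hD i hi)).le) _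
      calc c k * _ ≤ 2 * c 0 * _ := mul_le_mul_of_nonneg_right e3 e6
        _ ≤ _ := mul_le_mul_of_nonneg_left e4 (by linarith)
    rw [sum_const, Nat.card_Ico] at e1
    simp only [nsmul_eq_mul] at e1
    have e5 : ((H + 1 - (0 + 1) : ℕ) : ℝ) = H := by
      have : H + 1 - (0 + 1) = H := by omega
      rw [this]
    rw [e5] at e1
    have e6 : (H : ℝ) * (2 * c 0 * (1 / (2 * H : ℝ))) ≤ c 0 := by
      rcases Nat.eq_zero_or_pos H with hH0 | hH0
      · subst hH0
        simp [hc0]
      · have : (0 : ℝ) < H := by exact_mod_cast hH0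
        apply le_of_eq
        field_simp
    linarith
  have h1 := mul_le_mul_of_nonneg_right hf0 (Real.exp_pos (-(Real.pi / 2 * T))).le
  exact h1.trans (hH.trans hup)

end Pool.Agent.H.MP_b3c6db_nt
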