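import Pool.Agent.H.MP_b3c6db_nt.GaussG

/-! Approximation of the smoothed quadratic exponential sum near rationals. -/

namespace Pool.Agent.H.MP_b3c6db_nt

open Finset Complex

/-- smoothed quadratic sum `∑ exp (- π k² / M²) ex (k² x)`. -/
noncomputable def Th (M x : ℝ) : ℂ := jacobiTheta₂ 0 (2 * x + Complex.I / M ^ 2)

lemma Th_tau_im (M x : ℝ) (hM : 0 < M) : 0 < ((2 * x + Complex.I / M ^ 2 : ℂ)).im := by
  have h : ((2 * x + Complex.I / M ^ 2 : ℂ)) =
      ((2 * x : ℝ) : ℂ) + ((1 / M ^ 2 : ℝ) : ℂ) * Complex.I := by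
    push_cast
    ring
  rw [h, Complex.add_im, Complex.ofReal_im, Complex.im_ofReal_mul, Complex.I_im]
  have : 0 < 1 / M ^ 2 := by positivity
  linarith

lemma Th_term (M x : ℝ) (n : ℤ) : jacobiTheta₂_term n 0 (2 * x + Complex.I / M ^ 2) =
    ((Real.exp (-(Real.pi * (n : ℝ) ^ 2 / M ^ 2)) : ℝ) : ℂ) * ex ((n : ℝ) ^ 2 * x) := by
  unfold jacobiTheta₂_term ex
  rw [Complex.ofReal_exp, ← Complex.exp_add]
  congr 1
  push_cast
  linear_combination ((Real.pi : ℂ) * (n : ℂ) ^ 2 / (M : ℂ) ^ 2) * Complex.I_sq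

lemma Th_hasSum (M x : ℝ) (hM : 0 < M) :
    HasSum (fun n : ℤ => ((Real.exp (-(Real.pi * (n : ℝ) ^ 2 / M ^ 2)) : ℝ) : ℂ) *
      ex ((n : ℝ) ^ 2 * x)) (Th M x) := by
  have h := hasSum_jacobiTheta₂_term 0 (Th_tau_im M x hM)
  simp_rw [Th_term] at h
  exact h

/-- one residue class. -/
lemma class_sum (s : ℂ) (hs : 0 < s.re) (q b : ℕ) (hq : 0 < q) :
    HasSum (fun m : ℤ => Complex.exp (-(Real.pi * ((m : ℂ) * q + b) ^ 2 * s)))
      (1 / ((q : ℂ) ^ 2 * s) ^ (1 / 2 : ℂ) *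
        jacobiTheta₂ ((b : ℂ) / q) (Complex.I / ((q : ℂ) ^ 2 * s))) := by
  have hq0 : (q : ℂ) ≠ 0 := by exact_mod_cast hq.ne'
  have hs0 : s ≠ 0 := by
    rintro rfl
    simp at hs
  set z : ℂ := Complex.I * b * q * s with hz
  set τ : ℂ := Complex.I * (q : ℂ) ^ 2 * s with hτ
  have hτim : 0 < τ.im := by
    have h1 : τ = ((q : ℝ) ^ 2 : ℝ) * (Complex.I * s) := by
      rw [hτ]; push_cast; ring
    have h2 : (Complex.I * s).im = s.re := by simp
    rw [h1, Complex.im_ofReal_mul, h2]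
    have : (0 : ℝ) < (q : ℝ) ^ 2 := by positivity
    positivity
  have h1 := (hasSum_jacobiTheta₂_term z hτim).mul_left (Complex.exp (-(Real.pi * (b : ℂ) ^ 2 * s)))
  have h2 : Complex.exp (-(Real.pi * (b : ℂ) ^ 2 * s)) * jacobiTheta₂ z τ =
      1 / ((q : ℂ) ^ 2 * s) ^ (1 / 2 : ℂ) *
        jacobiTheta₂ ((b : ℂ) / q) (Complex.I / ((q : ℂ) ^ 2 * s)) := by
    rw [jacobiTheta₂_functional_equation z τ]
    have e1 : -Complex.I * τ = (q : ℂ) ^ 2 * s := by
      rw [hτ]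
      linear_combination (-((q : ℂ) ^ 2 * s)) * Complex.I_sq
    have e2 : -(Real.pi : ℂ) * Complex.I * z ^ 2 / τ = Real.pi * (b : ℂ) ^ 2 * s := by
      rw [hz, hτ]
      field_simp
      linear_combination (-((b : ℂ) ^ 2)) * Complex.I_sq
    have e3 : z / τ = (b : ℂ) / q := by
      rw [hz, hτ]
      field_simp
    have e4 : -1 / τ = Complex.I / ((q : ℂ) ^ 2 * s) := by
      rw [hτ]
      field_simp
      linear_combination (-1 : ℂ) * Complex.I_sq
    rw [e1, e2, e3, e4]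
    have e5 : Complex.exp (-(Real.pi * (b : ℂ) ^ 2 * s)) * Complex.exp (Real.pi * (b : ℂ) ^ 2 * s) = 1 := by
      rw [← Complex.exp_add]
      simp
    linear_combination (1 / ((q : ℂ) ^ 2 * s) ^ (1 / 2 : ℂ) *
        jacobiTheta₂ ((b : ℂ) / q) (Complex.I / ((q : ℂ) ^ 2 * s))) * e5
  rw [h2] at h1
  have h3 : (fun m : ℤ => Complex.exp (-(Real.pi * ((m : ℂ) * q + b) ^ 2 * s))) =
      fun m : ℤ => Complex.exp (-(Real.pi * (b : ℂ) ^ 2 * s)) * jacobiTheta₂_term m z τ := by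
    funext m
    unfold jacobiTheta₂_term
    rw [← Complex.exp_add]
    congr 1
    rw [hz, hτ]
    linear_combination (-(2 * Real.pi * (m : ℂ) * b * q * s) -
      Real.pi * (m : ℂ) ^ 2 * (q : ℂ) ^ 2 * s) * Complex.I_sq
  rw [h3]
  exact h1

/-- splitting of the sum according to residues. -/
lemma Th_eq (r : ℚ) (β M : ℝ) (hM : 0 < M) (s : ℂ) (hs : s = 1 / (M : ℂ) ^ 2 - 2 * Complex.I * β) :
    Th M (r + β) = 1 / ((r.den : ℂ) ^ 2 * s) ^ (1 / 2 : ℂ) *
      ∑ b ∈ range r.den, ex ((r : ℝ) * (b : ℝ) ^ 2) *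
        jacobiTheta₂ ((b : ℂ) / r.den) (Complex.I / ((r.den : ℂ) ^ 2 * s)) := by
  have hne : NeZero r.den := ⟨r.den_ne_zero⟩
  have hsre : 0 < s.re := by
    have h1 : s = ((1 / M ^ 2 : ℝ) : ℂ) + ((-2 * β : ℝ) : ℂ) * Complex.I := by
      rw [hs]; push_cast; ring
    rw [h1, Complex.add_re, Complex.ofReal_re, Complex.re_ofReal_mul, Complex.I_re]
    have : 0 < 1 / M ^ 2 := by positivity
    linarith
  have h0 := Th_hasSum M (r + β) hM
  set f : ℤ → ℂ := fun n : ℤ => ((Real.exp (-(Real.pi * (n : ℝ) ^ 2 / M ^ 2)) : ℝ) : ℂ) *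
      ex ((n : ℝ) ^ 2 * (r + β)) with hf
  have h1 : HasSum (f ∘ ((Equiv.prodComm (Fin r.den) ℤ).trans (Int.divModEquiv r.den).symm))
      (Th M (r + β)) := (Equiv.hasSum_iff _).mpr h0
  have h2 : ∀ b : Fin r.den, HasSum (fun m : ℤ =>
      (f ∘ ((Equiv.prodComm (Fin r.den) ℤ).trans (Int.divModEquiv r.den).symm)) (b, m))
      (ex ((r : ℝ) * ((b : ℕ) : ℝ) ^ 2) * (1 / ((r.den : ℂ) ^ 2 * s) ^ (1 / 2 : ℂ) *
        jacobiTheta₂ (((b : ℕ) : ℂ) / r.den) (Complex.I / ((r.den : ℂ) ^ 2 * s)))) := by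
    intro b
    have h3 := (class_sum s hsre r.den b r.den_pos).mul_left (ex ((r : ℝ) * ((b : ℕ) : ℝ) ^ 2))
    have h4 : (fun m : ℤ =>
      (f ∘ ((Equiv.prodComm (Fin r.den) ℤ).trans (Int.divModEquiv r.den).symm)) (b, m)) =
      fun m : ℤ => ex ((r : ℝ) * ((b : ℕ) : ℝ) ^ 2) *
        Complex.exp (-(Real.pi * ((m : ℂ) * r.den + (b : ℕ)) ^ 2 * s)) := by
      funext m
      have e1 : ((Equiv.prodComm (Fin r.den) ℤ).trans (Int.divModEquiv r.den).symm) (b, m) =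
        m * (r.den : ℤ) + ((b : ℕ) : ℤ) := rfl
      rw [Function.comp_apply, e1]
      simp only [hf]
      have e2 : ((m * (r.den : ℤ) + ((b : ℕ) : ℤ) : ℤ) : ℝ) ^ 2 * ((r : ℝ) + β) =
          (((m * (r.den : ℤ) + ((b : ℕ) : ℤ) : ℤ) : ℝ) ^ 2 * β + (r : ℝ) * ((b : ℕ) : ℝ) ^ 2) +
          ((r.num * m * (2 * (b : ℕ) + r.den * m) : ℤ) : ℝ) := by
        push_cast
        rw [← rat_mul_den r]
        ring
      rw [ex_congr_int _ e2, ex_add]
      rw [mul_comm (ex _) (ex _), mul_left_comm]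
      congr 1
      unfold ex
      rw [Complex.ofReal_exp, ← Complex.exp_add]
      congr 1
      rw [hs]
      push_cast
      ring
    rw [h4]
    exact h3
  have h5 := h1.prod_fiberwise h2
  have h6 := h5.unique (hasSum_fintype _)
  rw [h6, mul_sum, ← Fin.sum_univ_eq_sum_range (fun b => 1 / ((r.den : ℂ) ^ 2 * s) ^ (1 / 2 : ℂ) *
    (ex ((r : ℝ) * (b : ℝ) ^ 2) *
        jacobiTheta₂ ((b : ℂ) / r.den) (Complex.I / ((r.den : ℂ) ^ 2 * s)))) r.den]
  apply sum_congr rfl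
  intro b _
  ring

/-- two sided geometric sequence without its central term. -/
noncomputable def gfun (x : ℝ) (l : ℤ) : ℝ := if l = 0 then 0 else x ^ l.natAbs

lemma gfun_nat (x : ℝ) (n : ℕ) : gfun x (n : ℤ) = x ^ n - if n = 0 then 1 else 0 := by
  unfold gfun
  by_cases hn : n = 0
  · subst hn
    simp
  · simp [hn]

lemma gfun_neg (x : ℝ) (n : ℕ) : gfun x (-((n : ℤ) + 1)) = x * x ^ n := by
  unfold gfun
  have hn : (-((n : ℤ) + 1)) ≠ 0 := by omega
  have hn2 : (-((n : ℤ) + 1)).natAbs = n + 1 := by omega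
  rw [if_neg hn, hn2, pow_succ]
  ring

lemma two_sided_geom (x : ℝ) (hx0 : 0 < x) (hx1 : x < 1) :
    HasSum (gfun x) (2 * (x / (1 - x))) := by
  have hne : 1 - x ≠ 0 := by linarith
  have hg := hasSum_geometric_of_lt_one hx0.le hx1
  have h1 : HasSum (fun n : ℕ => gfun x (n : ℤ)) (x / (1 - x)) := by
    have h2 := hg.sub (hasSum_ite_eq (0 : ℕ) (1 : ℝ))
    have e1 : (1 - x)⁻¹ - 1 = x / (1 - x) := by
      field_simp
      ring
    rw [e1] at h2
    simp_rw [gfun_nat]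
    exact h2
  have h3 : HasSum (fun n : ℕ => gfun x (-((n : ℤ) + 1))) (x / (1 - x)) := by
    have h2 := hg.mul_left x
    have e1 : x * (1 - x)⁻¹ = x / (1 - x) := by ring
    rw [e1] at h2
    simp_rw [gfun_neg]
    exact h2
  have h4 := HasSum.of_nat_of_neg_add_one h1 h3
  rw [two_mul]
  exact h4

/-- the dual sum. -/
lemma dual_sum (r : ℚ) (τ : ℂ) (ht : 0 < τ.im) :
    ‖∑ b ∈ range r.den, ex ((r : ℝ) * (b : ℝ) ^ 2) * jacobiTheta₂ ((b : ℂ) / r.den) τ -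
      r.den * gG r‖ ≤ Real.sqrt (2 * r.den) * (2 * (1 / (Real.pi * τ.im))) := by
  have hd : (r.den : ℂ) ≠ 0 := by exact_mod_cast r.den_ne_zero
  set K : ℤ → ℂ := fun l => ∑ b ∈ range r.den, ex ((r : ℝ) * (b : ℝ) ^ 2 + l * b / r.den) with hK
  have h1 : HasSum (fun l : ℤ => ∑ b ∈ range r.den, ex ((r : ℝ) * (b : ℝ) ^ 2) *
      jacobiTheta₂_term l ((b : ℂ) / r.den) τ)
      (∑ b ∈ range r.den, ex ((r : ℝ) * (b : ℝ) ^ 2) * jacobiTheta₂ ((b : ℂ) / r.den) τ) :=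
    hasSum_sum (fun b _ => (hasSum_jacobiTheta₂_term _ ht).mul_left _)
  have h2 : (fun l : ℤ => ∑ b ∈ range r.den, ex ((r : ℝ) * (b : ℝ) ^ 2) *
      jacobiTheta₂_term l ((b : ℂ) / r.den) τ) =
      fun l : ℤ => K l * Complex.exp (Real.pi * Complex.I * (l : ℂ) ^ 2 * τ) := by
    funext l
    rw [hK]
    simp only
    rw [sum_mul]
    apply sum_congr rfl
    intro b _
    rw [ex_add, mul_assoc]
    congr 1
    unfold jacobiTheta₂_term ex
    rw [← Complex.exp_add]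
    congr 1
    push_cast
    ring
  rw [h2] at h1
  have hK0 : K 0 = r.den * gG r := by
    rw [hK]
    unfold gG
    simp only
    rw [← mul_assoc, mul_one_div_cancel hd, one_mul]
    apply sum_congr rfl
    intro b _
    congr 1
    simp
  have h3 := h1.sub (hasSum_ite_eq (0 : ℤ) (K 0))
  rw [hK0] at h3
  set x : ℝ := Real.exp (-(Real.pi * τ.im)) with hx
  have hpt : 0 < Real.pi * τ.im := by positivity
  have hx0 : 0 < x := Real.exp_pos _
  have hx1 : x < 1 := by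
    rw [hx, Real.exp_lt_one_iff]
    linarith
  have h4 := (two_sided_geom x hx0 hx1).mul_left (Real.sqrt (2 * r.den))
  have h5 := HasSum.norm_le_of_bounded h3 h4 (by
    intro l
    by_cases hl : l = 0
    · subst hl
      simp [hK0, gfun]
    · unfold gfun
      simp only [if_neg hl, sub_zero]
      rw [norm_mul]
      apply mul_le_mul (norm_K_le r l) _ (norm_nonneg _) (Real.sqrt_nonneg _)
      rw [Complex.norm_exp, hx, ← Real.exp_nat_mul]
      apply Real.exp_le_exp.mpr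
      have e1 : (Real.pi * Complex.I * (l : ℂ) ^ 2 * τ).re = -(Real.pi * τ.im) * (l : ℝ) ^ 2 := by
        have e2 : (Real.pi * Complex.I * (l : ℂ) ^ 2 * τ) =
            ((Real.pi * (l : ℝ) ^ 2 : ℝ) : ℂ) * (Complex.I * τ) := by
          push_cast
          ring
        rw [e2, Complex.re_ofReal_mul]
        simp
        ring
      rw [e1]
      have e3 : ((l.natAbs : ℕ) : ℝ) ≤ (l : ℝ) ^ 2 := by
        have e4 : ((l.natAbs : ℕ) : ℤ) ≤ l ^ 2 := by
          rw [← Int.natAbs_sq l]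
          have : 0 < l.natAbs := Int.natAbs_pos.mpr hl
          have : (1 : ℤ) ≤ (l.natAbs : ℤ) := by exact_mod_cast this
          nlinarith
        rw [Nat.cast_natAbs] at e4 ⊢
        exact_mod_cast e4
      nlinarith)
  refine h5.trans ?_
  apply mul_le_mul_of_nonneg_left _ (Real.sqrt_nonneg _)
  apply mul_le_mul_of_nonneg_left _ (by norm_num)
  rw [div_le_div_iff₀ (by linarith) hpt]
  have h6 := Real.add_one_le_exp (Real.pi * τ.im)
  have h7 : x * Real.exp (Real.pi * τ.im) = 1 := by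
    rw [hx, ← Real.exp_add]
    simp
  nlinarith

/-- `V = exp ω`. -/
noncomputable def om (u : ℝ) : ℂ := -(1 / 2) * Complex.log (1 - 2 * Complex.I * u)

lemma om_arg_re (u : ℝ) : (1 - 2 * Complex.I * u : ℂ).re = 1 := by simp

lemma norm_one_sub (u : ℝ) : ‖(1 - 2 * Complex.I * u : ℂ)‖ = Real.sqrt (1 + 4 * u ^ 2) := by
  rw [Complex.norm_def, Complex.normSq_apply]
  congr 1
  simp
  ring

lemma one_sub_ne (u : ℝ) : (1 - 2 * Complex.I * u : ℂ) ≠ 0 := by
  intro h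
  have := om_arg_re u
  rw [h] at this
  simp at this

lemma om_re (u : ℝ) : (om u).re ≤ 0 := by
  unfold om
  have h1 : (-(1 / 2) * Complex.log (1 - 2 * Complex.I * u)).re =
      -(1 / 2) * Real.log ‖(1 - 2 * Complex.I * u : ℂ)‖ := by
    have : (-(1 / 2) * Complex.log (1 - 2 * Complex.I * u)) =
      ((-(1 / 2) : ℝ) : ℂ) * Complex.log (1 - 2 * Complex.I * u) := by push_cast; ring
    rw [this, Complex.re_ofReal_mul, Complex.log_re]
  rw [h1, norm_one_sub]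
  have : 0 ≤ Real.log (Real.sqrt (1 + 4 * u ^ 2)) := by
    apply Real.log_nonneg
    rw [show (1 : ℝ) = Real.sqrt 1 by simp]
    apply Real.sqrt_le_sqrt
    simp
    positivity
  linarith

lemma om_im (u : ℝ) : |(om u).im| ≤ Real.pi / 4 := by
  unfold om
  have : (-(1 / 2) * Complex.log (1 - 2 * Complex.I * u)) =
      ((-(1 / 2) : ℝ) : ℂ) * Complex.log (1 - 2 * Complex.I * u) := by push_cast; ring
  rw [this, Complex.im_ofReal_mul, Complex.log_im, abs_mul]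
  have h1 : |Complex.arg (1 - 2 * Complex.I * u)| ≤ Real.pi / 2 := by
    rw [Complex.abs_arg_le_pi_div_two_iff, om_arg_re]
    norm_num
  have h2 : |(-(1 / 2) : ℝ)| = 1 / 2 := by norm_num
  rw [h2]
  linarith

lemma norm_exp_om_sq (u : ℝ) : ‖Complex.exp (om u)‖ ^ 2 = 1 / Real.sqrt (1 + 4 * u ^ 2) := by
  have h1 : Complex.exp (om u) ^ 2 * (1 - 2 * Complex.I * u) = 1 := by
    rw [← Complex.exp_nat_mul]
    conv_lhs => rw [← Complex.exp_log (one_sub_ne u)]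
    rw [← Complex.exp_add]
    unfold om
    rw [Complex.exp_eq_one_iff]
    refine ⟨0, ?_⟩
    push_cast
    ring
  have h2 := congrArg norm h1
  rw [norm_mul, norm_pow, norm_one_sub, norm_one] at h2
  have h3 : 0 < Real.sqrt (1 + 4 * u ^ 2) := Real.sqrt_pos.mpr (by positivity)
  field_simp
  exact h2

lemma W_eq (c u : ℝ) (hc : 0 < c) :
    1 / ((c : ℂ) ^ 2 * (1 - 2 * Complex.I * u)) ^ (1 / 2 : ℂ) = (1 / (c : ℂ)) * Complex.exp (om u) := by
  have hne := one_sub_ne u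
  have hc2 : (0 : ℝ) < c ^ 2 := by positivity
  have hcne : (c : ℂ) ≠ 0 := by exact_mod_cast hc.ne'
  have h0 : ((c : ℂ) ^ 2 * (1 - 2 * Complex.I * u)) ≠ 0 := mul_ne_zero (pow_ne_zero _ hcne) hne
  rw [Complex.cpow_def_of_ne_zero h0]
  have h1 : Complex.log ((c : ℂ) ^ 2 * (1 - 2 * Complex.I * u)) =
      ((2 * Real.log c : ℝ) : ℂ) + Complex.log (1 - 2 * Complex.I * u) := by
    rw [← Complex.ofReal_pow, Complex.log_ofReal_mul hc2 hne, Real.log_pow]
    push_cast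
    ring
  rw [h1]
  have h2 : Complex.exp ((((2 * Real.log c : ℝ) : ℂ) + Complex.log (1 - 2 * Complex.I * u)) * (1 / 2)) =
      (c : ℂ) * Complex.exp (-(om u)) := by
    unfold om
    have h3 : (c : ℂ) = Complex.exp ((Real.log c : ℝ) : ℂ) := by
      rw [← Complex.ofReal_exp, Real.exp_log hc]
    conv_rhs => rw [h3]
    rw [← Complex.exp_add]
    congr 1
    push_cast
    ring
  rw [h2, Complex.exp_neg]
  field_simp

lemma tau_im (c u : ℝ) (hc : 0 < c) :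
    (Complex.I / ((c : ℂ) ^ 2 * (1 - 2 * Complex.I * u))).im = 1 / (c ^ 2 * (1 + 4 * u ^ 2)) := by
  have hw : (1 + 4 * u ^ 2 : ℝ) ≠ 0 := by positivity
  have hcne : (c : ℂ) ≠ 0 := by exact_mod_cast hc.ne'
  have hne := one_sub_ne u
  have h1 : Complex.I / ((c : ℂ) ^ 2 * (1 - 2 * Complex.I * u)) =
      ((1 / (c ^ 2 * (1 + 4 * u ^ 2)) : ℝ) : ℂ) * (Complex.I - 2 * u) := by
    have hwC : ((1 + 4 * u ^ 2 : ℝ) : ℂ) ≠ 0 := by exact_mod_cast hw
    rw [div_eq_iff (mul_ne_zero (pow_ne_zero _ hcne) hne)]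
    push_cast at hwC ⊢
    field_simp
    linear_combination (2 * (u : ℂ)) * Complex.I_sq
  rw [h1, Complex.im_ofReal_mul]
  simp

theorem Th_approx (r : ℚ) (β M : ℝ) (hM : 0 < M) (hq : (r.den : ℝ) ≤ M)
    (hβ : |β| * (r.den * M) ≤ 1) :
    ‖Th M (r + β) - M * Complex.exp (om (β * M ^ 2)) * gG r‖ ≤ 7 * Real.sqrt M := by
  set q : ℝ := (r.den : ℝ) with hqdef
  have hq0 : 0 < q := by
    rw [hqdef]
    exact_mod_cast r.den_pos
  have hqC : (r.den : ℂ) = ((q : ℝ) : ℂ) := by rw [hqdef]; push_cast; rfl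
  set u : ℝ := β * M ^ 2 with hu
  set c : ℝ := q / M with hc
  have hc0 : 0 < c := by positivity
  have hMne : (M : ℂ) ≠ 0 := by exact_mod_cast hM.ne'
  have hqne : (q : ℂ) ≠ 0 := by exact_mod_cast hq0.ne'
  have hs := Th_eq r β M hM (1 / (M : ℂ) ^ 2 - 2 * Complex.I * β) rfl
  have e1 : (r.den : ℂ) ^ 2 * (1 / (M : ℂ) ^ 2 - 2 * Complex.I * β) =
      (c : ℂ) ^ 2 * (1 - 2 * Complex.I * u) := by
    rw [hqC, hc, hu]
    push_cast
    field_simp
  rw [e1, W_eq c u hc0] at hs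
  have hτ := tau_im c u hc0
  have hw : 0 < 1 + 4 * u ^ 2 := by positivity
  have hdual := dual_sum r (Complex.I / ((c : ℂ) ^ 2 * (1 - 2 * Complex.I * u)))
    (by rw [hτ]; positivity)
  rw [hτ] at hdual
  set S : ℂ := ∑ b ∈ range r.den, ex ((r : ℝ) * (b : ℝ) ^ 2) *
    jacobiTheta₂ ((b : ℂ) / r.den) (Complex.I / ((c : ℂ) ^ 2 * (1 - 2 * Complex.I * u))) with hS
  have e2 : Th M (r + β) - M * Complex.exp (om u) * gG r =
      (1 / (c : ℂ)) * Complex.exp (om u) * (S - r.den * gG r) := by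
    rw [hs, hqC, hc]
    push_cast
    field_simp
  rw [e2, norm_mul, norm_mul]
  have e3 : ‖(1 / (c : ℂ))‖ = M / q := by
    rw [norm_div, norm_one, Complex.norm_real, Real.norm_eq_abs, abs_of_pos hc0, hc]
    field_simp
  rw [e3]
  set v : ℝ := ‖Complex.exp (om u)‖ with hv
  have hv0 : 0 ≤ v := norm_nonneg _
  have hv2 : v ^ 2 = 1 / Real.sqrt (1 + 4 * u ^ 2) := norm_exp_om_sq u
  set R : ℝ := Real.sqrt (1 + 4 * u ^ 2) with hR
  have hR0 : 0 < R := Real.sqrt_pos.mpr hw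
  have hRR : R ^ 2 = 1 + 4 * u ^ 2 := Real.sq_sqrt hw.le
  have hqR : q * R ≤ 2.3 * M := by
    have h1 : (|β| * (q * M)) ^ 2 ≤ 1 := by
      have h0 : 0 ≤ |β| * (q * M) := by positivity
      nlinarith
    have h2 : (|β| * (q * M)) ^ 2 = β ^ 2 * (q * M) ^ 2 := by
      rw [mul_pow, sq_abs]
    rw [h2] at h1
    have h3 : q ^ 2 ≤ M ^ 2 := by nlinarith
    have h4 : (q * R) ^ 2 ≤ (2.3 * M) ^ 2 := by
      rw [mul_pow, hRR, hu]
      have h5 : β ^ 2 * (q * M) ^ 2 * M ^ 2 ≤ 1 * M ^ 2 :=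
        mul_le_mul_of_nonneg_right h1 (by positivity)
      nlinarith
    exact le_of_sq_le_sq h4 (by positivity)
  have hpi := Real.pi_gt_three
  have hfin : M / q * v * (Real.sqrt (2 * q) * (2 * (1 / (Real.pi * (1 / (c ^ 2 * (1 + 4 * u ^ 2))))))) ≤
      7 * Real.sqrt M := by
    have h7 : 7 * Real.sqrt M = Real.sqrt (49 * M) := by
      rw [Real.sqrt_mul (by norm_num), show (49 : ℝ) = 7 ^ 2 by norm_num,
        Real.sqrt_sq (by norm_num)]
    rw [h7]
    apply Real.le_sqrt_of_sq_le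
    have h8 : (M / q * v * (Real.sqrt (2 * q) *
        (2 * (1 / (Real.pi * (1 / (c ^ 2 * (1 + 4 * u ^ 2)))))))) ^ 2 =
        8 * (q * R) ^ 3 / (Real.pi ^ 2 * M ^ 2) := by
      rw [mul_pow, mul_pow, mul_pow, hv2, Real.sq_sqrt (by positivity), ← hRR, hc]
      field_simp
      ring
    rw [h8, div_le_iff₀ (by positivity)]
    have h9 : (q * R) ^ 3 ≤ (2.3 * M) ^ 3 := pow_le_pow_left₀ (by positivity) hqR 3
    have h10 : (9 : ℝ) ≤ Real.pi ^ 2 := by nlinarith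
    have h11 : 0 < M ^ 3 := by positivity
    nlinarith
  exact le_trans (mul_le_mul_of_nonneg_left hdual (by positivity)) hfin

end Pool.Agent.H.MP_b3c6db_nt
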