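import Pool.Agent.H.MP_b3c6db_nt.Trunc

/-! Final form of the upper bound for `delta`. -/

namespace Pool.Agent.H.MP_b3c6db_nt

open Finset Filter

/-- The local inequality for the parameters attached to `y`, `D`. -/
lemma local_params (y : ℝ) (D : ℕ) (hD : 1 ≤ D) (hlogy : 16000 ≤ Real.log y) (hy0 : 0 < y)
    (r : ℚ) (ω : ℂ) (hω1 : |ω.im| ≤ Real.pi / 4) (hω2 : ω.re ≤ 0) :
    -(2 * Real.exp (-(Real.sqrt y / 1000 * (⌊Real.log y / 4⌋₊ : ℕ))) +
      2 * ((D : ℝ) ^ (-(1 / (400 * Real.sqrt y) / 2)) * Real.exp (20 * Real.sqrt y))) ≤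
      (Complex.exp ω * ∑ v ∈ Icc 1 D, ((Awt y (1 / (400 * Real.sqrt y)) (Real.sqrt y / 1000)
        ⌊Real.log y / 4⌋₊ v : ℝ) : ℂ) * Dlt v r).re := by
  -- sizes
  have hylarge : (10 : ℝ) ^ 8 ≤ y := by
    have h1 : Real.log ((10 : ℝ) ^ 8) ≤ Real.log y := by
      rw [Real.log_pow]
      have h2 : Real.log 10 ≤ 10 - 1 := Real.log_le_sub_one_of_pos (by norm_num)
      push_cast
      linarith
    exact (Real.log_le_log_iff (by positivity) hy0).mp h1
  have hsq : 10 ^ 4 ≤ Real.sqrt y := by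
    apply Real.le_sqrt_of_sq_le
    norm_num
    norm_num at hylarge
    exact hylarge
  have hsq0 : 0 < Real.sqrt y := by linarith
  have hsqsq : Real.sqrt y * Real.sqrt y = y := Real.mul_self_sqrt hy0.le
  have hlogle : Real.log y ≤ 2 * Real.sqrt y := by
    have h1 : Real.log y = 2 * Real.log (Real.sqrt y) := by
      rw [Real.log_sqrt hy0.le]
      ring
    have h2 := Real.log_le_sub_one_of_pos hsq0
    linarith
  have hlog0 : 0 < Real.log y := by linarith
  apply local_theorem r y (1 / (400 * Real.sqrt y)) (Real.sqrt y / 1000) ⌊Real.log y / 4⌋₊ D ω hD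
  · linarith
  · positivity
  · rw [div_le_iff₀ (by positivity)]
    linarith
  · rw [div_mul_eq_mul_div, one_mul, div_le_iff₀ (by positivity)]
    linarith
  · apply le_of_eq
    field_simp
  · have h1 : 1 / (400 * Real.sqrt y) * Real.sqrt y * Real.log y = Real.log y / 400 := by
      field_simp
    rw [h1]
    linarith
  · -- s ≤ sigI y I
    unfold sigI
    rw [div_le_div_iff₀ (by positivity) hlog0, one_mul, one_div, inv_pow]
    have h2 : (2 : ℝ) ^ ⌊Real.log y / 4⌋₊ ≤ Real.exp (Real.log y / 4) := by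
      have h3 : (⌊Real.log y / 4⌋₊ : ℝ) ≤ Real.log y / 4 := Nat.floor_le (by positivity)
      have h4 : (2 : ℝ) ≤ Real.exp 1 := by
        have := Real.exp_one_gt_d9
        linarith
      calc (2 : ℝ) ^ ⌊Real.log y / 4⌋₊ ≤ Real.exp 1 ^ ⌊Real.log y / 4⌋₊ :=
            pow_le_pow_left₀ (by norm_num) h4 _
        _ = Real.exp (⌊Real.log y / 4⌋₊ : ℕ) := by
            rw [← Real.exp_nat_mul, mul_one]
        _ ≤ _ := Real.exp_le_exp.mpr h3
    have h5 : Real.log y ≤ 4 * Real.exp (Real.log y / 4) := by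
      have := Real.add_one_le_exp (Real.log y / 4)
      linarith
    have h6 : Real.exp (Real.log y / 4) * Real.exp (Real.log y / 4) = Real.sqrt y := by
      rw [← Real.exp_add]
      have : Real.log y / 4 + Real.log y / 4 = Real.log y * (1 / 2) := by ring
      rw [this, Real.exp_mul, Real.exp_log hy0, Real.sqrt_eq_rpow]
    have h7 : (0 : ℝ) < 2 ^ ⌊Real.log y / 4⌋₊ := by positivity
    rw [inv_mul_eq_div, le_div_iff₀ h7]
    calc Real.log y * 2 ^ ⌊Real.log y / 4⌋₊ ≤
          (4 * Real.exp (Real.log y / 4)) * Real.exp (Real.log y / 4) := by gcongr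
      _ = 4 * Real.sqrt y := by rw [← h6]; ring
      _ ≤ 400 * Real.sqrt y := by linarith
  · linarith
  · have h1 : (Real.sqrt y / 1000 + 2) * (21 / Real.sqrt y) = 21 / 1000 + 42 / Real.sqrt y := by
      field_simp
      ring
    rw [h1]
    have h2 : 42 / Real.sqrt y ≤ 42 / 10 ^ 4 :=
      div_le_div_of_nonneg_left (by norm_num) (by norm_num) hsq
    norm_num at h2 ⊢
    linarith
  · exact hω1
  · exact hω2

lemma alg_aux (ℓ lam R : ℝ) (hR : 0 < R) (hlam : 0 < lam) (h : R * R = ℓ * lam) :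
    ℓ / 80 * (-(1 / (400 * (R / lam)) / 2)) = -(R / 64000) := by
  have h1 : ℓ / 80 * (-(1 / (400 * (R / lam)) / 2)) = -((ℓ * lam) / (64000 * R)) := by
    field_simp
    ring
  rw [h1, ← h]
  field_simp

lemma exp_absorb (R : ℝ) (hR : 1280000 ≤ R) :
    56 * Real.exp (-(1 / 128000 * R)) ≤ Real.exp (-(1 / 256000 * R)) := by
  have h1 : Real.exp (-(1 / 128000 * R)) =
      Real.exp (-(1 / 256000 * R)) * Real.exp (-(1 / 256000 * R)) := by
    rw [← Real.exp_add]
    congr 1
    ring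
  have h2 : 56 ≤ Real.exp (1 / 256000 * R) := by
    have h3 : (5 : ℝ) ≤ 1 / 256000 * R := by linarith
    have h4 : Real.exp 5 ≤ Real.exp (1 / 256000 * R) := Real.exp_le_exp.mpr h3
    have h5 : (2.7 : ℝ) ^ 5 ≤ Real.exp 5 := by
      have h6 : Real.exp 5 = Real.exp 1 ^ 5 := by
        rw [← Real.exp_nat_mul]
        norm_num
      rw [h6]
      apply pow_le_pow_left₀ (by norm_num)
      have := Real.exp_one_gt_d9
      linarith
    norm_num at h5
    linarith
  have h7 : Real.exp (1 / 256000 * R) * Real.exp (-(1 / 256000 * R)) = 1 := by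
    rw [← Real.exp_add]
    simp
  have h8 : 0 < Real.exp (-(1 / 256000 * R)) := Real.exp_pos _
  rw [h1]
  nlinarith

/-- upper bound for large `H`. -/
theorem upper_large (H : ℕ) (hH : 1 ≤ H) (hℓ1 : 1 ≤ Real.log H)
    (hLL : 2560000 ≤ Real.log (Real.log H)) :
    delta H ≤ Real.exp (-(1 / 256000 * Real.sqrt (Real.log H * Real.log (Real.log H)))) := by
  have hHR : (0 : ℝ) < H := by exact_mod_cast hH
  set ℓ : ℝ := Real.log H with hℓ
  set lam : ℝ := Real.log ℓ with hlam
  have hℓ0 : 0 < ℓ := by linarith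
  have hlam0 : 0 < lam := by linarith
  have hlamℓ : lam + 1 ≤ ℓ := by
    have := Real.add_one_le_exp lam
    rwa [hlam, Real.exp_log hℓ0] at this
  set y : ℝ := ℓ / lam with hy
  have hy0 : 0 < y := by positivity
  have hlogy_eq : Real.log y = lam - Real.log lam := by
    rw [hy, Real.log_div hℓ0.ne' hlam0.ne']
  have hloglam : Real.log lam ≤ lam / 2 := by
    have h1 : Real.log lam = Real.log 2 + Real.log (lam / 2) := by
      rw [← Real.log_mul (by norm_num) (by positivity)]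
      congr 1
      ring
    have h2 := Real.log_le_sub_one_of_pos (by positivity : 0 < lam / 2)
    have h3 := Real.log_two_lt_d9
    linarith
  have hlogy : lam / 2 ≤ Real.log y := by linarith
  have hlogy16 : 16000 ≤ Real.log y := by linarith
  set R : ℝ := Real.sqrt (ℓ * lam) with hR
  have hR0 : 0 < R := Real.sqrt_pos.mpr (by positivity)
  have hRR : R * R = ℓ * lam := Real.mul_self_sqrt (by positivity)
  have hRlam : lam ≤ R := by
    apply Real.le_sqrt_of_sq_le
    nlinarith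
  have hRℓ : R ≤ ℓ := by
    rw [hR, Real.sqrt_le_left hℓ0.le]
    nlinarith
  -- √y = R / lam and ℓ / √y = R
  have hsqy : Real.sqrt y = R / lam := by
    rw [hy, Real.sqrt_eq_iff_mul_self_eq (by positivity) (by positivity)]
    rw [div_mul_div_comm, hRR]
    field_simp
  have hsqy0 : 0 < Real.sqrt y := Real.sqrt_pos.mpr hy0
  -- parameters
  set Y : ℝ := Real.exp (ℓ / 80) with hY
  have hY0 : 0 < Y := Real.exp_pos _
  have hY36 : 36 ≤ Y := by
    have := Real.add_one_le_exp (ℓ / 80)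
    linarith
  have hY80 : Y ^ 80 = H := by
    rw [hY, ← Real.exp_nat_mul]
    have : ((80 : ℕ) : ℝ) * (ℓ / 80) = ℓ := by push_cast; ring
    rw [this, hℓ, Real.exp_log hHR]
  set D : ℕ := ⌊Y ^ 2⌋₊ with hD
  have hDle : (D : ℝ) ≤ Y ^ 2 := Nat.floor_le (by positivity)
  have hDge : Y ≤ D := by
    have h1 := (Nat.lt_floor_add_one (Y ^ 2)).le
    nlinarith
  have hD1 : 1 ≤ D := by
    have : (1 : ℝ) ≤ D := by linarith
    exact_mod_cast this
  have hD0 : (0 : ℝ) < D := by linarith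
  set s : ℝ := 1 / (400 * Real.sqrt y) with hs
  have hs0 : 0 < s := by positivity
  set κ : ℝ := Real.sqrt y / 1000 with hκ
  set I : ℕ := ⌊Real.log y / 4⌋₊ with hI
  set L : ℝ := 2 * Real.exp (-(κ * (I : ℕ))) +
      2 * ((D : ℝ) ^ (-(s / 2)) * Real.exp (20 * Real.sqrt y)) with hL
  have hsq4 : 10 ^ 3 ≤ Real.sqrt y := by
    apply Real.le_sqrt_of_sq_le
    have h1 : Real.log ((10 : ℝ) ^ 8) ≤ Real.log y := by
      rw [Real.log_pow]
      have h2 : Real.log 10 ≤ 10 - 1 := Real.log_le_sub_one_of_pos (by norm_num)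
      push_cast
      linarith
    have h2 : (10 : ℝ) ^ 8 ≤ y := (Real.log_le_log_iff (by positivity) hy0).mp h1
    norm_num at h2 ⊢
    linarith
  have hy1 : 1 ≤ y := by
    by_contra hcon
    push Not at hcon
    have := Real.log_nonpos hy0.le hcon.le
    linarith
  have hκ1 : 1 ≤ κ := by
    rw [hκ]
    linarith
  have hL0 : 0 ≤ L := by
    have := Real.rpow_nonneg hD0.le (-(s / 2))
    positivity
  -- the sqrt bound
  have hDX : Real.sqrt (D / Y ^ 40) ≤ 1 / Y ^ 19 := by
    rw [Real.sqrt_le_left (by positivity)]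
    calc (D : ℝ) / Y ^ 40 ≤ Y ^ 2 / Y ^ 40 := div_le_div_of_nonneg_right hDle (by positivity)
      _ = (1 / Y ^ 19) ^ 2 := by
        field_simp
  have hYpow : ∀ a b : ℕ, a + 1 ≤ b → Y ^ a / Y ^ b ≤ 1 / Y := by
    intro a b hab
    rw [div_le_div_iff₀ (by positivity) hY0, one_mul, ← pow_succ]
    exact pow_le_pow_right₀ (by linarith) hab
  have hD2 : (D : ℝ) ^ 2 ≤ Y ^ 4 := by
    calc (D : ℝ) ^ 2 ≤ (Y ^ 2) ^ 2 := pow_le_pow_left₀ hD0.le hDle 2
      _ = Y ^ 4 := by ring
  have e1 : 2 * (D : ℝ) ^ 2 * (7 * Real.sqrt (D / Y ^ 40)) ≤ 14 * (1 / Y) := by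
    calc 2 * (D : ℝ) ^ 2 * (7 * Real.sqrt (D / Y ^ 40)) ≤ 2 * Y ^ 4 * (7 * (1 / Y ^ 19)) := by
          gcongr
      _ = 14 * (Y ^ 4 / Y ^ 19) := by ring
      _ ≤ 14 * (1 / Y) := by
          have := hYpow 4 19 (by norm_num)
          linarith
  have e2 : 2 * (D : ℝ) ^ 2 * (2 * (D : ℝ) ^ 2 / Y ^ 40) ≤ 4 * (1 / Y) := by
    calc 2 * (D : ℝ) ^ 2 * (2 * (D : ℝ) ^ 2 / Y ^ 40) ≤ 2 * Y ^ 4 * (2 * Y ^ 4 / Y ^ 40) := by
          gcongr
      _ = 4 * (Y ^ 8 / Y ^ 40) := by ring
      _ ≤ 4 * (1 / Y) := by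
          have := hYpow 8 40 (by norm_num)
          linarith
  have e3 : 2 * (D : ℝ) ^ 2 * (D / Y ^ 40) ≤ 2 * (1 / Y) := by
    calc 2 * (D : ℝ) ^ 2 * (D / Y ^ 40) ≤ 2 * Y ^ 4 * (Y ^ 2 / Y ^ 40) := by
          gcongr
      _ = 2 * (Y ^ 6 / Y ^ 40) := by ring
      _ ≤ 2 * (1 / Y) := by
          have := hYpow 6 40 (by norm_num)
          linarith
  have e4 : 2 * (D : ℝ) ^ 2 * Real.sqrt (2 / Y ^ 10) ≤ 4 * (1 / Y) := by
    have h1 : Real.sqrt (2 / Y ^ 10) ≤ 2 / Y ^ 5 := by
      rw [Real.sqrt_le_left (by positivity), div_pow, ← pow_mul]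
      apply div_le_div_of_nonneg_right _ (by positivity)
      norm_num
    calc 2 * (D : ℝ) ^ 2 * Real.sqrt (2 / Y ^ 10) ≤ 2 * Y ^ 4 * (2 / Y ^ 5) := by
          gcongr
      _ = 4 * (Y ^ 4 / Y ^ 5) := by ring
      _ ≤ 4 * (1 / Y) := by
          have := hYpow 4 5 (by norm_num)
          linarith
  have hYinv : 1 / Y ≤ 1 / 36 := one_div_le_one_div_of_le (by norm_num) hY36
  have hmain := delta_le_params (Awt y s κ I) (fun v => Awt_nonneg y s κ I v)
    (fun v => Awt_le_two y s κ I v hy1 hs0.le hκ1) (Awt_one y s κ I) D hD1 (Y ^ 40) (Y ^ 10) L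
    (one_le_pow₀ (by linarith))
    (by
      calc (Y ^ 10) ^ 2 * (D : ℝ) ^ 3 ≤ (Y ^ 10) ^ 2 * (Y ^ 2) ^ 3 := by gcongr
        _ = Y ^ 26 := by ring
        _ ≤ Y ^ 40 := pow_le_pow_right₀ (by linarith) (by norm_num)) hL0
    (fun r ω hω1 hω2 => local_params y D hD1 hlogy16 hy0 r ω hω1 hω2) H
    (by rw [← hY80, ← pow_mul]) (by linarith)
  -- bound by exponentials
  have f1 : Real.exp (-(κ * (I : ℕ))) ≤ Real.exp (-(1 / 128000 * R)) := by
    apply Real.exp_le_exp.mpr
    have h1 : Real.log y / 8 ≤ (I : ℝ) := by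
      have h2 := (Nat.lt_floor_add_one (Real.log y / 4)).le
      rw [← hI] at h2
      linarith
    have h3 : κ * (lam / 16) ≤ κ * I := by
      apply mul_le_mul_of_nonneg_left _ (by linarith)
      linarith
    have h4 : κ * (lam / 16) = R / 16000 := by
      rw [hκ, hsqy]
      field_simp
      ring
    rw [h4] at h3
    linarith
  have f2 : (D : ℝ) ^ (-(s / 2)) * Real.exp (20 * Real.sqrt y) ≤ Real.exp (-(1 / 128000 * R)) := by
    have h1 : (D : ℝ) ^ (-(s / 2)) ≤ Y ^ (-(s / 2)) :=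
      Real.rpow_le_rpow_of_nonpos hY0 hDge (by linarith)
    have h2 : Y ^ (-(s / 2)) = Real.exp (-(R / 64000)) := by
      rw [Real.rpow_def_of_pos hY0, hY, Real.log_exp]
      congr 1
      rw [hs, hsqy]
      exact alg_aux ℓ lam R hR0 hlam0 hRR
    rw [h2] at h1
    calc (D : ℝ) ^ (-(s / 2)) * Real.exp (20 * Real.sqrt y) ≤
          Real.exp (-(R / 64000)) * Real.exp (20 * Real.sqrt y) :=
          mul_le_mul_of_nonneg_right h1 (Real.exp_pos _).le
      _ = Real.exp (-(R / 64000) + 20 * Real.sqrt y) := by rw [Real.exp_add]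
      _ ≤ _ := by
          apply Real.exp_le_exp.mpr
          rw [hsqy]
          have h5 : R / lam ≤ R / 2560000 := div_le_div_of_nonneg_left hR0.le (by norm_num) hLL
          linarith
  have f3 : 1 / Y ≤ Real.exp (-(1 / 128000 * R)) := by
    rw [hY, one_div, ← Real.exp_neg]
    apply Real.exp_le_exp.mpr
    linarith
  have f4 := exp_absorb R (by linarith)
  have f5 : delta H ≤ 56 * Real.exp (-(1 / 128000 * R)) := by
    refine hmain.trans ?_
    have h1 : 2 * (D : ℝ) ^ 2 * (Real.sqrt (2 / Y ^ 10) + 7 * Real.sqrt (D / Y ^ 40)) =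
        2 * (D : ℝ) ^ 2 * Real.sqrt (2 / Y ^ 10) + 2 * (D : ℝ) ^ 2 * (7 * Real.sqrt (D / Y ^ 40)) := by
      ring
    rw [h1, hL]
    linarith
  exact f5.trans f4

lemma delta_le_half (H : ℕ) (hH : 1 ≤ H) : delta H ≤ 1 / 2 := by
  have h1 := (IsCP.const H (1 / 2)).add ((IsCP.cos H 1 le_rfl hH).smul (1 / 2))
  obtain ⟨c, hc0, hc⟩ := h1
  have h2 : Admissible H c := by
    refine ⟨?_, ?_⟩
    · intro x
      rw [hc x]
      have key : ∀ t : ℝ, 0 ≤ 1 / 2 + 1 / 2 * Real.cos t := by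
        intro t
        have := Real.neg_one_le_cos t
        linarith
      exact key _
    · rw [hc 0]
      simp
      norm_num
  have h3 : delta H ≤ c 0 := by
    unfold delta
    apply csInf_le (delta_bddBelow H)
    exact ⟨c, h2, rfl⟩
  rw [hc0] at h3
  linarith

theorem upper_eventually : ∀ᶠ H : ℕ in atTop,
    delta H ≤ Real.exp (-(1 / 256000 * Real.sqrt (Real.log H * Real.log (Real.log H)))) := by
  have h1 : Tendsto (fun H : ℕ => Real.log (H : ℝ)) atTop atTop :=
    Real.tendsto_log_atTop.comp tendsto_natCast_atTop_atTop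
  have h2 : Tendsto (fun H : ℕ => Real.log (Real.log (H : ℝ))) atTop atTop :=
    Real.tendsto_log_atTop.comp h1
  filter_upwards [eventually_ge_atTop 1, h1.eventually_ge_atTop 1,
    h2.eventually_ge_atTop 2560000] with H hH hℓ hL
  exact upper_large H hH hℓ hL

/-- **Upper bound.** -/
theorem upper_bound : ∃ c : ℝ, 0 < c ∧ ∀ H : ℕ, 3 ≤ H →
    delta H ≤ Real.exp (-(c * Real.sqrt (Real.log H * Real.log (Real.log H)))) := by
  obtain ⟨H0, hH0⟩ := eventually_atTop.mp upper_eventually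
  set H1 := max H0 3 with hH1
  have hlog3 : 1 < Real.log 3 := by
    rw [Real.lt_log_iff_exp_lt (by norm_num)]
    have := Real.exp_one_lt_d9
    linarith
  set f : ℕ → ℝ := fun H => Real.sqrt (Real.log H * Real.log (Real.log H)) with hf
  have hmono : ∀ H H' : ℕ, 3 ≤ H → H ≤ H' → f H ≤ f H' := by
    intro H H' h3 hle
    apply Real.sqrt_le_sqrt
    have h3' : (3 : ℝ) ≤ H := by exact_mod_cast h3
    have h0 : Real.log 3 ≤ Real.log H := Real.log_le_log (by norm_num) h3'
    have h1 : Real.log H ≤ Real.log H' := Real.log_le_log (by linarith) (by exact_mod_cast hle)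
    have h2 : Real.log (Real.log H) ≤ Real.log (Real.log H') := Real.log_le_log (by linarith) h1
    have h4 : 0 ≤ Real.log (Real.log H) := Real.log_nonneg (by linarith)
    exact mul_le_mul h1 h2 h4 (by linarith)
  have hf1 : 0 ≤ f H1 := Real.sqrt_nonneg _
  set c := min (1 / 256000) (Real.log 2 / (f H1 + 1)) with hc
  have hlog2 : 0 < Real.log 2 := Real.log_pos (by norm_num)
  have hc0 : 0 < c := lt_min (by norm_num) (by positivity)
  refine ⟨c, hc0, ?_⟩
  intro H hH
  rcases Nat.lt_or_ge H H0 with h | h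
  · refine (delta_le_half H (by omega)).trans ?_
    have h1 : f H ≤ f H1 := hmono H H1 hH (h.le.trans (le_max_left _ _))
    have h2 : c * f H ≤ Real.log 2 := by
      calc c * f H ≤ (Real.log 2 / (f H1 + 1)) * (f H1 + 1) := by
            apply mul_le_mul (min_le_right _ _) (by linarith) (Real.sqrt_nonneg _) (by positivity)
        _ = Real.log 2 := by field_simp
    have h3 : (1 : ℝ) / 2 = Real.exp (-Real.log 2) := by
      rw [Real.exp_neg, Real.exp_log (by norm_num)]
      norm_num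
    rw [h3]
    apply Real.exp_le_exp.mpr
    simp only [hf] at h2
    linarith
  · refine (hH0 H h).trans ?_
    apply Real.exp_le_exp.mpr
    have h1 : c ≤ 1 / 256000 := min_le_left _ _
    have h2 := mul_le_mul_of_nonneg_right h1 (Real.sqrt_nonneg (Real.log H * Real.log (Real.log H)))
    linarith

end Pool.Agent.H.MP_b3c6db_nt
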