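import Mathlib

/-!
Fejer kernel for the Wiener-Ikehara theorem.
-/

open MeasureTheory Set Filter Topology

namespace B3WI

/-- The Fejer kernel (Fourier transform of the tent function on [-1,1]). -/
noncomputable def fej (u : ℝ) : ℝ := if u = 0 then 1 else 2 * (1 - Real.cos u) / u ^ 2

lemma fej_nonneg (u : ℝ) : 0 ≤ fej u := by
  unfold fej
  split_ifs with h
  · norm_num
  · have := Real.cos_le_one u
    exact div_nonneg (by linarith) (by positivity)

lemma fej_le_one (u : ℝ) : fej u ≤ 1 := by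
  unfold fej
  split_ifs with h
  · norm_num
  · have h2 : 0 < u ^ 2 := by positivity
    rw [div_le_one h2]
    have := Real.one_sub_sq_div_two_le_cos (x := u)
    linarith

lemma fej_le (u : ℝ) : fej u ≤ 5 * (1 + u ^ 2)⁻¹ := by
  have h1 : 0 < 1 + u ^ 2 := by positivity
  rw [← div_eq_mul_inv, le_div_iff₀ h1]
  have h0 := fej_nonneg u
  have h2 := fej_le_one u
  have h3 : fej u * u ^ 2 ≤ 4 := by
    unfold fej
    split_ifs with h
    · simp [h]
    · have h2 : 0 < u ^ 2 := by positivity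
      rw [div_mul_cancel₀ _ h2.ne']
      have := Real.neg_one_le_cos u
      linarith
  nlinarith

lemma measurable_fej : Measurable fej := by
  unfold fej
  refine Measurable.ite (measurableSet_singleton 0) measurable_const ?_
  exact ((measurable_const.sub Real.measurable_cos).const_mul 2).div (measurable_id.pow_const 2)

lemma integrable_fej : Integrable fej := by
  refine Integrable.mono' (integrable_inv_one_add_sq.const_mul 5) measurable_fej.aestronglyMeasurable ?_
  refine Eventually.of_forall fun u => ?_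
  rw [Real.norm_of_nonneg (fej_nonneg u)]
  exact fej_le u

/-- Lower bound near zero: `fej u ≥ 1/2` for `|u| ≤ 1`. -/
lemma half_le_fej {u : ℝ} (hu : |u| ≤ 1) : 1 / 2 ≤ fej u := by
  unfold fej
  split_ifs with h
  · norm_num
  · have h2 : 0 < u ^ 2 := by positivity
    rw [le_div_iff₀ h2]
    have h4 := Real.cos_bound hu
    have h5 := abs_le.1 h4
    have h6 : |u| ^ 4 = u ^ 4 := by
      rw [show (4:ℕ) = 2 * 2 from rfl, pow_mul, pow_mul, sq_abs]
    have h7 : u ^ 4 ≤ u ^ 2 := by
      have : u ^ 2 ≤ 1 := by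
        rw [← sq_abs]; nlinarith [abs_nonneg u]
      nlinarith [sq_nonneg u]
    rw [h6] at h5
    nlinarith [h5.1, h5.2]

lemma integral_fej_pos : 0 < ∫ u, fej u := by
  have h1 : (∫ u in Icc (-1 : ℝ) 1, (1 / 2 : ℝ)) ≤ ∫ u in Icc (-1 : ℝ) 1, fej u := by
    refine setIntegral_mono_on ?_ integrable_fej.integrableOn measurableSet_Icc ?_
    · exact integrableOn_const (by simp) (by simp)
    · intro u hu
      exact half_le_fej (abs_le.2 hu)
  have h2 : (∫ u in Icc (-1 : ℝ) 1, fej u) ≤ ∫ u, fej u :=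
    setIntegral_le_integral integrable_fej (Eventually.of_forall fej_nonneg)
  have h3 : (∫ u in Icc (-1 : ℝ) 1, (1 / 2 : ℝ)) = 1 := by
    simp; norm_num
  linarith

/-- The Fourier identity for the tent function. -/
lemma integral_tent (u : ℝ) :
    ∫ ξ in (-1 : ℝ)..1, ((1 - |ξ| : ℝ) : ℂ) * Complex.exp (Complex.I * ξ * u) = (fej u : ℂ) := by
  have hcont : Continuous fun ξ : ℝ => ((1 - |ξ| : ℝ) : ℂ) * Complex.exp (Complex.I * ξ * u) := by
    fun_prop
  rw [← intervalIntegral.integral_add_adjacent_intervals (b := 0)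
    (hcont.intervalIntegrable _ _) (hcont.intervalIntegrable _ _)]
  have e1 : ∫ ξ in (-1 : ℝ)..0, ((1 - |ξ| : ℝ) : ℂ) * Complex.exp (Complex.I * ξ * u)
      = ∫ ξ in (-1 : ℝ)..0, (1 + (ξ : ℂ)) * Complex.exp (Complex.I * ξ * u) := by
    refine intervalIntegral.integral_congr fun ξ hξ => ?_
    rw [uIcc_of_le (by norm_num)] at hξ
    rw [abs_of_nonpos hξ.2]
    push_cast; ring
  have e2 : ∫ ξ in (0 : ℝ)..1, ((1 - |ξ| : ℝ) : ℂ) * Complex.exp (Complex.I * ξ * u)
      = ∫ ξ in (0 : ℝ)..1, (1 - (ξ : ℂ)) * Complex.exp (Complex.I * ξ * u) := by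
    refine intervalIntegral.integral_congr fun ξ hξ => ?_
    rw [uIcc_of_le (by norm_num)] at hξ
    rw [abs_of_nonneg hξ.1]
    push_cast; ring
  rw [e1, e2]
  by_cases hu : u = 0
  · subst hu
    simp only [Complex.ofReal_zero, mul_zero, Complex.exp_zero, mul_one]
    have f1 : ∫ ξ in (-1 : ℝ)..0, (1 + (ξ : ℂ)) = ((∫ ξ in (-1 : ℝ)..0, (1 + ξ) : ℝ) : ℂ) := by
      rw [← intervalIntegral.integral_ofReal]
      refine intervalIntegral.integral_congr fun ξ _ => ?_
      push_cast; ring
    have f2 : ∫ ξ in (0 : ℝ)..1, (1 - (ξ : ℂ)) = ((∫ ξ in (0 : ℝ)..1, (1 - ξ) : ℝ) : ℂ) := by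
      rw [← intervalIntegral.integral_ofReal]
      refine intervalIntegral.integral_congr fun ξ _ => ?_
      push_cast; ring
    rw [f1, f2, intervalIntegral.integral_add (by simp) (by simp),
      intervalIntegral.integral_sub (by simp) (by simp)]
    simp [fej]
    norm_num
  · have huc : (Complex.I * u : ℂ) ≠ 0 := by
      simp [hu]
    have huc' : (u : ℂ) ≠ 0 := by exact_mod_cast hu
    have hd : ∀ ξ : ℝ, HasDerivAt (fun ξ : ℝ => Complex.exp (Complex.I * ξ * u))
        (Complex.exp (Complex.I * ξ * u) * (Complex.I * u)) ξ := by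
      intro ξ
      have h0 : HasDerivAt (fun ξ : ℝ => Complex.I * (ξ : ℂ) * u) (Complex.I * 1 * u) ξ :=
        ((Complex.ofRealCLM.hasDerivAt (x := ξ)).const_mul Complex.I).mul_const (u : ℂ)
      have h1 := h0.cexp
      rwa [mul_one] at h1
    have hx : ∀ ξ : ℝ, HasDerivAt (fun ξ : ℝ => (ξ : ℂ)) 1 ξ := fun ξ =>
      Complex.ofRealCLM.hasDerivAt (x := ξ)
    have g1 : ∀ ξ : ℝ, HasDerivAt (fun ξ : ℝ => (1 + (ξ : ℂ)) * Complex.exp (Complex.I * ξ * u)
        / (Complex.I * u) - Complex.exp (Complex.I * ξ * u) / (Complex.I * u) ^ 2)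
        ((1 + (ξ : ℂ)) * Complex.exp (Complex.I * ξ * u)) ξ := by
      intro ξ
      have h := ((((hx ξ).const_add 1).mul (hd ξ)).div_const (Complex.I * u)).sub
        ((hd ξ).div_const ((Complex.I * u) ^ 2))
      refine h.congr_deriv ?_
      field_simp
      ring
    have g2 : ∀ ξ : ℝ, HasDerivAt (fun ξ : ℝ => (1 - (ξ : ℂ)) * Complex.exp (Complex.I * ξ * u)
        / (Complex.I * u) + Complex.exp (Complex.I * ξ * u) / (Complex.I * u) ^ 2)
        ((1 - (ξ : ℂ)) * Complex.exp (Complex.I * ξ * u)) ξ := by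
      intro ξ
      have h := ((((hx ξ).const_sub 1).mul (hd ξ)).div_const (Complex.I * u)).add
        ((hd ξ).div_const ((Complex.I * u) ^ 2))
      refine h.congr_deriv ?_
      field_simp
      ring
    rw [intervalIntegral.integral_eq_sub_of_hasDerivAt (fun ξ _ => g1 ξ)
      (Continuous.intervalIntegrable (by fun_prop) _ _),
      intervalIntegral.integral_eq_sub_of_hasDerivAt (fun ξ _ => g2 ξ)
      (Continuous.intervalIntegrable (by fun_prop) _ _)]
    have hc : (fej u : ℂ) = (2 - (Complex.exp (Complex.I * u) + Complex.exp (-(Complex.I * u)))) / u ^ 2 := by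
      unfold fej
      rw [if_neg hu]
      push_cast
      rw [Complex.cos, show (u : ℂ) * Complex.I = Complex.I * u from mul_comm _ _,
        show -(u : ℂ) * Complex.I = -(Complex.I * u) by ring]
      ring
    rw [hc]
    push_cast
    rw [show (Complex.I * -1 * (u : ℂ)) = -(Complex.I * u) by ring,
      show (Complex.I * 1 * (u : ℂ)) = (Complex.I * u) by ring,
      show (Complex.I * 0 * (u : ℂ)) = 0 by ring, Complex.exp_zero]
    have hI : (Complex.I * (u : ℂ)) ^ 2 = - (u : ℂ) ^ 2 := by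
      rw [mul_pow, Complex.I_sq]; ring
    rw [hI]
    field_simp
    ring

lemma integral_tent_scaled {lam : ℝ} (hlam : 0 < lam) (u : ℝ) :
    ∫ ξ in (-lam)..lam, ((1 - |ξ| / lam : ℝ) : ℂ) * Complex.exp (Complex.I * ξ * u)
      = (lam * fej (lam * u) : ℝ) := by
  have h := integral_tent (lam * u)
  have h2 := intervalIntegral.integral_comp_div (a := -lam) (b := lam)
    (fun ξ : ℝ => ((1 - |ξ| : ℝ) : ℂ) * Complex.exp (Complex.I * ξ * (lam * u : ℝ))) hlam.ne'
  rw [neg_div, div_self hlam.ne', h] at h2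
  rw [show ((lam * fej (lam * u) : ℝ) : ℂ) = lam • (fej (lam * u) : ℂ) by
    rw [Complex.real_smul]; push_cast; ring]
  rw [← h2]
  refine intervalIntegral.integral_congr fun ξ _ => ?_
  have hl : (lam : ℂ) ≠ 0 := by exact_mod_cast hlam.ne'
  congr 2
  · rw [abs_div, abs_of_pos hlam]
  · push_cast
    field_simp

end B3WI
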