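import Pool.Agent.H.MP_b3c6db_nt.WI1

/-!
Wiener-Ikehara: the Fubini identity.
-/

open MeasureTheory Set Filter Topology

namespace B3WI

lemma fubini_tent (f : ℝ → ℝ) (hf : Measurable f) (C : ℝ) (hC : ∀ u, |f u| ≤ C)
    {ε lam : ℝ} (hε : 0 < ε) (hlam : 0 < lam) (v : ℝ) :
    ((∫ u in Ioi (0 : ℝ), f u * Real.exp (-ε * u) * (lam * fej (lam * (v - u))) : ℝ) : ℂ)
      = ∫ ξ in (-lam)..lam, ((1 - |ξ| / lam : ℝ) : ℂ) * Complex.exp (Complex.I * ξ * v) *
          (∫ u in Ioi (0 : ℝ), (f u : ℂ) * Complex.exp (-(ε + Complex.I * ξ) * u)) := by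
  rw [intervalIntegral.integral_of_le (by linarith)]
  have h1 : ∀ ξ : ℝ, ((1 - |ξ| / lam : ℝ) : ℂ) * Complex.exp (Complex.I * ξ * v) *
          (∫ u in Ioi (0 : ℝ), (f u : ℂ) * Complex.exp (-(ε + Complex.I * ξ) * u))
      = ∫ u in Ioi (0 : ℝ), ((1 - |ξ| / lam : ℝ) : ℂ) * Complex.exp (Complex.I * ξ * v) *
          ((f u : ℂ) * Complex.exp (-(ε + Complex.I * ξ) * u)) := by
    intro ξ
    rw [integral_const_mul]
  simp_rw [h1]
  rw [integral_integral_swap]
  · rw [← integral_complex_ofReal]
    refine integral_congr_ae (Eventually.of_forall fun u => ?_)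
    have h2 := integral_tent_scaled hlam (v - u)
    rw [intervalIntegral.integral_of_le (by linarith)] at h2
    have h3 : ∀ ξ : ℝ, ((1 - |ξ| / lam : ℝ) : ℂ) * Complex.exp (Complex.I * ξ * v) *
          ((f u : ℂ) * Complex.exp (-(ε + Complex.I * ξ) * u))
        = ((f u * Real.exp (-ε * u) : ℝ) : ℂ) * (((1 - |ξ| / lam : ℝ) : ℂ) *
          Complex.exp (Complex.I * ξ * (v - u : ℝ))) := by
      intro ξ
      have : Complex.exp (-(ε + Complex.I * ξ) * u)
          = Complex.exp (-ε * u) * Complex.exp (-(Complex.I * ξ * u)) := by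
        rw [← Complex.exp_add]; congr 1; ring
      rw [this]
      have h4 : Complex.exp (Complex.I * ξ * (v - u : ℝ))
          = Complex.exp (Complex.I * ξ * v) * Complex.exp (-(Complex.I * ξ * u)) := by
        rw [← Complex.exp_add]; congr 1; push_cast; ring
      rw [h4]
      push_cast
      ring
    simp only [h3]
    rw [integral_const_mul, h2]
    push_cast
    ring
  · have hint : Integrable (fun z : ℝ × ℝ => (1 : ℝ) * (C * Real.exp (-ε * z.2)))
        ((volume.restrict (Ioc (-lam) lam)).prod (volume.restrict (Ioi (0 : ℝ)))) := by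
      refine Integrable.mul_prod (f := fun _ : ℝ => (1 : ℝ)) (g := fun u : ℝ => C * Real.exp (-ε * u)) ?_ ?_
      · exact integrableOn_const (by simp) (by simp)
      · exact (exp_neg_integrableOn_Ioi 0 hε).const_mul C
    refine Integrable.mono' hint ?_ ?_
    · refine Measurable.aestronglyMeasurable ?_
      have hfm : Measurable fun z : ℝ × ℝ => (f z.2 : ℂ) :=
        Complex.measurable_ofReal.comp (hf.comp measurable_snd)
      have hc1 : Measurable fun z : ℝ × ℝ => ((1 - |z.1| / lam : ℝ) : ℂ) *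
          Complex.exp (Complex.I * z.1 * v) :=
        Continuous.measurable (by fun_prop)
      have hc2 : Measurable fun z : ℝ × ℝ => Complex.exp (-(ε + Complex.I * z.1) * z.2) :=
        Continuous.measurable (by fun_prop)
      exact hc1.mul (hfm.mul hc2)
    · have hae : ∀ᵐ z ∂((volume.restrict (Ioc (-lam) lam)).prod (volume.restrict (Ioi (0 : ℝ)))),
          z ∈ Ioc (-lam) lam ×ˢ Ioi (0 : ℝ) := by
        rw [Measure.prod_restrict]
        exact ae_restrict_mem (measurableSet_Ioc.prod measurableSet_Ioi)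
      filter_upwards [hae] with z hz
      obtain ⟨hz1, hz2⟩ := hz
      simp only [Function.uncurry]
      rw [norm_mul, norm_mul, norm_mul, Complex.norm_exp, Complex.norm_exp, Complex.norm_real,
        Complex.norm_real]
      have e1 : (Complex.I * (z.1 : ℂ) * (v : ℂ)).re = 0 := by simp
      have e2 : (-((ε : ℂ) + Complex.I * z.1) * z.2).re = -ε * z.2 := by simp
      rw [e1, e2, Real.exp_zero, mul_one]
      have h5 : ‖(1 - |z.1| / lam : ℝ)‖ ≤ 1 := by
        rw [Real.norm_eq_abs, abs_le]
        have h6 : |z.1| / lam ≤ 1 := by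
          rw [div_le_one hlam, abs_le]
          exact ⟨hz1.1.le, hz1.2⟩
        have h7 : 0 ≤ |z.1| / lam := by positivity
        constructor <;> linarith
      have h8 : ‖f z.2‖ ≤ C := hC z.2
      have hC0 : 0 ≤ C := le_trans (abs_nonneg _) (hC 0)
      refine mul_le_mul h5 ?_ (by positivity) (by norm_num)
      exact mul_le_mul_of_nonneg_right h8 (Real.exp_pos _).le

end B3WI
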