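import Pool.Agent.H.MP_b3c6db_nt.WI2

/-!
Wiener-Ikehara: the limit on the boundary line, and Riemann-Lebesgue.
-/

open MeasureTheory Set Filter Topology

namespace B3WI

lemma integrable_fej_comp {lam : ℝ} (hlam : 0 < lam) (v : ℝ) :
    Integrable fun u : ℝ => lam * fej (lam * (v - u)) := by
  have h1 : Integrable fun u : ℝ => fej (lam * u) := integrable_fej.comp_mul_left' hlam.ne'
  have h2 : Integrable fun u : ℝ => fej (lam * (v - u)) := h1.comp_sub_left v
  exact h2.const_mul lam

lemma boundary_identity (f : ℝ → ℝ) (hf : Measurable f) (C : ℝ) (hC : ∀ u, |f u| ≤ C)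
    (G : ℂ → ℂ) (hG : ContinuousOn G {s | 0 ≤ s.re})
    (hL : ∀ s : ℂ, 0 < s.re → ∫ u in Ioi (0 : ℝ), (f u : ℂ) * Complex.exp (-s * u) = G s)
    {lam : ℝ} (hlam : 0 < lam) (v : ℝ) :
    ((∫ u in Ioi (0 : ℝ), f u * (lam * fej (lam * (v - u))) : ℝ) : ℂ)
      = ∫ ξ in (-lam)..lam, ((1 - |ξ| / lam : ℝ) : ℂ) * Complex.exp (Complex.I * ξ * v) *
          G (Complex.I * ξ) := by
  have hC0 : 0 ≤ C := le_trans (abs_nonneg _) (hC 0)
  set e : ℕ → ℝ := fun n => 1 / ((n : ℝ) + 1) with he
  have hepos : ∀ n, 0 < e n := fun n => Nat.one_div_pos_of_nat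
  have hele : ∀ n, e n ≤ 1 := by
    intro n
    rw [he]
    simp only
    rw [div_le_one (by positivity)]
    have : (0 : ℝ) ≤ n := Nat.cast_nonneg n
    linarith
  have hetend : Tendsto e atTop (𝓝 0) := tendsto_one_div_add_atTop_nhds_zero_nat
  have hL1 : Tendsto (fun n => ((∫ u in Ioi (0 : ℝ), f u * Real.exp (-e n * u) *
      (lam * fej (lam * (v - u))) : ℝ) : ℂ)) atTop
      (𝓝 ((∫ u in Ioi (0 : ℝ), f u * (lam * fej (lam * (v - u))) : ℝ) : ℂ)) := by
    refine (Complex.continuous_ofReal.tendsto _).comp ?_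
    refine tendsto_integral_of_dominated_convergence
      (fun u => C * (lam * fej (lam * (v - u)))) ?_ ?_ ?_ ?_
    · intro n
      have h1 : Measurable fun u : ℝ => Real.exp (-e n * u) := Continuous.measurable (by fun_prop)
      have h2 : Measurable fun u : ℝ => lam * fej (lam * (v - u)) :=
        (measurable_fej.comp (Continuous.measurable (by fun_prop))).const_mul lam
      exact ((hf.mul h1).mul h2).aestronglyMeasurable
    · exact ((integrable_fej_comp hlam v).const_mul C).integrableOn
    · intro n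
      filter_upwards [ae_restrict_mem measurableSet_Ioi] with u hu
      have hu' : 0 < u := hu
      have h3 : 0 ≤ lam * fej (lam * (v - u)) := mul_nonneg hlam.le (fej_nonneg _)
      rw [norm_mul, norm_mul, Real.norm_of_nonneg h3, Real.norm_of_nonneg (Real.exp_pos _).le]
      refine mul_le_mul_of_nonneg_right ?_ h3
      have h4 : Real.exp (-e n * u) ≤ 1 := by
        rw [Real.exp_le_one_iff]
        nlinarith [hepos n]
      calc ‖f u‖ * Real.exp (-e n * u) ≤ C * 1 :=
            mul_le_mul (hC u) h4 (Real.exp_pos _).le hC0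
        _ = C := mul_one C
    · refine Eventually.of_forall fun u => ?_
      have h5 : Tendsto (fun n => Real.exp (-e n * u)) atTop (𝓝 1) := by
        have : Tendsto (fun n => -e n * u) atTop (𝓝 (-0 * u)) := (hetend.neg).mul_const u
        rw [neg_zero, zero_mul] at this
        have h6 := (Real.continuous_exp.tendsto 0).comp this
        rwa [Real.exp_zero] at h6
      have h7 : Tendsto (fun n => f u * Real.exp (-e n * u) * (lam * fej (lam * (v - u)))) atTop
          (𝓝 (f u * 1 * (lam * fej (lam * (v - u))))) := (h5.const_mul _).mul_const _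
      rwa [mul_one] at h7
  have hcomp : IsCompact (Icc (0 : ℝ) 1 ×ℂ Icc (-lam) lam) := isCompact_Icc.reProdIm isCompact_Icc
  obtain ⟨M, hM⟩ := hcomp.exists_bound_of_continuousOn (f := G)
    (hG.mono fun s hs => by
      rw [Complex.mem_reProdIm] at hs
      exact hs.1.1)
  have hgc : ∀ n, Continuous fun ξ : ℝ => ((e n : ℝ) : ℂ) + Complex.I * ξ := fun n => by fun_prop
  have hR1 : Tendsto (fun n => ∫ ξ in (-lam)..lam, ((1 - |ξ| / lam : ℝ) : ℂ) *
      Complex.exp (Complex.I * ξ * v) * G (e n + Complex.I * ξ)) atTop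
      (𝓝 (∫ ξ in (-lam)..lam, ((1 - |ξ| / lam : ℝ) : ℂ) * Complex.exp (Complex.I * ξ * v) *
          G (Complex.I * ξ))) := by
    refine intervalIntegral.tendsto_integral_filter_of_dominated_convergence (fun _ => |M|) ?_ ?_ ?_ ?_
    · refine Eventually.of_forall fun n => ?_
      refine ContinuousOn.aestronglyMeasurable ?_ measurableSet_uIoc
      refine ContinuousOn.mul (Continuous.continuousOn (by fun_prop)) ?_
      refine hG.comp (hgc n).continuousOn fun ξ _ => ?_
      simp only [mem_setOf_eq]
      simp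
      exact (hepos n).le
    · refine Eventually.of_forall fun n => Eventually.of_forall fun ξ hξ => ?_
      rw [uIoc_of_le (by linarith)] at hξ
      have h1 : ‖G (e n + Complex.I * ξ)‖ ≤ M := by
        apply hM
        rw [Complex.mem_reProdIm]
        simp only [Complex.add_re, Complex.ofReal_re, Complex.mul_re, Complex.I_re, zero_mul,
          Complex.I_im, Complex.ofReal_im, mul_zero, sub_zero, add_zero, Complex.add_im,
          Complex.mul_im, one_mul, zero_add]
        exact ⟨⟨(hepos n).le, hele n⟩, ⟨hξ.1.le, hξ.2⟩⟩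
      rw [norm_mul, norm_mul, Complex.norm_exp, Complex.norm_real]
      have e1 : (Complex.I * (ξ : ℂ) * (v : ℂ)).re = 0 := by simp
      rw [e1, Real.exp_zero, mul_one]
      have h5 : ‖(1 - |ξ| / lam : ℝ)‖ ≤ 1 := by
        rw [Real.norm_eq_abs, abs_le]
        have h6 : |ξ| / lam ≤ 1 := by
          rw [div_le_one hlam, abs_le]
          exact ⟨hξ.1.le, hξ.2⟩
        have h7 : 0 ≤ |ξ| / lam := by positivity
        constructor <;> linarith
      calc ‖(1 - |ξ| / lam : ℝ)‖ * ‖G (e n + Complex.I * ξ)‖ ≤ 1 * |M| :=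
            mul_le_mul h5 (h1.trans (le_abs_self M)) (norm_nonneg _) (by norm_num)
        _ = |M| := one_mul _
    · exact intervalIntegrable_const
    · refine Eventually.of_forall fun ξ hξ => ?_
      refine Tendsto.const_mul _ ?_
      have h1 : ContinuousWithinAt G {s : ℂ | 0 ≤ s.re} (Complex.I * ξ) := hG _ (by simp)
      refine h1.tendsto.comp ?_
      refine tendsto_nhdsWithin_iff.2 ⟨?_, Eventually.of_forall fun n => ?_⟩
      · have : Tendsto (fun n => ((e n : ℝ) : ℂ) + Complex.I * ξ) atTop (𝓝 (((0 : ℝ) : ℂ) + Complex.I * ξ)) :=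
          ((Complex.continuous_ofReal.tendsto 0).comp hetend).add_const _
        simpa using this
      · simp only [mem_setOf_eq]
        simp
        exact (hepos n).le
  refine tendsto_nhds_unique hL1 (hR1.congr fun n => ?_)
  rw [fubini_tent f hf C hC (hepos n) hlam v]
  refine intervalIntegral.integral_congr fun ξ _ => ?_
  rw [hL]
  simp
  exact hepos n

lemma tendsto_boundary (G : ℂ → ℂ) {lam : ℝ} (hlam : 0 < lam) :
    Tendsto (fun v : ℝ => ∫ ξ in (-lam)..lam, ((1 - |ξ| / lam : ℝ) : ℂ) *
      Complex.exp (Complex.I * ξ * v) * G (Complex.I * ξ)) atTop (𝓝 0) := by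
  set g : ℝ → ℂ := (Ioc (-lam) lam).indicator fun ξ => ((1 - |ξ| / lam : ℝ) : ℂ) * G (Complex.I * ξ)
    with hg
  have h1 := Real.tendsto_integral_exp_smul_cocompact g
  have h2 : Tendsto (fun v : ℝ => -(v / (2 * Real.pi))) atTop (cocompact ℝ) := by
    rw [cocompact_eq_atBot_atTop]
    refine Tendsto.mono_right ?_ le_sup_left
    refine tendsto_neg_atTop_atBot.comp ?_
    exact tendsto_id.atTop_div_const (by positivity)
  have h3 := h1.comp h2
  refine h3.congr fun v => ?_
  simp only [Function.comp]
  rw [intervalIntegral.integral_of_le (by linarith), ← integral_indicator measurableSet_Ioc]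
  refine integral_congr_ae (Eventually.of_forall fun ξ => ?_)
  simp only [hg]
  by_cases h : ξ ∈ Ioc (-lam) lam
  · rw [indicator_of_mem h, indicator_of_mem h, Circle.smul_def, Real.fourierChar_apply, smul_eq_mul]
    have : (2 * Real.pi * -(ξ * -(v / (2 * Real.pi))) : ℝ) = ξ * v := by
      field_simp
    rw [this]
    push_cast
    rw [show (Complex.I * (ξ : ℂ) * v) = (ξ : ℂ) * v * Complex.I by ring]
    ring
  · rw [indicator_of_notMem h, indicator_of_notMem h, smul_zero]

end B3WI
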