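import Pool.Agent.H.MP_b3c6db_nt.WI3

/-!
Wiener-Ikehara: the Tauberian step.
-/

open MeasureTheory Set Filter Topology

namespace B3WI

/-- truncated mass of the kernel -/
noncomputable def cR (R : ℝ) : ℝ := ∫ w in (-R)..R, fej w

/-- the smoothed average -/
noncomputable def JJ (B : ℝ → ℝ) (lam v : ℝ) : ℝ := ∫ u in Ioi (0 : ℝ), B u * (lam * fej (lam * (v - u)))

lemma tendsto_cR : Tendsto cR atTop (𝓝 (∫ w, fej w)) :=
  intervalIntegral_tendsto_integral integrable_fej tendsto_neg_atTop_atBot tendsto_id

lemma cR_le (R : ℝ) (hR : 0 ≤ R) : cR R ≤ ∫ w, fej w := by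
  unfold cR
  rw [intervalIntegral.integral_of_le (by linarith)]
  exact setIntegral_le_integral integrable_fej (Eventually.of_forall fej_nonneg)

/-- substitution -/
lemma int_window {lam : ℝ} (hlam : 0 < lam) (v d : ℝ) :
    ∫ u in (v - d / 2)..(v + d / 2), lam * fej (lam * (v - u)) = cR (lam * d / 2) := by
  unfold cR
  have h := intervalIntegral.integral_comp_sub_mul (a := v - d / 2) (b := v + d / 2) fej hlam.ne' (lam * v)
  rw [intervalIntegral.integral_const_mul]
  have e : ∀ u : ℝ, fej (lam * (v - u)) = fej (lam * v - lam * u) := fun u => by rw [mul_sub]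
  simp_rw [e]
  rw [h, smul_eq_mul, ← mul_assoc, mul_inv_cancel₀ hlam.ne', one_mul]
  congr 1 <;> ring

lemma int_full {lam : ℝ} (hlam : 0 < lam) (v : ℝ) :
    ∫ u, lam * fej (lam * (v - u)) = ∫ w, fej w := by
  rw [integral_const_mul]
  have h1 : ∫ u, fej (lam * (v - u)) = ∫ u, fej (lam * u) :=
    integral_sub_left_eq_self (fun u => fej (lam * u)) volume v
  rw [h1, Measure.integral_comp_mul_left, smul_eq_mul, ← mul_assoc, abs_of_pos (inv_pos.2 hlam),
    mul_inv_cancel₀ hlam.ne', one_mul]

lemma tendsto_half {lam : ℝ} (hlam : 0 < lam) :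
    Tendsto (fun v : ℝ => ∫ u in Ioi (0 : ℝ), lam * fej (lam * (v - u))) atTop (𝓝 (∫ w, fej w)) := by
  have h1 : ∀ v : ℝ, ∫ u in Ioi (0 : ℝ), lam * fej (lam * (v - u)) = ∫ w in Iio (lam * v), fej w := by
    intro v
    rw [← integral_indicator measurableSet_Ioi, ← integral_indicator measurableSet_Iio]
    have e1 : ∀ u : ℝ, (Ioi (0 : ℝ)).indicator (fun u => lam * fej (lam * (v - u))) u
        = lam * (Iio (lam * v)).indicator fej (lam * (v - u)) := by
      intro u
      by_cases hu : 0 < u
      · rw [indicator_of_mem (by exact hu), indicator_of_mem]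
        have : lam * (v - u) < lam * v := by nlinarith
        exact this
      · rw [indicator_of_notMem (by exact hu), indicator_of_notMem, mul_zero]
        intro h
        have h' : lam * (v - u) < lam * v := h
        nlinarith [not_lt.1 hu]
    simp_rw [e1]
    rw [integral_const_mul]
    have h2 : ∫ u, (Iio (lam * v)).indicator fej (lam * (v - u))
        = ∫ u, (Iio (lam * v)).indicator fej (lam * u) :=
      integral_sub_left_eq_self (fun u => (Iio (lam * v)).indicator fej (lam * u)) volume v
    rw [h2, Measure.integral_comp_mul_left, smul_eq_mul, ← mul_assoc, abs_of_pos (inv_pos.2 hlam),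
      mul_inv_cancel₀ hlam.ne', one_mul]
  simp_rw [h1]
  have h3 : Tendsto (fun x : ℝ => ∫ w in Iio x, fej w) atTop (𝓝 (∫ w, fej w)) := by
    have h4 : Tendsto (fun x : ℝ => ∫ w, (Iio x).indicator fej w) atTop (𝓝 (∫ w, fej w)) := by
      refine tendsto_integral_filter_of_dominated_convergence fej ?_ ?_ integrable_fej ?_
      · exact Eventually.of_forall fun x =>
          (measurable_fej.indicator measurableSet_Iio).aestronglyMeasurable
      · refine Eventually.of_forall fun x => Eventually.of_forall fun w => ?_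
        rw [Real.norm_eq_abs]
        by_cases hw : w ∈ Iio x
        · rw [indicator_of_mem hw, abs_of_nonneg (fej_nonneg w)]
        · rw [indicator_of_notMem hw, abs_zero]; exact fej_nonneg w
      · refine Eventually.of_forall fun w => ?_
        refine tendsto_const_nhds.congr' ?_
        filter_upwards [eventually_gt_atTop w] with x hx
        rw [indicator_of_mem (by exact hx)]
    refine h4.congr fun x => ?_
    rw [integral_indicator measurableSet_Iio]
  exact h3.comp (tendsto_id.const_mul_atTop hlam)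

variable {B : ℝ → ℝ} {C : ℝ}

lemma integrable_BK (hB : Measurable B) (hB0 : ∀ u, 0 ≤ B u) (hBC : ∀ u, B u ≤ C)
    {lam : ℝ} (hlam : 0 < lam) (v : ℝ) :
    Integrable fun u : ℝ => B u * (lam * fej (lam * (v - u))) := by
  refine Integrable.mono' ((integrable_fej_comp hlam v).const_mul C) ?_ ?_
  · have h2 : Measurable fun u : ℝ => lam * fej (lam * (v - u)) :=
      (measurable_fej.comp (Continuous.measurable (by fun_prop))).const_mul lam
    exact (hB.mul h2).aestronglyMeasurable
  · refine Eventually.of_forall fun u => ?_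
    have h3 : 0 ≤ lam * fej (lam * (v - u)) := mul_nonneg hlam.le (fej_nonneg _)
    rw [Real.norm_of_nonneg (mul_nonneg (hB0 u) h3)]
    exact mul_le_mul_of_nonneg_right (hBC u) h3

lemma tauber_upper (hB : Measurable B) (hB0 : ∀ u, 0 ≤ B u) (hBC : ∀ u, B u ≤ C)
    (hs : ∀ u d, 0 ≤ d → B u * Real.exp (-d) ≤ B (u + d))
    {lam d v : ℝ} (hlam : 0 < lam) (hd : 0 < d) (hv : 0 ≤ v) :
    B v * Real.exp (-d) * cR (lam * d / 2) ≤ JJ B lam (v + d / 2) := by
  have hint := integrable_BK hB hB0 hBC hlam (v + d / 2)
  have h0 : ∀ u, 0 ≤ B u * (lam * fej (lam * (v + d / 2 - u))) := fun u =>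
    mul_nonneg (hB0 u) (mul_nonneg hlam.le (fej_nonneg _))
  have h1 : ∫ u in Ioc v (v + d), B u * (lam * fej (lam * (v + d / 2 - u))) ≤ JJ B lam (v + d / 2) := by
    unfold JJ
    refine setIntegral_mono_set hint.integrableOn (Eventually.of_forall h0) ?_
    refine HasSubset.Subset.eventuallyLE fun u hu => ?_
    exact lt_of_le_of_lt hv hu.1
  refine le_trans ?_ h1
  have h2 := int_window hlam (v + d / 2) d
  rw [show v + d / 2 - d / 2 = v by ring, show v + d / 2 + d / 2 = v + d by ring,
    intervalIntegral.integral_of_le (by linarith)] at h2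
  rw [← h2, ← integral_const_mul]
  refine setIntegral_mono_on ?_ hint.integrableOn measurableSet_Ioc ?_
  · exact ((integrable_fej_comp hlam (v + d / 2)).const_mul _).integrableOn
  · intro u hu
    refine mul_le_mul_of_nonneg_right ?_ (mul_nonneg hlam.le (fej_nonneg _))
    have h3 := hs v (u - v) (by linarith [hu.1])
    rw [show v + (u - v) = u by ring] at h3
    refine le_trans ?_ h3
    refine mul_le_mul_of_nonneg_left ?_ (hB0 v)
    rw [Real.exp_le_exp]
    linarith [hu.2]

lemma tauber_lower (hB : Measurable B) (hB0 : ∀ u, 0 ≤ B u) (hBC : ∀ u, B u ≤ C)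
    (hs : ∀ u d, 0 ≤ d → B u * Real.exp (-d) ≤ B (u + d))
    {lam d v : ℝ} (hlam : 0 < lam) (hd : 0 < d) :
    JJ B lam (v - d / 2) ≤ B v * Real.exp d * (∫ w, fej w) + C * ((∫ w, fej w) - cR (lam * d / 2)) := by
  have hC0 : 0 ≤ C := le_trans (hB0 0) (hBC 0)
  have hint := integrable_BK hB hB0 hBC hlam (v - d / 2)
  have hK := integrable_fej_comp hlam (v - d / 2)
  have hK0 : ∀ u, 0 ≤ lam * fej (lam * (v - d / 2 - u)) := fun u => mul_nonneg hlam.le (fej_nonneg _)
  have h0 : ∀ u, 0 ≤ B u * (lam * fej (lam * (v - d / 2 - u))) := fun u => mul_nonneg (hB0 u) (hK0 u)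
  have h1 : JJ B lam (v - d / 2) ≤ ∫ u, B u * (lam * fej (lam * (v - d / 2 - u))) := by
    unfold JJ
    exact setIntegral_le_integral hint (Eventually.of_forall h0)
  have h2 := int_window hlam (v - d / 2) d
  rw [show v - d / 2 - d / 2 = v - d by ring, show v - d / 2 + d / 2 = v by ring,
    intervalIntegral.integral_of_le (by linarith)] at h2
  have h3 := int_full hlam (v - d / 2)
  refine h1.trans ?_
  rw [← integral_add_compl (measurableSet_Ioc (a := v - d) (b := v)) hint]
  have h4 : ∫ u in Ioc (v - d) v, B u * (lam * fej (lam * (v - d / 2 - u)))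
      ≤ B v * Real.exp d * (∫ w, fej w) := by
    have h5 : ∫ u in Ioc (v - d) v, B u * (lam * fej (lam * (v - d / 2 - u)))
        ≤ ∫ u in Ioc (v - d) v, B v * Real.exp d * (lam * fej (lam * (v - d / 2 - u))) := by
      refine setIntegral_mono_on hint.integrableOn (hK.const_mul _).integrableOn measurableSet_Ioc ?_
      intro u hu
      refine mul_le_mul_of_nonneg_right ?_ (hK0 u)
      have h6 := hs u (v - u) (by linarith [hu.2])
      rw [show u + (v - u) = v by ring] at h6
      have h7 : B u ≤ B v * Real.exp (v - u) := by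
        have h8 := mul_le_mul_of_nonneg_right h6 (Real.exp_pos (v - u)).le
        rwa [mul_assoc, ← Real.exp_add, neg_add_cancel, Real.exp_zero, mul_one] at h8
      refine h7.trans (mul_le_mul_of_nonneg_left ?_ (hB0 v))
      rw [Real.exp_le_exp]
      linarith [hu.1]
    refine h5.trans ?_
    rw [integral_const_mul, ← h3]
    refine mul_le_mul_of_nonneg_left ?_ (mul_nonneg (hB0 v) (Real.exp_pos _).le)
    exact setIntegral_le_integral hK (Eventually.of_forall hK0)
  have h9 : ∫ u in (Ioc (v - d) v)ᶜ, B u * (lam * fej (lam * (v - d / 2 - u)))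
      ≤ C * ((∫ w, fej w) - cR (lam * d / 2)) := by
    have h10 : ∫ u in (Ioc (v - d) v)ᶜ, B u * (lam * fej (lam * (v - d / 2 - u)))
        ≤ ∫ u in (Ioc (v - d) v)ᶜ, C * (lam * fej (lam * (v - d / 2 - u))) := by
      refine setIntegral_mono_on hint.integrableOn (hK.const_mul _).integrableOn
        measurableSet_Ioc.compl ?_
      intro u _
      exact mul_le_mul_of_nonneg_right (hBC u) (hK0 u)
    refine h10.trans ?_
    rw [integral_const_mul]
    have h11 := integral_add_compl (measurableSet_Ioc (a := v - d) (b := v)) hK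
    rw [h3, h2] at h11
    rw [← h11]
    apply le_of_eq
    ring
  linarith

theorem tendsto_of_JJ {A : ℝ} (hB : Measurable B) (hB0 : ∀ u, 0 ≤ B u) (hBC : ∀ u, B u ≤ C)
    (hs : ∀ u d, 0 ≤ d → B u * Real.exp (-d) ≤ B (u + d))
    (hJ : ∀ lam : ℝ, 0 < lam → Tendsto (JJ B lam) atTop (𝓝 (A * ∫ w, fej w))) :
    Tendsto B atTop (𝓝 A) := by
  set c : ℝ := ∫ w, fej w with hc
  have hc0 : 0 < c := integral_fej_pos
  have hC0 : 0 ≤ C := le_trans (hB0 0) (hBC 0)
  refine tendsto_order.2 ⟨fun a ha => ?_, fun a ha => ?_⟩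
  · -- lower
    have hcont : ContinuousAt (fun d : ℝ => Real.exp (-d) * (A - d - C * (1 - 1 / (1 + d)))) 0 := by
      refine ContinuousAt.mul (by fun_prop) (ContinuousAt.sub (by fun_prop) (ContinuousAt.mul (by fun_prop) ?_))
      refine ContinuousAt.sub (by fun_prop) (ContinuousAt.div (by fun_prop) (by fun_prop) (by norm_num))
    have h0 : a < (fun d : ℝ => Real.exp (-d) * (A - d - C * (1 - 1 / (1 + d)))) 0 := by
      simp; exact ha
    have h1 := (hcont.eventually (lt_mem_nhds h0)).filter_mono (nhdsWithin_le_nhds (s := Ioi (0:ℝ)))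
    obtain ⟨d, hd, hd0⟩ := (h1.and self_mem_nhdsWithin).exists
    have hd0' : 0 < d := hd0
    have h2 : c / (1 + d) < c := by
      rw [div_lt_iff₀ (by linarith)]; nlinarith
    obtain ⟨R, hR, hR0⟩ := ((tendsto_cR.eventually (lt_mem_nhds h2)).and (eventually_gt_atTop 0)).exists
    set lam := 2 * R / d with hl
    have hlam : 0 < lam := by positivity
    have hlR : lam * d / 2 = R := by rw [hl]; field_simp
    have h3 : (A - d) * c < A * c := by nlinarith
    have h4 := (hJ lam hlam).eventually (lt_mem_nhds h3)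
    have h5 : Tendsto (fun v : ℝ => v - d / 2) atTop atTop := tendsto_atTop_add_const_right _ _ tendsto_id
    filter_upwards [h5.eventually h4] with v hv
    have h6 := tauber_lower hB hB0 hBC hs (v := v) hlam hd0'
    rw [hlR, ← hc] at h6
    have h7 : C * (c - cR R) ≤ C * (c * (1 - 1 / (1 + d))) := by
      refine mul_le_mul_of_nonneg_left ?_ hC0
      have : c / (1 + d) = c * (1 / (1 + d)) := by ring
      rw [mul_sub, mul_one, ← this]
      linarith
    have h8 : (A - d) * c < B v * Real.exp d * c + C * (c * (1 - 1 / (1 + d))) := by linarith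
    have h9 : A - d - C * (1 - 1 / (1 + d)) < B v * Real.exp d := by
      have : (A - d - C * (1 - 1 / (1 + d))) * c < B v * Real.exp d * c := by
        linarith only [h8, (by ring : (A - d - C * (1 - 1 / (1 + d))) * c = (A - d) * c - C * (c * (1 - 1 / (1 + d))))]
      exact lt_of_mul_lt_mul_right this hc0.le
    have h10 := mul_lt_mul_of_pos_left h9 (Real.exp_pos (-d))
    have h11 : Real.exp (-d) * (B v * Real.exp d) = B v := by
      rw [mul_comm (B v), ← mul_assoc, ← Real.exp_add, neg_add_cancel, Real.exp_zero, one_mul]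
    rw [h11] at h10
    exact hd.trans h10
  · -- upper
    have hcont : ContinuousAt (fun d : ℝ => Real.exp d * (1 + d) * (A + d)) 0 := by fun_prop
    have h0 : (fun d : ℝ => Real.exp d * (1 + d) * (A + d)) 0 < a := by
      simp; exact ha
    have h1 := (hcont.eventually (gt_mem_nhds h0)).filter_mono (nhdsWithin_le_nhds (s := Ioi (0:ℝ)))
    obtain ⟨d, hd, hd0⟩ := (h1.and self_mem_nhdsWithin).exists
    have hd0' : 0 < d := hd0
    have h2 : c / (1 + d) < c := by
      rw [div_lt_iff₀ (by linarith)]; nlinarith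
    obtain ⟨R, hR, hR0⟩ := ((tendsto_cR.eventually (lt_mem_nhds h2)).and (eventually_gt_atTop 0)).exists
    set lam := 2 * R / d with hl
    have hlam : 0 < lam := by positivity
    have hlR : lam * d / 2 = R := by rw [hl]; field_simp
    have h3 : A * c < (A + d) * c := by nlinarith
    have h4 := (hJ lam hlam).eventually (gt_mem_nhds h3)
    have h5 : Tendsto (fun v : ℝ => v + d / 2) atTop atTop := tendsto_atTop_add_const_right _ _ tendsto_id
    filter_upwards [h5.eventually h4, eventually_ge_atTop 0] with v hv hv0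
    have h6 := tauber_upper hB hB0 hBC hs (v := v) hlam hd0' hv0
    rw [hlR] at h6
    have h7 : B v * Real.exp (-d) * (c / (1 + d)) ≤ B v * Real.exp (-d) * cR R :=
      mul_le_mul_of_nonneg_left hR.le (mul_nonneg (hB0 v) (Real.exp_pos _).le)
    have h8 : B v * Real.exp (-d) * (c / (1 + d)) < (A + d) * c := by linarith
    have h9 : B v < Real.exp d * (1 + d) * (A + d) := by
      have h10 := mul_lt_mul_of_pos_left h8 (show 0 < Real.exp d * (1 + d) / c by positivity)
      have h11 : Real.exp d * (1 + d) / c * (B v * Real.exp (-d) * (c / (1 + d))) = B v := by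
        rw [Real.exp_neg]
        have := (Real.exp_pos d).ne'
        have hd1 : (1 + d) ≠ 0 := by positivity
        field_simp
      have h12 : Real.exp d * (1 + d) / c * ((A + d) * c) = Real.exp d * (1 + d) * (A + d) := by
        field_simp
      rwa [h11, h12] at h10
    exact h9.trans hd

end B3WI
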