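import Pool.Agent.H.MP_b3c6db_nt.WI4

/-!
Wiener-Ikehara theorem.
-/

open MeasureTheory Set Filter Topology

namespace B3WI

/-- Wiener-Ikehara, in the form used here. -/
theorem wiener_ikehara {B : ℝ → ℝ} {C A : ℝ} (hB : Measurable B) (hB0 : ∀ u, 0 ≤ B u)
    (hBC : ∀ u, B u ≤ C) (hs : ∀ u d, 0 ≤ d → B u * Real.exp (-d) ≤ B (u + d))
    (G : ℂ → ℂ) (hG : ContinuousOn G {s | 0 ≤ s.re})
    (hL : ∀ s : ℂ, 0 < s.re →
      ∫ u in Ioi (0 : ℝ), (B u : ℂ) * Complex.exp (-s * u) = A / s + G s) :
    Tendsto B atTop (𝓝 A) := by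
  have hC0 : 0 ≤ C := le_trans (hB0 0) (hBC 0)
  refine tendsto_of_JJ hB hB0 hBC hs fun lam hlam => ?_
  have hf : Measurable fun u => B u - A := hB.sub_const A
  have hfC : ∀ u, |B u - A| ≤ C + |A| := by
    intro u
    rw [abs_le]
    constructor
    · have := hB0 u; have := le_abs_self A; linarith
    · have := hBC u; have := neg_abs_le A; linarith
  have hL' : ∀ s : ℂ, 0 < s.re →
      ∫ u in Ioi (0 : ℝ), ((B u - A : ℝ) : ℂ) * Complex.exp (-s * u) = G s := by
    intro s hs0
    have hre : (-s).re < 0 := by rw [Complex.neg_re]; linarith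
    have h1 : IntegrableOn (fun u : ℝ => Complex.exp (-s * u)) (Ioi 0) :=
      integrableOn_exp_mul_complex_Ioi hre 0
    have h2 : ∫ u in Ioi (0 : ℝ), Complex.exp (-s * u) = 1 / s := by
      rw [integral_exp_mul_complex_Ioi hre 0]
      simp
    have hs1 : s ≠ 0 := by
      intro h; rw [h] at hs0; simp at hs0
    have h3 : IntegrableOn (fun u : ℝ => (B u : ℂ) * Complex.exp (-s * u)) (Ioi 0) := by
      refine Integrable.bdd_mul (c := C) h1 ?_ ?_
      · exact (Complex.measurable_ofReal.comp hB).aestronglyMeasurable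
      · refine Eventually.of_forall fun u => ?_
        rw [Complex.norm_real, Real.norm_of_nonneg (hB0 u)]
        exact hBC u
    have h4 : ∀ u : ℝ, ((B u - A : ℝ) : ℂ) * Complex.exp (-s * u)
        = (B u : ℂ) * Complex.exp (-s * u) - (A : ℂ) * Complex.exp (-s * u) := by
      intro u; push_cast; ring
    simp_rw [h4]
    rw [integral_sub h3 (h1.const_mul _), hL s hs0, integral_const_mul, h2]
    ring
  have h5 := tendsto_boundary G hlam
  have h6 : Tendsto (fun v : ℝ => ((∫ u in Ioi (0 : ℝ), (B u - A) * (lam * fej (lam * (v - u))) : ℝ) : ℂ))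
      atTop (𝓝 ((0 : ℝ) : ℂ)) := by
    rw [Complex.ofReal_zero]
    refine h5.congr fun v => ?_
    rw [boundary_identity _ hf _ hfC G hG hL' hlam v]
  have h7 : Tendsto (fun v : ℝ => ∫ u in Ioi (0 : ℝ), (B u - A) * (lam * fej (lam * (v - u)))) atTop (𝓝 0) := by
    have := (Complex.continuous_re.tendsto _).comp h6
    rw [Complex.ofReal_re] at this
    exact this.congr fun v => Complex.ofReal_re _
  have h8 := (tendsto_half hlam).const_mul A
  have h9 := h7.add h8
  rw [zero_add] at h9
  refine h9.congr fun v => ?_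
  unfold JJ
  rw [← integral_const_mul, ← integral_add]
  · refine integral_congr_ae (Eventually.of_forall fun u => ?_)
    simp only
    ring
  · have h10 := (integrable_BK hB hB0 hBC hlam v).sub ((integrable_fej_comp hlam v).const_mul A)
    refine (h10.congr (Eventually.of_forall fun u => ?_)).integrableOn
    simp only [Pi.sub_apply]
    ring
  · exact ((integrable_fej_comp hlam v).const_mul A).integrableOn

end B3WI
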