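import Pool.Agent.H.MP_b3c6db_nt.LocalOp

/-! The level values `exp (-τ / 2^j)` satisfy the positivity conditions in a thin wedge. -/

namespace Pool.Agent.H.MP_b3c6db_nt

open Complex Finset

/-- level values. -/
noncomputable def zlev (τ : ℂ) (j : ℕ) : ℂ := Complex.exp (-(τ / 2 ^ j))

lemma zlev_re (τ : ℂ) (j : ℕ) :
    (zlev τ j).re = Real.exp (-(τ.re / 2 ^ j)) * Real.cos (τ.im / 2 ^ j) := by
  unfold zlev
  have h : -(τ / 2 ^ j) = ((-(τ.re / 2 ^ j) : ℝ) : ℂ) + ((-(τ.im / 2 ^ j) : ℝ) : ℂ) * Complex.I := by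
    conv_lhs => rw [← Complex.re_add_im τ]
    push_cast
    ring
  rw [h, Complex.exp_add, ← Complex.ofReal_exp, Complex.re_ofReal_mul,
    Complex.exp_ofReal_mul_I_re, Real.cos_neg]

lemma zlev_im (τ : ℂ) (j : ℕ) :
    (zlev τ j).im = -(Real.exp (-(τ.re / 2 ^ j)) * Real.sin (τ.im / 2 ^ j)) := by
  unfold zlev
  have h : -(τ / 2 ^ j) = ((-(τ.re / 2 ^ j) : ℝ) : ℂ) + ((-(τ.im / 2 ^ j) : ℝ) : ℂ) * Complex.I := by
    conv_lhs => rw [← Complex.re_add_im τ]
    push_cast
    ring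
  rw [h, Complex.exp_add, ← Complex.ofReal_exp, Complex.im_ofReal_mul,
    Complex.exp_ofReal_mul_I_im, Real.sin_neg, mul_neg]

/-- downward recursion. -/
noncomputable def Maux (p : ℕ) (E : ℕ) (τ : ℂ) : ℕ → ℝ
  | 0 => 1
  | (i + 1) => (Maux p E τ i + (p - 1) * (zlev τ (E - 1 - i)).re) / p

lemma Maux_lower (p : ℕ) (hp : 2 ≤ p) (E : ℕ) (τ : ℂ) (h0 : 0 < τ.re)
    (hw : 4 * Real.sqrt p * |τ.im| ≤ τ.re) (i : ℕ) (hi : i ≤ E) :
    Real.exp (-(3 / 2 * (τ.re / 2 ^ (E - i)))) ≤ Maux p E τ i := by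
  have hp1 : (2 : ℝ) ≤ p := by exact_mod_cast hp
  have hpp : (0 : ℝ) < p := by linarith
  induction i with
  | zero =>
    simp only [Maux]
    apply Real.exp_le_one_iff.mpr
    have : 0 ≤ τ.re / 2 ^ (E - 0) := by positivity
    linarith
  | succ i ih =>
    have ih' := ih (by omega)
    simp only [Maux]
    set j := E - 1 - i with hj
    have hj1 : E - i = j + 1 := by omega
    have hj2 : E - (i + 1) = j := by omega
    rw [hj1] at ih'
    rw [hj2, zlev_re]
    set A := τ.re / 2 ^ j with hA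
    set t := τ.im / 2 ^ j with ht
    have hA1 : τ.re / 2 ^ (j + 1) = A / 2 := by rw [hA, pow_succ]; field_simp
    rw [hA1] at ih'
    have hA0 : 0 < A := by positivity
    have ht2 : t ^ 2 ≤ A ^ 2 / (16 * p) := by
      have h1 : 4 * Real.sqrt p * |t| ≤ A := by
        rw [ht, hA, abs_div, abs_of_pos (by positivity : (0 : ℝ) < 2 ^ j)]
        rw [← mul_div_assoc]
        gcongr
      have h2 : (4 * Real.sqrt p * |t|) ^ 2 ≤ A ^ 2 := by
        apply pow_le_pow_left₀ (by positivity) h1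
      rw [mul_pow, mul_pow, Real.sq_sqrt hpp.le, sq_abs] at h2
      rw [le_div_iff₀ (by positivity)]
      linarith
    have hcos : 1 - t ^ 2 / 2 ≤ Real.cos t := Real.one_sub_sq_div_two_le_cos
    have hexp : 1 + A / 4 + (A / 4) ^ 2 / 2 ≤ Real.exp (A / 4) :=
      Real.quadratic_le_exp_of_nonneg (by positivity)
    rw [le_div_iff₀ hpp]
    have e1 : Real.exp (-(3 / 2 * (A / 2))) = Real.exp (-A) * Real.exp (A / 4) := by
      rw [← Real.exp_add]; congr 1; ring
    have e2 : Real.exp (-(3 / 2 * A)) = Real.exp (-A) * Real.exp (-(A / 2)) := by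
      rw [← Real.exp_add]; congr 1; ring
    have e3 : Real.exp (-(A / 2)) ≤ 1 := by
      apply Real.exp_le_one_iff.mpr
      linarith
    have hmain : Real.exp (-(A / 2)) * p ≤ Real.exp (A / 4) + (p - 1) * Real.cos t := by
      have h1 : (p - 1 : ℝ) * (1 - t ^ 2 / 2) ≤ (p - 1) * Real.cos t :=
        mul_le_mul_of_nonneg_left hcos (by linarith)
      have h2 : (p - 1 : ℝ) * (t ^ 2 / 2) ≤ A ^ 2 / 32 := by
        have h3 : (p - 1 : ℝ) * (t ^ 2 / 2) ≤ (p : ℝ) * ((A ^ 2 / (16 * p)) / 2) := by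
          apply mul_le_mul (by linarith) (by linarith) (by positivity) hpp.le
        have h4 : (p : ℝ) * ((A ^ 2 / (16 * p)) / 2) = A ^ 2 / 32 := by
          field_simp
          norm_num
        linarith
      have h5 : Real.exp (-(A / 2)) * p ≤ 1 * p := mul_le_mul_of_nonneg_right e3 hpp.le
      nlinarith
    rw [e2]
    have hpos : 0 < Real.exp (-A) := Real.exp_pos _
    calc Real.exp (-A) * Real.exp (-(A / 2)) * p
        = Real.exp (-A) * (Real.exp (-(A / 2)) * p) := by ring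
      _ ≤ Real.exp (-A) * (Real.exp (A / 4) + (p - 1) * Real.cos t) :=
          mul_le_mul_of_nonneg_left hmain hpos.le
      _ = Real.exp (-(3 / 2 * (A / 2))) + (p - 1) * (Real.exp (-A) * Real.cos t) := by
          rw [e1]; ring
      _ ≤ _ := by linarith

theorem exists_M (p : ℕ) (hp : 2 ≤ p) (E : ℕ) (τ : ℂ) (h0 : 0 < τ.re)
    (hw : 4 * Real.sqrt p * |τ.im| ≤ τ.re) :
    ∃ M : ℕ → ℝ, M E = 1 ∧
      (∀ j < E, (p : ℝ) * M j = M (j + 1) + (p - 1) * (zlev τ j).re) ∧
      (∀ j < E, (zlev τ j).re + Real.sqrt p * |(zlev τ j).im| ≤ M (j + 1)) ∧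
      Real.exp (-(3 / 2 * τ.re)) ≤ M 0 := by
  have hp1 : (2 : ℝ) ≤ p := by exact_mod_cast hp
  have hpp : (0 : ℝ) < p := by linarith
  refine ⟨fun j => Maux p E τ (E - j), ?_, ?_, ?_, ?_⟩
  · simp [Maux]
  · intro j hj
    have h1 : E - j = (E - (j + 1)) + 1 := by omega
    have h2 : E - 1 - (E - (j + 1)) = j := by omega
    simp only
    rw [h1]
    simp only [Maux]
    rw [h2]
    field_simp
  · intro j hj
    simp only
    have h1 := Maux_lower p hp E τ h0 hw (E - (j + 1)) (by omega)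
    have h2 : E - (E - (j + 1)) = j + 1 := by omega
    rw [h2] at h1
    refine le_trans ?_ h1
    rw [zlev_re, zlev_im, abs_neg, abs_mul, abs_of_pos (Real.exp_pos _)]
    set A := τ.re / 2 ^ j with hA
    set t := τ.im / 2 ^ j with ht
    have hA1 : τ.re / 2 ^ (j + 1) = A / 2 := by rw [hA, pow_succ]; field_simp
    rw [hA1]
    have hA0 : 0 < A := by positivity
    have ht1 : 4 * Real.sqrt p * |t| ≤ A := by
      rw [ht, hA, abs_div, abs_of_pos (by positivity : (0 : ℝ) < 2 ^ j)]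
      rw [← mul_div_assoc]
      gcongr
    have e1 : Real.exp (-(3 / 2 * (A / 2))) = Real.exp (-A) * Real.exp (A / 4) := by
      rw [← Real.exp_add]; congr 1; ring
    rw [e1]
    have h3 : |Real.sin t| ≤ |t| := Real.abs_sin_le_abs
    have h4 : Real.sqrt p * |Real.sin t| ≤ A / 4 := by
      have := mul_le_mul_of_nonneg_left h3 (Real.sqrt_nonneg p)
      linarith
    have h5 : 1 + A / 4 ≤ Real.exp (A / 4) := by
      have := Real.add_one_le_exp (A / 4)
      linarith
    have h6 : Real.cos t ≤ 1 := Real.cos_le_one t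
    calc Real.exp (-A) * Real.cos t + Real.sqrt p * (Real.exp (-A) * |Real.sin t|)
        = Real.exp (-A) * (Real.cos t + Real.sqrt p * |Real.sin t|) := by ring
      _ ≤ Real.exp (-A) * Real.exp (A / 4) := by
          apply mul_le_mul_of_nonneg_left _ (Real.exp_pos _).le
          linarith
  · have h1 := Maux_lower p hp E τ h0 hw E le_rfl
    simpa using h1

end Pool.Agent.H.MP_b3c6db_nt
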